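import Mathlib

set_option autoImplicit false
set_option linter.unusedSectionVars false

open Polynomial

namespace Pool.Agent.Helper246.AS

noncomputable section

/-- degree estimate for `h^p f + c^p - c h^(p-1)` -/
theorem deg_lemma {k : Type*} [Field k] (p : ℕ) (hp : p.Prime) (f h c : k[X]) (h0 : h ≠ 0)
    (hm : ¬ p ∣ f.natDegree) :
    f.natDegree ≤ (h ^ p * f + (c ^ p - c * h ^ (p - 1))).natDegree := by
  have hp2 := hp.two_le
  set m := f.natDegree with hmdef
  have hf0 : f ≠ 0 := by
    rintro rfl
    simp at hmdef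
    exact hm (hmdef ▸ dvd_zero p)
  have hm0 : 0 < m := by
    rcases Nat.eq_zero_or_pos m with h | h
    · exact absurd (h ▸ dvd_zero p) hm
    · exact h
  set d := h.natDegree with hd
  set e := c.natDegree with he
  have h1 : (h ^ p * f).natDegree = p * d + m := by
    rw [natDegree_mul (pow_ne_zero _ h0) hf0, natDegree_pow]
  have h2 : (c ^ p).natDegree = p * e := by rw [natDegree_pow]
  have h3 : (c * h ^ (p - 1)).natDegree ≤ e + (p - 1) * d := by
    refine natDegree_mul_le.trans ?_
    rw [natDegree_pow]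
  have hps : p = (p - 1) + 1 := by omega
  rcases lt_trichotomy (p * e) (p * d + m) with hlt | heq | hgt
  · have hed : e < d + m := by
      by_contra hcon
      push Not at hcon
      have : p * (d + m) ≤ p * e := Nat.mul_le_mul_left _ hcon
      nlinarith
    have h4 : (c ^ p - c * h ^ (p - 1)).natDegree < (h ^ p * f).natDegree := by
      refine lt_of_le_of_lt (natDegree_sub_le _ _) ?_
      rw [h1, max_lt_iff]
      refine ⟨h2 ▸ hlt, lt_of_le_of_lt h3 ?_⟩
      have : p * d = (p - 1) * d + d := by
        conv_lhs => rw [hps]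
        ring
      omega
    rw [natDegree_add_eq_left_of_natDegree_lt h4, h1]
    omega
  · exfalso
    apply hm
    have : m = p * e - p * d := by omega
    rw [this]
    exact Nat.dvd_sub (dvd_mul_right _ _) (dvd_mul_right _ _)
  · have hde : d < e := by
      by_contra hcon
      push Not at hcon
      have : p * e ≤ p * d := Nat.mul_le_mul_left _ hcon
      omega
    have h5 : (c * h ^ (p - 1)).natDegree < (c ^ p).natDegree := by
      rw [h2]
      refine lt_of_le_of_lt h3 ?_
      have h6 : p * e = (p - 1) * e + e := by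
        conv_lhs => rw [hps]
        ring
      have h7 : (p - 1) * d < (p - 1) * e := Nat.mul_lt_mul_of_pos_left hde (by omega)
      omega
    have h8 : (c ^ p - c * h ^ (p - 1)).natDegree = p * e := by
      rw [natDegree_sub_eq_left_of_natDegree_lt h5, h2]
    have h9 : (h ^ p * f).natDegree < (c ^ p - c * h ^ (p - 1)).natDegree := by
      rw [h8, h1]; exact hgt
    rw [natDegree_add_eq_right_of_natDegree_lt h9, h8]
    omega

/-- the data of an Artin-Schreier extension of `k(X)` -/
structure ASD (p : ℕ) (k : Type*) [Field k] (f : k[X]) (K : Type*) [Field K]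
    [Algebra (RatFunc k) K] where
  W : K
  hW : W ^ p - W = algebraMap (RatFunc k) K (algebraMap k[X] (RatFunc k) f)
  τ : K →ₐ[RatFunc k] K
  hτ : τ W = W + 1
  hfix : ∀ y : K, τ y = y → ∃ a : RatFunc k, algebraMap (RatFunc k) K a = y
  hfin : FiniteDimensional (RatFunc k) K
  hrank : Module.finrank (RatFunc k) K = p
  hiter : ∀ y : K, (fun z => τ z - z)^[p] y = 0

variable {p : ℕ} [hp : Fact p.Prime] {k : Type*} [Field k] [CharP k p] {f : k[X]}
  {K : Type*} [Field K] [Algebra (RatFunc k) K] [Algebra k[X] K] [IsScalarTower k[X] (RatFunc k) K]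

open Classical in
/-- valuation ring at infinity -/
abbrev Oinf (k : Type*) [Field k] : Subring (RatFunc k) := (RatFunc.inftyValuation k).integer

variable (D : ASD p k f K)

theorem int_poly {h : RatFunc k} (hi : IsIntegral k[X] (algebraMap (RatFunc k) K h)) :
    ∃ q : k[X], algebraMap k[X] (RatFunc k) q = h := by
  have h1 : IsIntegral k[X] h :=
    (isIntegral_algebraMap_iff (algebraMap (RatFunc k) K).injective).mp hi
  exact IsIntegrallyClosed.isIntegral_iff.mp h1

open Classical in
theorem int_inf {h : RatFunc k} (hi : IsIntegral (Oinf k) (algebraMap (RatFunc k) K h)) :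
    RatFunc.inftyValuation k h ≤ 1 := by
  have h1 : IsIntegral (Oinf k) h :=
    (isIntegral_algebraMap_iff (algebraMap (RatFunc k) K).injective).mp hi
  exact (Valuation.integer.integers (RatFunc.inftyValuation k)).mem_of_integral h1

theorem map_int_poly {y : K} (hy : IsIntegral k[X] y) : IsIntegral k[X] (D.τ y) := by
  have := hy.map (D.τ.restrictScalars k[X])
  simpa using this

theorem map_int_inf {y : K} (hy : IsIntegral (Oinf k) y) : IsIntegral (Oinf k) (D.τ y) := by
  have := hy.map (D.τ.restrictScalars (Oinf k))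
  simpa using this


theorem alg_aux {R : Type*} [CommRing R] (p : ℕ) (hp : 0 < p) (T A W B : R) :
    (T * (A * W + B)) * (T * A) ^ (p - 1) = T ^ p * (A ^ p * W + B * A ^ (p - 1)) := by
  obtain ⟨n, rfl⟩ : ∃ n, p = n + 1 := ⟨p - 1, by omega⟩
  simp only [Nat.add_sub_cancel]
  ring

include hp in
theorem W_int : IsIntegral k[X] D.W := by
  refine ⟨X ^ p - X - C f, ?_, ?_⟩
  · have h2 := hp.out.two_le
    have : (X ^ p - X - C f : k[X][X]) = X ^ p - (X + C f) := by ring
    rw [this]
    apply monic_X_pow_sub
    refine (degree_X_add_C f).le.trans_lt ?_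
    exact_mod_cast h2
  · have := D.hW
    simp only [eval₂_sub, eval₂_pow, eval₂_X, eval₂_C]
    rw [this, IsScalarTower.algebraMap_apply k[X] (RatFunc k) K, sub_self]

theorem key (hm : ¬ p ∣ f.natDegree) (hm2 : p ^ 2 < f.natDegree)
    (z : K) (h : RatFunc k) (h0 : h ≠ 0) (hz : D.τ z = z + algebraMap _ K h)
    (i1 : IsIntegral k[X] z)
    (i2 : IsIntegral (Oinf k) (algebraMap (RatFunc k) K ((RatFunc.X : RatFunc k)⁻¹ ^ p) * z)) :
    False := by
  classical
  have hpp := hp.out
  have : CharP (RatFunc k) p := charP_of_injective_algebraMap (algebraMap k (RatFunc k)).injective p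
  have : CharP K p := charP_of_injective_algebraMap (algebraMap (RatFunc k) K).injective p
  -- h is a polynomial
  obtain ⟨hq, rfl⟩ : ∃ q : k[X], algebraMap k[X] (RatFunc k) q = h := by
    apply int_poly (K := K)
    have : algebraMap (RatFunc k) K h = D.τ z - z := by rw [hz]; ring
    rw [this]
    exact (map_int_poly D i1).sub i1
  obtain ⟨c0, hc0⟩ := D.hfix (z - algebraMap _ K (algebraMap k[X] (RatFunc k) hq) * D.W) (by
    rw [map_sub, map_mul, AlgHom.commutes, D.hτ, hz]; ring)
  obtain ⟨c, rfl⟩ : ∃ q : k[X], algebraMap k[X] (RatFunc k) q = c0 := by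
    apply int_poly (K := K)
    rw [hc0]
    refine i1.sub (IsIntegral.mul ?_ (W_int D))
    rw [← IsScalarTower.algebraMap_apply k[X] (RatFunc k) K]
    exact isIntegral_algebraMap
  have hz' : z = algebraMap _ K (algebraMap k[X] (RatFunc k) hq) * D.W +
      algebraMap _ K (algebraMap k[X] (RatFunc k) c) := by rw [hc0]; ring
  have hq0 : hq ≠ 0 := by
    rintro rfl
    simp at h0
  set t : RatFunc k := (RatFunc.X : RatFunc k)⁻¹ ^ p with ht
  have i3 : IsIntegral (Oinf k) (algebraMap (RatFunc k) K t *
      algebraMap _ K (algebraMap k[X] (RatFunc k) hq)) := by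
    have : algebraMap (RatFunc k) K t * algebraMap _ K (algebraMap k[X] (RatFunc k) hq)
        = D.τ (algebraMap (RatFunc k) K t * z) - algebraMap (RatFunc k) K t * z := by
      rw [map_mul, AlgHom.commutes, hz]; ring
    rw [this]
    exact (map_int_inf D i2).sub i2
  have i4 := (i2.pow p).sub (i2.mul (i3.pow (p - 1)))
  have hps : p = (p - 1) + 1 := by have := hpp.two_le; omega
  have e1 : (algebraMap (RatFunc k) K t * z) ^ p - (algebraMap (RatFunc k) K t * z) *
      (algebraMap (RatFunc k) K t * algebraMap _ K (algebraMap k[X] (RatFunc k) hq)) ^ (p - 1)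
      = algebraMap (RatFunc k) K (t ^ p * algebraMap k[X] (RatFunc k)
        (hq ^ p * f + (c ^ p - c * hq ^ (p - 1)))) := by
    have e2 : (algebraMap (RatFunc k) K t * z) ^ p = algebraMap (RatFunc k) K t ^ p *
        (algebraMap _ K (algebraMap k[X] (RatFunc k) hq) ^ p * D.W ^ p +
          algebraMap _ K (algebraMap k[X] (RatFunc k) c) ^ p) := by
      rw [hz', mul_pow, add_pow_char, mul_pow]
    have e3 : (algebraMap (RatFunc k) K t * z) *
      (algebraMap (RatFunc k) K t * algebraMap _ K (algebraMap k[X] (RatFunc k) hq)) ^ (p - 1)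
      = algebraMap (RatFunc k) K t ^ p *
        (algebraMap _ K (algebraMap k[X] (RatFunc k) hq) ^ p * D.W +
          algebraMap _ K (algebraMap k[X] (RatFunc k) c) *
          algebraMap _ K (algebraMap k[X] (RatFunc k) hq) ^ (p - 1)) := by
      rw [hz']
      exact alg_aux p hpp.pos _ _ _ _
    rw [e2, e3]
    have e4 : D.W ^ p = D.W + algebraMap (RatFunc k) K (algebraMap k[X] (RatFunc k) f) := by
      rw [← D.hW]; ring
    rw [e4]
    simp only [map_mul, map_add, map_sub, map_pow]
    ring
  rw [e1] at i4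
  have i5 := int_inf i4
  set g := hq ^ p * f + (c ^ p - c * hq ^ (p - 1)) with hg
  have hdeg := deg_lemma p hpp f hq c hq0 hm
  rw [← hg] at hdeg
  have hg0 : g ≠ 0 := by
    rintro h
    rw [h, natDegree_zero] at hdeg
    omega
  rw [map_mul, RatFunc.inftyValuation_apply, RatFunc.inftyValuation_apply,
    RatFunc.inftyValuation.polynomial k hg0, ht] at i5
  rw [← RatFunc.inftyValuation_apply, ← pow_mul, map_pow, map_inv₀, RatFunc.inftyValuation.X] at i5
  rw [← WithZero.exp_neg, ← WithZero.exp_nsmul, ← WithZero.exp_add, ← WithZero.exp_zero,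
    WithZero.exp_le_exp] at i5
  simp at i5
  have : (g.natDegree : ℤ) ≤ (p * p : ℕ) := by push_cast; linarith
  have h3 : g.natDegree ≤ p * p := by exact_mod_cast this
  nlinarith

theorem iter_int_poly {y : K} (hy : IsIntegral k[X] y) (n : ℕ) :
    IsIntegral k[X] ((fun z => D.τ z - z)^[n] y) := by
  induction n with
  | zero => simpa
  | succ n ih =>
    rw [Function.iterate_succ_apply']
    exact (map_int_poly D ih).sub ih

theorem iter_int_inf (t : RatFunc k) {y : K}
    (hy : IsIntegral (Oinf k) (algebraMap (RatFunc k) K t * y)) (n : ℕ) :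
    IsIntegral (Oinf k) (algebraMap (RatFunc k) K t * ((fun z => D.τ z - z)^[n] y)) := by
  induction n with
  | zero => simpa
  | succ n ih =>
    rw [Function.iterate_succ_apply', mul_sub]
    refine IsIntegral.sub ?_ ih
    have := map_int_inf D ih
    rwa [map_mul, AlgHom.commutes] at this

include D in
theorem mem_base (hm : ¬ p ∣ f.natDegree) (hm2 : p ^ 2 < f.natDegree)
    (z : K) (i1 : IsIntegral k[X] z)
    (i2 : IsIntegral (Oinf k) (algebraMap (RatFunc k) K ((RatFunc.X : RatFunc k)⁻¹ ^ p) * z)) :
    ∃ a : RatFunc k, algebraMap (RatFunc k) K a = z := by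
  classical
  by_cases hz : D.τ z = z
  · exact D.hfix z hz
  exfalso
  have hex : ∃ j, (fun y => D.τ y - y)^[j] z = 0 := ⟨p, D.hiter z⟩
  set j := Nat.find hex with hj
  have hj0 : (fun y => D.τ y - y)^[j] z = 0 := Nat.find_spec hex
  have hj1 : j ≠ 0 := by
    intro h
    rw [h] at hj0
    simp only [Function.iterate_zero, id_eq] at hj0
    apply hz
    rw [hj0, map_zero]
  have hj2 : j ≠ 1 := by
    intro h
    rw [h] at hj0
    simp only [Function.iterate_one] at hj0
    exact hz (sub_eq_zero.mp hj0)
  obtain ⟨n, hn⟩ : ∃ n, j = n + 2 := ⟨j - 2, by omega⟩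
  set z0 := (fun y => D.τ y - y)^[n] z with hz0
  have h1 : D.τ z0 - z0 ≠ 0 := by
    have := Nat.find_min hex (m := n + 1) (by omega)
    rwa [Function.iterate_succ_apply'] at this
  have h2 : D.τ (D.τ z0 - z0) = D.τ z0 - z0 := by
    rw [hn, Function.iterate_succ_apply', Function.iterate_succ_apply'] at hj0
    exact sub_eq_zero.mp hj0
  obtain ⟨h, hh⟩ := D.hfix _ h2
  refine key D hm hm2 z0 h ?_ ?_ (iter_int_poly D i1 n) (iter_int_inf D _ i2 n)
  · rintro rfl
    rw [map_zero] at hh
    exact h1 hh.symm
  · rw [hh]; ring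

theorem swap_coeff_natDegree_le (R : k[X][X]) (N : ℕ) (hR : R.natDegree ≤ N) (j : ℕ) :
    ((Bivariate.swap R).coeff j).natDegree ≤ N := by
  rw [R.as_sum_range' (N + 1) (by omega), map_sum, finsetSum_coeff]
  refine natDegree_sum_le_of_forall_le _ _ ?_
  intro i hi
  rw [Bivariate.swap_monomial, coeff_mul_C, coeff_map]
  refine natDegree_mul_le.trans ?_
  rw [natDegree_C, natDegree_X_pow]
  have := Finset.mem_range.mp hi
  omega

theorem aevalAeval_eq [Algebra k K] (x y : K) (P : k[X][X]) :
    P.aevalAeval x y = eval₂ ((aeval x : k[X] →ₐ[k] K) : k[X] →+* K) y P := by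
  induction P using Polynomial.induction_on' with
  | add a b ha hb => rw [map_add, eval₂_add, ha, hb]
  | monomial n a =>
    rw [eval₂_monomial, ← C_mul_X_pow_eq_monomial, map_mul, map_pow]
    simp

include D in
theorem X_rel [Algebra k K] [IsScalarTower k k[X] K] (σ : K ≃ₐ[k] K) :
    ∃ Q : k[X][X], Q ≠ 0 ∧ (∀ j, (Q.coeff j).natDegree ≤ p) ∧
      aeval (σ (algebraMap (RatFunc k) K RatFunc.X)) Q = 0 := by
  classical
  have := D.hfin
  set x : K := algebraMap (RatFunc k) K RatFunc.X with hx
  set y' := σ.symm x with hy'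
  set M := minpoly (RatFunc k) y' with hM
  have hM0 : M ≠ 0 := minpoly.ne_zero (Algebra.IsIntegral.isIntegral y')
  have hMd : M.natDegree ≤ p := by
    rw [← D.hrank]
    exact minpoly.natDegree_le y'
  set R := IsLocalization.integerNormalization (nonZeroDivisors k[X]) M with hR
  obtain ⟨b, hb, hRb⟩ := IsLocalization.integerNormalization_spec (nonZeroDivisors k[X]) M
  have hR0 : R ≠ 0 := by
    rw [hR, Ne, IsFractionRing.integerNormalization_eq_zero_iff]
    exact hM0
  have hRd : R.natDegree ≤ p := by
    refine le_trans ?_ hMd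
    exact natDegree_le_natDegree (degree_mono (IsLocalization.integerNormalization_support _ _))
  have hRe : eval₂ (algebraMap k[X] K) y' R = 0 := by
    have h1 : algebraMap k[X] K = (algebraMap (RatFunc k) K).comp (algebraMap k[X] (RatFunc k)) :=
      IsScalarTower.algebraMap_eq _ _ _
    rw [h1, ← eval₂_map, hRb]
    have h2 : eval₂ (algebraMap (RatFunc k) K) y' M = 0 := minpoly.aeval (RatFunc k) y'
    rw [Algebra.smul_def, eval₂_mul, h2, mul_zero]
  refine ⟨Bivariate.swap R, ?_, swap_coeff_natDegree_le R p hRd, ?_⟩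
  · exact (map_ne_zero_iff _ Bivariate.swap.injective).mpr hR0
  · have hXx : algebraMap k[X] K X = x := by
      rw [IsScalarTower.algebraMap_apply k[X] (RatFunc k) K, RatFunc.algebraMap_X]
    have h3 : (algebraMap k[X] K) = ((aeval x : k[X] →ₐ[k] K) : k[X] →+* K) := by
      apply Polynomial.ringHom_ext
      · intro a
        rw [← Polynomial.algebraMap_eq, ← IsScalarTower.algebraMap_apply k k[X] K]
        simp
      · rw [hXx]; simp
    have h4 := congrArg σ hRe
    rw [map_zero] at h4
    have h5 : σ (eval₂ (algebraMap k[X] K) y' R) =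
        eval₂ ((σ : K →+* K).comp (algebraMap k[X] K)) (σ y') R :=
      hom_eval₂ R (algebraMap k[X] K) (σ : K →+* K) y'
    rw [h5, hy', AlgEquiv.apply_symm_apply] at h4
    have h6 : (σ : K →+* K).comp (algebraMap k[X] K) =
        ((aeval (σ x) : k[X] →ₐ[k] K) : k[X] →+* K) := by
      apply Polynomial.ringHom_ext
      · intro a
        rw [RingHom.comp_apply, ← Polynomial.algebraMap_eq, ← IsScalarTower.algebraMap_apply k k[X] K]
        simp
      · rw [RingHom.comp_apply, hXx]; simp
    rw [h6, ← aevalAeval_eq, ← Bivariate.aevalAeval_swap, aevalAeval_eq, ← h3] at h4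
    exact h4

include D in
theorem sigmaX_mem [Algebra k K] [IsScalarTower k k[X] K]
    (hm : ¬ p ∣ f.natDegree) (hm2 : p ^ 2 < f.natDegree) (σ : K ≃ₐ[k] K) :
    ∃ h : RatFunc k, algebraMap (RatFunc k) K h = σ (algebraMap (RatFunc k) K RatFunc.X) := by
  classical
  obtain ⟨Q, hQ0, hQd, hQ⟩ := X_rel D σ
  set y := σ (algebraMap (RatFunc k) K RatFunc.X) with hy
  have ha0 : Q.leadingCoeff ≠ 0 := leadingCoeff_ne_zero.mpr hQ0
  have had : Q.leadingCoeff.natDegree ≤ p := hQd _
  have i1 : IsIntegral k[X] (Q.leadingCoeff • y) := isIntegral_leadingCoeff_smul Q y hQ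
  set t : RatFunc k := (RatFunc.X : RatFunc k)⁻¹ ^ p with ht
  have ht0 : t ≠ 0 := pow_ne_zero _ (inv_ne_zero RatFunc.X_ne_zero)
  have i2 : IsIntegral (Oinf k) (algebraMap (RatFunc k) K t * (Q.leadingCoeff • y)) := by
    set q : (RatFunc k)[X] := C t * Q.map (algebraMap k[X] (RatFunc k)) with hq
    have hcoef : ∀ j, q.coeff j = t * algebraMap k[X] (RatFunc k) (Q.coeff j) := by
      intro j
      rw [hq, coeff_C_mul, coeff_map]
    have hmem : ∀ j, q.coeff j ∈ (Oinf k) := by
      intro j
      rw [hcoef]
      change RatFunc.inftyValuation k _ ≤ 1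
      by_cases h0 : Q.coeff j = 0
      · rw [h0, map_zero, mul_zero, map_zero]; exact zero_le_one
      rw [map_mul, RatFunc.inftyValuation_apply, RatFunc.inftyValuation_apply,
        RatFunc.inftyValuation.polynomial k h0, ht]
      rw [← RatFunc.inftyValuation_apply, map_pow, map_inv₀, RatFunc.inftyValuation.X]
      rw [← WithZero.exp_neg, ← WithZero.exp_nsmul, ← WithZero.exp_add, ← WithZero.exp_zero,
        WithZero.exp_le_exp]
      have := hQd j
      simp
      omega
    have hsub : (↑q.coeffs : Set (RatFunc k)) ⊆ (Oinf k) := by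
      intro c hc
      obtain ⟨n, hn, rfl⟩ := Polynomial.mem_coeffs_iff.mp hc
      exact hmem n
    set q' := q.toSubring (Oinf k) hsub with hq'
    have hqmap : q'.map (Oinf k).subtype = q := by
      ext n
      simp [hq']
    have hlead : algebraMap (Oinf k) K q'.leadingCoeff =
        algebraMap (RatFunc k) K (t * algebraMap k[X] (RatFunc k) Q.leadingCoeff) := by
      have h1 : ((q'.leadingCoeff : Oinf k) : RatFunc k) = q.leadingCoeff := by
        rw [hq', leadingCoeff, leadingCoeff, coeff_toSubring, natDegree_toSubring]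
      have h2 : q.leadingCoeff = t * algebraMap k[X] (RatFunc k) Q.leadingCoeff := by
        rw [hq, leadingCoeff_mul, leadingCoeff_C,
          leadingCoeff_map_of_injective (IsFractionRing.injective k[X] (RatFunc k))]
      rw [← h2, ← h1]
      rfl
    have heval : aeval y q' = 0 := by
      have h1 : aeval y q' = aeval y (q'.map (Oinf k).subtype) := by
        rw [aeval_def, aeval_def, eval₂_map]
        rfl
      rw [h1, hqmap, hq, map_mul]
      have h2 : aeval y (Q.map (algebraMap k[X] (RatFunc k))) = aeval y Q := by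
        rw [aeval_map_algebraMap]
      rw [h2, hQ, mul_zero]
    have h3 := isIntegral_leadingCoeff_smul q' y heval
    rw [Algebra.smul_def, hlead] at h3
    rw [Algebra.smul_def, IsScalarTower.algebraMap_apply k[X] (RatFunc k) K]
    rwa [map_mul, mul_assoc] at h3
  obtain ⟨b, hb⟩ := mem_base D hm hm2 _ i1 i2
  refine ⟨b / algebraMap k[X] (RatFunc k) Q.leadingCoeff, ?_⟩
  rw [map_div₀, hb, Algebra.smul_def, IsScalarTower.algebraMap_apply k[X] (RatFunc k) K]
  rw [mul_div_cancel_left₀]
  rw [Ne, map_eq_zero_iff _ (algebraMap (RatFunc k) K).injective]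
  exact RatFunc.algebraMap_ne_zero ha0

end

end Pool.Agent.Helper246.AS
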