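import Pool.Agent.Helper246.ASAut1

set_option autoImplicit false
set_option linter.unusedSectionVars false

open Polynomial

namespace Pool.Agent.Helper246.AS

noncomputable section

variable {p : ℕ} [hp : Fact p.Prime] {k : Type*} [Field k] [CharP k p] {f : k[X]}
  {K : Type*} [Field K] [Algebra (RatFunc k) K] [Algebra k[X] K] [IsScalarTower k[X] (RatFunc k) K]
  [Algebra k K] [IsScalarTower k k[X] K]

variable (D : ASD p k f K)

theorem algMap_C (a : k) : algebraMap (RatFunc k) K (RatFunc.C a) = algebraMap k K a := by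
  rw [← RatFunc.algebraMap_eq_C]
  rw [IsScalarTower.algebraMap_apply k k[X] K, IsScalarTower.algebraMap_apply k[X] (RatFunc k) K,
    IsScalarTower.algebraMap_apply k k[X] (RatFunc k)]

theorem sigma_poly (σ : K ≃ₐ[k] K) {h : RatFunc k}
    (hh : algebraMap (RatFunc k) K h = σ (algebraMap (RatFunc k) K RatFunc.X)) (P : k[X]) :
    σ (algebraMap (RatFunc k) K (algebraMap k[X] (RatFunc k) P)) =
      algebraMap (RatFunc k) K (aeval h P) := by
  induction P using Polynomial.induction_on' with
  | add a b ha hb => simp only [map_add, ha, hb]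
  | monomial n a =>
    rw [← C_mul_X_pow_eq_monomial]
    simp only [map_mul, map_pow, aeval_C, aeval_X, RatFunc.algebraMap_X, hh]
    congr 1
    rw [RatFunc.algebraMap_C, RatFunc.algebraMap_eq_C, algMap_C]
    simp

theorem sigma_base (σ : K ≃ₐ[k] K) {h : RatFunc k}
    (hh : algebraMap (RatFunc k) K h = σ (algebraMap (RatFunc k) K RatFunc.X)) (g : RatFunc k) :
    ∃ g' : RatFunc k, algebraMap (RatFunc k) K g' = σ (algebraMap (RatFunc k) K g) := by
  refine ⟨aeval h g.num / aeval h g.denom, ?_⟩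
  rw [map_div₀, ← sigma_poly σ hh, ← sigma_poly σ hh, ← map_div₀, ← map_div₀,
    RatFunc.num_div_denom]

include D in
theorem W_notin (a : RatFunc k) : algebraMap (RatFunc k) K a ≠ D.W := by
  intro h
  have h1 := D.hτ
  rw [← h, AlgHom.commutes] at h1
  have : (1 : K) = 0 := by
    have h2 : algebraMap (RatFunc k) K a + 0 = algebraMap (RatFunc k) K a + 1 := by
      rw [add_zero]; exact h1
    exact (add_left_cancel h2).symm
  exact one_ne_zero this

include D in
theorem sigmaW (σ : K ≃ₐ[k] K) {h : RatFunc k}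
    (hh : algebraMap (RatFunc k) K h = σ (algebraMap (RatFunc k) K RatFunc.X)) :
    ∃ (n : ℤ) (r : RatFunc k), σ D.W = n * D.W + algebraMap (RatFunc k) K r ∧
      aeval h f = n * algebraMap k[X] (RatFunc k) f + (r ^ p - r) := by
  have : CharP (RatFunc k) p := charP_of_injective_algebraMap (algebraMap k (RatFunc k)).injective p
  have hKp : CharP K p := charP_of_injective_algebraMap (algebraMap (RatFunc k) K).injective p
  have h1 : (σ D.W) ^ p - σ D.W = algebraMap (RatFunc k) K (aeval h f) := by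
    rw [← sigma_poly σ hh, ← D.hW, map_sub, map_pow]
  set w := σ D.W with hw
  have h2 : (D.τ w) ^ p - D.τ w = algebraMap (RatFunc k) K (aeval h f) := by
    rw [← map_pow, ← map_sub, h1, AlgHom.commutes]
  have h3 : (D.τ w - w) ^ p = D.τ w - w := by
    rw [sub_pow_char]
    have : D.τ w ^ p - w ^ p - (D.τ w - w) = (D.τ w ^ p - D.τ w) - (w ^ p - w) := by ring
    rw [← sub_eq_zero, this, h1, h2, sub_self]
  obtain ⟨n, hn⟩ := (mem_bot_iff_intCast p K).mp ((Subfield.mem_bot_iff_pow_eq_self K p).mpr h3)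
  obtain ⟨r, hr⟩ := D.hfix (w - n * D.W) (by
    rw [map_sub, map_mul, map_intCast, D.hτ]
    have : D.τ w = w + n := by rw [hn]; ring
    rw [this]; ring)
  refine ⟨n, r, by rw [hr]; ring, ?_⟩
  apply (algebraMap (RatFunc k) K).injective
  rw [← h1]
  have hw2 : w = n * D.W + algebraMap (RatFunc k) K r := by rw [hr]; ring
  have hnp : ((n : K)) ^ p = n := by rw [hn]; exact h3
  rw [hw2, add_pow_char, mul_pow, hnp]
  simp only [map_add, map_mul, map_sub, map_pow, map_intCast, ← D.hW]
  ring

include D in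
theorem n_ne_zero (hm : ¬ p ∣ f.natDegree) (hm2 : p ^ 2 < f.natDegree) (σ : K ≃ₐ[k] K)
    {n : ℤ} {r : RatFunc k} (h1 : σ D.W = n * D.W + algebraMap (RatFunc k) K r) :
    (n : k) ≠ 0 := by
  intro h0
  obtain ⟨h', hh'⟩ := sigmaX_mem D hm hm2 σ.symm
  have h2 : (n : K) = 0 := by
    have : (n : K) = algebraMap k K (n : k) := by simp
    rw [this, h0, map_zero]
  rw [h2, zero_mul, zero_add] at h1
  obtain ⟨g, hg⟩ := sigma_base σ.symm hh' r
  rw [← h1, AlgEquiv.symm_apply_apply] at hg
  exact W_notin D g hg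

open Classical in
theorem v_aeval_le (h : RatFunc k) (hv : RatFunc.inftyValuation k h ≤ 1) (P : k[X]) :
    RatFunc.inftyValuation k (aeval h P) ≤ 1 := by
  have h1 : ∀ P : k[X], aeval h P ∈ (RatFunc.inftyValuation k).integer := by
    intro P
    induction P using Polynomial.induction_on' with
    | add a b ha hb => rw [map_add]; exact Subring.add_mem _ ha hb
    | monomial n a =>
      rw [aeval_monomial]
      refine Subring.mul_mem _ ?_ (Subring.pow_mem _ hv n)
      change RatFunc.inftyValuation k (algebraMap k (RatFunc k) a) ≤ 1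
      by_cases ha : a = 0
      · rw [ha, map_zero, map_zero]; exact zero_le_one
      · rw [RatFunc.algebraMap_eq_C, RatFunc.inftyValuation.C k ha]
  exact h1 P

open Classical in
include D in
theorem v_gt_one (hm : ¬ p ∣ f.natDegree) (hm2 : p ^ 2 < f.natDegree) (σ : K ≃ₐ[k] K)
    {h : RatFunc k}
    (hh : algebraMap (RatFunc k) K h = σ (algebraMap (RatFunc k) K RatFunc.X)) :
    1 < RatFunc.inftyValuation k h := by
  by_contra hcon
  push Not at hcon
  obtain ⟨n, r, hW, hf⟩ := sigmaW D σ hh
  have hn := n_ne_zero D hm hm2 σ hW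
  have hf0 : f ≠ 0 := by
    rintro rfl
    simp at hm
  have h1 := v_aeval_le h hcon f
  have h2 : RatFunc.inftyValuation k (n * algebraMap k[X] (RatFunc k) f) =
      WithZero.exp (f.natDegree : ℤ) := by
    rw [map_mul]
    have : (n : RatFunc k) = RatFunc.C (n : k) := by simp
    rw [this, RatFunc.inftyValuation.C k hn, one_mul, RatFunc.inftyValuation_apply,
      RatFunc.inftyValuation.polynomial k hf0]
  have h3 : n * algebraMap k[X] (RatFunc k) f = aeval h f - (r ^ p - r) := by rw [hf]; ring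
  have hm0 : 0 < f.natDegree := by omega
  have h4 : 1 < RatFunc.inftyValuation k (n * algebraMap k[X] (RatFunc k) f) := by
    rw [h2, ← WithZero.exp_zero, WithZero.exp_lt_exp]
    exact_mod_cast hm0
  rcases le_or_gt (RatFunc.inftyValuation k r) 1 with hr | hr
  · have h5 : aeval h f - (r ^ p - r) ∈ (RatFunc.inftyValuation k).integer :=
      Subring.sub_mem _ h1 (Subring.sub_mem _ (Subring.pow_mem _ hr p) hr)
    rw [h3] at h4
    exact absurd h5 (not_le.mpr h4)
  · have hr0 : r ≠ 0 := by
      rintro rfl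
      rw [map_zero] at hr
      exact absurd hr (not_lt.mpr zero_le_one)
    have h6 : RatFunc.inftyValuation k r < RatFunc.inftyValuation k (r ^ p) := by
      rw [map_pow]
      exact lt_self_pow₀ hr hp.out.one_lt
    have h7 : RatFunc.inftyValuation k (r ^ p - r) = RatFunc.inftyValuation k (r ^ p) :=
      Valuation.map_sub_eq_of_lt_left _ h6
    have h8 : RatFunc.inftyValuation k (aeval h f) < RatFunc.inftyValuation k (r ^ p - r) := by
      rw [h7]
      exact lt_of_le_of_lt h1 (hr.trans h6)
    have h9 := Valuation.map_sub_eq_of_lt_right _ h8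
    rw [← h3, h2, h7, map_pow, RatFunc.inftyValuation_apply,
      RatFunc.inftyValuation_of_nonzero k hr0, ← WithZero.exp_nsmul, WithZero.exp_inj] at h9
    apply hm
    have : (p : ℤ) ∣ (f.natDegree : ℤ) := by
      rw [h9]
      simp
    exact_mod_cast this

include D in
theorem h_poly (hm : ¬ p ∣ f.natDegree) (hm2 : p ^ 2 < f.natDegree) (σ : K ≃ₐ[k] K)
    {h : RatFunc k}
    (hh : algebraMap (RatFunc k) K h = σ (algebraMap (RatFunc k) K RatFunc.X)) :
    ∃ q : k[X], algebraMap k[X] (RatFunc k) q = h := by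
  classical
  obtain ⟨g, hg⟩ := sigmaX_mem D hm hm2 σ.symm
  have hvg := v_gt_one D hm hm2 σ.symm hg
  have hg0 : g ≠ 0 := by
    rintro rfl
    rw [map_zero] at hvg
    exact absurd hvg (not_lt.mpr zero_le_one)
  have hnum0 : g.num ≠ 0 := RatFunc.num_ne_zero hg0
  have hdeg : g.denom.natDegree < g.num.natDegree := by
    rw [RatFunc.inftyValuation_apply, RatFunc.inftyValuation_of_nonzero k hg0,
      ← WithZero.exp_zero, WithZero.exp_lt_exp, RatFunc.intDegree] at hvg
    omega
  have hrel : aeval h g.num = RatFunc.X * aeval h g.denom := by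
    apply (algebraMap (RatFunc k) K).injective
    rw [map_mul, ← sigma_poly σ hh, ← sigma_poly σ hh]
    have h1 : algebraMap (RatFunc k) K RatFunc.X = σ (algebraMap (RatFunc k) K g) := by
      rw [hg, AlgEquiv.apply_symm_apply]
    rw [h1, ← map_mul, ← map_mul]
    congr 2
    have h2 := RatFunc.num_div_denom g
    have h3 : algebraMap k[X] (RatFunc k) g.denom ≠ 0 :=
      RatFunc.algebraMap_ne_zero (RatFunc.denom_ne_zero g)
    field_simp at h2
    rw [h2]; ring
  set Pl : k[X][X] := g.num.map C - C X * g.denom.map C with hPl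
  have hPle : aeval h Pl = 0 := by
    rw [hPl, map_sub, map_mul, aeval_C]
    have h1 : ∀ P : k[X], aeval h (P.map (C : k →+* k[X])) = aeval h P := by
      intro P
      rw [aeval_def, eval₂_map, aeval_def]
      rfl
    rw [h1, h1, hrel, RatFunc.algebraMap_X, sub_self]
  have hd2 : (C X * g.denom.map C : k[X][X]).natDegree < (g.num.map (C : k →+* k[X])).natDegree := by
    refine lt_of_le_of_lt (natDegree_C_mul_le _ _) ?_
    rw [natDegree_map_eq_of_injective C_injective, natDegree_map_eq_of_injective C_injective]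
    exact hdeg
  have hlead : Pl.leadingCoeff = C g.num.leadingCoeff := by
    rw [hPl, leadingCoeff_sub_of_degree_lt, leadingCoeff_map_of_injective C_injective]
    exact degree_lt_degree hd2
  have hi := isIntegral_leadingCoeff_smul Pl h hPle
  rw [hlead] at hi
  have hi2 : IsIntegral k[X] h := by
    have h4 : h = (C (g.num.leadingCoeff)⁻¹ : k[X]) • ((C g.num.leadingCoeff : k[X]) • h) := by
      rw [smul_smul, ← C_mul, inv_mul_cancel₀ (leadingCoeff_ne_zero.mpr hnum0), C_1, one_smul]
    rw [h4]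
    exact hi.smul _
  exact IsIntegrallyClosed.isIntegral_iff.mp hi2

include D in
theorem aut_form (hm : ¬ p ∣ f.natDegree) (hm2 : p ^ 2 < f.natDegree) (σ : K ≃ₐ[k] K) :
    ∃ (a b : k) (n : ℤ) (ρ : k[X]), a ≠ 0 ∧ (n : k) ≠ 0 ∧
      σ (algebraMap (RatFunc k) K RatFunc.X) =
        algebraMap (RatFunc k) K (algebraMap k[X] (RatFunc k) (C a * X + C b)) ∧
      σ D.W = n * D.W + algebraMap (RatFunc k) K (algebraMap k[X] (RatFunc k) ρ) ∧
      f.comp (C a * X + C b) = n * f + (ρ ^ p - ρ) := by
  classical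
  obtain ⟨h, hh⟩ := sigmaX_mem D hm hm2 σ
  obtain ⟨g, hg⟩ := sigmaX_mem D hm hm2 σ.symm
  obtain ⟨hq, rfl⟩ := h_poly D hm hm2 σ hh
  obtain ⟨gq, rfl⟩ := h_poly D hm hm2 σ.symm hg
  have hcomp : gq.comp hq = X := by
    apply IsFractionRing.injective k[X] (RatFunc k)
    apply (algebraMap (RatFunc k) K).injective
    have h1 := sigma_poly σ hh gq
    rw [hg, AlgEquiv.apply_symm_apply] at h1
    rw [RatFunc.algebraMap_X, h1]
    congr 1
    rw [comp_eq_aeval, Polynomial.aeval_algebraMap_apply]
  have hdeg := congrArg natDegree hcomp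
  rw [natDegree_comp, natDegree_X] at hdeg
  have hq1 : hq.natDegree = 1 := Nat.eq_one_of_mul_eq_one_left hdeg
  obtain ⟨a, ha, b, hab⟩ := natDegree_eq_one.mp hq1
  obtain ⟨n, r, hW, hf⟩ := sigmaW D σ hh
  have hn := n_ne_zero D hm hm2 σ hW
  have hf2 : aeval (algebraMap k[X] (RatFunc k) hq) f = algebraMap k[X] (RatFunc k) (f.comp hq) := by
    rw [Polynomial.aeval_algebraMap_apply, comp_eq_aeval]
  obtain ⟨ρ, hρ⟩ : ∃ ρ : k[X], algebraMap k[X] (RatFunc k) ρ = r := by
    apply IsIntegrallyClosed.isIntegral_iff.mp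
    refine ⟨X ^ p - X - C (f.comp hq - n * f), ?_, ?_⟩
    · have h2 := hp.out.two_le
      have : (X ^ p - X - C (f.comp hq - n * f) : k[X][X]) = X ^ p - (X + C (f.comp hq - n * f)) := by
        ring
      rw [this]
      apply monic_X_pow_sub
      refine (degree_X_add_C _).le.trans_lt ?_
      exact_mod_cast h2
    · rw [eval₂_sub, eval₂_sub, eval₂_pow, eval₂_X, eval₂_C, map_sub, map_mul, map_intCast,
        ← hf2, hf]
      ring
  subst hρ
  refine ⟨a, b, n, ρ, ha, hn, ?_, hW, ?_⟩
  · rw [hab, hh]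
  · rw [hab]
    apply IsFractionRing.injective k[X] (RatFunc k)
    rw [← hf2, hf]
    simp

theorem aut_iter (σ : K ≃ₐ[k] K) {a b : k} {n : ℤ} {ρ : k[X]}
    (hx : σ (algebraMap (RatFunc k) K RatFunc.X) =
        algebraMap (RatFunc k) K (algebraMap k[X] (RatFunc k) (C a * X + C b)))
    (hW : σ D.W = n * D.W + algebraMap (RatFunc k) K (algebraMap k[X] (RatFunc k) ρ)) (N : ℕ) :
    ∃ (b' : k) (ρ' : k[X]),
      (σ ^ N) (algebraMap (RatFunc k) K RatFunc.X) =
        algebraMap (RatFunc k) K (algebraMap k[X] (RatFunc k) (C (a ^ N) * X + C b')) ∧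
      (σ ^ N) D.W = n ^ N * D.W + algebraMap (RatFunc k) K (algebraMap k[X] (RatFunc k) ρ') := by
  induction N with
  | zero => exact ⟨0, 0, by simp, by simp⟩
  | succ N ih =>
    obtain ⟨b', ρ', h1, h2⟩ := ih
    have hp1 : ∀ P : k[X], σ (algebraMap (RatFunc k) K (algebraMap k[X] (RatFunc k) P)) =
        algebraMap (RatFunc k) K (algebraMap k[X] (RatFunc k) (P.comp (C a * X + C b))) := by
      intro P
      rw [sigma_poly σ hx.symm, Polynomial.aeval_algebraMap_apply, comp_eq_aeval]
    refine ⟨a ^ N * b + b', C ((n : k) ^ N) * ρ + ρ'.comp (C a * X + C b), ?_, ?_⟩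
    · rw [pow_succ', AlgEquiv.mul_apply, h1, hp1]
      congr 2
      simp only [add_comp, mul_comp, C_comp, X_comp, C_add, C_mul, C_pow, pow_comp]
      ring
    · rw [pow_succ', AlgEquiv.mul_apply, h2, map_add, map_mul, hp1, map_pow, map_intCast, hW]
      simp only [map_add, map_mul, map_pow, map_intCast, pow_succ]
      ring

include D in
theorem aut_ppow (hm : ¬ p ∣ f.natDegree) (hm2 : p ^ 2 < f.natDegree) (σ : K ≃ₐ[k] K) (j : ℕ)
    (hσ : σ ^ (p ^ j) = 1) :
    ∃ (b : k) (ρ : k[X]),
      σ (algebraMap (RatFunc k) K RatFunc.X) =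
        algebraMap (RatFunc k) K (algebraMap k[X] (RatFunc k) (X + C b)) ∧
      σ D.W = D.W + algebraMap (RatFunc k) K (algebraMap k[X] (RatFunc k) ρ) ∧
      f.comp (X + C b) = f + (ρ ^ p - ρ) := by
  obtain ⟨a, b, n, ρ, ha, hn, hx, hW, hf⟩ := aut_form D hm hm2 σ
  have hKp : CharP K p := charP_of_injective_algebraMap (algebraMap k K).injective p
  obtain ⟨b', ρ', h1, h2⟩ := aut_iter D σ hx hW (p ^ j)
  rw [hσ] at h1 h2
  have ha1 : a = 1 := by
    have h3 := (algebraMap (RatFunc k) K).injective h1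
    rw [← RatFunc.algebraMap_X] at h3
    have h4 := IsFractionRing.injective k[X] (RatFunc k) h3
    have h5 : (1 : k) = a ^ p ^ j := by
      have := congrArg (fun q => coeff q 1) h4
      simpa only [coeff_X_one, coeff_add, coeff_C_mul, mul_one, coeff_C_succ, add_zero] using this
    have h6 : iterateFrobenius k p j a = iterateFrobenius k p j 1 := by
      rw [iterateFrobenius_def, iterateFrobenius_def, one_pow, ← h5]
    exact iterateFrobenius_inj k p j h6
  have hn1 : (n : K) = 1 := by
    have h3 : (n : K) ^ p = n := by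
      have := (Subfield.mem_bot_iff_pow_eq_self K p).mp
        ((mem_bot_iff_intCast p K).mpr ⟨n, rfl⟩)
      exact this
    have h4 : ∀ i : ℕ, (n : K) ^ (p ^ i) = n := by
      intro i
      induction i with
      | zero => simp
      | succ i ih => rw [pow_succ, pow_mul, ih, h3]
    rw [h4 j] at h2
    by_contra hne
    apply W_notin D (algebraMap k[X] (RatFunc k) ρ' / (1 - n))
    have h5 : (1 - (n : K)) ≠ 0 := sub_ne_zero.mpr (Ne.symm hne)
    rw [map_div₀, map_sub, map_one, map_intCast, div_eq_iff h5]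
    simp only [AlgEquiv.one_apply] at h2
    linear_combination -h2
  refine ⟨b, ρ, ?_, ?_, ?_⟩
  · rw [hx, ha1, C_1, one_mul]
  · rw [hW, hn1, one_mul]
  · rw [ha1, C_1, one_mul] at hf
    rw [hf]
    have : ((n : k[X])) = 1 := by
      apply IsFractionRing.injective k[X] (RatFunc k)
      apply (algebraMap (RatFunc k) K).injective
      rw [map_intCast, map_intCast, hn1]; simp
    rw [this, one_mul]

end

end Pool.Agent.Helper246.AS
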