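import Mathlib

set_option autoImplicit false
set_option linter.unusedSectionVars false

open Polynomial

namespace Pool.Agent.Helper246.AS

noncomputable section

/-- an additive map `v : G → k` with kernel `N` -/
structure VD (G : Type*) [Group G] (N : Subgroup G) (k : Type*) [Field k] where
  v : G → k
  hv : ∀ g h, v (g * h) = v g + v h
  hN : ∀ g, v g = 0 ↔ g ∈ N

variable {k : Type*} [Field k] {G : Type*} [Group G] [Finite G] {N : Subgroup G}

namespace VD

variable (D : VD G N k)

theorem v_one : D.v 1 = 0 := (D.hN 1).mpr N.one_mem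

theorem v_inv (g : G) : D.v g⁻¹ = - D.v g := by
  have := D.hv g⁻¹ g
  rw [inv_mul_cancel, D.v_one] at this
  exact eq_neg_of_add_eq_zero_left this.symm

/-- the induced map on the quotient -/
def vb (q : G ⧸ N) : k := D.v q.out

theorem vb_mk (g : G) : D.vb (g : G ⧸ N) = D.v g := by
  obtain ⟨n, hn⟩ := QuotientGroup.mk_out_eq_mul N g
  unfold vb
  rw [hn, D.hv, (D.hN n).mpr n.2, add_zero]

theorem vb_smul (g : G) (q : G ⧸ N) : D.vb (g • q) = D.v g + D.vb q := by
  induction q using QuotientGroup.induction_on with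
  | H x =>
    rw [MulAction.Quotient.smul_mk, vb_mk, vb_mk, smul_eq_mul, D.hv]

theorem vb_inj : Function.Injective D.vb := by
  intro q q' h
  induction q using QuotientGroup.induction_on with
  | H x =>
    induction q' using QuotientGroup.induction_on with
    | H y =>
      rw [vb_mk, vb_mk] at h
      rw [QuotientGroup.eq, ← D.hN, D.hv, D.v_inv, h, neg_add_cancel]

theorem vb_one : D.vb ((1 : G) : G ⧸ N) = 0 := by rw [vb_mk, v_one]

instance : Fintype (G ⧸ N) := Fintype.ofFinite _

/-- reindexing a sum over the quotient -/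
theorem sum_smul (g : G) (F : G ⧸ N → k[X]) : ∑ q : G ⧸ N, F (g • q) = ∑ q : G ⧸ N, F q :=
  Equiv.sum_comp (MulAction.toPerm g) F

/-- product of the `X - v` over nonzero `v` -/
def L : k[X] := by
  classical
  exact ∏ q ∈ (Finset.univ : Finset (G ⧸ N)).erase ((1 : G) : G ⧸ N), (X - C (D.vb q))

theorem L_eval_ne {y : k} : D.L.eval y = 0 ↔ ∃ q : G ⧸ N, q ≠ ((1 : G) : G ⧸ N) ∧ D.vb q = y := by
  classical
  unfold L
  rw [eval_prod, Finset.prod_eq_zero_iff]
  constructor
  · rintro ⟨q, hq, h⟩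
    refine ⟨q, (Finset.mem_erase.mp hq).1, ?_⟩
    rw [eval_sub, eval_X, eval_C, sub_eq_zero] at h
    exact h.symm
  · rintro ⟨q, hq, h⟩
    refine ⟨q, Finset.mem_erase.mpr ⟨hq, Finset.mem_univ _⟩, ?_⟩
    rw [eval_sub, eval_X, eval_C, h, sub_self]

theorem L_zero_ne : D.L.eval 0 ≠ 0 := by
  rw [Ne, L_eval_ne]
  rintro ⟨q, hq, h⟩
  apply hq
  apply D.vb_inj
  rw [h, vb_one]

theorem L_natDegree_lt : D.L.natDegree < Fintype.card (G ⧸ N) := by
  classical
  unfold L
  rw [natDegree_prod_of_monic _ _ (fun q _ => monic_X_sub_C _)]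
  simp only [natDegree_X_sub_C, Finset.sum_const, smul_eq_mul, mul_one]
  rw [Finset.card_erase_of_mem (Finset.mem_univ _), Finset.card_univ]
  have : 0 < Fintype.card (G ⧸ N) := Fintype.card_pos
  omega

/-- the trace of `L` is a nonzero constant -/
theorem trace_L : ∑ q : G ⧸ N, taylor (D.vb q) D.L = C (D.L.eval 0) := by
  classical
  rw [← sub_eq_zero]
  apply eq_zero_of_natDegree_lt_card_of_eval_eq_zero _ D.vb_inj
  · intro q'
    rw [eval_sub, eval_C, eval_finsetSum]
    obtain ⟨g', hg'⟩ : ∃ g' : G, ((g' : G) : G ⧸ N) = q' := QuotientGroup.mk_surjective q'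
    rw [Finset.sum_eq_single (((g'⁻¹ : G) : G ⧸ N))]
    · rw [taylor_eval, ← hg', vb_mk, vb_mk, D.v_inv, add_neg_cancel, sub_self]
    · intro q _ hq
      rw [taylor_eval, L_eval_ne]
      refine ⟨g' • q, ?_, ?_⟩
      · intro h
        apply hq
        rw [← inv_smul_smul g' q, h]
        rw [MulAction.Quotient.smul_mk, smul_eq_mul, mul_one]
      · rw [vb_smul, ← hg', vb_mk]
    · intro h
      exact absurd (Finset.mem_univ _) h
  · refine lt_of_le_of_lt (natDegree_sub_le _ _) ?_
    rw [natDegree_C, max_lt_iff]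
    refine ⟨?_, Fintype.card_pos⟩
    refine lt_of_le_of_lt (natDegree_sum_le_of_forall_le _ _ (n := D.L.natDegree) ?_) D.L_natDegree_lt
    intro q _
    rw [natDegree_taylor]

/-- an element of trace one -/
def θ : k[X] := C (D.L.eval 0)⁻¹ * D.L

theorem trace_θ : ∑ q : G ⧸ N, taylor (D.vb q) D.θ = 1 := by
  unfold θ
  simp only [taylor_mul, taylor_C]
  rw [← Finset.mul_sum, trace_L, ← C_mul, inv_mul_cancel₀ D.L_zero_ne, C_1]

theorem trace_θ' (g : G) : ∑ q : G ⧸ N, taylor (D.v g + D.vb q) D.θ = 1 := by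
  rw [← D.trace_θ, ← sum_smul g (fun q => taylor (D.vb q) D.θ)]
  simp only [vb_smul]

/-- vanishing of `H^1` -/
theorem H1 (h : G → k[X]) (hh : ∀ g g', h (g * g') = h g + taylor (D.v g) (h g'))
    (hn : ∀ n ∈ N, h n = 0) :
    ∃ hb : G ⧸ N → k[X], (∀ g : G, hb (g : G ⧸ N) = h g) ∧
      ∀ g, taylor (D.v g) (-∑ q : G ⧸ N, hb q * taylor (D.vb q) D.θ) =
        (-∑ q : G ⧸ N, hb q * taylor (D.vb q) D.θ) + h g := by
  have hb1 : ∀ g : G, h ((g : G ⧸ N)).out = h g := by
    intro g
    obtain ⟨n, hn'⟩ := QuotientGroup.mk_out_eq_mul N g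
    rw [hn', hh, hn n n.2, map_zero, add_zero]
  refine ⟨fun q => h q.out, hb1, ?_⟩
  intro g
  have hb2 : ∀ q : G ⧸ N, h (g • q).out = h g + taylor (D.v g) (h q.out) := by
    intro q
    have : g • q = ((g * q.out : G) : G ⧸ N) := by
      conv_lhs => rw [← QuotientGroup.out_eq' q]
      rfl
    rw [this, hb1, hh]
  rw [map_neg, map_sum]
  simp only [taylor_mul, taylor_taylor]
  have h3 : ∀ q : G ⧸ N, taylor (D.v g) (h q.out) * taylor (D.v g + D.vb q) D.θ =
      h (g • q).out * taylor (D.vb (g • q)) D.θ - h g * taylor (D.v g + D.vb q) D.θ := by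
    intro q
    rw [hb2, vb_smul]; ring
  rw [Finset.sum_congr rfl (fun q _ => h3 q), Finset.sum_sub_distrib, ← Finset.mul_sum,
    trace_θ', sum_smul g (fun q => h q.out * taylor (D.vb q) D.θ)]
  ring

/-- extending a homomorphism of `N` to a crossed homomorphism of `G` with values in `k[X]` -/
theorem H2 (hcent : ∀ n ∈ N, ∀ g : G, n * g = g * n) (i : N → k)
    (hi : ∀ a b : N, i (a * b) = i a + i b) :
    ∃ r : G → k[X], (∀ g g', r (g * g') = r g + taylor (D.v g) (r g')) ∧
      ∀ n : N, r n = C (i n) := by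
  have hout : ∀ g : G, ((g : G ⧸ N)).out⁻¹ * g ∈ N := by
    intro g
    rw [← QuotientGroup.eq, QuotientGroup.out_eq']
  set η : G → k := fun g => i ⟨_, hout g⟩ with hη
  have hηn : ∀ (g : G) (n : N), η (g * n) = η g + i n := by
    intro g n
    simp only [hη]
    rw [← hi]
    congr 1
    apply Subtype.ext
    simp only [Subgroup.coe_mul]
    have : ((g * (n : G) : G) : G ⧸ N) = (g : G ⧸ N) := by
      rw [QuotientGroup.mk_mul_of_mem g n.2]
    rw [this, mul_assoc]
  set c : G → G → k := fun g x => η (g * x) - η x with hc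
  have hcn : ∀ g x (n : N), c g (x * n) = c g x := by
    intro g x n
    simp only [hc]
    rw [← mul_assoc, hηn, hηn]; ring
  have hcc : ∀ g g' x, c (g * g') x = c g (g' * x) + c g' x := by
    intro g g' x
    simp only [hc]
    rw [mul_assoc]; ring
  have hcout : ∀ g (x : G), c g ((x : G ⧸ N)).out = c g x := by
    intro g x
    obtain ⟨n, hn'⟩ := QuotientGroup.mk_out_eq_mul N x
    rw [hn', hcn]
  refine ⟨fun g => ∑ q : G ⧸ N, C (c g q.out) * taylor (D.v g + D.vb q) D.θ, ?_, ?_⟩
  · intro g g'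
    simp only [map_sum, taylor_mul, taylor_C, taylor_taylor]
    rw [← sum_smul g' (fun q => C (c g q.out) * taylor (D.v g + D.vb q) D.θ), ← Finset.sum_add_distrib]
    apply Finset.sum_congr rfl
    intro q _
    have : g' • q = ((g' * q.out : G) : G ⧸ N) := by
      conv_lhs => rw [← QuotientGroup.out_eq' q]
      rfl
    rw [hcc, this, hcout, ← this, vb_smul, D.hv, C_add]
    rw [show D.v g + (D.v g' + D.vb q) = D.v g + D.v g' + D.vb q by ring]
    ring
  · intro n
    have h1 : ∀ x : G, c n x = i n := by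
      intro x
      simp only [hc]
      rw [hcent n n.2 x, hηn]; ring
    simp only [h1]
    rw [← Finset.mul_sum, trace_θ', mul_one]

end VD

/-- Lang's theorem for polynomials -/
theorem lang {p : ℕ} [hp : Fact p.Prime] {k : Type*} [Field k] [CharP k p] [IsAlgClosed k]
    (P : k[X]) : ∃ Q : k[X], Q.map (frobenius k p) - Q = P := by
  induction P using Polynomial.induction_on' with
  | add a b ha hb =>
    obtain ⟨Q1, h1⟩ := ha
    obtain ⟨Q2, h2⟩ := hb
    refine ⟨Q1 + Q2, ?_⟩
    rw [Polynomial.map_add, ← h1, ← h2]; ring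
  | monomial n a =>
    obtain ⟨b, hb⟩ : ∃ b : k, b ^ p - b = a := by
      have hdeg : (X ^ p - X - C a : k[X]).degree ≠ 0 := by
        have : (X ^ p - X - C a : k[X]) = X ^ p - (X + C a) := by ring
        rw [this, degree_sub_eq_left_of_degree_lt, degree_X_pow]
        · exact_mod_cast hp.out.ne_zero
        · rw [degree_X_pow, degree_X_add_C]
          exact_mod_cast hp.out.one_lt
      obtain ⟨b, hb⟩ := IsAlgClosed.exists_root _ hdeg
      refine ⟨b, ?_⟩
      rw [IsRoot, eval_sub, eval_sub, eval_pow, eval_X, eval_C, sub_eq_zero] at hb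
      exact hb
    refine ⟨monomial n b, ?_⟩
    rw [Polynomial.map_monomial, ← map_sub, frobenius_def, hb]

section frob

variable {p : ℕ} [hp : Fact p.Prime] [CharP k p] (D : VD G N k) (T : G ≃* G)
  (hTN : ∀ n ∈ N, T n = n) (hTv : ∀ g, D.v (T g) = (D.v g) ^ p)

/-- the permutation of the quotient induced by `T` -/
def Tq (T : G ≃* G) (N : Subgroup G) (q : G ⧸ N) : G ⧸ N := ((T q.out : G) : G ⧸ N)

include hTv in
theorem vb_Tq (q : G ⧸ N) : D.vb (Tq T N q) = (D.vb q) ^ p := by
  unfold Tq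
  rw [VD.vb_mk, hTv]
  rfl

include hTv in
theorem Tq_bij : Function.Bijective (Tq T N) := by
  rw [← Finite.injective_iff_bijective]
  intro q q' h
  apply D.vb_inj
  have h1 := congrArg D.vb h
  rw [vb_Tq D T hTv, vb_Tq D T hTv, ← frobenius_def, ← frobenius_def] at h1
  exact frobenius_inj k p h1

include hTv in
theorem Tq_one : Tq T N ((1 : G) : G ⧸ N) = ((1 : G) : G ⧸ N) := by
  apply D.vb_inj
  rw [vb_Tq D T hTv, D.vb_one]
  exact zero_pow hp.out.ne_zero

include hTv in
theorem sum_Tq (F : G ⧸ N → k[X]) : ∑ q : G ⧸ N, F (Tq T N q) = ∑ q : G ⧸ N, F q :=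
  Equiv.sum_comp (Equiv.ofBijective _ (Tq_bij D T hTv)) F

include hTv in
theorem L_frob : D.L.map (frobenius k p) = D.L := by
  classical
  unfold VD.L
  rw [Polynomial.map_prod]
  have h1 : ∀ q : G ⧸ N, (X - C (D.vb q)).map (frobenius k p) = X - C (D.vb (Tq T N q)) := by
    intro q
    rw [Polynomial.map_sub, map_X, map_C, frobenius_def, vb_Tq D T hTv]
  rw [Finset.prod_congr rfl (fun q _ => h1 q)]
  refine Finset.prod_bij (fun q _ => Tq T N q) ?_ ?_ ?_ ?_
  · intro q hq
    refine Finset.mem_erase.mpr ⟨?_, Finset.mem_univ _⟩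
    intro h
    apply (Finset.mem_erase.mp hq).1
    apply (Tq_bij D T hTv).1
    rw [h, Tq_one D T hTv]
  · intro q _ q' _ h
    exact (Tq_bij D T hTv).1 h
  · intro q hq
    obtain ⟨q', hq'⟩ := (Tq_bij D T hTv).2 q
    refine ⟨q', Finset.mem_erase.mpr ⟨?_, Finset.mem_univ _⟩, hq'⟩
    rintro rfl
    rw [Tq_one D T hTv] at hq'
    exact (Finset.mem_erase.mp hq).1 hq'.symm
  · intro q _; rfl

include hTv in
theorem θ_frob : D.θ.map (frobenius k p) = D.θ := by
  have h1 := L_frob D T hTv
  have h2 : (D.L.eval 0) ^ p = D.L.eval 0 := by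
    have h3 := congrArg (fun P => coeff P 0) h1
    simp only [coeff_map, frobenius_def] at h3
    rw [← coeff_zero_eq_eval_zero, h3]
  unfold VD.θ
  rw [Polynomial.map_mul, h1, map_C, frobenius_def, inv_pow, h2]

include hTN hTv in
/-- Frobenius equivariant crossed homomorphism extending the inclusion of `N` -/
theorem equi [IsAlgClosed k] (hcent : ∀ n ∈ N, ∀ g : G, n * g = g * n) (i : N → k)
    (hi : ∀ a b : N, i (a * b) = i a + i b) (hip : ∀ a, (i a) ^ p = i a) :
    ∃ r : G → k[X], (∀ g g', r (g * g') = r g + taylor (D.v g) (r g')) ∧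
      (∀ n : N, r n = C (i n)) ∧ ∀ g, r (T g) = (r g).map (frobenius k p) := by
  obtain ⟨r, hr, hrn⟩ := D.H2 hcent i hi
  set φ := frobenius k p with hφ
  have hTs : ∀ g, T (T.symm g) = g := T.apply_symm_apply
  have hvs : ∀ g, (D.v (T.symm g)) ^ p = D.v g := by
    intro g
    rw [← hTv, hTs]
  set d : G → k[X] := fun g => (r (T.symm g)).map φ - r g with hd
  have hd1 : ∀ g g', d (g * g') = d g + taylor (D.v g) (d g') := by
    intro g g'
    simp only [hd]
    rw [map_mul, hr, hr, Polynomial.map_add, map_sub, map_taylor]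
    rw [hφ, frobenius_def, hvs]
    ring
  have hd2 : ∀ n ∈ N, d n = 0 := by
    intro n hn
    simp only [hd]
    have h1 : T.symm n = n := by
      rw [MulEquiv.symm_apply_eq, hTN n hn]
    rw [h1]
    have h2 := hrn ⟨n, hn⟩
    simp only at h2
    rw [h2, map_C, hφ, frobenius_def, hip, sub_self]
  obtain ⟨hb, -, hγ⟩ := D.H1 d hd1 hd2
  set γ : k[X] := -∑ q : G ⧸ N, hb q * taylor (D.vb q) D.θ with hγd
  obtain ⟨γ1, hγ1⟩ := lang (p := p) (-γ)
  refine ⟨fun g => r g + (taylor (D.v g) γ1 - γ1), ?_, ?_, ?_⟩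
  · intro g g'
    simp only [map_add, map_sub, taylor_taylor]
    rw [hr, D.hv]; ring
  · intro n
    have : D.v n = 0 := (D.hN n).mpr n.2
    simp only [this, taylor_zero, sub_self, add_zero]
    exact hrn n
  · intro g
    have h1 := hγ (T g)
    have h2 : d (T g) = (r g).map φ - r (T g) := by
      simp only [hd, MulEquiv.symm_apply_apply]
    rw [h2] at h1
    simp only [Polynomial.map_add, Polynomial.map_sub, map_taylor]
    have h3 : γ1.map φ = γ1 - γ := by rw [← hφ] at hγ1; linear_combination hγ1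
    rw [h3, hφ, frobenius_def, ← hTv, map_sub]
    linear_combination h1

include hTv in
/-- the polynomial with prescribed differences -/
theorem f_exists (r : G → k[X]) (hr : ∀ g g', r (g * g') = r g + taylor (D.v g) (r g'))
    (hrn : ∀ n ∈ N, (r n) ^ p = r n) (hrT : ∀ g, r (T g) = (r g).map (frobenius k p)) :
    ∃ f : k[X], f.map (frobenius k p) = f ∧
      ∀ g, taylor (D.v g) f = f + ((r g) ^ p - r g) := by
  set h : G → k[X] := fun g => (r g) ^ p - r g with hh
  have h1 : ∀ g g', h (g * g') = h g + taylor (D.v g) (h g') := by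
    intro g g'
    simp only [hh]
    rw [hr, add_pow_char, map_sub, taylor_pow]; ring
  have h2 : ∀ n ∈ N, h n = 0 := by
    intro n hn
    simp only [hh]
    rw [hrn n hn, sub_self]
  have h3 : ∀ g, h (T g) = (h g).map (frobenius k p) := by
    intro g
    simp only [hh]
    rw [hrT, Polynomial.map_sub, Polynomial.map_pow]
  obtain ⟨hb, hb1, hb2⟩ := D.H1 h h1 h2
  refine ⟨-∑ q : G ⧸ N, hb q * taylor (D.vb q) D.θ, ?_, hb2⟩
  rw [Polynomial.map_neg, Polynomial.map_sum]
  congr 1
  rw [← sum_Tq D T hTv (fun q => hb q * taylor (D.vb q) D.θ)]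
  apply Finset.sum_congr rfl
  intro q _
  have h4 : hb (Tq T N q) = (hb q).map (frobenius k p) := by
    unfold Tq
    rw [hb1, h3, ← hb1, QuotientGroup.out_eq']
  rw [Polynomial.map_mul, map_taylor, θ_frob D T hTv, h4, vb_Tq D T hTv, frobenius_def]

end frob

end

end Pool.Agent.Helper246.AS
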