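import Mathlib

set_option autoImplicit false
set_option linter.unusedSectionVars false

open Polynomial

namespace Pool.Agent.Helper246.AS

noncomputable section

variable {p : ℕ} [hp : Fact p.Prime] {k : Type*} [Field k] [CharP k p] [Algebra (ZMod p) k]

variable (p k) in
/-- Frobenius as a linear operator over the prime field -/
def Fr : Module.End (ZMod p) k := (frobenius k p).toAddMonoidHom.toZModLinearMap p

theorem Fr_apply (x : k) : Fr p k x = x ^ p := rfl

theorem Fr_pow (n : ℕ) (x : k) : (Fr p k ^ n) x = x ^ (p ^ n) := by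
  induction n generalizing x with
  | zero => simp
  | succ n ih =>
    rw [pow_succ, Module.End.mul_apply, ih, Fr_apply, ← pow_mul, pow_succ, mul_comm]

variable (p k) in
/-- the operator attached to `t ^ (2m) - t ^ m + 1` -/
def Op (m : ℕ) : Module.End (ZMod p) k := Fr p k ^ (2 * m) - Fr p k ^ m + 1

theorem Op_apply (m : ℕ) (x : k) : Op p k m x = x ^ (p ^ (2 * m)) - x ^ (p ^ m) + x := by
  unfold Op
  rw [LinearMap.add_apply, LinearMap.sub_apply, Fr_pow, Fr_pow, Module.End.one_apply]

variable (p k) in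
/-- the additive polynomial -/
def Apol (m : ℕ) : k[X] := X ^ (p ^ (2 * m)) + (- X ^ (p ^ m) + X)

theorem Apol_eval (m : ℕ) (x : k) : (Apol p k m).eval x = Op p k m x := by
  unfold Apol
  rw [Op_apply]
  simp only [eval_add, eval_neg, eval_pow, eval_X]
  ring

theorem Apol_deg {m : ℕ} (hm : 0 < m) : (- X ^ (p ^ m) + X : k[X]).natDegree < p ^ (2 * m) := by
  have h1 : 1 < p ^ m := Nat.one_lt_pow hm.ne' hp.out.one_lt
  have h2 : p ^ m < p ^ (2 * m) := Nat.pow_lt_pow_right hp.out.one_lt (by omega)
  refine lt_of_le_of_lt (natDegree_add_le _ _) (max_lt ?_ ?_)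
  · rw [natDegree_neg, natDegree_X_pow]; exact h2
  · rw [natDegree_X]; omega

theorem Apol_natDegree {m : ℕ} (hm : 0 < m) : (Apol p k m).natDegree = p ^ (2 * m) := by
  unfold Apol
  rw [natDegree_add_eq_left_of_natDegree_lt, natDegree_X_pow]
  rw [natDegree_X_pow]
  exact Apol_deg hm

theorem Apol_ne {m : ℕ} (hm : 0 < m) : Apol p k m ≠ 0 := by
  intro h
  have := Apol_natDegree (p := p) (k := k) hm
  rw [h, natDegree_zero] at this
  have h2 : 0 < p ^ (2 * m) := pow_pos hp.out.pos _
  omega

theorem Apol_sep {m : ℕ} (hm : 0 < m) : (Apol p k m).Separable := by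
  have h : derivative (Apol p k m) = 1 := by
    unfold Apol
    rw [derivative_add, derivative_add, derivative_neg, derivative_X_pow, derivative_X_pow,
      derivative_X]
    have h1 : ((p ^ (2 * m) : ℕ) : k) = 0 := by
      rw [Nat.cast_pow, CharP.cast_eq_zero k p, zero_pow (by omega)]
    have h2 : ((p ^ m : ℕ) : k) = 0 := by
      rw [Nat.cast_pow, CharP.cast_eq_zero k p, zero_pow (by omega)]
    rw [h1, h2]; simp
  rw [Polynomial.Separable, h]
  exact isCoprime_one_right

theorem Apol_card [IsAlgClosed k] [DecidableEq k] {m : ℕ} (hm : 0 < m) :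
    (Apol p k m).roots.toFinset.card = p ^ (2 * m) := by
  rw [Multiset.toFinset_card_of_nodup (nodup_roots (Apol_sep hm)), ← Apol_natDegree (k := k) hm]
  exact (IsAlgClosed.splits _).natDegree_eq_card_roots.symm

theorem exists_zeta [IsAlgClosed k] (m : ℕ) : ∃ ζ : k, Op p k m ζ = 0 ∧
    LinearIndependent (ZMod p) (fun i : Fin (2 * m) => ζ ^ (p ^ (i : ℕ))) := by
  classical
  rcases Nat.eq_zero_or_pos m with rfl | hm
  · refine ⟨0, map_zero _, ?_⟩
    rw [Fintype.linearIndependent_iff]
    intro c _ i
    have := i.2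
    omega
  set V : Submodule (ZMod p) k := LinearMap.ker (Op p k m) with hV
  have hVmem : ∀ x : k, x ∈ V ↔ x ∈ (Apol p k m).roots.toFinset := by
    intro x
    rw [hV, LinearMap.mem_ker, Multiset.mem_toFinset, mem_roots (Apol_ne hm), IsRoot.def, Apol_eval]
  have hVfin : Finite V := by
    have : (V : Set k) = ((Apol p k m).roots.toFinset : Set k) := by
      ext x; exact hVmem x
    have h2 : (V : Set k).Finite := by rw [this]; exact Finset.finite_toSet _
    exact h2.to_subtype
  have hcomm : Fr p k * Op p k m = Op p k m * Fr p k := by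
    unfold Op
    rw [mul_add, add_mul, mul_sub, sub_mul, mul_one, one_mul, ← pow_succ', ← pow_succ', ← pow_succ,
      ← pow_succ]
  have hVst : ∀ x ∈ V, Fr p k x ∈ V := by
    intro x hx
    rw [hV, LinearMap.mem_ker] at hx ⊢
    rw [← Module.End.mul_apply, ← hcomm, Module.End.mul_apply, hx, map_zero]
  set φ : Module.End (ZMod p) V := (Fr p k).restrict hVst with hφ
  have hφpow : ∀ (n : ℕ) (x : V), (((φ ^ n) x : V) : k) = (x : k) ^ (p ^ n) := by
    intro n
    induction n with
    | zero => intro x; simp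
    | succ n ih =>
      intro x
      rw [pow_succ, Module.End.mul_apply, ih]
      have : ((φ x : V) : k) = (x : k) ^ p := rfl
      rw [this, ← pow_mul, pow_succ, mul_comm]
  obtain ⟨x, hx⟩ := Module.exists_ker_toSpanSingleton_eq_annihilator (ZMod p)[X] (Module.AEval' φ)
  obtain ⟨x, rfl⟩ := (Module.AEval'.of φ).surjective x
  refine ⟨(x : k), x.2, ?_⟩
  rw [Fintype.linearIndependent_iff]
  intro c hc
  set q : (ZMod p)[X] := ∑ i : Fin (2 * m), C (c i) * X ^ (i : ℕ) with hq
  have hqy : ∀ y : V, ((aeval φ q y : V) : k) = ∑ i : Fin (2 * m), c i • (y : k) ^ (p ^ (i : ℕ)) := by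
    intro y
    rw [hq, map_sum, LinearMap.sum_apply, Submodule.coe_sum]
    refine Finset.sum_congr rfl fun i _ => ?_
    rw [map_mul, aeval_C, map_pow, aeval_X, Module.End.mul_apply, Module.algebraMap_end_apply,
      Submodule.coe_smul, hφpow]
  have hqx : q ∈ LinearMap.ker (LinearMap.toSpanSingleton (ZMod p)[X] (Module.AEval' φ)
      (Module.AEval'.of φ x)) := by
    rw [LinearMap.mem_ker, LinearMap.toSpanSingleton_apply]
    change Module.AEval'.of φ ((aeval φ q) • x) = 0
    have h0 : (aeval φ q) • x = 0 := by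
      apply Subtype.ext
      rw [Module.End.smul_def, hqy, hc]; rfl
    rw [h0, map_zero]
  rw [hx, Module.mem_annihilator] at hqx
  have hqV : ∀ y : V, ∑ i : Fin (2 * m), c i • (y : k) ^ (p ^ (i : ℕ)) = 0 := by
    intro y
    rw [← hqy]
    have h1 : Module.AEval'.of φ ((aeval φ q) • y) = 0 := hqx (Module.AEval'.of φ y)
    have h2 := (LinearEquiv.map_eq_zero_iff _).mp h1
    rw [Module.End.smul_def] at h2
    rw [h2]; rfl
  set Q : k[X] := ∑ i : Fin (2 * m), C (algebraMap (ZMod p) k (c i)) * X ^ (p ^ (i : ℕ)) with hQ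
  have hQ0 : Q = 0 := by
    apply Polynomial.eq_zero_of_natDegree_lt_card_of_eval_eq_zero' Q (Apol p k m).roots.toFinset
    · intro y hy
      rw [← hVmem] at hy
      rw [← hqV ⟨y, hy⟩, hQ, eval_finsetSum]
      refine Finset.sum_congr rfl fun i _ => ?_
      rw [eval_mul, eval_C, eval_pow, eval_X, Algebra.smul_def]
    · rw [Apol_card hm]
      have hlt : Q.natDegree ≤ p ^ (2 * m - 1) := by
        rw [hQ]
        apply natDegree_sum_le_of_forall_le
        intro i _
        refine (natDegree_C_mul_X_pow_le _ _).trans ?_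
        apply Nat.pow_le_pow_right hp.out.pos
        have := i.2
        omega
      refine lt_of_le_of_lt hlt ?_
      exact Nat.pow_lt_pow_right hp.out.one_lt (by omega)
  intro i
  have h1 : Q.coeff (p ^ (i : ℕ)) = algebraMap (ZMod p) k (c i) := by
    rw [hQ, finsetSum_coeff, Finset.sum_eq_single i]
    · rw [coeff_C_mul_X_pow, if_pos rfl]
    · intro j _ hj
      rw [coeff_C_mul_X_pow, if_neg]
      intro h
      apply hj
      have := Nat.pow_right_injective hp.out.two_le h
      exact Fin.ext this.symm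
    · intro h; exact absurd (Finset.mem_univ _) h
  rw [hQ0, coeff_zero] at h1
  exact (map_eq_zero _).mp h1.symm

theorem exists_eta [IsAlgClosed k] : ∃ η : ℕ → k, η 0 = 1 ∧ ∀ j, η (j + 1) ^ p = η (j + 1) + η j := by
  have h : ∀ y : k, ∃ x : k, x ^ p = x + y := by
    intro y
    have hd : (X ^ p - X - C y : k[X]).degree ≠ 0 := by
      have h1 : (X ^ p - X - C y : k[X]) = X ^ p + (- X - C y) := by ring
      have h2 : (- X - C y : k[X]).natDegree < (X ^ p : k[X]).natDegree := by
        rw [natDegree_X_pow]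
        refine lt_of_le_of_lt (natDegree_sub_le _ _) (max_lt ?_ ?_)
        · rw [natDegree_neg, natDegree_X]; exact hp.out.one_lt
        · rw [natDegree_C]; exact hp.out.pos
      intro h3
      have h4 := natDegree_eq_zero_iff_degree_le_zero.mpr h3.le
      rw [h1, natDegree_add_eq_left_of_natDegree_lt h2, natDegree_X_pow] at h4
      exact hp.out.ne_zero h4
    obtain ⟨x, hx⟩ := IsAlgClosed.exists_root _ hd
    refine ⟨x, ?_⟩
    rw [IsRoot.def, eval_sub, eval_sub, eval_pow, eval_X, eval_C] at hx
    linear_combination hx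
  choose R hR using h
  refine ⟨fun n => Nat.rec 1 (fun _ y => R y) n, rfl, fun j => hR _⟩

theorem eta_indep (η : ℕ → k) (h0 : η 0 = 1) (h1 : ∀ j, η (j + 1) ^ p = η (j + 1) + η j) (s : ℕ) :
    LinearIndependent (ZMod p) (fun j : Fin s => η j) := by
  induction s with
  | zero =>
    rw [Fintype.linearIndependent_iff]
    intro c _ i
    exact i.elim0
  | succ s ih =>
    rw [Fintype.linearIndependent_iff] at ih ⊢
    intro c hc
    rw [Fin.sum_univ_succ] at hc
    have h2 : ∑ j : Fin s, c j.succ • η j = 0 := by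
      have h3 := congrArg (fun x => Fr p k x - x) hc
      simp only [map_add, map_smul, map_sum, map_zero, sub_zero, Fin.val_zero, Fin.val_succ,
        Fr_apply, h0, one_pow, h1] at h3
      simp only [smul_add, Finset.sum_add_distrib] at h3
      linear_combination h3
    have h3 := ih _ h2
    intro i
    refine Fin.cases ?_ (fun j => h3 j) i
    have h4 : ∑ j : Fin s, c j.succ • η (j.succ : ℕ) = 0 :=
      Finset.sum_eq_zero fun j _ => by rw [h3 j, zero_smul]
    rw [h4, add_zero, Fin.val_zero, h0] at hc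
    rw [Algebra.smul_def, mul_one] at hc
    exact (map_eq_zero _).mp hc

theorem eta_ker (η : ℕ → k) (h0 : η 0 = 1) (h1 : ∀ j, η (j + 1) ^ p = η (j + 1) + η j) (j s : ℕ)
    (hj : j < s) : ((Fr p k - 1) ^ s) (η j) = 0 := by
  induction s generalizing j with
  | zero => omega
  | succ s ih =>
    rw [pow_succ, Module.End.mul_apply, LinearMap.sub_apply, Module.End.one_apply, Fr_apply]
    cases j with
    | zero => rw [h0, one_pow, sub_self, map_zero]
    | succ j =>
      rw [h1, add_sub_cancel_left]
      exact ih j (by omega)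

theorem op_one {m : ℕ} {x : k} (hx : Op p k m x = 0) (h : Fr p k x = x) : x = 0 := by
  have h1 : ∀ n, (Fr p k ^ n) x = x := by
    intro n
    induction n with
    | zero => simp
    | succ n ih => rw [pow_succ, Module.End.mul_apply, h, ih]
  unfold Op at hx
  rw [LinearMap.add_apply, LinearMap.sub_apply, h1, h1, sub_self, zero_add] at hx
  exact hx

theorem op_ker {m s : ℕ} {x : k} (hx : Op p k m x = 0) (h : ((Fr p k - 1) ^ s) x = 0) : x = 0 := by
  induction s generalizing x with
  | zero => simpa using h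
  | succ s ih =>
    have hcomm : Op p k m * (Fr p k - 1) = (Fr p k - 1) * Op p k m := by
      unfold Op
      simp only [mul_add, add_mul, mul_sub, sub_mul, mul_one, one_mul, ← pow_succ', ← pow_succ]
      abel
    rw [pow_succ, Module.End.mul_apply] at h
    have h2 : Op p k m ((Fr p k - 1) x) = 0 := by
      rw [← Module.End.mul_apply, hcomm, Module.End.mul_apply, hx, map_zero]
    have h3 := ih h2 h
    apply op_one hx
    rw [LinearMap.sub_apply, Module.End.one_apply, sub_eq_zero] at h3
    exact h3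

theorem zeta_ker {m : ℕ} {ζ : k} (hζ : Op p k m ζ = 0) (i : ℕ) : Op p k m (ζ ^ (p ^ i)) = 0 := by
  have hcomm : Op p k m * Fr p k ^ i = Fr p k ^ i * Op p k m := by
    unfold Op
    simp only [mul_add, add_mul, mul_sub, sub_mul, mul_one, one_mul, ← pow_add]
    rw [add_comm (2 * m), add_comm m]
  rw [← Fr_pow, ← Module.End.mul_apply, hcomm, Module.End.mul_apply, hζ, map_zero]

/-- the full independent family -/
theorem indep_all {m : ℕ} {ζ : k} (hζ : Op p k m ζ = 0)
    (hζi : LinearIndependent (ZMod p) (fun i : Fin (2 * m) => ζ ^ (p ^ (i : ℕ))))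
    (η : ℕ → k) (h0 : η 0 = 1) (h1 : ∀ j, η (j + 1) ^ p = η (j + 1) + η j) (s : ℕ) :
    LinearIndependent (ZMod p) (Sum.elim (fun i : Fin (2 * m) => ζ ^ (p ^ (i : ℕ)))
      (fun j : Fin s => η (s - 1 - j))) := by
  have h2 : LinearIndependent (ZMod p) (fun j : Fin s => η (s - 1 - j)) := by
    have h3 := (eta_indep η h0 h1 s).comp Fin.rev Fin.rev_injective
    have h4 : ((fun j : Fin s => η j) ∘ Fin.rev) = (fun j : Fin s => η (s - 1 - j)) := by
      funext j
      simp only [Function.comp_apply, Fin.val_rev]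
      congr 1; omega
    rwa [h4] at h3
  apply LinearIndependent.sum_type hζi h2
  rw [Submodule.disjoint_def]
  intro x hx1 hx2
  have h3 : Submodule.span (ZMod p) (Set.range (fun i : Fin (2 * m) => ζ ^ (p ^ (i : ℕ)))) ≤
      LinearMap.ker (Op p k m) := by
    rw [Submodule.span_le]
    rintro _ ⟨i, rfl⟩
    exact zeta_ker hζ i
  have h4 : Submodule.span (ZMod p) (Set.range (fun j : Fin s => η (s - 1 - j))) ≤
      LinearMap.ker ((Fr p k - 1) ^ s) := by
    rw [Submodule.span_le]
    rintro _ ⟨j, rfl⟩
    have := j.2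
    exact eta_ker η h0 h1 _ s (by omega)
  exact op_ker (h3 hx1) (h4 hx2)

end

end Pool.Agent.Helper246.AS
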