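import Pool.Agent.Helper246.ASLift

set_option autoImplicit false
set_option linter.unusedSectionVars false

open Module

namespace Pool.Agent.Helper246.AS

noncomputable section

theorem functional_mod {p : ℕ} [hp : Fact p.Prime] {A : Type*} [AddCommGroup A]
    [Module (ZMod p) A] (a0 : A) (h0 : a0 ≠ 0) : ∃ φ : A →+ ZMod p, φ a0 = 1 := by
  obtain ⟨φ, hφ⟩ : ∃ φ : A →ₗ[ZMod p] ZMod p, φ a0 ≠ 0 := by
    by_contra hcon
    push Not at hcon
    exact h0 ((Module.forall_dual_apply_eq_zero_iff (ZMod p) _).mp hcon)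
  refine ⟨((φ a0)⁻¹ • φ).toAddMonoidHom, ?_⟩
  change ((φ a0)⁻¹ • φ) a0 = 1
  rw [LinearMap.smul_apply, smul_eq_mul, inv_mul_cancel₀ hφ]

theorem functional_add {p : ℕ} [hp : Fact p.Prime] {A : Type*} [AddCommGroup A]
    (hpow : ∀ a : A, p • a = 0) (a0 : A) (h0 : a0 ≠ 0) : ∃ φ : A →+ ZMod p, φ a0 = 1 :=
  @functional_mod p hp A _ (AddCommGroup.zmodModule hpow) a0 h0

theorem functional_comm {p : ℕ} [hp : Fact p.Prime] {Q : Type*} [CommGroup Q]
    (hpow : ∀ a : Q, a ^ p = 1) (a0 : Q) (h0 : a0 ≠ 1) :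
    ∃ lam : Q →* Multiplicative (ZMod p), lam a0 = Multiplicative.ofAdd 1 := by
  obtain ⟨φ, hφ⟩ := functional_add (A := Additive Q) (fun x => hpow x.toMul) (Additive.ofMul a0) h0
  exact ⟨AddMonoidHom.toMultiplicativeRight φ, congrArg Multiplicative.ofAdd hφ⟩

theorem functional {p : ℕ} [hp : Fact p.Prime] {Q : Type*} [Group Q]
    (hc : ∀ a b : Q, a * b = b * a) (hpow : ∀ a : Q, a ^ p = 1) (a0 : Q) (h0 : a0 ≠ 1) :
    ∃ lam : Q →* Multiplicative (ZMod p), lam a0 = Multiplicative.ofAdd 1 := by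
  let CG : CommGroup Q := { (inferInstance : Group Q) with mul_comm := hc }
  obtain ⟨lam, h⟩ := @functional_comm p hp Q CG hpow a0 h0
  exact ⟨lam, h⟩

namespace GD

variable {p : ℕ} [hp : Fact p.Prime] {G : Type*} [Group G] {N : Subgroup G} {E : Type*}
    [AddCommGroup E] [Module (ZMod p) E] (D : GD p G N E)

/-- pairs `(g, g')` with `π g' = T (π g)` -/
def Del (T : E →ₗ[ZMod p] E) : Subgroup (G × G) where
  carrier := {x | D.π x.2 = T (D.π x.1)}
  mul_mem' {a b} ha hb := by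
    simp only [Set.mem_ofPred_eq, Prod.fst_mul, Prod.snd_mul, D.hπ, map_add] at *
    rw [ha, hb]
  one_mem' := by
    simp only [Set.mem_ofPred_eq, Prod.fst_one, Prod.snd_one, D.π_one, map_zero]
  inv_mem' {a} ha := by
    simp only [Set.mem_ofPred_eq, Prod.fst_inv, Prod.snd_inv, D.π_inv, map_neg] at *
    rw [ha]

theorem mem_Del (T : E →ₗ[ZMod p] E) (x : G × G) : x ∈ D.Del T ↔ D.π x.2 = T (D.π x.1) := Iff.rfl

/-- the diagonal copy of `N` -/
def Dia (T : E →ₗ[ZMod p] E) : Subgroup (D.Del T) where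
  carrier := {x | x.1.1 ∈ N ∧ x.1.2 = x.1.1}
  mul_mem' {a b} ha hb := by
    simp only [Set.mem_ofPred_eq, Subgroup.coe_mul, Prod.fst_mul, Prod.snd_mul] at *
    exact ⟨N.mul_mem ha.1 hb.1, by rw [ha.2, hb.2]⟩
  one_mem' := ⟨N.one_mem, rfl⟩
  inv_mem' {a} ha := by
    simp only [Set.mem_ofPred_eq, Subgroup.coe_inv, Prod.fst_inv, Prod.snd_inv] at *
    exact ⟨N.inv_mem ha.1, by rw [ha.2]⟩

theorem mem_Dia (T : E →ₗ[ZMod p] E) (x : D.Del T) : x ∈ D.Dia T ↔ x.1.1 ∈ N ∧ x.1.2 = x.1.1 :=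
  Iff.rfl

instance (T : E →ₗ[ZMod p] E) : (D.Dia T).Normal := by
  constructor
  intro n hn g
  rw [mem_Dia] at hn ⊢
  simp only [Subgroup.coe_mul, Subgroup.coe_inv, Prod.fst_mul, Prod.snd_mul, Prod.fst_inv,
    Prod.snd_inv]
  rw [hn.2, ← D.central hn.1, ← D.central hn.1, mul_inv_cancel_right, mul_inv_cancel_right]
  exact ⟨hn.1, rfl⟩

theorem quot_comm (T : E →ₗ[ZMod p] E) (hB : ∀ x y, D.Bf (T x) (T y) = D.Bf x y)
    (a b : D.Del T ⧸ D.Dia T) : a * b = b * a := by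
  induction a using QuotientGroup.induction_on with
  | H a =>
    induction b using QuotientGroup.induction_on with
    | H b =>
      rw [← QuotientGroup.mk_mul, ← QuotientGroup.mk_mul, eq_comm, QuotientGroup.eq, mem_Dia]
      have ha := (D.mem_Del T _).mp a.2
      have hb := (D.mem_Del T _).mp b.2
      simp only [Subgroup.coe_mul, Subgroup.coe_inv, Prod.fst_mul, Prod.snd_mul, Prod.fst_inv,
        Prod.snd_inv, mul_inv_rev]
      have h1 : a.1.1⁻¹ * b.1.1⁻¹ * (a.1.1 * b.1.1) ∈ N := by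
        rw [← D.hN]; simp only [D.hπ, D.π_inv]; abel
      have h2 : a.1.2⁻¹ * b.1.2⁻¹ * (a.1.2 * b.1.2) ∈ N := by
        rw [← D.hN]; simp only [D.hπ, D.π_inv]; abel
      refine ⟨h1, ?_⟩
      apply D.I_inj h2 h1
      have h3 : ∀ u v : G, D.I (u⁻¹ * v⁻¹ * (u * v)) = D.c u⁻¹ v⁻¹ := by
        intro u v; unfold c; congr 1; group
      rw [h3, h3, ← D.Bf_π, ← D.Bf_π, D.π_inv, D.π_inv, D.π_inv, D.π_inv, ha, hb, ← map_neg,
        ← map_neg, hB]

theorem quot_pow (T : E →ₗ[ZMod p] E) (hP : ∀ x, D.QSof.P (T x) = D.QSof.P x)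
    (a : D.Del T ⧸ D.Dia T) : a ^ p = 1 := by
  induction a using QuotientGroup.induction_on with
  | H a =>
    rw [← QuotientGroup.mk_pow, QuotientGroup.eq_one_iff, mem_Dia]
    have ha := (D.mem_Del T _).mp a.2
    simp only [Subgroup.coe_pow, Prod.pow_fst, Prod.pow_snd]
    refine ⟨D.pow_mem _, ?_⟩
    apply D.I_inj (D.pow_mem _) (D.pow_mem _)
    rw [← D.P_π, ← D.P_π, ha, hP]

/-- the functional on pairs -/
theorem exists_lam (T : E →ₗ[ZMod p] E) (hB : ∀ x y, D.Bf (T x) (T y) = D.Bf x y)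
    (hP : ∀ x, D.QSof.P (T x) = D.QSof.P x) :
    ∃ lam : D.Del T →* Multiplicative (ZMod p), (∀ x ∈ D.Dia T, lam x = 1) ∧
      ∀ x : D.Del T, x.1.1 = 1 → Multiplicative.toAdd (lam x) = D.I x.1.2 := by
  have hmem : ((1 : G), D.j 1) ∈ D.Del T := by
    rw [mem_Del]
    simp only [D.π_one, map_zero]
    exact (D.hN _).mpr (D.j_mem 1)
  set a0 : D.Del T ⧸ D.Dia T := QuotientGroup.mk (⟨((1 : G), D.j 1), hmem⟩ : D.Del T) with ha0
  have ha0' : a0 ≠ 1 := by
    intro h1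
    rw [ha0, QuotientGroup.eq_one_iff, mem_Dia] at h1
    have h2 : D.j 1 = 1 := h1.2
    have h3 := D.I_j 1
    rw [h2, I_one] at h3
    exact zero_ne_one h3
  obtain ⟨lam0, hlam0⟩ := functional (D.quot_comm T hB) (D.quot_pow T hP) a0 ha0'
  set lam : D.Del T →* Multiplicative (ZMod p) := lam0.comp (QuotientGroup.mk' (D.Dia T))
    with hlam
  refine ⟨lam, ?_, ?_⟩
  · intro x hx
    rw [hlam, MonoidHom.comp_apply, QuotientGroup.mk'_apply, (QuotientGroup.eq_one_iff x).mpr hx,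
      map_one]
  · -- additive map in `c`
    have hmem' : ∀ c : ZMod p, ((1 : G), D.j c) ∈ D.Del T := by
      intro c
      rw [mem_Del]
      simp only [D.π_one, map_zero]
      exact (D.hN _).mpr (D.j_mem c)
    set μ : ZMod p →+ ZMod p := AddMonoidHom.mk' (fun c => Multiplicative.toAdd
      (lam ⟨((1 : G), D.j c), hmem' c⟩)) (by
        intro c d
        rw [← toAdd_mul, ← map_mul]
        congr 2
        apply Subtype.ext
        simp only [Subgroup.coe_mul, Prod.mk_mul_mk, mul_one, D.j_add]) with hμ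
    have hμ1 : ∀ c, μ c = c := by
      intro c
      have h := ZMod.map_smul μ c 1
      rw [smul_eq_mul, mul_one, smul_eq_mul] at h
      rw [h]
      have h2 : μ 1 = 1 := congrArg Multiplicative.toAdd hlam0
      rw [h2, mul_one]
    rintro ⟨⟨x1, x2⟩, hx⟩ h1
    simp only at h1
    subst h1
    have hx2 : x2 ∈ N := by
      rw [mem_Del] at hx
      simp only [D.π_one, map_zero] at hx
      exact (D.hN _).mp hx
    have h3 := hμ1 (D.I x2)
    rw [← h3]
    change _ = Multiplicative.toAdd (lam ⟨((1 : G), D.j (D.I x2)), hmem' _⟩)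
    congr 3
    exact Prod.ext rfl (D.j_I hx2).symm

/-- the lift of an isometry to the group -/
theorem lift [Finite G] (T : E →ₗ[ZMod p] E) (hTinj : Function.Injective T)
    (hB : ∀ x y, D.Bf (T x) (T y) = D.Bf x y)
    (hP : ∀ x, D.QSof.P (T x) = D.QSof.P x) :
    ∃ Th : G ≃* G, (∀ n ∈ N, Th n = n) ∧ ∀ g, D.π (Th g) = T (D.π g) := by
  obtain ⟨lam, h1, h2⟩ := D.exists_lam T hB hP
  have key : ∀ g : G, ∃ g' : G, ∃ h : (g, g') ∈ D.Del T, lam ⟨(g, g'), h⟩ = 1 := by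
    intro g
    obtain ⟨g1, hg1⟩ := D.hs (T (D.π g))
    have hm : (g, g1) ∈ D.Del T := hg1
    set c := Multiplicative.toAdd (lam ⟨(g, g1), hm⟩) with hc
    have hm2 : ((1 : G), D.j (-c)) ∈ D.Del T := by
      rw [mem_Del]
      simp only [D.π_one, map_zero]
      exact (D.hN _).mpr (D.j_mem _)
    have hm3 : (g, g1 * D.j (-c)) ∈ D.Del T := by
      have := (D.Del T).mul_mem hm hm2
      rwa [Prod.mk_mul_mk, mul_one] at this
    refine ⟨g1 * D.j (-c), hm3, ?_⟩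
    have h3 : (⟨(g, g1 * D.j (-c)), hm3⟩ : D.Del T) = ⟨(g, g1), hm⟩ * ⟨((1 : G), D.j (-c)), hm2⟩ := by
      apply Subtype.ext
      rw [Subgroup.coe_mul, Prod.mk_mul_mk, mul_one]
    rw [h3, map_mul]
    apply Multiplicative.toAdd.injective
    rw [toAdd_mul, h2 ⟨((1 : G), D.j (-c)), hm2⟩ rfl, ← hc, D.I_j, add_neg_cancel]
    rfl
  have uniq : ∀ (g a b : G) (ha : (g, a) ∈ D.Del T) (hb : (g, b) ∈ D.Del T),
      lam ⟨(g, a), ha⟩ = 1 → lam ⟨(g, b), hb⟩ = 1 → a = b := by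
    intro g a b ha hb hla hlb
    have hm : ((1 : G), a⁻¹ * b) ∈ D.Del T := by
      have := (D.Del T).mul_mem ((D.Del T).inv_mem ha) hb
      rwa [Prod.inv_mk, Prod.mk_mul_mk, inv_mul_cancel] at this
    have h3 : (⟨((1 : G), a⁻¹ * b), hm⟩ : D.Del T) = ⟨(g, a), ha⟩⁻¹ * ⟨(g, b), hb⟩ := by
      apply Subtype.ext
      rw [Subgroup.coe_mul, Subgroup.coe_inv, Prod.inv_mk, Prod.mk_mul_mk, inv_mul_cancel]
    have h4 : _ = D.I (a⁻¹ * b) := h2 ⟨((1 : G), a⁻¹ * b), hm⟩ rfl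
    rw [h3, map_mul, map_inv, hla, hlb] at h4
    have h5 : a⁻¹ * b ∈ N := by
      rw [mem_Del] at hm
      simp only [D.π_one, map_zero] at hm
      exact (D.hN _).mp hm
    have h6 : a⁻¹ * b = 1 := by
      apply D.I_inj h5 N.one_mem
      rw [I_one, ← h4]; simp
    exact (inv_mul_eq_one.mp h6)
  choose F hF1 hF2 using key
  set Fh : G →* G := MonoidHom.mk' F (by
    intro a b
    have hm : (a * b, F a * F b) ∈ D.Del T := (D.Del T).mul_mem (hF1 a) (hF1 b)
    apply uniq (a * b) _ _ (hF1 (a * b)) hm (hF2 (a * b))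
    have h3 : (⟨(a * b, F a * F b), hm⟩ : D.Del T) = ⟨(a, F a), hF1 a⟩ * ⟨(b, F b), hF1 b⟩ := rfl
    rw [h3, map_mul, hF2, hF2, mul_one]) with hFh
  have hFN : ∀ n ∈ N, F n = n := by
    intro n hn
    have hm : (n, n) ∈ D.Del T := by
      rw [mem_Del]
      simp only
      rw [(D.hN n).mpr hn, map_zero]
    apply uniq n _ _ (hF1 n) hm (hF2 n)
    apply h1
    exact ⟨hn, rfl⟩
  have hFinj : Function.Injective Fh := by
    rw [injective_iff_map_eq_one]
    intro g hg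
    have hg' : F g = 1 := hg
    have h3 := hF1 g
    rw [mem_Del] at h3
    simp only at h3
    rw [hg', D.π_one] at h3
    have h4 : D.π g = 0 := hTinj (by rw [← h3, map_zero])
    rw [← hFN g ((D.hN g).mp h4), hg']
  refine ⟨MulEquiv.ofBijective Fh ⟨hFinj, Finite.surjective_of_injective hFinj⟩, hFN, ?_⟩
  intro g
  exact hF1 g

end GD

end

end Pool.Agent.Helper246.AS
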