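import Pool.Agent.Helper246.ASCoh

set_option autoImplicit false
set_option linter.unusedSectionVars false

open Polynomial

namespace Pool.Agent.Helper246.AS

noncomputable section

variable {k : Type*} [Field k] {G : Type*} [Group G] [Finite G] {N : Subgroup G}

namespace VD

variable (D : VD G N k)

/-- product of the `X - v` over all `v` -/
def A : k[X] := ∏ q : G ⧸ N, (X - C (D.vb q))

theorem A_monic : D.A.Monic := monic_prod_of_monic _ _ (fun _ _ => monic_X_sub_C _)

theorem A_natDegree : D.A.natDegree = Fintype.card (G ⧸ N) := by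
  unfold A
  rw [natDegree_prod_of_monic _ _ (fun q _ => monic_X_sub_C _)]
  simp only [natDegree_X_sub_C, Finset.sum_const, smul_eq_mul, mul_one, Finset.card_univ]

theorem A_eq : D.A = X * D.L := by
  classical
  unfold A L
  rw [← Finset.mul_prod_erase Finset.univ (fun q : G ⧸ N => (X - C (D.vb q)))
    (Finset.mem_univ ((1 : G) : G ⧸ N))]
  simp only [vb_one, C_0, sub_zero]

theorem A_eval (y : k) : D.A.eval y = 0 ↔ ∃ q : G ⧸ N, D.vb q = y := by
  unfold A
  rw [eval_prod, Finset.prod_eq_zero_iff]
  constructor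
  · rintro ⟨q, _, h⟩
    refine ⟨q, ?_⟩
    rw [eval_sub, eval_X, eval_C, sub_eq_zero] at h
    exact h.symm
  · rintro ⟨q, h⟩
    refine ⟨q, Finset.mem_univ _, ?_⟩
    rw [eval_sub, eval_X, eval_C, h, sub_self]

theorem taylor_A (g : G) : taylor (D.v g) D.A = D.A := by
  unfold A
  change taylorAlgHom (D.v g) _ = _
  rw [map_prod]
  have h1 : ∀ q : G ⧸ N, taylorAlgHom (D.v g) (X - C (D.vb q)) = X - C (D.vb (g⁻¹ • q)) := by
    intro q
    change taylor (D.v g) _ = _
    rw [map_sub, taylor_X, taylor_C, vb_smul, D.v_inv, C_add, C_neg]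
    ring
  rw [Finset.prod_congr rfl (fun q _ => h1 q)]
  exact Equiv.prod_comp (MulAction.toPerm g⁻¹) (fun q : G ⧸ N => (X - C (D.vb q)))

theorem A_add (u : k) : taylor u D.A = D.A + C (D.A.eval u) := by
  rw [← sub_eq_zero, ← sub_sub]
  apply eq_zero_of_natDegree_lt_card_of_eval_eq_zero _ D.vb_inj
  · intro q
    obtain ⟨g, rfl⟩ := QuotientGroup.mk_surjective q
    rw [eval_sub, eval_sub, eval_C, taylor_eval, D.vb_mk]
    have h1 : D.A.eval (D.v g) = 0 := (D.A_eval _).mpr ⟨_, D.vb_mk g⟩
    have h2 : D.A.eval (D.v g + u) = D.A.eval u := by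
      conv_rhs => rw [← D.taylor_A g]
      rw [taylor_eval, add_comm]
    rw [h1, h2]; ring
  · have hcard : 0 < Fintype.card (G ⧸ N) := Fintype.card_pos
    have h1 : (taylor u D.A - D.A).degree < D.A.degree := by
      have h2 : (taylor u D.A).degree = D.A.degree := degree_taylor _ _
      rw [← h2]
      apply degree_sub_lt_left h2
      · rw [Ne, taylor_eq_zero]; exact D.A_monic.ne_zero
      · rw [leadingCoeff_taylor]
    have h3 : (taylor u D.A - D.A - C (D.A.eval u)).degree < (Fintype.card (G ⧸ N) : ℕ) := by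
      refine lt_of_le_of_lt (degree_sub_le _ _) ?_
      rw [max_lt_iff]
      constructor
      · rw [degree_eq_natDegree D.A_monic.ne_zero, A_natDegree] at h1
        exact h1
      · refine lt_of_le_of_lt degree_C_le ?_
        exact_mod_cast hcard
    rcases eq_or_ne (taylor u D.A - D.A - C (D.A.eval u)) 0 with h0 | h0
    · rw [h0, natDegree_zero]; exact hcard
    · exact (natDegree_lt_iff_degree_lt h0).mpr h3

theorem A_deriv [Infinite k] : derivative D.A = C (D.L.eval 0) := by
  apply Polynomial.funext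
  intro u
  rw [eval_C]
  have h1 : derivative (taylor u D.A) = taylor u (derivative D.A) := by
    rw [taylor_apply, taylor_apply, derivative_comp]
    simp
  rw [A_add, derivative_add, derivative_C, add_zero] at h1
  have h2 : (derivative D.A).eval u = (derivative D.A).eval 0 := by
    conv_rhs => rw [h1]
    rw [taylor_eval, zero_add]
  rw [h2, A_eq, derivative_mul, derivative_X]
  simp

end VD

/-- reduction to a polynomial of degree prime to `p` -/
theorem red (p : ℕ) [hp : Fact p.Prime] (n : ℕ) : ∀ f : (ZMod p)[X], f.natDegree ≤ n →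
    ∃ s : (ZMod p)[X], p * s.natDegree ≤ f.natDegree ∧
      (¬ p ∣ (f - (s ^ p - s)).natDegree ∨ (f - (s ^ p - s)).natDegree = 0) := by
  induction n with
  | zero =>
    intro f hf
    refine ⟨0, by simp, Or.inr ?_⟩
    rw [zero_pow hp.out.ne_zero, sub_zero, sub_zero]
    omega
  | succ n ih =>
    intro f hf
    by_cases h1 : p ∣ f.natDegree
    · by_cases h2 : f.natDegree = 0
      · refine ⟨0, by simp, Or.inr ?_⟩
        rw [zero_pow hp.out.ne_zero, sub_zero, sub_zero, h2]
      obtain ⟨j, hj⟩ := h1
      have hj0 : 0 < j := by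
        rcases Nat.eq_zero_or_pos j with h | h
        · rw [h, mul_zero] at hj; exact absurd hj h2
        · exact h
      have hp1 := hp.out.one_lt
      have hjlt : j < f.natDegree := by rw [hj]; nlinarith
      set a := f.leadingCoeff with ha
      set s1 : (ZMod p)[X] := C a * X ^ j with hs1
      have hs1p : s1 ^ p = C a * X ^ f.natDegree := by
        rw [hs1, mul_pow, ← C_pow, ZMod.pow_card, ← pow_mul, mul_comm j p, ← hj]
      have hf1 : (f - (s1 ^ p - s1)).natDegree < f.natDegree := by
        have h3 : f - (s1 ^ p - s1) = f.eraseLead + s1 := by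
          have h4 : f.eraseLead = f - C a * X ^ f.natDegree := by
            rw [← self_sub_C_mul_X_pow]
          rw [h4, hs1p]; ring
        rw [h3]
        refine lt_of_le_of_lt (natDegree_add_le _ _) (max_lt ?_ ?_)
        · refine lt_of_le_of_lt (eraseLead_natDegree_le f) (by omega)
        · exact lt_of_le_of_lt (natDegree_C_mul_X_pow_le _ _) hjlt
      obtain ⟨s2, hs2, hs2'⟩ := ih (f - (s1 ^ p - s1)) (by omega)
      refine ⟨s1 + s2, ?_, ?_⟩
      · have h5 : (s1 + s2).natDegree ≤ max s1.natDegree s2.natDegree := natDegree_add_le _ _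
        have h6 : s1.natDegree ≤ j := natDegree_C_mul_X_pow_le _ _
        rcases le_max_iff.mp h5 with h | h
        · calc p * (s1 + s2).natDegree ≤ p * j := Nat.mul_le_mul_left _ (h.trans h6)
            _ = f.natDegree := hj.symm
        · calc p * (s1 + s2).natDegree ≤ p * s2.natDegree := Nat.mul_le_mul_left _ h
            _ ≤ _ := hs2
            _ ≤ _ := hf1.le
      · have h7 : f - ((s1 + s2) ^ p - (s1 + s2)) = f - (s1 ^ p - s1) - (s2 ^ p - s2) := by
          rw [add_pow_char]; ring
        rw [h7]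
        exact hs2'
    · exact ⟨0, by simp, Or.inl (by rwa [zero_pow hp.out.ne_zero, sub_zero, sub_zero])⟩

theorem descent (p : ℕ) [hp : Fact p.Prime] [CharP k p] (f : k[X])
    (hf : f.map (frobenius k p) = f) :
    ∃ F : (ZMod p)[X], F.map (ZMod.castHom (dvd_refl p) k) = f := by
  have h1 : f ∈ Polynomial.lifts (ZMod.castHom (dvd_refl p) k) := by
    rw [Polynomial.lifts_iff_coeff_lifts]
    intro n
    have h2 : (f.coeff n) ^ p = f.coeff n := by
      conv_rhs => rw [← hf]
      rw [coeff_map, frobenius_def]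
    obtain ⟨m, hm⟩ := (mem_bot_iff_intCast p k).mp
      ((Subfield.mem_bot_iff_pow_eq_self k p).mpr h2)
    exact ⟨(m : ZMod p), by rw [map_intCast, hm]⟩
  exact (Polynomial.mem_lifts f).mp h1

/-- degree of the difference used in the separation argument -/
theorem diff_degree {p : ℕ} [hp : Fact p.Prime] [CharP k p] (D : VD G N k) (t : ℕ) (c : k)
    (hc : c ≠ 0) :
    p * (p * t * Fintype.card (G ⧸ N)) ≤
      ((D.A + C c) ^ (p * (p * t + 1)) - D.A ^ (p * (p * t + 1))).natDegree := by
  set L' := p * t + 1 with hL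
  have h1 : (D.A + C c) ^ (p * L') - D.A ^ (p * L') =
      ((((X + C c) ^ L' - X ^ L' : k[X])).comp D.A) ^ p := by
    rw [sub_comp, pow_comp, pow_comp, add_comp, X_comp, C_comp, sub_pow_char, ← pow_mul, ← pow_mul,
      mul_comm L' p]
  rw [h1, natDegree_pow, natDegree_comp, D.A_natDegree]
  refine Nat.mul_le_mul_left _ (Nat.mul_le_mul_right _ ?_)
  apply le_natDegree_of_ne_zero
  rw [coeff_sub, coeff_X_add_C_pow, coeff_X_pow]
  have h2 : p * t ≠ L' := by omega
  have h3 : L' - p * t = 1 := by omega
  rw [if_neg h2, sub_zero, h3, pow_one]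
  have h4 : L'.choose (p * t) = L' := by
    rw [hL, Nat.choose_succ_self_right]
  rw [h4]
  have h5 : (L' : k) = 1 := by
    rw [hL]; push_cast; rw [CharP.cast_eq_zero k p]; ring
  rw [h5, mul_one]
  exact hc

theorem arith2 {p t : ℕ} (hp : 2 ≤ p) (ht : 1 ≤ t) : ¬ (p * p * p * t ≤ p * (p * t + 1) + 1) := by
  intro h
  have h1 : 2 * (p * p * t) ≤ p * (p * p * t) := Nat.mul_le_mul_right _ hp
  have h3 : p * (p * t + 1) = p * p * t + p := by ring
  have h4 : p * (p * p * t) = p * p * p * t := by ring
  have h5 : p * p * 1 ≤ p * p * t := Nat.mul_le_mul_left _ ht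
  have h6 : 2 * p ≤ p * p := Nat.mul_le_mul_right _ hp
  omega

theorem arith3 {p L : ℕ} (hp : 2 ≤ p) (hL : 1 ≤ L) : ¬ (p * p * L ≤ p * L + 1) := by
  intro h
  have h1 : 2 * (p * L) ≤ p * (p * L) := Nat.mul_le_mul_right _ hp
  have h3 : p * (p * L) = p * p * L := by ring
  have h4 : p * 1 ≤ p * L := Nat.mul_le_mul_left _ hL
  omega

theorem arith4 {p t : ℕ} (hp : 2 ≤ p) (ht : 1 ≤ t) : t ≤ p * t + 1 := by
  have h1 : 1 * t ≤ p * t := Nat.mul_le_mul_right _ (by omega)
  omega

theorem arith5 {p t : ℕ} (ht : 1 ≤ t) : p < p * t + 1 := by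
  have h1 : p * 1 ≤ p * t := Nat.mul_le_mul_left _ ht
  omega

set_option maxHeartbeats 4000000 in
theorem partA {p : ℕ} [hp : Fact p.Prime] [CharP k p] [IsAlgClosed k]
    (D : VD G N k) (T : G ≃* G)
    (hTN : ∀ n ∈ N, T n = n) (hTv : ∀ g, D.v (T g) = (D.v g) ^ p)
    (hcent : ∀ n ∈ N, ∀ g : G, n * g = g * n) (i : N → k)
    (hi : ∀ a b : N, i (a * b) = i a + i b) (hip : ∀ a, (i a) ^ p = i a) :
    ∃ (F : (ZMod p)[X]) (r : G → k[X]),
      ¬ p ∣ (F.map (ZMod.castHom (dvd_refl p) k)).natDegree ∧
      p ^ 2 < (F.map (ZMod.castHom (dvd_refl p) k)).natDegree ∧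
      (∀ g g', r (g * g') = r g + taylor (D.v g) (r g')) ∧
      (∀ n : N, r n = C (i n)) ∧
      (∀ g, taylor (D.v g) (F.map (ZMod.castHom (dvd_refl p) k)) =
        (F.map (ZMod.castHom (dvd_refl p) k)) + ((r g) ^ p - r g)) ∧
      ∀ (u : k) (ρ : k[X]), taylor u (F.map (ZMod.castHom (dvd_refl p) k)) =
        (F.map (ZMod.castHom (dvd_refl p) k)) + (ρ ^ p - ρ) → ∃ g, D.v g = u := by
  obtain ⟨r, hr, hrn, hrT⟩ := equi D T hTN hTv hcent i hi hip
  obtain ⟨f0, hf0φ, hf0⟩ := f_exists D T hTv r hr (by
    intro n hn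
    have := hrn ⟨n, hn⟩
    simp only at this
    rw [this, ← C_pow, hip]) hrT
  set q := Fintype.card (G ⧸ N) with hq
  have hq0 : 0 < q := Fintype.card_pos
  set m0 := f0.natDegree with hm0
  set t := m0 + 1 with ht
  set L' := p * t + 1 with hL
  set M := p * L' + 1 with hM
  have hp2 := hp.out.two_le
  set f1 := f0 + D.A ^ M with hf1
  have hAdeg : (D.A ^ M).natDegree = q * M := by
    rw [natDegree_pow, D.A_natDegree, mul_comm]
  have ht1 : 1 ≤ t := by omega
  have hLt : t ≤ L' := arith4 hp2 ht1
  have hL1 : 1 ≤ L' := by omega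
  have hML : L' ≤ M := arith4 hp2 hL1
  have hf1deg : f1.natDegree ≤ q * M := by
    rw [hf1]
    refine (natDegree_add_le _ _).trans (max_le ?_ hAdeg.le)
    have : M ≤ q * M := Nat.le_mul_of_pos_left _ hq0
    omega
  have hAφ : D.A.map (frobenius k p) = D.A := by
    rw [D.A_eq, Polynomial.map_mul, map_X, L_frob D T hTv]
  have hf1φ : f1.map (frobenius k p) = f1 := by
    rw [hf1, Polynomial.map_add, Polynomial.map_pow, hf0φ, hAφ]
  have hf1g : ∀ g, taylor (D.v g) f1 = f1 + ((r g) ^ p - r g) := by
    intro g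
    rw [hf1, map_add, taylor_pow, D.taylor_A, hf0]; ring
  have hMk : (M : k) = 1 := by
    rw [hM]; push_cast; rw [CharP.cast_eq_zero k p]; ring
  set a0 := D.L.eval 0 with ha0
  have ha0' : a0 ≠ 0 := D.L_zero_ne
  have hf1' : derivative f1 = derivative f0 + C a0 * D.A ^ (p * L') := by
    rw [hf1, derivative_add, derivative_pow, D.A_deriv, hM, Nat.add_sub_cancel, ← hM, hMk, C_1,
      one_mul, ← ha0]
    ring
  have hder0 : (derivative f0).natDegree ≤ m0 := (natDegree_derivative_le f0).trans (Nat.sub_le _ _)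
  -- separation
  have hsep : ∀ (u : k) (ρ : k[X]), taylor u f1 = f1 + (ρ ^ p - ρ) → ∃ g, D.v g = u := by
    intro u ρ hρ
    by_cases hc : D.A.eval u = 0
    · obtain ⟨x, hx⟩ := (D.A_eval u).mp hc
      obtain ⟨g, rfl⟩ := QuotientGroup.mk_surjective x
      exact ⟨g, by rw [← D.vb_mk, hx]⟩
    exfalso
    set c := D.A.eval u with hcdef
    have h1 : p * ρ.natDegree ≤ q * M := by
      rcases Nat.eq_zero_or_pos ρ.natDegree with h | h
      · rw [h]; simp
      have h2 : (ρ ^ p - ρ).natDegree = p * ρ.natDegree := by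
        rw [natDegree_sub_eq_left_of_natDegree_lt, natDegree_pow]
        rw [natDegree_pow]
        have : 2 * ρ.natDegree ≤ p * ρ.natDegree := Nat.mul_le_mul_right _ hp2
        omega
      rw [← h2]
      have h3 : ρ ^ p - ρ = taylor u f1 - f1 := by rw [hρ]; ring
      rw [h3]
      refine (natDegree_sub_le _ _).trans ?_
      rw [natDegree_taylor, max_self]
      exact hf1deg
    have hdt : ∀ P : k[X], derivative (taylor u P) = taylor u (derivative P) := by
      intro P
      rw [taylor_apply, taylor_apply, derivative_comp]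
      simp
    have h2 : taylor u (derivative f1) = derivative f1 - derivative ρ := by
      rw [← hdt, hρ, derivative_add, derivative_sub, derivative_pow, CharP.cast_eq_zero k p]
      simp; ring
    rw [hf1'] at h2
    have h3 : C a0 * ((D.A + C c) ^ (p * L') - D.A ^ (p * L')) =
        derivative f0 - taylor u (derivative f0) - derivative ρ := by
      simp only [map_add, taylor_mul, taylor_C, taylor_pow] at h2
      rw [D.A_add] at h2
      linear_combination h2
    have h4 := diff_degree (p := p) D t c hc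
    rw [← natDegree_C_mul ha0', ← hL, h3, ← hq] at h4
    have h5 : (derivative f0 - taylor u (derivative f0) - derivative ρ).natDegree ≤
        max m0 ρ.natDegree := by
      refine (natDegree_sub_le _ _).trans (max_le_max ?_ ?_)
      · refine (natDegree_sub_le _ _).trans ?_
        rw [natDegree_taylor, max_self]; exact hder0
      · exact (natDegree_derivative_le ρ).trans (Nat.sub_le _ _)
    have h6 := h4.trans h5
    have h7 : t ≤ p * (p * t * q) := by
      calc t ≤ t * (p * p * q) := Nat.le_mul_of_pos_right _ (by positivity)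
        _ = p * (p * t * q) := by ring
    rcases le_max_iff.mp h6 with h | h
    · omega
    · have h8 : p * (p * (p * t * q)) ≤ q * M := (Nat.mul_le_mul_left p h).trans h1
      have h9 : q * (p * p * p * t) ≤ q * M := by
        calc q * (p * p * p * t) = p * (p * (p * t * q)) := by ring
          _ ≤ _ := h8
      have h10 : p * p * p * t ≤ M := Nat.le_of_mul_le_mul_left h9 hq0
      rw [hM, hL] at h10
      exact arith2 hp2 ht1 h10
  obtain ⟨F1, hF1⟩ := descent p f1 hf1φ
  obtain ⟨s, hs1, hs2⟩ := red p F1.natDegree F1 le_rfl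
  set sk := s.map (ZMod.castHom (dvd_refl p) k) with hsk
  set F := F1 - (s ^ p - s) with hF
  have hFk : F.map (ZMod.castHom (dvd_refl p) k) = f1 - (sk ^ p - sk) := by
    rw [hF, Polynomial.map_sub, Polynomial.map_sub, Polynomial.map_pow, hF1]
  have hinj : Function.Injective (ZMod.castHom (dvd_refl p) k) := RingHom.injective _
  have hFdeg : (F.map (ZMod.castHom (dvd_refl p) k)).natDegree = F.natDegree :=
    natDegree_map_eq_of_injective hinj F
  have hskdeg : p * sk.natDegree ≤ q * M := by
    rw [hsk, natDegree_map_eq_of_injective hinj]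
    refine hs1.trans ?_
    rw [← natDegree_map_eq_of_injective hinj F1, hF1]
    exact hf1deg
  have hbig : p ^ 2 < (F.map (ZMod.castHom (dvd_refl p) k)).natDegree := by
    rw [hFk]
    have h1 : derivative (f1 - (sk ^ p - sk)) = C a0 * D.A ^ (p * L') + (derivative f0 + derivative sk) := by
      rw [derivative_sub, derivative_sub, derivative_pow, CharP.cast_eq_zero k p, hf1']
      simp; ring
    have h2 : (C a0 * D.A ^ (p * L')).natDegree = q * (p * L') := by
      rw [natDegree_C_mul ha0', natDegree_pow, D.A_natDegree, mul_comm]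
    have h3 : (derivative f0 + derivative sk).natDegree < (C a0 * D.A ^ (p * L')).natDegree := by
      rw [h2]
      refine lt_of_le_of_lt (natDegree_add_le _ _) (max_lt ?_ ?_)
      · have : L' ≤ q * (p * L') := by
          calc L' ≤ L' * (q * p) := Nat.le_mul_of_pos_right _ (by positivity)
            _ = q * (p * L') := by ring
        omega
      · refine lt_of_le_of_lt ((natDegree_derivative_le sk).trans (Nat.sub_le _ _)) ?_
        by_contra hcon
        push Not at hcon
        have h4 : p * (q * (p * L')) ≤ q * M := (Nat.mul_le_mul_left p hcon).trans hskdeg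
        have h5 : q * (p * p * L') ≤ q * M := by
          calc q * (p * p * L') = p * (q * (p * L')) := by ring
            _ ≤ _ := h4
        have h6 : p * p * L' ≤ M := Nat.le_of_mul_le_mul_left h5 hq0
        rw [hM] at h6
        exact arith3 hp2 hL1 h6
    have h4 : (derivative (f1 - (sk ^ p - sk))).natDegree = q * (p * L') := by
      rw [h1, natDegree_add_eq_left_of_natDegree_lt h3, h2]
    have h5 := natDegree_derivative_le (f1 - (sk ^ p - sk))
    rw [h4] at h5
    have h6 : p * L' ≤ q * (p * L') := Nat.le_mul_of_pos_left _ hq0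
    have h7 : p ^ 2 < p * L' := by
      have : p < L' := arith5 ht1
      rw [pow_two]
      exact Nat.mul_lt_mul_of_pos_left this (by omega)
    omega
  refine ⟨F, fun g => r g - (taylor (D.v g) sk - sk), ?_, hbig, ?_, ?_, ?_, ?_⟩
  · rcases hs2 with h | h
    · rw [hFdeg]; exact h
    · exfalso
      rw [hFdeg, h] at hbig
      omega
  · intro g g'
    simp only [map_sub, taylor_taylor]
    rw [hr, D.hv]; ring
  · intro n
    have : D.v n = 0 := (D.hN n).mpr n.2
    simp only [this, taylor_zero, sub_self, sub_zero]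
    exact hrn n
  · intro g
    rw [hFk]
    simp only [map_sub, taylor_pow]
    rw [hf1g, sub_pow_char, sub_pow_char]
    ring
  · intro u ρ hρ
    apply hsep u (ρ + (taylor u sk - sk))
    rw [hFk] at hρ
    simp only [map_sub, taylor_pow] at hρ
    rw [add_pow_char, sub_pow_char]
    linear_combination hρ

end

end Pool.Agent.Helper246.AS
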