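import Pool.Agent.Helper246.ASGroup
import Pool.Agent.Helper246.ASPartA
import Pool.Agent.Helper246.ASLift2

set_option autoImplicit false
set_option linter.unusedSectionVars false

open Polynomial Module

namespace Pool.Agent.Helper246.AS

noncomputable section

theorem final (p : ℕ) [hp : Fact p.Prime] (k : Type*) [Field k] [IsAlgClosed k] [CharP k p]
    {G : Type*} [Group G] (N : Subgroup G) {E : Type*} [AddCommGroup E] [Module (ZMod p) E]
    [Finite E] (D : GD p G N E) :
    ∃ f : (ZMod p)[X], Irreducible (qpol p (f.map (ZMod.castHom (dvd_refl p) k))) ∧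
      ∃ P : Sylow p (AdjoinRoot (qpol p (f.map (ZMod.castHom (dvd_refl p) k))) ≃ₐ[k]
          AdjoinRoot (qpol p (f.map (ZMod.castHom (dvd_refl p) k)))),
      ∃ e : G ≃* (P : Subgroup (AdjoinRoot (qpol p (f.map (ZMod.castHom (dvd_refl p) k))) ≃ₐ[k]
          AdjoinRoot (qpol p (f.map (ZMod.castHom (dvd_refl p) k))))),
        ∀ g : G, g ∈ N ↔ ∀ x : RatFunc k,
          (e g).1 (AdjoinRoot.of (qpol p (f.map (ZMod.castHom (dvd_refl p) k))) x) =
            AdjoinRoot.of (qpol p (f.map (ZMod.castHom (dvd_refl p) k))) x := by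
  have hfinG : Finite G := by
    have h1 : Function.Injective (fun g : G => (D.π g, D.I (g * (D.s (D.π g))⁻¹))) := by
      intro g g' h
      rw [Prod.mk.injEq] at h
      obtain ⟨h2, h3⟩ := h
      have hm : ∀ g : G, g * (D.s (D.π g))⁻¹ ∈ N := by
        intro g
        rw [← D.hN, D.hπ, D.π_inv, D.π_s, add_neg_cancel]
      have h4 := D.I_inj (hm g) (hm g') h3
      rw [h2] at h4
      exact mul_right_cancel h4
    have : Finite (ZMod p) := inferInstance
    exact Finite.of_injective _ h1
  have hpg : IsPGroup p G := by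
    intro g
    refine ⟨2, ?_⟩
    rw [pow_two, pow_mul]
    exact D.pow_p (D.pow_mem g)
  let _ : Algebra (ZMod p) k := ZMod.algebra k p
  have hfd : FiniteDimensional (ZMod p) E := Module.Finite.of_finite
  obtain ⟨T, ψ, hψ, hψT, hBT, hPT⟩ := D.QSof.exists_T k
  have hTinj : Function.Injective T := by
    intro x y hxy
    apply hψ
    apply frobenius_inj k p
    rw [frobenius_def, frobenius_def, ← hψT, ← hψT, hxy]
  obtain ⟨Th, hTN, hTπ⟩ := D.lift T hTinj hBT hPT
  let V : VD G N k :=
    { v := fun g => ψ (D.π g)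
      hv := fun g h => by rw [D.hπ, map_add]
      hN := fun g => by rw [← D.hN, map_eq_zero_iff ψ hψ] }
  have hVv : ∀ g, V.v g = ψ (D.π g) := fun g => rfl
  set ik : N → k := fun n => algebraMap (ZMod p) k (D.i n) with hik
  obtain ⟨F, r, h1, h2, h3, h4, h5, h6⟩ := partA (p := p) V Th hTN
    (fun g => by rw [hVv, hVv, hTπ, hψT]) (fun n hn g => D.central hn g) ik
    (fun a b => by rw [hik]; simp only; rw [D.hi, map_add])
    (fun a => by rw [hik]; simp only; rw [← map_pow, ZMod.pow_card])
  have hirr := qpol_irr p (F.map (ZMod.castHom (dvd_refl p) k)) h1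
  have hirr' : Fact (Irreducible (qpol p (F.map (ZMod.castHom (dvd_refl p) k)))) := ⟨hirr⟩
  refine ⟨F, hirr, ?_⟩
  apply assembly p (F.map (ZMod.castHom (dvd_refl p) k)) N hpg h1 h2 V.v r V.hv h3 h5 V.hN _ _ h6
  · intro g hg hr
    have h7 := h4 ⟨g, hg⟩
    simp only at h7
    rw [hr] at h7
    have h8 : ik ⟨g, hg⟩ = 0 := by
      have := congrArg (fun q => coeff q 0) h7
      simpa using this.symm
    have h9 : D.i ⟨g, hg⟩ = 0 := (map_eq_zero _).mp h8
    apply D.I_inj hg N.one_mem
    rw [D.I_mem hg, D.I_one, h9]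
  · intro n
    refine ⟨D.j (n : ZMod p), D.j_mem _, ?_⟩
    have h7 := h4 ⟨D.j (n : ZMod p), D.j_mem _⟩
    simp only at h7
    rw [h7, hik]
    simp only
    rw [← D.I_mem (D.j_mem _), D.I_j, map_intCast, map_intCast]

end

end Pool.Agent.Helper246.AS
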