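import Mathlib

set_option autoImplicit false
set_option linter.unusedSectionVars false

open Module

namespace Pool.Agent.Helper246.AS

noncomputable section

theorem zmod2' (a : ZMod 2) : a = 0 ∨ a = 1 := by
  revert a
  decide

variable {p : ℕ} [hp : Fact p.Prime]

variable (p) in
/-- `1` if `p = 2`, else `0` -/
def kap : ZMod p := if p = 2 then 1 else 0

theorem kap_add : kap p + kap p = 0 := by
  unfold kap
  split_ifs with h
  · have h1 : ((2 : ℕ) : ZMod p) = 0 := by rw [← h]; exact ZMod.natCast_self p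
    have h2 : (1 : ZMod p) + 1 = ((2 : ℕ) : ZMod p) := by norm_num
    rw [h2, h1]
  · simp

theorem kap_sq : kap p * kap p = kap p := by
  unfold kap
  split_ifs <;> simp

/-- a space with an alternating form and a power map -/
structure QS (p : ℕ) [Fact p.Prime] (E : Type*) [AddCommGroup E] [Module (ZMod p) E] where
  B : E →ₗ[ZMod p] E →ₗ[ZMod p] ZMod p
  P : E → ZMod p
  alt : ∀ x, B x x = 0
  hP : ∀ x y, P (x + y) = P x + P y + kap p * B x y

namespace QS

variable {E : Type*} [AddCommGroup E] [Module (ZMod p) E] (S : QS p E)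

theorem skew (x y : E) : S.B x y = - S.B y x := by
  have h := S.alt (x + y)
  simp only [map_add, LinearMap.add_apply, S.alt] at h
  linear_combination h

theorem P_zero : S.P 0 = 0 := by
  have h := S.hP 0 0
  rw [map_zero, mul_zero, add_zero, add_zero] at h
  linear_combination -h

theorem P_neg (x : E) : S.P (-x) = - S.P x := by
  have h := S.hP x (-x)
  rw [add_neg_cancel, P_zero, map_neg, S.alt, neg_zero, mul_zero, add_zero] at h
  linear_combination -h

theorem kB_symm (x y : E) : kap p * S.B x y = kap p * S.B y x := by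
  rw [S.skew x y]
  have := kap_add (p := p)
  linear_combination (- S.B y x) * this

/-- restriction to a subspace -/
def res (W : Submodule (ZMod p) E) : QS p W where
  B := S.B.compl₁₂ W.subtype W.subtype
  P := fun x => S.P x
  alt := fun x => S.alt x
  hP := fun x y => S.hP x y

theorem adapted_basis (H : Type*) [AddCommGroup H] [Module (ZMod p) H]
    [FiniteDimensional (ZMod p) H] (l : H →ₗ[ZMod p] ZMod p) :
    ∃ (r : ℕ) (h : Basis (Fin r) (ZMod p) H), ∀ j : Fin r, (j : ℕ) ≠ 0 → l (h j) = 0 := by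
  by_cases hl : l = 0
  · exact ⟨_, finBasis (ZMod p) H, fun j _ => by rw [hl]; rfl⟩
  obtain ⟨v, hv⟩ : ∃ v, l v ≠ 0 := by
    by_contra hcon
    push Not at hcon
    exact hl (LinearMap.ext hcon)
  have hli : ∀ (c : ZMod p), ∀ x ∈ LinearMap.ker l, c • v + x = 0 → c = 0 := by
    intro c x hx hc
    have h1 := congrArg l hc
    rw [map_add, map_smul, LinearMap.mem_ker.mp hx, add_zero, map_zero, smul_eq_mul] at h1
    exact (mul_eq_zero.mp h1).resolve_right hv
  have hsp : ∀ z : H, ∃ c : ZMod p, z + c • v ∈ LinearMap.ker l := by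
    intro z
    refine ⟨- (l z * (l v)⁻¹), ?_⟩
    rw [LinearMap.mem_ker, map_add, map_smul, smul_eq_mul, neg_mul, mul_assoc, inv_mul_cancel₀ hv,
      mul_one, add_neg_cancel]
  refine ⟨_, Basis.mkFinCons v (finBasis (ZMod p) (LinearMap.ker l)) hli hsp, ?_⟩
  intro j
  rw [Basis.coe_mkFinCons]
  refine Fin.cases ?_ (fun i => ?_) j
  · intro h; exact absurd rfl h
  · intro _
    rw [Fin.cons_succ]
    exact (finBasis (ZMod p) (LinearMap.ker l) i).2

/-- hyperplane criterion -/
theorem basis_of_hyper [FiniteDimensional (ZMod p) E] (φ : E →ₗ[ZMod p] ZMod p) (u0 : E)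
    (hu : φ u0 ≠ 0) (hB : ∀ x y, φ x = 0 → φ y = 0 → S.B x y = 0)
    (hPP : ∀ x, φ x = 0 → S.P x = kap p * S.B u0 x) :
    ∃ (s : ℕ) (u : Basis (Fin s) (ZMod p) E),
      (∀ i j : Fin s, (i : ℕ) ≠ 0 → (j : ℕ) ≠ 0 → S.B (u i) (u j) = 0) ∧
      (∀ i j : Fin s, (i : ℕ) = 0 → 2 ≤ (j : ℕ) → S.B (u i) (u j) = 0) ∧
      (∀ i j : Fin s, (i : ℕ) = 0 → (j : ℕ) ≠ 0 → S.P (u j) = kap p * S.B (u i) (u j)) := by
  obtain ⟨r, h, hh⟩ := adapted_basis (LinearMap.ker φ) ((S.B u0).comp (LinearMap.ker φ).subtype)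
  have hli : ∀ (c : ZMod p), ∀ x ∈ LinearMap.ker φ, c • u0 + x = 0 → c = 0 := by
    intro c x hx hc
    have h1 := congrArg φ hc
    rw [map_add, map_smul, LinearMap.mem_ker.mp hx, add_zero, map_zero, smul_eq_mul] at h1
    exact (mul_eq_zero.mp h1).resolve_right hu
  have hsp : ∀ z : E, ∃ c : ZMod p, z + c • u0 ∈ LinearMap.ker φ := by
    intro z
    refine ⟨- (φ z * (φ u0)⁻¹), ?_⟩
    rw [LinearMap.mem_ker, map_add, map_smul, smul_eq_mul, neg_mul, mul_assoc, inv_mul_cancel₀ hu,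
      mul_one, add_neg_cancel]
  refine ⟨r + 1, Basis.mkFinCons u0 h hli hsp, ?_, ?_, ?_⟩
  · intro i j
    rw [Basis.coe_mkFinCons]
    refine Fin.cases (fun h => absurd rfl h) (fun i => ?_) i
    refine Fin.cases (fun _ h => absurd rfl h) (fun j => ?_) j
    intro _ _
    rw [Fin.cons_succ, Fin.cons_succ]
    exact hB _ _ (h i).2 (h j).2
  · intro i j
    rw [Basis.coe_mkFinCons]
    refine Fin.cases ?_ (fun i h => by simp at h) i
    refine Fin.cases (fun _ h => by simp at h) (fun j => ?_) j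
    intro _ h2
    rw [Fin.cons_succ, Fin.cons_zero]
    exact hh j (by rw [Fin.val_succ] at h2; omega)
  · intro i j
    rw [Basis.coe_mkFinCons]
    refine Fin.cases ?_ (fun i h => by simp at h) i
    refine Fin.cases (fun _ h => absurd rfl h) (fun j => ?_) j
    intro _ _
    rw [Fin.cons_succ, Fin.cons_zero]
    exact hPP _ (h j).2

/-- no special pair -/
def NoQ : Prop := ∀ x y, ¬ (S.B x y = 1 ∧ S.P x = kap p ∧ S.P y = kap p)

/-- `P` as a linear map when the twisting vanishes -/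
def Plin (h : ∀ x y, kap p * S.B x y = 0) : E →ₗ[ZMod p] ZMod p :=
  AddMonoidHom.toZModLinearMap p
    { toFun := S.P, map_zero' := S.P_zero, map_add' := fun x y => by rw [S.hP, h, add_zero] }

theorem good_of_additive [FiniteDimensional (ZMod p) E] [Nontrivial E]
    (h : ∀ x y, kap p * S.B x y = 0)
    (h2 : ∀ x y, S.P x = 0 → S.P y = 0 → S.B x y = 0) :
    ∃ (s : ℕ) (u : Basis (Fin s) (ZMod p) E),
      (∀ i j : Fin s, (i : ℕ) ≠ 0 → (j : ℕ) ≠ 0 → S.B (u i) (u j) = 0) ∧
      (∀ i j : Fin s, (i : ℕ) = 0 → 2 ≤ (j : ℕ) → S.B (u i) (u j) = 0) ∧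
      (∀ i j : Fin s, (i : ℕ) = 0 → (j : ℕ) ≠ 0 → S.P (u j) = kap p * S.B (u i) (u j)) := by
  by_cases hP0 : ∃ u0, S.P u0 ≠ 0
  · obtain ⟨u0, hu0⟩ := hP0
    refine S.basis_of_hyper (S.Plin h) u0 hu0 (fun x y hx hy => h2 x y hx hy) ?_
    intro x hx
    rw [h]; exact hx
  · push Not at hP0
    obtain ⟨u0, hu0⟩ := exists_ne (0 : E)
    obtain ⟨φ, hφ⟩ : ∃ φ : E →ₗ[ZMod p] ZMod p, φ u0 ≠ 0 := by
      by_contra hcon
      push Not at hcon
      exact hu0 ((Module.forall_dual_apply_eq_zero_iff (ZMod p) u0).mp hcon)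
    refine S.basis_of_hyper φ u0 hφ (fun x y _ _ => h2 x y (hP0 x) (hP0 y)) ?_
    intro x _
    rw [h, hP0]

theorem good_odd [FiniteDimensional (ZMod p) E] [Nontrivial E] (hp2 : p ≠ 2) (hno : S.NoQ) :
    ∃ (s : ℕ) (u : Basis (Fin s) (ZMod p) E),
      (∀ i j : Fin s, (i : ℕ) ≠ 0 → (j : ℕ) ≠ 0 → S.B (u i) (u j) = 0) ∧
      (∀ i j : Fin s, (i : ℕ) = 0 → 2 ≤ (j : ℕ) → S.B (u i) (u j) = 0) ∧
      (∀ i j : Fin s, (i : ℕ) = 0 → (j : ℕ) ≠ 0 → S.P (u j) = kap p * S.B (u i) (u j)) := by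
  have hk : kap p = 0 := by unfold kap; rw [if_neg hp2]
  have h0 : ∀ x y, kap p * S.B x y = 0 := fun x y => by rw [hk, zero_mul]
  apply S.good_of_additive h0
  intro x y hx hy
  by_contra hxy
  apply hno ((S.B x y)⁻¹ • x) y
  refine ⟨?_, ?_, ?_⟩
  · rw [map_smul, LinearMap.smul_apply, smul_eq_mul, inv_mul_cancel₀ hxy]
  · have : S.P ((S.B x y)⁻¹ • x) = (S.Plin h0) ((S.B x y)⁻¹ • x) := rfl
    rw [this, map_smul]
    have h2 : S.Plin h0 x = S.P x := rfl
    rw [h2, hx, smul_zero, hk]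
  · rw [hk, hy]

theorem zmod2 (hp2 : p = 2) (a : ZMod p) : a = 0 ∨ a = 1 := by
  subst hp2
  exact zmod2' a

theorem good_two [FiniteDimensional (ZMod p) E] [Nontrivial E] (hp2 : p = 2) (hno : S.NoQ) :
    ∃ (s : ℕ) (u : Basis (Fin s) (ZMod p) E),
      (∀ i j : Fin s, (i : ℕ) ≠ 0 → (j : ℕ) ≠ 0 → S.B (u i) (u j) = 0) ∧
      (∀ i j : Fin s, (i : ℕ) = 0 → 2 ≤ (j : ℕ) → S.B (u i) (u j) = 0) ∧
      (∀ i j : Fin s, (i : ℕ) = 0 → (j : ℕ) ≠ 0 → S.P (u j) = kap p * S.B (u i) (u j)) := by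
  have hk : kap p = 1 := by unfold kap; rw [if_pos hp2]
  have h11 : (1 : ZMod p) + 1 = 0 := by rw [← hk]; exact kap_add
  have hcomm : ∀ x y, S.B x y = S.B y x := by
    intro x y
    rw [S.skew x y]
    linear_combination (- S.B y x) * h11
  have hP : ∀ x y, S.P (x + y) = S.P x + S.P y + S.B x y := by
    intro x y; rw [S.hP, hk, one_mul]
  by_cases hB : ∀ x y, S.B x y = 0
  · exact S.good_of_additive (fun x y => by rw [hB, mul_zero]) (fun x y _ _ => hB x y)
  push Not at hB
  obtain ⟨x, y, hxy⟩ := hB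
  have hxy1 : S.B x y = 1 := (zmod2 hp2 _).resolve_left hxy
  -- choose a pair with `P x = 0`, `P y = 1`
  obtain ⟨x, y, hxy, hx, hy⟩ : ∃ x y, S.B x y = 1 ∧ S.P x = 0 ∧ S.P y = 1 := by
    rcases zmod2 hp2 (S.P x) with hx | hx <;> rcases zmod2 hp2 (S.P y) with hy | hy
    · refine ⟨x, x + y, ?_, hx, ?_⟩
      · rw [map_add, S.alt, zero_add, hxy1]
      · rw [hP, hx, hy, hxy1]; ring
    · exact ⟨x, y, hxy1, hx, hy⟩
    · exact ⟨y, x, by rw [hcomm, hxy1], hy, hx⟩
    · exact absurd ⟨hxy1, by rw [hx, hk], by rw [hy, hk]⟩ (hno x y)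
  have key0 : ∀ w, S.B w y = 0 → S.B x w = 0 → S.P w = 0 := by
    intro w hw1 hw2
    rcases zmod2 hp2 (S.P w) with hw | hw
    · exact hw
    exfalso
    apply hno (x + w) (x + w + y)
    have hwx : S.B w x = 0 := by rw [hcomm, hw2]
    refine ⟨?_, ?_, ?_⟩
    · simp only [map_add, LinearMap.add_apply, S.alt, hw1, hw2, hwx, hxy]; ring
    · rw [hP, hx, hw, hw2, hk]; ring
    · rw [hP, hP, hx, hw, hw2, hy, map_add, LinearMap.add_apply, hxy, hw1, hk]
      linear_combination h11
  have key : ∀ w, S.B w y = 0 → S.P w = S.B x w := by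
    intro w hw1
    rcases zmod2 hp2 (S.B x w) with hw | hw
    · rw [key0 w hw1 hw, hw]
    · have h1 : S.P (w + y) = 0 := by
        apply key0
        · rw [map_add, LinearMap.add_apply, hw1, S.alt, add_zero]
        · rw [map_add, hw, hxy, h11]
      rw [hP, hw1, hy, add_zero] at h1
      rw [hw]
      linear_combination h1 - h11
  refine S.basis_of_hyper (S.B.flip y) x (by rw [LinearMap.flip_apply, hxy]; exact one_ne_zero) ?_ ?_
  · intro a b ha hb
    rw [LinearMap.flip_apply] at ha hb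
    have h1 := hP a b
    rw [key (a + b) (by rw [map_add, LinearMap.add_apply, ha, hb, add_zero]), key a ha, key b hb,
      map_add] at h1
    linear_combination -h1
  · intro a ha
    rw [LinearMap.flip_apply] at ha
    rw [hk, one_mul]
    exact key a ha

theorem good [FiniteDimensional (ZMod p) E] (hno : S.NoQ) :
    ∃ (s : ℕ) (u : Basis (Fin s) (ZMod p) E),
      (∀ i j : Fin s, (i : ℕ) ≠ 0 → (j : ℕ) ≠ 0 → S.B (u i) (u j) = 0) ∧
      (∀ i j : Fin s, (i : ℕ) = 0 → 2 ≤ (j : ℕ) → S.B (u i) (u j) = 0) ∧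
      (∀ i j : Fin s, (i : ℕ) = 0 → (j : ℕ) ≠ 0 → S.P (u j) = kap p * S.B (u i) (u j)) := by
  rcases subsingleton_or_nontrivial E with h | h
  · exact ⟨0, Basis.empty E, fun i => i.elim0, fun i => i.elim0, fun i => i.elim0⟩
  · by_cases hp2 : p = 2
    · exact S.good_two hp2 hno
    · exact S.good_odd hp2 hno

/-- a family of mutually orthogonal special pairs -/
structure QF {m : ℕ} (x y : Fin m → E) : Prop where
  xx : ∀ i j, S.B (x i) (x j) = 0
  yy : ∀ i j, S.B (y i) (y j) = 0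
  xy : ∀ i j, S.B (x i) (y j) = if i = j then 1 else 0
  Px : ∀ i, S.P (x i) = kap p
  Py : ∀ i, S.P (y i) = kap p

theorem QF.yx {m : ℕ} {x y : Fin m → E} (h : S.QF x y) (i j : Fin m) :
    S.B (y i) (x j) = if i = j then -1 else 0 := by
  rw [S.skew, h.xy]
  by_cases hij : i = j
  · rw [if_pos hij, if_pos hij.symm]
  · rw [if_neg hij, if_neg (fun h => hij h.symm), neg_zero]

/-- the orthogonal complement of the family -/
def perp {m : ℕ} (x y : Fin m → E) : Submodule (ZMod p) E :=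
  (⨅ i, LinearMap.ker (S.B.flip (x i))) ⊓ (⨅ i, LinearMap.ker (S.B.flip (y i)))

theorem mem_perp {m : ℕ} (x y : Fin m → E) (w : E) :
    w ∈ S.perp x y ↔ (∀ i, S.B w (x i) = 0) ∧ (∀ i, S.B w (y i) = 0) := by
  unfold perp
  simp only [Submodule.mem_inf, Submodule.mem_iInf, LinearMap.mem_ker, LinearMap.flip_apply]

theorem proj {m : ℕ} {x y : Fin m → E} (h : S.QF x y) (w : E) :
    w - ∑ i, S.B w (y i) • x i + ∑ i, S.B w (x i) • y i ∈ S.perp x y := by
  rw [S.mem_perp]
  constructor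
  · intro j
    simp only [map_add, map_sub, map_sum, LinearMap.add_apply, LinearMap.sub_apply,
      LinearMap.sum_apply, map_smul, LinearMap.smul_apply, h.xx, h.yx, smul_eq_mul, mul_zero,
      Finset.sum_const_zero, mul_ite, mul_neg, mul_one, Finset.sum_ite_eq', Finset.mem_univ,
      if_true]
    ring
  · intro j
    simp only [map_add, map_sub, map_sum, LinearMap.add_apply, LinearMap.sub_apply,
      LinearMap.sum_apply, map_smul, LinearMap.smul_apply, h.yy, h.xy, smul_eq_mul, mul_zero,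
      Finset.sum_const_zero, mul_ite, mul_one, Finset.sum_ite_eq', Finset.mem_univ,
      if_true]
    ring

theorem QF.indep {m : ℕ} {x y : Fin m → E} (h : S.QF x y) : LinearIndependent (ZMod p) x := by
  rw [Fintype.linearIndependent_iff]
  intro g hg j
  have h1 := congrArg (S.B.flip (y j)) hg
  simp only [map_sum, map_smul, LinearMap.flip_apply, h.xy, smul_eq_mul, mul_ite, mul_one,
    mul_zero, Finset.sum_ite_eq', Finset.mem_univ, if_true, map_zero] at h1
  exact h1

theorem exists_max [FiniteDimensional (ZMod p) E] :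
    ∃ (m : ℕ) (x y : Fin m → E), S.QF x y ∧ ∀ x' y' : Fin (m + 1) → E, ¬ S.QF x' y' := by
  by_contra hcon
  push Not at hcon
  have hall : ∀ m : ℕ, ∃ x y : Fin m → E, S.QF x y := by
    intro m
    induction m with
    | zero =>
      exact ⟨fun i => i.elim0, fun i => i.elim0,
        ⟨fun i => i.elim0, fun i => i.elim0, fun i => i.elim0, fun i => i.elim0,
          fun i => i.elim0⟩⟩
    | succ m ih =>
      obtain ⟨x, y, h⟩ := ih
      obtain ⟨x', y', h'⟩ := hcon m x y h
      exact ⟨x', y', h'⟩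
  obtain ⟨x, y, h⟩ := hall (finrank (ZMod p) E + 1)
  have h1 := (QF.indep S h).fintype_card_le_finrank
  rw [Fintype.card_fin] at h1
  omega

theorem QF.cons {m : ℕ} {x y : Fin m → E} (h : S.QF x y) {a b : E} (ha : a ∈ S.perp x y)
    (hb : b ∈ S.perp x y) (hab : S.B a b = 1) (hPa : S.P a = kap p) (hPb : S.P b = kap p) :
    S.QF (Fin.cons a x : Fin (m + 1) → E) (Fin.cons b y : Fin (m + 1) → E) := by
  rw [S.mem_perp] at ha hb
  have ha1 : ∀ i, S.B (x i) a = 0 := fun i => by rw [S.skew, ha.1, neg_zero]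
  have ha2 : ∀ i, S.B (y i) a = 0 := fun i => by rw [S.skew, ha.2, neg_zero]
  have hb1 : ∀ i, S.B (x i) b = 0 := fun i => by rw [S.skew, hb.1, neg_zero]
  have hb2 : ∀ i, S.B (y i) b = 0 := fun i => by rw [S.skew, hb.2, neg_zero]
  refine ⟨?_, ?_, ?_, ?_, ?_⟩
  · intro i j
    refine Fin.cases ?_ (fun i => ?_) i <;> refine Fin.cases ?_ (fun j => ?_) j
    · exact S.alt a
    · exact ha.1 j
    · exact ha1 i
    · exact h.xx i j
  · intro i j
    refine Fin.cases ?_ (fun i => ?_) i <;> refine Fin.cases ?_ (fun j => ?_) j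
    · exact S.alt b
    · exact hb.2 j
    · exact hb2 i
    · exact h.yy i j
  · intro i j
    refine Fin.cases ?_ (fun i => ?_) i <;> refine Fin.cases ?_ (fun j => ?_) j
    · rw [if_pos rfl]; exact hab
    · rw [if_neg (Fin.succ_ne_zero j).symm]; exact ha.2 j
    · rw [if_neg (Fin.succ_ne_zero i)]; exact hb1 i
    · simp only [Fin.cons_succ, Fin.succ_inj]; exact h.xy i j
  · intro i
    refine Fin.cases ?_ (fun i => ?_) i
    · exact hPa
    · exact h.Px i
  · intro i
    refine Fin.cases ?_ (fun i => ?_) i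
    · exact hPb
    · exact h.Py i

/-- the extended sequence -/
def seqZ {m : ℕ} (x y : Fin m → E) (n : ℕ) : E :=
  if h : n < m then x ⟨n, h⟩ else if h' : n - m < m then y ⟨n - m, h'⟩
    else if h0 : 0 < m then y ⟨0, h0⟩ - x ⟨0, h0⟩ else 0

/-- the extended sequence -/
def seqU {s : ℕ} (u : Fin s → E) (n : ℕ) : E := if h : n < s then u ⟨n, h⟩ else 0

/-- the Gram matrix -/
def cc (p : ℕ) (m i j : ℕ) : ZMod p := (if j = i + m then 1 else 0) - (if i = j + m then 1 else 0)

theorem cc_succ (m i j : ℕ) : cc p m (i + 1) (j + 1) = cc p m i j := by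
  unfold cc
  have h1 : (j + 1 = i + 1 + m) ↔ (j = i + m) := by omega
  have h2 : (i + 1 = j + 1 + m) ↔ (i = j + m) := by omega
  simp only [h1, h2]

theorem seqZ_B {m : ℕ} {x y : Fin m → E} (h : S.QF x y) {i j : ℕ} (hi : i ≤ 2 * m)
    (hj : j ≤ 2 * m) (hij : (i < 2 * m ∧ j < 2 * m) ∨ (0 < i ∧ 0 < j)) :
    S.B (seqZ x y i) (seqZ x y j) = cc p m i j := by
  unfold seqZ cc
  by_cases hi1 : i < m
  · rw [dif_pos hi1]
    by_cases hj1 : j < m
    · rw [dif_pos hj1, h.xx, if_neg (by omega), if_neg (by omega), sub_zero]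
    · rw [dif_neg hj1]
      by_cases hj2 : j - m < m
      · rw [dif_pos hj2, h.xy]
        by_cases hij : j = i + m
        · rw [if_pos (by rw [Fin.mk.injEq]; omega), if_pos hij, if_neg (by omega), sub_zero]
        · rw [if_neg (by rw [Fin.mk.injEq]; omega), if_neg hij, if_neg (by omega), sub_zero]
      · rw [dif_neg hj2, dif_pos (by omega), map_sub, h.xy, h.xx,
          if_neg (by rw [Fin.mk.injEq]; omega), if_neg (by omega), if_neg (by omega)]
  · rw [dif_neg hi1]
    by_cases hi2 : i - m < m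
    · rw [dif_pos hi2]
      by_cases hj1 : j < m
      · rw [dif_pos hj1, QF.yx S h]
        by_cases hij : i = j + m
        · rw [if_pos (by rw [Fin.mk.injEq]; omega), if_pos hij, if_neg (by omega), zero_sub]
        · rw [if_neg (by rw [Fin.mk.injEq]; omega), if_neg hij, if_neg (by omega), sub_zero]
      · rw [dif_neg hj1]
        by_cases hj2 : j - m < m
        · rw [dif_pos hj2, h.yy, if_neg (by omega), if_neg (by omega), sub_zero]
        · rw [dif_neg hj2, dif_pos (by omega), map_sub, h.yy, QF.yx S h]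
          by_cases hij : i = m
          · rw [if_pos (by rw [Fin.mk.injEq]; omega), if_pos (by omega), if_neg (by omega)]
            ring
          · rw [if_neg (by rw [Fin.mk.injEq]; omega), if_neg (by omega), if_neg (by omega)]
    · rw [dif_neg hi2, dif_pos (by omega)]
      by_cases hj1 : j < m
      · rw [dif_pos hj1, map_sub, LinearMap.sub_apply, h.xx, QF.yx S h,
          if_neg (by rw [Fin.mk.injEq]; omega), if_neg (by omega), if_neg (by omega)]
      · rw [dif_neg hj1]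
        by_cases hj2 : j - m < m
        · rw [dif_pos hj2, map_sub, LinearMap.sub_apply, h.yy, h.xy]
          by_cases hij : j = m
          · rw [if_pos (by rw [Fin.mk.injEq]; omega), if_neg (by omega), if_pos (by omega)]
          · rw [if_neg (by rw [Fin.mk.injEq]; omega), if_neg (by omega), if_neg (by omega)]
        · rw [dif_neg hj2, S.alt, if_neg (by omega), if_neg (by omega), sub_zero]

theorem seqZ_P {m : ℕ} {x y : Fin m → E} (h : S.QF x y) (hm : 0 < m) (i : ℕ) :
    S.P (seqZ x y i) = kap p := by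
  unfold seqZ
  split_ifs with h1 h2
  · exact h.Px _
  · exact h.Py _
  · rw [sub_eq_add_neg, S.hP, h.Py, P_neg, h.Px, map_neg, QF.yx S h, if_pos rfl]
    rw [neg_neg, mul_one]
    linear_combination

theorem seqZ_perp {m : ℕ} {x y : Fin m → E} (i : ℕ) {w : E} (hw : w ∈ S.perp x y) :
    S.B w (seqZ x y i) = 0 := by
  rw [S.mem_perp] at hw
  unfold seqZ
  split_ifs with h1 h2
  · exact hw.1 _
  · exact hw.2 _
  · rw [map_sub, hw.1, hw.2, sub_zero]
  · exact map_zero _

end QS

end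

end Pool.Agent.Helper246.AS
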