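import Pool.Agent.Helper246.ASEmb
import Pool.Agent.Helper246.ASForm

set_option autoImplicit false
set_option linter.unusedSectionVars false

open Module

namespace Pool.Agent.Helper246.AS

noncomputable section

variable {p : ℕ} [hp : Fact p.Prime]

namespace QS

variable {E : Type*} [AddCommGroup E] [Module (ZMod p) E] (S : QS p E)

theorem std_basis {m s : ℕ} {x y : Fin m → E} (h : S.QF x y)
    (u : Basis (Fin s) (ZMod p) (S.perp x y)) :
    ∃ b : Basis (Fin (2 * m) ⊕ Fin s) (ZMod p) E,
      (∀ i : Fin (2 * m), b (Sum.inl i) = seqZ x y i) ∧ (∀ j, b (Sum.inr j) = u j) := by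
  set v : Fin (2 * m) ⊕ Fin s → E := Sum.elim (fun i => seqZ x y i) (fun j => (u j : E)) with hv
  have hli : LinearIndependent (ZMod p) v := by
    rw [Fintype.linearIndependent_iff]
    intro g hg
    rw [Fintype.sum_sum_type] at hg
    simp only [hv, Sum.elim_inl, Sum.elim_inr] at hg
    have h1 : ∀ i : Fin (2 * m), g (Sum.inl i) = 0 := by
      intro i
      have hi := i.2
      by_cases hi1 : (i : ℕ) < m
      · have h2 := congrArg (S.B.flip (seqZ x y (i + m))) hg
        rw [map_add, map_sum, map_sum, map_zero] at h2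
        have h3 : ∀ j : Fin s, S.B.flip (seqZ x y (i + m)) (g (Sum.inr j) • (u j : E)) = 0 := by
          intro j
          rw [map_smul, LinearMap.flip_apply, S.seqZ_perp _ (u j).2, smul_zero]
        rw [Finset.sum_congr rfl (fun j _ => h3 j), Finset.sum_const_zero, add_zero,
          Finset.sum_eq_single i] at h2
        · rw [map_smul, LinearMap.flip_apply, S.seqZ_B h hi.le (by omega) (by omega)] at h2
          unfold cc at h2
          rw [if_pos rfl, if_neg (by omega), sub_zero, smul_eq_mul, mul_one] at h2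
          exact h2
        · intro j _ hj
          have hj2 := j.2
          have hij : (j : ℕ) ≠ i := fun h => hj (Fin.ext h)
          rw [map_smul, LinearMap.flip_apply, S.seqZ_B h hj2.le (by omega) (by omega)]
          unfold cc
          rw [if_neg (by omega), if_neg (by omega), sub_zero, smul_zero]
        · intro h; exact absurd (Finset.mem_univ _) h
      · have h2 := congrArg (S.B.flip (seqZ x y (i - m))) hg
        rw [map_add, map_sum, map_sum, map_zero] at h2
        have h3 : ∀ j : Fin s, S.B.flip (seqZ x y (i - m)) (g (Sum.inr j) • (u j : E)) = 0 := by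
          intro j
          rw [map_smul, LinearMap.flip_apply, S.seqZ_perp _ (u j).2, smul_zero]
        rw [Finset.sum_congr rfl (fun j _ => h3 j), Finset.sum_const_zero, add_zero,
          Finset.sum_eq_single i] at h2
        · rw [map_smul, LinearMap.flip_apply, S.seqZ_B h hi.le (by omega) (by omega)] at h2
          unfold cc at h2
          rw [if_neg (by omega), if_pos (by omega), zero_sub, smul_eq_mul, mul_neg, mul_one,
            neg_eq_zero] at h2
          exact h2
        · intro j _ hj
          have hj2 := j.2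
          have hij : (j : ℕ) ≠ i := fun h => hj (Fin.ext h)
          rw [map_smul, LinearMap.flip_apply, S.seqZ_B h hj2.le (by omega) (by omega)]
          unfold cc
          rw [if_neg (by omega), if_neg (by omega), sub_zero, smul_zero]
        · intro h; exact absurd (Finset.mem_univ _) h
    have h4 : ∀ j, g (Sum.inr j) = 0 := by
      have h5 : ∑ j : Fin s, g (Sum.inr j) • u j = 0 := by
        apply Subtype.ext
        rw [Submodule.coe_sum, Submodule.coe_zero]
        rw [Finset.sum_congr rfl (fun i _ => by rw [h1 i, zero_smul]), Finset.sum_const_zero,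
          zero_add] at hg
        exact hg
      exact Fintype.linearIndependent_iff.mp u.linearIndependent _ h5
    intro i
    rcases i with i | j
    · exact h1 i
    · exact h4 j
  have hsp : ⊤ ≤ Submodule.span (ZMod p) (Set.range v) := by
    intro w _
    have hx : ∀ i : Fin m, x i ∈ Submodule.span (ZMod p) (Set.range v) := by
      intro i
      apply Submodule.subset_span
      refine ⟨Sum.inl ⟨i, by have := i.2; omega⟩, ?_⟩
      simp only [hv, Sum.elim_inl, seqZ, i.2, dif_pos]
    have hy : ∀ i : Fin m, y i ∈ Submodule.span (ZMod p) (Set.range v) := by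
      intro i
      apply Submodule.subset_span
      refine ⟨Sum.inl ⟨m + i, by have := i.2; omega⟩, ?_⟩
      simp only [hv, Sum.elim_inl, seqZ]
      rw [dif_neg (by omega), dif_pos (by have := i.2; omega)]
      congr 1
      apply Fin.ext
      simp
    have hu : ∀ z ∈ S.perp x y, z ∈ Submodule.span (ZMod p) (Set.range v) := by
      intro z hz
      have h1 := u.sum_repr ⟨z, hz⟩
      have h2 := congrArg (fun t : S.perp x y => (t : E)) h1
      simp only [Submodule.coe_sum, Submodule.coe_smul] at h2
      rw [← h2]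
      apply Submodule.sum_mem
      intro j _
      apply Submodule.smul_mem
      exact Submodule.subset_span ⟨Sum.inr j, rfl⟩
    have h1 : w = (w - ∑ i, S.B w (y i) • x i + ∑ i, S.B w (x i) • y i) +
        (∑ i, S.B w (y i) • x i - ∑ i, S.B w (x i) • y i) := by abel
    rw [h1]
    apply Submodule.add_mem
    · exact hu _ (S.proj h w)
    · apply Submodule.sub_mem
      · exact Submodule.sum_mem _ fun i _ => Submodule.smul_mem _ _ (hx i)
      · exact Submodule.sum_mem _ fun i _ => Submodule.smul_mem _ _ (hy i)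
  refine ⟨Basis.mk hli hsp, ?_, ?_⟩
  · intro i; rw [Basis.mk_apply]; rfl
  · intro i; rw [Basis.mk_apply]; rfl

/-- existence of a cyclic isometry together with an equivariant embedding -/
theorem exists_T [FiniteDimensional (ZMod p) E] (k : Type*) [Field k] [IsAlgClosed k] [CharP k p]
    [Algebra (ZMod p) k] :
    ∃ (T : E →ₗ[ZMod p] E) (ψ : E →ₗ[ZMod p] k), Function.Injective ψ ∧
      (∀ x, ψ (T x) = (ψ x) ^ p) ∧ (∀ x y, S.B (T x) (T y) = S.B x y) ∧
      (∀ x, S.P (T x) = S.P x) := by
  obtain ⟨m, x, y, h, hmax⟩ := S.exists_max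
  have hno : (S.res (S.perp x y)).NoQ := by
    rintro ⟨a, ha⟩ ⟨b, hb⟩ ⟨h1, h2, h3⟩
    exact hmax _ _ (QF.cons S h ha hb h1 h2 h3)
  obtain ⟨s, u, hu1, hu2, hu3⟩ := (S.res (S.perp x y)).good hno
  obtain ⟨b, hb1, hb2⟩ := S.std_basis h u
  set Z := seqZ x y with hZ
  set U := seqU (fun j => (u j : E)) with hU
  have hb2' : ∀ j : Fin s, b (Sum.inr j) = U j := by
    intro j; rw [hb2, hU]; unfold seqU; rw [dif_pos j.2]
  have hUperp : ∀ j, U j ∈ S.perp x y := by
    intro j
    rw [hU]; unfold seqU
    split_ifs with h1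
    · exact (u _).2
    · exact Submodule.zero_mem _
  have hU1 : ∀ i j : ℕ, i ≠ 0 → j ≠ 0 → S.B (U i) (U j) = 0 := by
    intro i j hi hj
    rw [hU]; unfold seqU
    by_cases h1 : i < s
    · by_cases h2 : j < s
      · rw [dif_pos h1, dif_pos h2]
        exact hu1 ⟨i, h1⟩ ⟨j, h2⟩ hi hj
      · rw [dif_neg h2, map_zero]
    · rw [dif_neg h1, map_zero, LinearMap.zero_apply]
  have hU2 : ∀ j : ℕ, 2 ≤ j → S.B (U 0) (U j) = 0 := by
    intro j hj
    rw [hU]; unfold seqU
    by_cases h2 : j < s
    · rw [dif_pos (by omega), dif_pos h2]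
      exact hu2 ⟨0, by omega⟩ ⟨j, h2⟩ rfl hj
    · rw [dif_neg h2, map_zero]
  have hU3 : ∀ j : ℕ, j ≠ 0 → S.P (U j) = kap p * S.B (U 0) (U j) := by
    intro j hj
    rw [hU]; unfold seqU
    by_cases h2 : j < s
    · rw [dif_pos (show 0 < s by omega), dif_pos h2]
      exact hu3 ⟨0, by omega⟩ ⟨j, h2⟩ rfl hj
    · rw [dif_neg h2, map_zero, mul_zero, P_zero]
  have hZU : ∀ i j, S.B (Z i) (U j) = 0 := by
    intro i j
    rw [S.skew, S.seqZ_perp i (hUperp j), neg_zero]
  have hUZ : ∀ i j, S.B (U j) (Z i) = 0 := fun i j => S.seqZ_perp i (hUperp j)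
  obtain ⟨ζ, hζ, hζi⟩ := exists_zeta (p := p) (k := k) m
  obtain ⟨η, hη0, hη1⟩ := exists_eta (p := p) (k := k)
  have hind := indep_all hζ hζi η hη0 hη1 s
  set T : E →ₗ[ZMod p] E := b.constr (ZMod p)
    (Sum.elim (fun i : Fin (2 * m) => Z (i + 1)) (fun j : Fin s => U j + U (j + 1))) with hT
  set fam : Fin (2 * m) ⊕ Fin s → k := Sum.elim (fun i : Fin (2 * m) => ζ ^ (p ^ (i : ℕ)))
      (fun j : Fin s => η (s - 1 - j)) with hfam
  set ψ : E →ₗ[ZMod p] k := b.constr (ZMod p) fam with hψ
  have hTZ : ∀ i : Fin (2 * m), T (b (Sum.inl i)) = Z (i + 1) := by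
    intro i; rw [hT, Basis.constr_basis]; rfl
  have hTU : ∀ j : Fin s, T (b (Sum.inr j)) = U j + U (j + 1) := by
    intro j; rw [hT, Basis.constr_basis]; rfl
  have hψZ : ∀ i : Fin (2 * m), ψ (b (Sum.inl i)) = ζ ^ (p ^ (i : ℕ)) := by
    intro i; rw [hψ, Basis.constr_basis]; rfl
  have hψU : ∀ j : Fin s, ψ (b (Sum.inr j)) = η (s - 1 - j) := by
    intro j; rw [hψ, Basis.constr_basis]; rfl
  have hψZ' : ∀ i : ℕ, i < 2 * m → ψ (Z i) = ζ ^ (p ^ i) := by
    intro i hi
    rw [← hψZ ⟨i, hi⟩, hb1]
  have hψU' : ∀ j : ℕ, j < s → ψ (U j) = η (s - 1 - j) := by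
    intro j hj
    rw [← hψU ⟨j, hj⟩, hb2']
  have hBT : ∀ x y, S.B (T x) (T y) = S.B x y := by
    have h1 : S.B.compl₁₂ T T = S.B := by
      apply b.ext
      intro i
      apply b.ext
      intro j
      rw [LinearMap.compl₁₂_apply]
      rcases i with i | i <;> rcases j with j | j
      · rw [hTZ, hTZ, hb1, hb1, hZ, S.seqZ_B h (by omega) (by omega) (by omega),
          S.seqZ_B h (by omega) (by omega) (by omega), cc_succ]
      · rw [hTZ, hTU, hb1, hb2', map_add, hZU, hZU, hZU, add_zero]
      · rw [hTZ, hTU, hb1, hb2', map_add, LinearMap.add_apply, hUZ, hUZ, hUZ, add_zero]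
      · rw [hTU, hTU, hb2', hb2']
        simp only [map_add, LinearMap.add_apply]
        rw [hU1 (i + 1) (j + 1) (by omega) (by omega)]
        rcases Nat.eq_zero_or_pos (i : ℕ) with hi | hi <;>
        rcases Nat.eq_zero_or_pos (j : ℕ) with hj | hj
        · rw [hi, hj, S.skew (U (0 + 1)) (U 0)]; ring
        · rw [hi, hU2 (j + 1) (by omega), hU1 (0 + 1) j (by omega) (by omega)]; ring
        · rw [hj, hU1 i (0 + 1) (by omega) (by omega), S.skew (U (i + 1)) (U 0),
            hU2 (i + 1) (by omega)]; ring
        · rw [hU1 i (j + 1) (by omega) (by omega), hU1 (i + 1) j (by omega) (by omega)]; ring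
    intro x y
    rw [← LinearMap.compl₁₂_apply, h1]
  refine ⟨T, ψ, ?_, ?_, hBT, ?_⟩
  · rw [injective_iff_map_eq_zero]
    intro w hw
    rw [hψ, Basis.constr_apply_fintype] at hw
    have h1 := Fintype.linearIndependent_iff.mp hind _ hw
    apply b.equivFun.injective
    rw [map_zero]
    funext i
    exact h1 i
  · have h1 : ψ ∘ₗ T = Fr p k ∘ₗ ψ := by
      apply b.ext
      intro i
      rw [LinearMap.comp_apply, LinearMap.comp_apply, Fr_apply]
      rcases i with i | j
      · have hi := i.2
        rw [hTZ, hψZ, ← pow_mul, ← pow_succ]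
        by_cases h2 : (i : ℕ) + 1 < 2 * m
        · exact hψZ' _ h2
        · have h3 : (i : ℕ) + 1 = 2 * m := by omega
          have h4 : Z (2 * m) = Z m - Z 0 := by
            rw [hZ]; unfold seqZ
            rw [dif_neg (by omega), dif_neg (by omega), dif_pos (by omega), dif_neg (by omega),
              dif_pos (by omega), dif_pos (by omega)]
            congr 3
            omega
          rw [h3, h4, map_sub, hψZ' m (by omega), hψZ' 0 (by omega)]
          rw [Op_apply] at hζ
          rw [pow_zero, pow_one]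
          linear_combination -hζ
      · have hj := j.2
        rw [hTU, hψU, map_add, hψU' _ hj]
        by_cases h2 : (j : ℕ) + 1 < s
        · rw [hψU' _ h2]
          have h3 : s - 1 - (j : ℕ) = (s - 1 - (j + 1)) + 1 := by omega
          rw [h3, hη1]
        · have h3 : s - 1 - (j : ℕ) = 0 := by omega
          have h4 : U (j + 1) = 0 := by
            rw [hU]; unfold seqU; rw [dif_neg h2]
          rw [h3, h4, map_zero, hη0, one_pow, add_zero]
    intro x
    exact LinearMap.congr_fun h1 x
  · have h1 : ∀ x y, (S.P (T (x + y)) - S.P (x + y)) =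
        (S.P (T x) - S.P x) + (S.P (T y) - S.P y) := by
      intro x y
      rw [map_add, S.hP, S.hP, hBT]; ring
    set δ : E →ₗ[ZMod p] ZMod p := AddMonoidHom.toZModLinearMap p
      { toFun := fun x => S.P (T x) - S.P x
        map_zero' := by rw [map_zero, sub_self]
        map_add' := h1 } with hδ
    have hδ' : ∀ x, δ x = S.P (T x) - S.P x := fun x => rfl
    have h2 : δ = 0 := by
      apply b.ext
      intro i
      rw [hδ', LinearMap.zero_apply, sub_eq_zero]
      rcases i with i | j
      · have := i.2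
        rw [hTZ, hb1, hZ, S.seqZ_P h (by omega), S.seqZ_P h (by omega)]
      · rw [hTU, hb2', S.hP]
        rcases Nat.eq_zero_or_pos (j : ℕ) with hj | hj
        · rw [hj, hU3 (0 + 1) (by omega)]
          have := kap_add (p := p)
          linear_combination (S.B (U 0) (U (0 + 1))) * this
        · rw [hU3 (j + 1) (by omega), hU2 (j + 1) (by omega), hU1 j (j + 1) (by omega) (by omega)]
          ring
    intro x
    have h3 := hδ' x
    rw [h2, LinearMap.zero_apply] at h3
    exact (sub_eq_zero.mp h3.symm)

end QS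

end

end Pool.Agent.Helper246.AS
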