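import Pool.Agent.Helper246.ASRoot

set_option autoImplicit false
set_option linter.unusedSectionVars false

open Polynomial

namespace Pool.Agent.Helper246.AS

noncomputable section

variable (p : ℕ) [hp : Fact p.Prime] {k : Type*} [Field k] [CharP k p] (f : k[X])

/-- translation `X ↦ X + u` on `k(X)` -/
def shift (u : k) : RatFunc k →ₐ[k] RatFunc k :=
  RatFunc.mapAlgHom (taylorAlgHom u)
    (nonZeroDivisors_le_comap_nonZeroDivisors_of_injective _ (taylor_injective u))

theorem shift_poly (u : k) (P : k[X]) :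
    shift u (algebraMap k[X] (RatFunc k) P) = algebraMap k[X] (RatFunc k) (taylor u P) := by
  have h : shift u (algebraMap k[X] (RatFunc k) P) = RatFunc.map (taylorAlgHom u)
    (nonZeroDivisors_le_comap_nonZeroDivisors_of_injective _ (taylor_injective u))
    (algebraMap k[X] (RatFunc k) P) := by
    rw [← RatFunc.coe_mapAlgHom_eq_coe_map]
    rfl
  have h1 : algebraMap k[X] (RatFunc k) P = algebraMap k[X] (RatFunc k) P /
    algebraMap k[X] (RatFunc k) 1 := by rw [map_one, div_one]
  rw [h, h1, RatFunc.map_apply_div]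
  simp

variable [hirr : Fact (Irreducible (qpol p f))]

/-- the automorphism `X ↦ X + u`, `W ↦ W + ρ` -/
def Eaut (u : k) (ρ : k[X]) (h : taylor u f = f + (ρ ^ p - ρ)) :
    AdjoinRoot (qpol p f) →ₐ[k] AdjoinRoot (qpol p f) :=
  AdjoinRoot.liftAlgHom (qpol p f) ((AdjoinRoot.ofAlgHom k (qpol p f)).comp (shift u))
    (AdjoinRoot.root (qpol p f) +
      algebraMap (RatFunc k) (AdjoinRoot (qpol p f)) (algebraMap k[X] (RatFunc k) ρ)) (by
    have := charP_adj p f
    have h1 : eval₂ (((AdjoinRoot.ofAlgHom k (qpol p f)).comp (shift u) :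
        RatFunc k →ₐ[k] AdjoinRoot (qpol p f)) : RatFunc k →+* AdjoinRoot (qpol p f))
        (AdjoinRoot.root (qpol p f) +
      algebraMap (RatFunc k) (AdjoinRoot (qpol p f)) (algebraMap k[X] (RatFunc k) ρ)) (qpol p f)
      = 0 := by
      rw [qpol_eval₂]
      have h2 : (((AdjoinRoot.ofAlgHom k (qpol p f)).comp (shift u) :
        RatFunc k →ₐ[k] AdjoinRoot (qpol p f)) : RatFunc k →+* AdjoinRoot (qpol p f))
          (algebraMap k[X] (RatFunc k) f) = algebraMap (RatFunc k) (AdjoinRoot (qpol p f))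
            (algebraMap k[X] (RatFunc k) (taylor u f)) := by
        rw [← shift_poly]
        rfl
      rw [h2, h, add_pow_char]
      have h3 := qroot_eq p f
      rw [map_add, map_add, ← h3]
      simp only [map_sub, map_pow]
      ring
    exact h1)

theorem Eaut_root (u : k) (ρ : k[X]) (h : taylor u f = f + (ρ ^ p - ρ)) :
    Eaut p f u ρ h (AdjoinRoot.root (qpol p f)) = AdjoinRoot.root (qpol p f) +
      algebraMap (RatFunc k) (AdjoinRoot (qpol p f)) (algebraMap k[X] (RatFunc k) ρ) :=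
  AdjoinRoot.liftAlgHom_root _ _ _ _

theorem Eaut_base (u : k) (ρ : k[X]) (h : taylor u f = f + (ρ ^ p - ρ)) (g : RatFunc k) :
    Eaut p f u ρ h (algebraMap (RatFunc k) (AdjoinRoot (qpol p f)) g) =
      algebraMap (RatFunc k) (AdjoinRoot (qpol p f)) (shift u g) :=
  AdjoinRoot.liftAlgHom_of _ _ _ _ _

theorem Eaut_poly (u : k) (ρ : k[X]) (h : taylor u f = f + (ρ ^ p - ρ)) (P : k[X]) :
    Eaut p f u ρ h (algebraMap (RatFunc k) (AdjoinRoot (qpol p f)) (algebraMap k[X] (RatFunc k) P)) =
      algebraMap (RatFunc k) (AdjoinRoot (qpol p f)) (algebraMap k[X] (RatFunc k) (taylor u P)) := by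
  rw [Eaut_base, shift_poly]

theorem hom_ext {φ ψ : AdjoinRoot (qpol p f) →ₐ[k] AdjoinRoot (qpol p f)}
    (h1 : φ (algebraMap (RatFunc k) (AdjoinRoot (qpol p f)) (algebraMap k[X] (RatFunc k) X)) =
      ψ (algebraMap (RatFunc k) (AdjoinRoot (qpol p f)) (algebraMap k[X] (RatFunc k) X)))
    (h2 : φ (AdjoinRoot.root (qpol p f)) = ψ (AdjoinRoot.root (qpol p f))) : φ = ψ := by
  apply AdjoinRoot.algHom_ext' _ h2
  have h3 : ∀ P : k[X],
      φ (algebraMap (RatFunc k) (AdjoinRoot (qpol p f)) (algebraMap k[X] (RatFunc k) P)) =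
      ψ (algebraMap (RatFunc k) (AdjoinRoot (qpol p f)) (algebraMap k[X] (RatFunc k) P)) := by
    intro P
    induction P using Polynomial.induction_on' with
    | add a b ha hb => simp only [map_add, ha, hb]
    | monomial n a =>
      rw [← C_mul_X_pow_eq_monomial]
      simp only [map_mul, map_pow, h1]
      congr 1
      rw [RatFunc.algebraMap_C, algMap_C, AlgHom.commutes, AlgHom.commutes]
  ext g
  change φ (algebraMap (RatFunc k) (AdjoinRoot (qpol p f)) g) =
    ψ (algebraMap (RatFunc k) (AdjoinRoot (qpol p f)) g)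
  rw [← RatFunc.num_div_denom g, map_div₀, map_div₀, map_div₀, h3, h3]

/-- a homomorphism from `G` to the monoid of `k`-endomorphisms -/
def psi {G : Type*} [Group G] (v : G → k) (r : G → k[X])
    (hv : ∀ g h, v (g * h) = v g + v h)
    (hr : ∀ g h, r (g * h) = r g + taylor (v g) (r h))
    (hf : ∀ g, taylor (v g) f = f + ((r g) ^ p - r g)) :
    G →* (AdjoinRoot (qpol p f) →ₐ[k] AdjoinRoot (qpol p f)) where
  toFun g := Eaut p f (v g) (r g) (hf g)
  map_one' := by
    have hv1 : v 1 = 0 := by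
      have := hv 1 1
      rw [mul_one] at this
      exact left_eq_add.mp this
    have hr1 : r 1 = 0 := by
      have := hr 1 1
      rw [mul_one, hv1, taylor_zero] at this
      exact left_eq_add.mp this
    apply hom_ext
    · rw [Eaut_poly, hv1, taylor_zero]; rfl
    · rw [Eaut_root, hr1, map_zero, map_zero, add_zero]; rfl
  map_mul' g h := by
    apply hom_ext
    · rw [AlgHom.mul_apply, Eaut_poly, Eaut_poly, Eaut_poly, taylor_taylor, hv]
    · rw [AlgHom.mul_apply, Eaut_root, Eaut_root, map_add, Eaut_root, Eaut_poly, hr]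
      rw [map_add, map_add]
      ring

/-- the homomorphism to the automorphism group -/
def Psi {G : Type*} [Group G] (v : G → k) (r : G → k[X])
    (hv : ∀ g h, v (g * h) = v g + v h)
    (hr : ∀ g h, r (g * h) = r g + taylor (v g) (r h))
    (hf : ∀ g, taylor (v g) f = f + ((r g) ^ p - r g)) :
    G →* (AdjoinRoot (qpol p f) ≃ₐ[k] AdjoinRoot (qpol p f)) :=
  (AlgEquiv.algHomUnitsEquiv _ _).toMonoidHom.comp (psi p f v r hv hr hf).toHomUnits

theorem Psi_apply {G : Type*} [Group G] (v : G → k) (r : G → k[X])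
    (hv : ∀ g h, v (g * h) = v g + v h)
    (hr : ∀ g h, r (g * h) = r g + taylor (v g) (r h))
    (hf : ∀ g, taylor (v g) f = f + ((r g) ^ p - r g)) (g : G) (y : AdjoinRoot (qpol p f)) :
    Psi p f v r hv hr hf g y = Eaut p f (v g) (r g) (hf g) y := rfl

theorem int_const {x : k[X]} (h : x ^ p = x) : ∃ n : ℤ, x = n := by
  have hchF : CharP (RatFunc k) p :=
    charP_of_injective_algebraMap (algebraMap k (RatFunc k)).injective p
  have h1 : (algebraMap k[X] (RatFunc k) x) ^ p = algebraMap k[X] (RatFunc k) x := by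
    rw [← map_pow, h]
  obtain ⟨n, hn⟩ := (mem_bot_iff_intCast p (RatFunc k)).mp
    ((Subfield.mem_bot_iff_pow_eq_self (RatFunc k) p).mpr h1)
  refine ⟨n, ?_⟩
  apply IsFractionRing.injective k[X] (RatFunc k)
  rw [← hn, map_intCast]

theorem assembly {G : Type*} [Group G] (N : Subgroup G) (hG : IsPGroup p G)
    (hm : ¬ p ∣ f.natDegree) (hm2 : p ^ 2 < f.natDegree)
    (v : G → k) (r : G → k[X])
    (hv : ∀ g h, v (g * h) = v g + v h)
    (hr : ∀ g h, r (g * h) = r g + taylor (v g) (r h))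
    (hf : ∀ g, taylor (v g) f = f + ((r g) ^ p - r g))
    (hN : ∀ g, v g = 0 ↔ g ∈ N)
    (hinj : ∀ g ∈ N, r g = 0 → g = 1)
    (hsur : ∀ n : ℤ, ∃ g ∈ N, r g = (n : k[X]))
    (hmax : ∀ (u : k) (ρ : k[X]), taylor u f = f + (ρ ^ p - ρ) → ∃ g, v g = u) :
    ∃ P : Sylow p (AdjoinRoot (qpol p f) ≃ₐ[k] AdjoinRoot (qpol p f)),
      ∃ e : G ≃* (P : Subgroup (AdjoinRoot (qpol p f) ≃ₐ[k] AdjoinRoot (qpol p f))),
        ∀ g : G, g ∈ N ↔ ∀ x : RatFunc k,
          (e g).1 (AdjoinRoot.of (qpol p f) x) = AdjoinRoot.of (qpol p f) x := by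
  set Ψ := Psi p f v r hv hr hf with hΨ
  have hfixX : ∀ g : G, (∀ x : RatFunc k, Ψ g (AdjoinRoot.of (qpol p f) x) =
      AdjoinRoot.of (qpol p f) x) ↔ v g = 0 := by
    intro g
    constructor
    · intro h
      have h1 := h (algebraMap k[X] (RatFunc k) X)
      have h2 : algebraMap (RatFunc k) (AdjoinRoot (qpol p f)) (algebraMap k[X] (RatFunc k)
          (taylor (v g) X)) = algebraMap (RatFunc k) (AdjoinRoot (qpol p f))
            (algebraMap k[X] (RatFunc k) X) := by
        rw [← Eaut_poly p f (v g) (r g) (hf g)]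
        exact h1
      have h3 := IsFractionRing.injective k[X] (RatFunc k)
        ((algebraMap (RatFunc k) (AdjoinRoot (qpol p f))).injective h2)
      rw [taylor_X] at h3
      have h4 := congrArg (fun q => coeff q 0) h3
      simpa using h4
    · intro h x
      change Eaut p f (v g) (r g) (hf g) (algebraMap (RatFunc k) (AdjoinRoot (qpol p f)) x) =
        algebraMap (RatFunc k) (AdjoinRoot (qpol p f)) x
      rw [Eaut_base, h]
      congr 1
      rw [← RatFunc.num_div_denom x, map_div₀, shift_poly, shift_poly, taylor_zero, taylor_zero]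
  have hΨinj : Function.Injective Ψ := by
    rw [injective_iff_map_eq_one]
    intro g hg
    have h1 : v g = 0 := by
      rw [← hfixX g]
      intro x
      rw [hg]; rfl
    have h2 : r g = 0 := by
      have h3 : Ψ g (AdjoinRoot.root (qpol p f)) = AdjoinRoot.root (qpol p f) := by
        rw [hg]; rfl
      have h4 : Ψ g (AdjoinRoot.root (qpol p f)) = AdjoinRoot.root (qpol p f) +
        algebraMap (RatFunc k) (AdjoinRoot (qpol p f)) (algebraMap k[X] (RatFunc k) (r g)) :=
        Eaut_root p f (v g) (r g) (hf g)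
      rw [h4] at h3
      have h5 := left_eq_add.mp h3.symm
      rw [← map_zero (algebraMap (RatFunc k) (AdjoinRoot (qpol p f)))] at h5
      have h6 := (algebraMap (RatFunc k) (AdjoinRoot (qpol p f))).injective h5
      rw [← map_zero (algebraMap k[X] (RatFunc k))] at h6
      exact IsFractionRing.injective k[X] (RatFunc k) h6
    exact hinj g ((hN g).mp h1) h2
  have hmem : ∀ σ : (AdjoinRoot (qpol p f) ≃ₐ[k] AdjoinRoot (qpol p f)), ∀ j : ℕ,
      σ ^ (p ^ j) = 1 → σ ∈ Ψ.range := by
    intro σ j hσ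
    obtain ⟨b, ρ, h1, h2, h3⟩ := aut_ppow (mkASD p f) hm hm2 σ j hσ
    have h4 : taylor b f = f + (ρ ^ p - ρ) := h3
    obtain ⟨g, hg⟩ := hmax b ρ h4
    have h5 : (ρ - r g) ^ p = ρ - r g := by
      have h6 := hf g
      rw [hg, h4] at h6
      have h7 := add_left_cancel h6
      rw [sub_pow_char, ← sub_eq_zero]
      linear_combination h7
    obtain ⟨n, hn⟩ := int_const p h5
    obtain ⟨g', hg', hrg'⟩ := hsur n
    have hv' : v g' = 0 := (hN g').mpr hg'
    refine ⟨g' * g, ?_⟩
    have hvg : v (g' * g) = b := by rw [hv, hv', hg, zero_add]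
    have hrg : r (g' * g) = ρ := by
      rw [hr, hv', taylor_zero, hrg', ← hn]; ring
    apply AlgEquiv.coe_toAlgHom_injective
    apply hom_ext
    · change Eaut p f (v (g' * g)) (r (g' * g)) (hf (g' * g)) _ = σ _
      rw [Eaut_poly, hvg, taylor_X]
      exact h1.symm
    · change Eaut p f (v (g' * g)) (r (g' * g)) (hf (g' * g)) _ = σ _
      rw [Eaut_root, hrg]
      exact h2.symm
  have hPG : IsPGroup p Ψ.range := by
    rintro ⟨x, g, rfl⟩
    obtain ⟨j, hj⟩ := hG g
    refine ⟨j, ?_⟩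
    apply Subtype.ext
    change (Ψ g) ^ (p ^ j) = 1
    rw [← map_pow, hj, map_one]
  refine ⟨{ toSubgroup := Ψ.range, isPGroup' := hPG, is_maximal' := ?_ },
    MonoidHom.ofInjective hΨinj, ?_⟩
  · intro Q hQ hle
    apply le_antisymm _ hle
    intro σ hσ
    obtain ⟨j, hj⟩ := hQ ⟨σ, hσ⟩
    exact hmem σ j (congrArg Subtype.val hj)
  · intro g
    rw [← hN g, ← hfixX g]
    rfl

end

end Pool.Agent.Helper246.AS
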