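import Pool.Agent.Helper246.ASFormT

set_option autoImplicit false
set_option linter.unusedSectionVars false

open Module

namespace Pool.Agent.Helper246.AS

noncomputable section

/-- the extension data -/
structure GD (p : ℕ) [Fact p.Prime] (G : Type*) [Group G] (N : Subgroup G) (E : Type*)
    [AddCommGroup E] [Module (ZMod p) E] where
  π : G → E
  hπ : ∀ g h, π (g * h) = π g + π h
  hN : ∀ g, π g = 0 ↔ g ∈ N
  hs : Function.Surjective π
  i : N → ZMod p
  hi : ∀ a b, i (a * b) = i a + i b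
  hib : Function.Bijective i

namespace GD

variable {p : ℕ} [hp : Fact p.Prime] {G : Type*} [Group G] {N : Subgroup G} {E : Type*}
    [AddCommGroup E] [Module (ZMod p) E] (D : GD p G N E)

theorem π_one : D.π 1 = 0 := (D.hN 1).mpr N.one_mem

theorem π_inv (g : G) : D.π g⁻¹ = - D.π g := by
  have h := D.hπ g⁻¹ g
  rw [inv_mul_cancel, π_one] at h
  exact eq_neg_of_add_eq_zero_left h.symm

theorem π_pow (g : G) (n : ℕ) : D.π (g ^ n) = n • D.π g := by
  induction n with
  | zero => rw [pow_zero, π_one, zero_smul]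
  | succ n ih => rw [pow_succ, D.hπ, ih, succ_nsmul]

theorem p_smul (x : E) : p • x = 0 := by
  rw [← Nat.cast_smul_eq_nsmul (ZMod p), ZMod.natCast_self, zero_smul]

include D in
theorem pow_mem (g : G) : g ^ p ∈ N := by
  rw [← D.hN, D.π_pow, p_smul]

/-- extension of `i` -/
def I (g : G) : ZMod p := by
  classical exact if h : g ∈ N then D.i ⟨g, h⟩ else 0

theorem I_mem {g : G} (h : g ∈ N) : D.I g = D.i ⟨g, h⟩ := by
  unfold I
  rw [dif_pos h]

theorem I_mul {a b : G} (ha : a ∈ N) (hb : b ∈ N) : D.I (a * b) = D.I a + D.I b := by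
  rw [D.I_mem ha, D.I_mem hb, D.I_mem (N.mul_mem ha hb), ← D.hi]
  rfl

theorem I_inj {a b : G} (ha : a ∈ N) (hb : b ∈ N) (h : D.I a = D.I b) : a = b := by
  rw [D.I_mem ha, D.I_mem hb] at h
  exact congrArg Subtype.val (D.hib.1 h)

theorem I_one : D.I 1 = 0 := by
  have h := D.I_mul N.one_mem N.one_mem
  rw [mul_one] at h
  linear_combination -h

theorem I_inv {a : G} (ha : a ∈ N) : D.I a⁻¹ = - D.I a := by
  have h := D.I_mul (N.inv_mem ha) ha
  rw [inv_mul_cancel, I_one] at h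
  linear_combination -h

theorem I_pow {a : G} (ha : a ∈ N) (n : ℕ) : D.I (a ^ n) = n * D.I a := by
  induction n with
  | zero => rw [pow_zero, I_one]; simp
  | succ n ih => rw [pow_succ, D.I_mul (N.pow_mem ha n) ha, ih]; push_cast; ring

/-- the inverse map -/
def j (c : ZMod p) : G := (Function.surjInv D.hib.2 c : N)

theorem j_mem (c : ZMod p) : D.j c ∈ N := Subtype.property _

theorem I_j (c : ZMod p) : D.I (D.j c) = c := by
  rw [D.I_mem (D.j_mem c)]
  exact Function.surjInv_eq D.hib.2 c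

theorem j_I {a : G} (ha : a ∈ N) : D.j (D.I a) = a :=
  D.I_inj (D.j_mem _) ha (D.I_j _)

theorem j_add (c d : ZMod p) : D.j (c + d) = D.j c * D.j d := by
  apply D.I_inj (D.j_mem _) (N.mul_mem (D.j_mem _) (D.j_mem _))
  rw [D.I_mul (D.j_mem _) (D.j_mem _), I_j, I_j, I_j]

include D in
theorem pow_p {a : G} (ha : a ∈ N) : a ^ p = 1 := by
  apply D.I_inj (N.pow_mem ha p) N.one_mem
  rw [D.I_pow ha, ZMod.natCast_self, zero_mul, I_one]

include D in
theorem conj_mem {a : G} (g : G) (ha : a ∈ N) : g * a * g⁻¹ ∈ N := by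
  rw [← D.hN] at ha ⊢
  rw [D.hπ, D.hπ, ha, D.π_inv]; abel

/-- conjugation seen on the prime field -/
def cj (g : G) : ZMod p →+ ZMod p where
  toFun c := D.I (g * D.j c * g⁻¹)
  map_zero' := by
    have : D.j 0 = 1 := by
      have h := D.j_I N.one_mem
      rwa [I_one] at h
    rw [this, mul_one, mul_inv_cancel, I_one]
  map_add' c d := by
    rw [← D.I_mul (D.conj_mem g (D.j_mem c)) (D.conj_mem g (D.j_mem d)), j_add]
    congr 1; group

theorem cj_apply (g : G) (c : ZMod p) : D.cj g c = c * D.cj g 1 := by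
  have h := ZMod.map_smul (D.cj g) c 1
  rwa [smul_eq_mul, mul_one, smul_eq_mul] at h

theorem cj_def (g : G) (c : ZMod p) : D.cj g c = D.I (g * D.j c * g⁻¹) := rfl

theorem cj_mul (g h : G) : D.cj (g * h) 1 = D.cj g 1 * D.cj h 1 := by
  have h1 : D.cj (g * h) 1 = D.cj g (D.cj h 1) := by
    rw [cj_def, cj_def, cj_def, D.j_I (D.conj_mem h (D.j_mem 1))]
    congr 1; group
  rw [h1, cj_apply, mul_comm]

theorem cj_one : D.cj 1 1 = 1 := by
  rw [cj_def, inv_one, mul_one, one_mul, I_j]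

theorem cj_pow (g : G) (n : ℕ) : D.cj (g ^ n) 1 = (D.cj g 1) ^ n := by
  induction n with
  | zero => rw [pow_zero, pow_zero, cj_one]
  | succ n ih => rw [pow_succ, pow_succ, cj_mul, ih]

include D in
theorem N_comm {a b : G} (ha : a ∈ N) (hb : b ∈ N) : a * b = b * a := by
  apply D.I_inj (N.mul_mem ha hb) (N.mul_mem hb ha)
  rw [D.I_mul ha hb, D.I_mul hb ha, add_comm]

theorem cj_mem {a : G} (ha : a ∈ N) : D.cj a 1 = 1 := by
  rw [cj_def, D.N_comm ha (D.j_mem 1), mul_inv_cancel_right, I_j]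

theorem cj_eq (g : G) : D.cj g 1 = 1 := by
  have h1 := D.cj_mem (D.pow_mem g)
  rw [cj_pow, ZMod.pow_card] at h1
  exact h1

include D in
theorem central {n : G} (hn : n ∈ N) (g : G) : n * g = g * n := by
  have h1 : D.cj g (D.I n) = D.I n := by rw [cj_apply, cj_eq, mul_one]
  rw [cj_def, D.j_I hn] at h1
  have h2 := D.I_inj (D.conj_mem g hn) hn h1
  rw [mul_inv_eq_iff_eq_mul] at h2
  exact h2.symm

/-- commutator pairing on the group -/
def c (g h : G) : ZMod p := D.I (g * h * g⁻¹ * h⁻¹)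

include D in
theorem comm_mem (g h : G) : g * h * g⁻¹ * h⁻¹ ∈ N := by
  rw [← D.hN, D.hπ, D.hπ, D.hπ, D.π_inv, D.π_inv]; abel

theorem c_mul_left (g g' h : G) : D.c (g * g') h = D.c g h + D.c g' h := by
  unfold c
  have h1 : g * g' * h * (g * g')⁻¹ * h⁻¹ = (g * h * g⁻¹ * h⁻¹) * (g' * h * g'⁻¹ * h⁻¹) := by
    have h2 := D.central (D.comm_mem g' h) (g * h * g⁻¹ * h⁻¹)
    rw [← h2]
    have h3 := D.central (D.comm_mem g' h) g
    calc g * g' * h * (g * g')⁻¹ * h⁻¹ = g * (g' * h * g'⁻¹ * h⁻¹) * (h * g⁻¹ * h⁻¹) := by group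
      _ = (g' * h * g'⁻¹ * h⁻¹) * g * (h * g⁻¹ * h⁻¹) := by rw [← h3]
      _ = _ := by group
  rw [h1, D.I_mul (D.comm_mem g h) (D.comm_mem g' h)]

theorem c_skew (g h : G) : D.c g h = - D.c h g := by
  unfold c
  rw [← D.I_inv (D.comm_mem h g)]
  congr 1; group

theorem c_mul_right (g h h' : G) : D.c g (h * h') = D.c g h + D.c g h' := by
  rw [c_skew, c_mul_left, D.c_skew g h, D.c_skew g h']; ring

theorem c_self (g : G) : D.c g g = 0 := by
  unfold c
  have : g * g * g⁻¹ * g⁻¹ = 1 := by group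
  rw [this, I_one]

theorem c_mem {n : G} (hn : n ∈ N) (h : G) : D.c n h = 0 := by
  unfold c
  rw [D.central hn h]
  have : h * n * n⁻¹ * h⁻¹ = 1 := by group
  rw [this, I_one]

/-- section -/
def s (x : E) : G := Function.surjInv D.hs x

theorem π_s (x : E) : D.π (D.s x) = x := Function.surjInv_eq D.hs x

theorem s_π (g : G) : ∃ n ∈ N, g = n * D.s (D.π g) := by
  refine ⟨g * (D.s (D.π g))⁻¹, ?_, by group⟩
  rw [← D.hN, D.hπ, D.π_inv, π_s, add_neg_cancel]

theorem c_congr_left {g g' : G} (h : G) (hg : D.π g = D.π g') : D.c g h = D.c g' h := by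
  obtain ⟨n, hn, h1⟩ := D.s_π g
  obtain ⟨n', hn', h2⟩ := D.s_π g'
  rw [h1, h2, c_mul_left, c_mul_left, D.c_mem hn, D.c_mem hn', hg]

theorem c_congr {g g' h h' : G} (hg : D.π g = D.π g') (hh : D.π h = D.π h') :
    D.c g h = D.c g' h' := by
  rw [D.c_congr_left h hg, c_skew, D.c_congr_left g' hh, ← c_skew]

include D in
theorem comm_pow (g h : G) (n : ℕ) : h ^ n * g = g * h ^ n * (h * g * h⁻¹ * g⁻¹) ^ n := by
  induction n with
  | zero => simp
  | succ n ih =>
    have hc := D.comm_mem h g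
    have h1 : h * g = (h * g * h⁻¹ * g⁻¹) * (g * h) := by group
    calc h ^ (n + 1) * g = h ^ n * (h * g) := by rw [pow_succ, mul_assoc]
      _ = h ^ n * ((h * g * h⁻¹ * g⁻¹) * (g * h)) := by rw [← h1]
      _ = h ^ n * (g * h * (h * g * h⁻¹ * g⁻¹)) := by rw [D.central hc (g * h)]
      _ = h ^ n * g * h * (h * g * h⁻¹ * g⁻¹) := by group
      _ = g * h ^ n * (h * g * h⁻¹ * g⁻¹) ^ n * h * (h * g * h⁻¹ * g⁻¹) := by rw [ih]
      _ = g * h ^ n * ((h * g * h⁻¹ * g⁻¹) ^ n * h) * (h * g * h⁻¹ * g⁻¹) := by group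
      _ = g * h ^ n * (h * (h * g * h⁻¹ * g⁻¹) ^ n) * (h * g * h⁻¹ * g⁻¹) := by
          rw [D.central (N.pow_mem hc n) h]
      _ = g * h ^ (n + 1) * (h * g * h⁻¹ * g⁻¹) ^ (n + 1) := by
          rw [pow_succ h, pow_succ (h * g * h⁻¹ * g⁻¹)]; simp only [mul_assoc]

include D in
theorem mul_pow_c (g h : G) (n : ℕ) :
    (g * h) ^ n = g ^ n * h ^ n * (h * g * h⁻¹ * g⁻¹) ^ (n.choose 2) := by
  induction n with
  | zero => simp
  | succ n ih =>
    have hc := D.comm_mem h g
    set z := h * g * h⁻¹ * g⁻¹ with hz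
    have h1 : (n + 1).choose 2 = n.choose 2 + n := by
      rw [Nat.choose_succ_succ' n 1, Nat.choose_one_right, add_comm]
    have hz1 := D.central (N.pow_mem hc (n.choose 2)) (g * h)
    have hz2 := D.central (N.pow_mem hc n) h
    calc (g * h) ^ (n + 1) = g ^ n * h ^ n * (z ^ (n.choose 2) * (g * h)) := by
          rw [pow_succ, ih]; simp only [mul_assoc]
      _ = g ^ n * h ^ n * (g * h * z ^ (n.choose 2)) := by rw [hz1]
      _ = g ^ n * (h ^ n * g) * h * z ^ (n.choose 2) := by simp only [mul_assoc]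
      _ = g ^ n * (g * h ^ n * z ^ n) * h * z ^ (n.choose 2) := by rw [D.comm_pow g h n]
      _ = g ^ n * g * h ^ n * (z ^ n * h) * z ^ (n.choose 2) := by simp only [mul_assoc]
      _ = g ^ n * g * h ^ n * (h * z ^ n) * z ^ (n.choose 2) := by rw [hz2]
      _ = g ^ (n + 1) * h ^ (n + 1) * z ^ ((n + 1).choose 2) := by
          rw [h1, pow_succ g, pow_succ h, add_comm (n.choose 2) n, pow_add]
          simp only [mul_assoc]

theorem choose_kap : ((p.choose 2 : ℕ) : ZMod p) = kap p := by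
  unfold kap
  by_cases h : p = 2
  · rw [if_pos h]
    have : p.choose 2 = 1 := by rw [h]; rfl
    rw [this, Nat.cast_one]
  · rw [if_neg h, ZMod.natCast_eq_zero_iff]
    apply hp.out.dvd_choose_self (by norm_num)
    have := hp.out.two_le
    omega

theorem pow_p_mul (g h : G) :
    D.I ((g * h) ^ p) = D.I (g ^ p) + D.I (h ^ p) + kap p * D.c g h := by
  rw [D.mul_pow_c, D.I_mul (N.mul_mem (D.pow_mem g) (D.pow_mem h)) (N.pow_mem (D.comm_mem h g) _),
    D.I_mul (D.pow_mem g) (D.pow_mem h), D.I_pow (D.comm_mem h g), choose_kap]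
  have h1 : D.I (h * g * h⁻¹ * g⁻¹) = D.c h g := rfl
  rw [h1, D.c_skew h g]
  have h2 := kap_add (p := p)
  linear_combination (- D.c g h) * h2

theorem pow_p_congr {g g' : G} (hg : D.π g = D.π g') : D.I (g ^ p) = D.I (g' ^ p) := by
  obtain ⟨n, hn, h1⟩ := D.s_π g
  obtain ⟨n', hn', h2⟩ := D.s_π g'
  rw [h1, h2, pow_p_mul, pow_p_mul, D.pow_p hn, D.pow_p hn', D.c_mem hn, D.c_mem hn', hg]

/-- the bilinear form -/
def Bf : E →ₗ[ZMod p] E →ₗ[ZMod p] ZMod p :=
  LinearMap.mk₂ (ZMod p) (fun x y => D.c (D.s x) (D.s y))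
    (fun x x' y => by
      rw [← D.c_mul_left]
      exact D.c_congr_left _ (by rw [D.hπ, π_s, π_s, π_s]))
    (fun a x y => by
      have h := ZMod.map_smul (AddMonoidHom.mk' (fun x => D.c (D.s x) (D.s y)) (fun x x' => by
        rw [← D.c_mul_left]
        exact D.c_congr_left _ (by rw [D.hπ, π_s, π_s, π_s]))) a x
      exact h)
    (fun x y y' => by
      rw [← D.c_mul_right]
      exact D.c_congr rfl (by rw [D.hπ, π_s, π_s, π_s]))
    (fun a x y => by
      have h := ZMod.map_smul (AddMonoidHom.mk' (fun y => D.c (D.s x) (D.s y)) (fun y y' => by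
        rw [← D.c_mul_right]
        exact D.c_congr rfl (by rw [D.hπ, π_s, π_s, π_s]))) a y
      exact h)

theorem Bf_π (g h : G) : D.Bf (D.π g) (D.π h) = D.c g h := by
  change D.c (D.s (D.π g)) (D.s (D.π h)) = _
  exact D.c_congr (D.π_s _) (D.π_s _)

/-- the space with form attached to the extension -/
def QSof : QS p E where
  B := D.Bf
  P := fun x => D.I ((D.s x) ^ p)
  alt := fun x => D.c_self _
  hP := fun x y => by
    change _ = _ + _ + kap p * D.c (D.s x) (D.s y)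
    rw [← D.pow_p_mul]
    exact D.pow_p_congr (by rw [D.hπ, π_s, π_s, π_s])

theorem P_π (g : G) : D.QSof.P (D.π g) = D.I (g ^ p) := D.pow_p_congr (D.π_s _)

end GD

end

end Pool.Agent.Helper246.AS
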