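import Pool.Agent.Helper246.ASAut2

set_option autoImplicit false
set_option linter.unusedSectionVars false

open Polynomial

namespace Pool.Agent.Helper246.AS

noncomputable section

variable (p : ℕ) [hp : Fact p.Prime] {k : Type*} [Field k] [CharP k p] (f : k[X])

/-- the Artin-Schreier polynomial `T^p - T - f` over `k(X)` -/
abbrev qpol : (RatFunc k)[X] :=
  X ^ p - X - C (algebraMap k[X] (RatFunc k) f)

theorem qpol_monic : (qpol p f).Monic := by
  have h2 := hp.out.two_le
  have : qpol p f = X ^ p - (X + C (algebraMap k[X] (RatFunc k) f)) := by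
    unfold qpol; ring
  rw [this]
  apply monic_X_pow_sub
  refine (degree_X_add_C _).le.trans_lt ?_
  exact_mod_cast h2

theorem qpol_natDegree : (qpol p f).natDegree = p := by
  have h2 := hp.out.two_le
  have : qpol p f = X ^ p - (X + C (algebraMap k[X] (RatFunc k) f)) := by
    unfold qpol; ring
  rw [this, natDegree_sub_eq_left_of_natDegree_lt, natDegree_X_pow]
  rw [natDegree_X_pow, natDegree_X_add_C]
  omega

theorem no_base_root (hm : ¬ p ∣ f.natDegree) (a : RatFunc k) :
    a ^ p - a ≠ algebraMap k[X] (RatFunc k) f := by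
  intro h
  obtain ⟨u, rfl⟩ : ∃ u : k[X], algebraMap k[X] (RatFunc k) u = a := by
    apply IsIntegrallyClosed.isIntegral_iff.mp
    refine ⟨X ^ p - X - C f, ?_, ?_⟩
    · have h2 := hp.out.two_le
      have : (X ^ p - X - C f : k[X][X]) = X ^ p - (X + C f) := by ring
      rw [this]
      apply monic_X_pow_sub
      refine (degree_X_add_C _).le.trans_lt ?_
      exact_mod_cast h2
    · rw [eval₂_sub, eval₂_sub, eval₂_pow, eval₂_X, eval₂_C, h, sub_self]
  have h1 : u ^ p - u = f := by
    apply IsFractionRing.injective k[X] (RatFunc k)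
    rw [map_sub, map_pow, h]
  apply hm
  rcases Nat.eq_zero_or_pos u.natDegree with h0 | h0
  · have : f.natDegree ≤ 0 := by
      rw [← h1]
      refine (natDegree_sub_le _ _).trans ?_
      rw [natDegree_pow, h0]; simp
    rw [Nat.le_zero.mp this]
    exact dvd_zero p
  · rw [← h1, natDegree_sub_eq_left_of_natDegree_lt, natDegree_pow]
    · exact dvd_mul_right _ _
    · rw [natDegree_pow]
      have := hp.out.one_lt
      nlinarith

theorem qpol_irr (hm : ¬ p ∣ f.natDegree) : Irreducible (qpol p f) := by
  classical
  have hchF : CharP (RatFunc k) p :=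
    charP_of_injective_algebraMap (algebraMap k (RatFunc k)).injective p
  set Ω := AlgebraicClosure (RatFunc k) with hΩ
  have hchO : CharP Ω p := charP_of_injective_algebraMap (algebraMap (RatFunc k) Ω).injective p
  have hmon := qpol_monic p f
  have hdeg := qpol_natDegree p f
  obtain ⟨α, hα⟩ := IsAlgClosed.exists_aeval_eq_zero Ω (qpol p f) (by
    rw [degree_eq_natDegree hmon.ne_zero, hdeg]
    exact_mod_cast hp.out.ne_zero)
  set g := minpoly (RatFunc k) α with hg
  have hint : IsIntegral (RatFunc k) α := ⟨qpol p f, hmon, hα⟩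
  have hgmon : g.Monic := minpoly.monic hint
  have hdvd : g ∣ qpol p f := minpoly.dvd _ _ hα
  have hgle : g.natDegree ≤ p := by
    rw [← hdeg]; exact natDegree_le_of_dvd hdvd hmon.ne_zero
  have hαp : α ^ p - α = algebraMap (RatFunc k) Ω (algebraMap k[X] (RatFunc k) f) := by
    have h1 : aeval α (qpol p f) = α ^ p - α -
        algebraMap (RatFunc k) Ω (algebraMap k[X] (RatFunc k) f) := by
      simp [qpol]
    rw [h1] at hα
    exact sub_eq_zero.mp hα
  rcases hgle.lt_or_eq with hlt | heq
  · exfalso
    have hgpos : 0 < g.natDegree := minpoly.natDegree_pos hint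
    set G := g.map (algebraMap (RatFunc k) Ω) with hG
    have hGs : G.Splits := IsAlgClosed.splits G
    have hGm : G.Monic := hgmon.map _
    have hsum := hGs.nextCoeff_eq_neg_sum_roots_of_monic hGm
    have hcard : Multiset.card G.roots = g.natDegree := by
      rw [splits_iff_card_roots.mp hGs, hG, natDegree_map]
    have hroots : ∀ r ∈ G.roots, ∃ n : ℤ, r = α + n := by
      intro r hr
      have h1 : aeval r g = 0 := by
        have := (mem_roots'.mp hr).2
        rwa [IsRoot, hG, eval_map, ← aeval_def] at this
      have h2 : aeval r (qpol p f) = 0 := by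
        obtain ⟨s, hs⟩ := hdvd
        rw [hs, map_mul, h1, zero_mul]
      have h3 : r ^ p - r = algebraMap (RatFunc k) Ω (algebraMap k[X] (RatFunc k) f) := by
        have h1 : aeval r (qpol p f) = r ^ p - r -
            algebraMap (RatFunc k) Ω (algebraMap k[X] (RatFunc k) f) := by
          simp [qpol]
        rw [h1] at h2
        exact sub_eq_zero.mp h2
      have h4 : (r - α) ^ p = r - α := by
        rw [sub_pow_char, ← sub_eq_zero]
        have : r ^ p - α ^ p - (r - α) = (r ^ p - r) - (α ^ p - α) := by ring
        rw [this, h3, hαp, sub_self]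
      obtain ⟨n, hn⟩ := (mem_bot_iff_intCast p Ω).mp ((Subfield.mem_bot_iff_pow_eq_self Ω p).mpr h4)
      exact ⟨n, by rw [hn]; ring⟩
    have hms : ∀ s : Multiset Ω, (∀ r ∈ s, ∃ n : ℤ, r = α + n) →
        ∃ N : ℤ, s.sum = (Multiset.card s : Ω) * α + N := by
      intro s
      induction s using Multiset.induction_on with
      | empty => intro _; exact ⟨0, by simp⟩
      | cons a s ih =>
        intro h
        obtain ⟨n, hn⟩ := h a (Multiset.mem_cons_self a s)
        obtain ⟨N, hN⟩ := ih (fun r hr => h r (Multiset.mem_cons_of_mem hr))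
        refine ⟨n + N, ?_⟩
        rw [Multiset.sum_cons, Multiset.card_cons, hN, hn]
        push_cast
        ring
    obtain ⟨N, hN⟩ := hms _ hroots
    rw [hcard] at hN
    have hnext : G.nextCoeff = algebraMap (RatFunc k) Ω g.nextCoeff := by
      rw [hG, nextCoeff_map (algebraMap (RatFunc k) Ω).injective]
    rw [hnext, hN] at hsum
    have hd0 : (g.natDegree : RatFunc k) ≠ 0 := by
      rw [Ne, CharP.cast_eq_zero_iff (RatFunc k) p]
      intro hd
      exact absurd (Nat.le_of_dvd hgpos hd) (by omega)
    have hαF : α = algebraMap (RatFunc k) Ω ((-g.nextCoeff - N) / g.natDegree) := by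
      have hd1 : (g.natDegree : Ω) ≠ 0 := by
        have : (g.natDegree : Ω) = algebraMap (RatFunc k) Ω (g.natDegree : RatFunc k) := by simp
        rw [this]
        exact (_root_.map_ne_zero _).mpr hd0
      rw [map_div₀, map_sub, map_neg, map_intCast, map_natCast, hsum, eq_div_iff hd1]
      ring
    apply no_base_root p f hm ((-g.nextCoeff - N) / g.natDegree)
    apply (algebraMap (RatFunc k) Ω).injective
    rw [map_sub, map_pow, ← hαF, hαp]
  · have : g = qpol p f := by
      refine (eq_of_monic_of_dvd_of_natDegree_le hgmon hmon hdvd ?_).symm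
      rw [hdeg, heq]
    rw [← this]
    exact minpoly.irreducible hint

theorem qroot_eq : (AdjoinRoot.root (qpol p f)) ^ p - AdjoinRoot.root (qpol p f) =
    algebraMap (RatFunc k) (AdjoinRoot (qpol p f)) (algebraMap k[X] (RatFunc k) f) := by
  have h := AdjoinRoot.eval₂_root (qpol p f)
  rw [eval₂_sub, eval₂_sub, eval₂_pow, eval₂_X, eval₂_C, sub_eq_zero] at h
  rw [h]
  rfl

theorem qpol_eval₂ {S : Type*} [CommRing S] (i : RatFunc k →+* S) (x : S) :
    eval₂ i x (qpol p f) = x ^ p - x - i (algebraMap k[X] (RatFunc k) f) := by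
  rw [eval₂_sub, eval₂_sub, eval₂_pow, eval₂_X, eval₂_C]

/-- the generator of the Artin-Schreier group -/
def tau : AdjoinRoot (qpol p f) →ₐ[RatFunc k] AdjoinRoot (qpol p f) :=
  AdjoinRoot.liftAlgHom (qpol p f) (Algebra.ofId (RatFunc k) (AdjoinRoot (qpol p f)))
    (AdjoinRoot.root (qpol p f) + 1) (by
      have : CharP (RatFunc k) p :=
        charP_of_injective_algebraMap (algebraMap k (RatFunc k)).injective p
      have hir : 0 < (qpol p f).natDegree := by rw [qpol_natDegree]; exact hp.out.pos
      have : CharP (AdjoinRoot (qpol p f)) p := by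
        refine charP_of_injective_algebraMap (R := RatFunc k) ?_ p
        exact AdjoinRoot.of.injective_of_degree_ne_zero (by
          rw [degree_eq_natDegree (qpol_monic p f).ne_zero]
          exact_mod_cast hir.ne')
      have h1 := qroot_eq p f
      change eval₂ (algebraMap (RatFunc k) (AdjoinRoot (qpol p f))) _ _ = 0
      rw [qpol_eval₂, add_pow_char, one_pow, ← h1]
      ring)

theorem tau_root : tau p f (AdjoinRoot.root (qpol p f)) = AdjoinRoot.root (qpol p f) + 1 :=
  AdjoinRoot.liftAlgHom_root _ _ _ _

theorem tau_pow_root (n : ℕ) : ((tau p f) ^ n) (AdjoinRoot.root (qpol p f)) =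
    AdjoinRoot.root (qpol p f) + n := by
  induction n with
  | zero => simp
  | succ n ih =>
    rw [pow_succ', AlgHom.mul_apply, ih, map_add, tau_root, map_natCast]
    push_cast
    ring

variable [hirr : Fact (Irreducible (qpol p f))]

theorem charP_adj : CharP (AdjoinRoot (qpol p f)) p := by
  have : CharP (RatFunc k) p :=
    charP_of_injective_algebraMap (algebraMap k (RatFunc k)).injective p
  exact charP_of_injective_algebraMap (algebraMap (RatFunc k) (AdjoinRoot (qpol p f))).injective p

theorem tau_pow_p : (tau p f) ^ p = 1 := by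
  have := charP_adj p f
  apply AdjoinRoot.algHom_ext
  rw [tau_pow_root, CharP.cast_eq_zero, add_zero]
  rfl

theorem iter_eq (n : ℕ) (y : AdjoinRoot (qpol p f)) : (fun z => tau p f z - z)^[n] y =
    (((tau p f).toLinearMap - 1) ^ n : Module.End (RatFunc k) (AdjoinRoot (qpol p f))) y := by
  induction n generalizing y with
  | zero => simp
  | succ n ih =>
    rw [Function.iterate_succ_apply, ih, pow_succ, Module.End.mul_apply]
    rfl

theorem tau_iter (y : AdjoinRoot (qpol p f)) : (fun z => tau p f z - z)^[p] y = 0 := by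
  have hc := charP_adj p f
  have hcF : CharP (RatFunc k) p :=
    charP_of_injective_algebraMap (algebraMap k (RatFunc k)).injective p
  have hcE : CharP (Module.End (RatFunc k) (AdjoinRoot (qpol p f))) p :=
    charP_of_injective_algebraMap
      (algebraMap (RatFunc k) (Module.End (RatFunc k) (AdjoinRoot (qpol p f)))).injective p
  rw [iter_eq]
  have h1 : ((tau p f).toLinearMap - 1 : Module.End (RatFunc k) (AdjoinRoot (qpol p f))) ^ p
      = (tau p f).toLinearMap ^ p - 1 ^ p :=
    sub_pow_char_of_commute p (Commute.one_right _)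
  have h2 : ((tau p f).toLinearMap : Module.End (RatFunc k) (AdjoinRoot (qpol p f))) ^ p = 1 := by
    have h3 : ∀ n : ℕ, ((tau p f).toLinearMap : Module.End (RatFunc k) (AdjoinRoot (qpol p f))) ^ n
        = ((tau p f) ^ n).toLinearMap := by
      intro n
      induction n with
      | zero => rfl
      | succ n ih => rw [pow_succ, pow_succ, ih]; rfl
    rw [h3, tau_pow_p]
    rfl
  rw [h1, h2, one_pow, sub_self]
  rfl

theorem adj_finite : FiniteDimensional (RatFunc k) (AdjoinRoot (qpol p f)) :=
  (AdjoinRoot.powerBasis (qpol_monic p f).ne_zero).finite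

theorem adj_finrank : Module.finrank (RatFunc k) (AdjoinRoot (qpol p f)) = p := by
  rw [(AdjoinRoot.powerBasis (qpol_monic p f).ne_zero).finrank, AdjoinRoot.powerBasis_dim,
    qpol_natDegree]

theorem tau_fix (y : AdjoinRoot (qpol p f)) (hy : tau p f y = y) :
    ∃ a : RatFunc k, algebraMap (RatFunc k) (AdjoinRoot (qpol p f)) a = y := by
  have hfin := adj_finite p f
  have hpr : (Module.finrank (RatFunc k) (AdjoinRoot (qpol p f))).Prime := by
    rw [adj_finrank]; exact hp.out
  have hso := IntermediateField.isSimpleOrder_of_finrank_prime (RatFunc k)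
    (AdjoinRoot (qpol p f)) hpr
  rcases hso.eq_bot_or_eq_top (IntermediateField.adjoin (RatFunc k) {y}) with h | h
  · have hy : y ∈ (⊥ : IntermediateField (RatFunc k) (AdjoinRoot (qpol p f))) := by
      rw [← h]; exact IntermediateField.mem_adjoin_simple_self _ _
    exact IntermediateField.mem_bot.mp hy
  · exfalso
    have hW : AdjoinRoot.root (qpol p f) ∈ IntermediateField.adjoin (RatFunc k) {y} := by
      rw [h]; trivial
    rw [← IntermediateField.mem_toSubalgebra,
      IntermediateField.adjoin_simple_toSubalgebra_of_isAlgebraic (IsAlgebraic.of_finite (RatFunc k) y),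
      Algebra.adjoin_singleton_eq_range_aeval] at hW
    obtain ⟨P, hP⟩ := hW
    have h1 : tau p f (AdjoinRoot.root (qpol p f)) = AdjoinRoot.root (qpol p f) := by
      rw [← hP]
      change tau p f (aeval y P) = aeval y P
      rw [← Polynomial.aeval_algHom_apply, hy]
    rw [tau_root] at h1
    have h2 : (1 : AdjoinRoot (qpol p f)) = 0 := by
      have h3 : AdjoinRoot.root (qpol p f) + 1 = AdjoinRoot.root (qpol p f) + 0 := by
        rw [add_zero]; exact h1
      exact add_left_cancel h3
    exact one_ne_zero h2

/-- the Artin-Schreier data of `AdjoinRoot (qpol p f)` -/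
def mkASD : ASD p k f (AdjoinRoot (qpol p f)) where
  W := AdjoinRoot.root (qpol p f)
  hW := qroot_eq p f
  τ := tau p f
  hτ := tau_root p f
  hfix := tau_fix p f
  hfin := adj_finite p f
  hrank := adj_finrank p f
  hiter := tau_iter p f

end

end Pool.Agent.Helper246.AS
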