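import Mathlib
set_option autoImplicit false

namespace Pool.Agent.Helper246.Blum

open Polynomial

/-- A group that is the union of two subgroups equals one of them. -/
theorem union_subgroups {G : Type*} [Group G] (H K : Subgroup G)
    (h : ∀ g, g ∈ H ∨ g ∈ K) : (∀ g, g ∈ H) ∨ (∀ g, g ∈ K) := by
  by_contra hc
  push Not at hc
  obtain ⟨⟨a, ha⟩, ⟨b, hb⟩⟩ := hc
  have haK : a ∈ K := (h a).resolve_left ha
  have hbH : b ∈ H := (h b).resolve_right hb
  rcases h (a * b) with h1 | h1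
  · exact ha ((Subgroup.mul_mem_cancel_right H hbH).1 h1)
  · exact hb ((Subgroup.mul_mem_cancel_left K haK).1 h1)

/-- Uniqueness of the root in a prime ideal (Hensel type). -/
theorem unique_root {R S : Type*} [CommRing R] [CommRing S] [IsDomain S] [Algebra R S]
    (Q : Ideal S) (F : R[X]) (hc : algebraMap R S (F.coeff 1) ∉ Q) {x y : S}
    (hx : x ∈ Q) (hy : y ∈ Q) (h : aeval x F = aeval y F) : x = y := by
  set F2 : R[X] := F.divX.divX with hF2
  have e1 : ∀ u : S, aeval u F = algebraMap R S (F.coeff 0) + u * (algebraMap R S (F.coeff 1)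
      + u * aeval u F2) := by
    intro u
    have h1 : F = F.divX * X + C (F.coeff 0) := (divX_mul_X_add F).symm
    have h2 : F.divX = F2 * X + C (F.divX.coeff 0) := (divX_mul_X_add F.divX).symm
    have h3 : F.divX.coeff 0 = F.coeff 1 := by simp [coeff_divX]
    rw [h3] at h2
    conv_lhs => rw [h1, h2]
    simp
    ring
  obtain ⟨G2, hG2⟩ : ∃ G2 : S, aeval x F2 - aeval y F2 = G2 * (x - y) := by
    have := (evalSubFactor (F2.map (algebraMap R S)) x y).2
    refine ⟨(evalSubFactor (F2.map (algebraMap R S)) x y).1, ?_⟩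
    rw [← this]
    simp [aeval_def, eval_map]
  have key : (x - y) * (algebraMap R S (F.coeff 1) + ((x + y) * aeval x F2 + y ^ 2 * G2)) = 0 := by
    have h0 := h
    rw [e1 x, e1 y] at h0
    have h1 : aeval x F2 = aeval y F2 + G2 * (x - y) := by rw [← hG2]; ring
    linear_combination h0 + (- y ^ 2) * (h1)
  rcases mul_eq_zero.1 key with h1 | h1
  · exact sub_eq_zero.1 h1
  · exfalso
    apply hc
    have h2 : (x + y) * aeval x F2 + y ^ 2 * G2 ∈ Q := by
      apply Ideal.add_mem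
      · exact Ideal.mul_mem_right _ _ (Ideal.add_mem _ hx hy)
      · exact Ideal.mul_mem_right _ _ (Ideal.pow_mem_of_mem _ hy 2 (by norm_num))
    have h3 : algebraMap R S (F.coeff 1) = - ((x + y) * aeval x F2 + y ^ 2 * G2) := by
      linear_combination h1
    rw [h3]
    exact Q.neg_mem h2


section core

variable {O Ω : Type} [CommRing O] [IsDomain O] [Algebra ℂ O] [Field Ω] [IsAlgClosed Ω]
  [CharZero Ω] [Algebra O Ω] [Algebra ℂ Ω] [IsScalarTower ℂ O Ω]

/-- The polynomial `A - t B`. -/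
noncomputable def FP (t : O) (A B : ℂ[X]) : O[X] :=
  A.map (algebraMap ℂ O) - C t * B.map (algebraMap ℂ O)

theorem aeval_FP (t : O) (A B : ℂ[X]) (x : Ω) :
    aeval x (FP t A B) = aeval x A - algebraMap O Ω t * aeval x B := by
  simp [FP, aeval_map_algebraMap]

theorem integral_root (ev : O →ₐ[ℂ] ℂ) (hu : ∀ x : O, ev x ≠ 0 → IsUnit x) (t : O) (ht : ev t = 0)
    (A B : ℂ[X]) (hA : A ≠ 0) (hd : B.natDegree ≤ A.natDegree) (x : Ω)
    (hx : aeval x A = algebraMap O Ω t * aeval x B) : IsIntegral O x := by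
  have h0 : aeval x (FP t A B) = 0 := by rw [aeval_FP, hx, sub_self]
  have hco : (FP t A B).coeff A.natDegree
      = algebraMap ℂ O A.leadingCoeff - t * algebraMap ℂ O (B.coeff A.natDegree) := by
    simp [FP]
  have hev : ev ((FP t A B).coeff A.natDegree) ≠ 0 := by
    rw [hco]
    simp only [map_sub, map_mul, ht, zero_mul, sub_zero, AlgHom.commutes]
    simpa using hA
  have hunit : IsUnit ((FP t A B).coeff A.natDegree) := hu _ hev
  have hdeg : (FP t A B).natDegree ≤ A.natDegree := by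
    unfold FP
    refine (natDegree_sub_le _ _).trans (max_le ?_ ?_)
    · exact natDegree_map_le
    · exact (natDegree_C_mul_le _ _).trans (natDegree_map_le.trans hd)
  have hne : (FP t A B).coeff A.natDegree ≠ 0 := hunit.ne_zero
  have hlc : (FP t A B).leadingCoeff = (FP t A B).coeff A.natDegree := by
    have : (FP t A B).natDegree = A.natDegree :=
      le_antisymm hdeg (le_natDegree_of_ne_zero hne)
    rw [leadingCoeff, this]
  have h1 := isIntegral_leadingCoeff_smul (FP t A B) x h0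
  rw [hlc] at h1
  obtain ⟨u, hu'⟩ := hunit
  have h2 : x = (↑(u⁻¹) : O) • ((FP t A B).coeff A.natDegree • x) := by
    rw [← hu', smul_smul]
    simp
  rw [h2]
  exact h1.smul _

theorem core_field (hinj : Function.Injective (algebraMap O Ω)) (ev : O →ₐ[ℂ] ℂ)
    (hu : ∀ x : O, ev x ≠ 0 → IsUnit x) (t z z' w w' : O)
    (A B A' B' C₁ D₁ C₂ D₂ : ℂ[X])
    (hzt : aeval z A = t * aeval z B) (hz't : aeval z' A' = t * aeval z' B')
    (hwt : aeval w C₁ = t * aeval w D₁) (hw't : aeval w' C₂ = t * aeval w' D₂)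
    (hprod : z * z' = w * w')
    (ht : ev t = 0) (hz : ev z = 0) (hw : ev w = 0) (hw' : ev w' = 0)
    (hB : ev (aeval z B) ≠ 0)
    (hA' : A' ≠ 0) (hdA : B'.natDegree ≤ A'.natDegree)
    (hC1 : C₁.coeff 1 ≠ 0) (hdC : D₁.natDegree ≤ C₁.natDegree)
    (hC2 : C₂.coeff 1 ≠ 0) (hdC2 : D₂.natDegree ≤ C₂.natDegree) :
    (∃ a b : ℂ[X], aeval z b ≠ 0 ∧ w * aeval z b = aeval z a) ∨
    (∃ a b : ℂ[X], aeval z b ≠ 0 ∧ w' * aeval z b = aeval z a) := by
  classical
  set ι := algebraMap O Ω with hι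
  have hae : ∀ (x : O) (P : ℂ[X]), aeval (ι x) P = ι (aeval x P) := fun x P =>
    aeval_algebraMap_apply Ω x P
  let k : IntermediateField ℂ Ω := IntermediateField.adjoin ℂ {ι z}
  let E : IntermediateField k Ω := algebraicClosure k Ω
  have : IsGalois k E := by
    have : Normal k E := IsAlgClosure.normal k E
    have : Algebra.IsSeparable k E := inferInstance
    exact ⟨⟩
  have hzk : ι z ∈ k := IntermediateField.mem_adjoin_simple_self ℂ (ι z)
  have haz : ∀ P : ℂ[X], aeval (ι z) P ∈ k := fun P => by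
    have : aeval (ι z) P ∈ Algebra.adjoin ℂ {ι z} := aeval_mem_adjoin_singleton ℂ (ι z)
    exact IntermediateField.algebra_adjoin_le_adjoin ℂ _ this
  have htk : ι t ∈ k := by
    have h1 : ι t = aeval (ι z) A / aeval (ι z) B := by
      have hB0 : aeval (ι z) B ≠ 0 := by
        rw [hae]
        intro h0
        have : aeval z B = 0 := hinj (by rw [h0, map_zero])
        exact hB (by rw [this, map_zero])
      rw [eq_div_iff hB0, hae, hae, hzt, map_mul]
    rw [h1]
    exact k.div_mem (haz A) (haz B)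
  -- algebraicity over k
  have halg : ∀ (x : O) (P Q : ℂ[X]), P ≠ 0 → Q.natDegree ≤ P.natDegree →
      aeval x P = t * aeval x Q → ι x ∈ E := by
    intro x P Q hP hd hx
    refine mem_algebraicClosure_iff.2 ?_
    refine ⟨P.map (algebraMap ℂ k) - Polynomial.C (⟨ι t, htk⟩ : k) * Q.map (algebraMap ℂ k), ?_, ?_⟩
    · intro h0
      have h1 : (P.map (algebraMap ℂ k) - Polynomial.C (⟨ι t, htk⟩ : k) * Q.map (algebraMap ℂ k)).coeff
        P.natDegree = 0 := by rw [h0]; simp
      rw [coeff_sub, coeff_C_mul, coeff_map, coeff_map] at h1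
      have h2 := congrArg (fun y : k => (y : Ω)) h1
      have h3 : ι (algebraMap ℂ O P.leadingCoeff - t * algebraMap ℂ O (Q.coeff P.natDegree)) = 0 := by
        rw [map_sub, map_mul, ← IsScalarTower.algebraMap_apply, ← IsScalarTower.algebraMap_apply]
        simpa using h2
      have h4 : algebraMap ℂ O P.leadingCoeff - t * algebraMap ℂ O (Q.coeff P.natDegree) = 0 :=
        hinj (by rw [h3, map_zero])
      have h5 := congrArg ev h4
      simp only [map_sub, map_mul, ht, zero_mul, sub_zero, AlgHom.commutes, map_zero] at h5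
      apply hP
      simpa using h5
    · have h6 : aeval (ι x) P = ι t * aeval (ι x) Q := by
        rw [hae, hae, hx, map_mul]
      simp only [map_sub, map_mul, aeval_C, aeval_map_algebraMap]
      rw [h6]
      simp [IntermediateField.algebraMap_apply]
  have hC1' : C₁ ≠ 0 := fun h => hC1 (by simp [h])
  have hC2' : C₂ ≠ 0 := fun h => hC2 (by simp [h])
  have hwE := halg w C₁ D₁ hC1' hdC hwt
  have hw'E := halg w' C₂ D₂ hC2' hdC2 hw't
  have hz'E := halg z' A' B' hA' hdA hz't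
  let wE : E := ⟨ι w, hwE⟩
  let w'E : E := ⟨ι w', hw'E⟩
  let z'E : E := ⟨ι z', hz'E⟩
  let zk : k := ⟨ι z, hzk⟩
  let tk : k := ⟨ι t, htk⟩
  -- the equation is preserved
  have hpres : ∀ (τ : E ≃ₐ[k] E) (x : O) (hx : ι x ∈ E) (P Q : ℂ[X]),
      aeval x P = t * aeval x Q →
      aeval ((τ ⟨ι x, hx⟩ : E) : Ω) P = ι t * aeval ((τ ⟨ι x, hx⟩ : E) : Ω) Q := by
    intro τ x hx P Q h
    have h1 : aeval (⟨ι x, hx⟩ : E) (P.map (algebraMap ℂ k))
        = algebraMap k E tk * aeval (⟨ι x, hx⟩ : E) (Q.map (algebraMap ℂ k)) := by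
      apply Subtype.val_injective
      have e1 : ∀ R : ℂ[X], ((aeval (⟨ι x, hx⟩ : E) (R.map (algebraMap ℂ k)) : E) : Ω)
          = ι (aeval x R) := by
        intro R
        rw [← hae]
        have := (aeval_algebraMap_apply Ω (⟨ι x, hx⟩ : E) (R.map (algebraMap ℂ k))).symm
        rw [IntermediateField.algebraMap_apply] at this
        rw [this]
        simp [aeval_map_algebraMap]
      rw [e1, h, map_mul]
      rw [MulMemClass.coe_mul, e1]
      rfl
    have h2 := congrArg τ h1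
    rw [map_mul, AlgEquiv.commutes] at h2
    have e3 : ∀ R : ℂ[X], τ (aeval (⟨ι x, hx⟩ : E) (R.map (algebraMap ℂ k)))
        = aeval (τ ⟨ι x, hx⟩) (R.map (algebraMap ℂ k)) := by
      intro R
      exact (aeval_algHom_apply (τ : E →ₐ[k] E) _ _).symm
    rw [e3, e3] at h2
    have h4 := congrArg (fun y : E => (y : Ω)) h2
    have e5 : ∀ R : ℂ[X], ((aeval (τ ⟨ι x, hx⟩) (R.map (algebraMap ℂ k)) : E) : Ω)
        = aeval ((τ ⟨ι x, hx⟩ : E) : Ω) R := by
      intro R
      have := (aeval_algebraMap_apply Ω (τ ⟨ι x, hx⟩ : E) (R.map (algebraMap ℂ k))).symm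
      rw [IntermediateField.algebraMap_apply] at this
      rw [this]
      simp [aeval_map_algebraMap]
    simp only [MulMemClass.coe_mul] at h4
    rw [e5, e5] at h4
    exact h4
  -- the integral closure and a maximal ideal of it
  let S : Subalgebra O Ω := integralClosure O Ω
  let P : Ideal O := RingHom.ker (ev : O →+* ℂ)
  have hPmax : P.IsMaximal := RingHom.ker_isMaximal_of_surjective _ (fun c =>
    ⟨algebraMap ℂ O c, by simp⟩)
  have hker : RingHom.ker (algebraMap O S) ≤ P := by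
    intro x hx
    have h1 : ι x = 0 := by
      have := congrArg (fun y : S => (y : Ω)) ((RingHom.mem_ker).1 hx)
      simpa using this
    have h2 : x = 0 := hinj (by rw [h1, map_zero])
    rw [h2]; exact P.zero_mem
  obtain ⟨Q, hQmax, hQP⟩ := Ideal.exists_ideal_over_maximal_of_isIntegral (S := S) P hker
  have hQmem : ∀ x : O, algebraMap O S x ∈ Q ↔ ev x = 0 := by
    intro x
    rw [← Ideal.mem_comap, hQP]
    exact RingHom.mem_ker
  have hSE : ∀ (x : S) (F : O[X]), ((aeval x F : S) : Ω) = aeval (x : Ω) F := by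
    intro x F
    exact (aeval_algebraMap_apply Ω x F).symm
  have hroot : ∀ (τ : E ≃ₐ[k] E) (x : O) (hx : ι x ∈ E) (A₁ B₁ : ℂ[X]), A₁.coeff 1 ≠ 0 →
      B₁.natDegree ≤ A₁.natDegree → ev x = 0 →
      aeval x A₁ = t * aeval x B₁ → ∀ (hint : IsIntegral O ((τ ⟨ι x, hx⟩ : E) : Ω)),
      (⟨((τ ⟨ι x, hx⟩ : E) : Ω), hint⟩ : S) ∈ Q → τ ⟨ι x, hx⟩ = ⟨ι x, hx⟩ := by
    intro τ x hx A₁ B₁ h1 hd hev hxe hint hmem
    have hc : algebraMap O S ((FP t A₁ B₁).coeff 1) ∉ Q := by
      rw [hQmem]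
      simp only [FP, coeff_sub, coeff_map, coeff_C_mul, map_sub, map_mul, ht, zero_mul, sub_zero,
        AlgHom.commutes]
      simpa using h1
    have h2 : aeval (⟨((τ ⟨ι x, hx⟩ : E) : Ω), hint⟩ : S) (FP t A₁ B₁)
        = aeval (algebraMap O S x) (FP t A₁ B₁) := by
      apply Subtype.val_injective
      rw [hSE, hSE, aeval_FP, aeval_FP, hpres τ x hx A₁ B₁ hxe]
      have : ((algebraMap O S x : S) : Ω) = ι x := rfl
      rw [this, hae, hae, hxe, map_mul]
      simp [hι]
    have h3 := unique_root Q (FP t A₁ B₁) hc hmem ((hQmem x).2 hev) h2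
    apply Subtype.val_injective
    have h4 := congrArg (fun y : S => (y : Ω)) h3
    exact h4
  have hint : ∀ (τ : E ≃ₐ[k] E) (x : O) (hx : ι x ∈ E) (A₁ B₁ : ℂ[X]), A₁ ≠ 0 →
      B₁.natDegree ≤ A₁.natDegree → aeval x A₁ = t * aeval x B₁ →
      IsIntegral O ((τ ⟨ι x, hx⟩ : E) : Ω) := by
    intro τ x hx A₁ B₁ h1 hd hxe
    exact integral_root ev hu t ht A₁ B₁ h1 hd _ (hpres τ x hx A₁ B₁ hxe)
  have hall : ∀ τ : E ≃ₐ[k] E, τ wE = wE ∨ τ w'E = w'E := by
    intro τ
    have i1 := hint τ w hwE C₁ D₁ hC1' hdC hwt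
    have i2 := hint τ w' hw'E C₂ D₂ hC2' hdC2 hw't
    have i3 := hint τ z' hz'E A' B' hA' hdA hz't
    have hE : algebraMap k E zk * z'E = wE * w'E := by
      apply Subtype.val_injective
      change ι z * ι z' = ι w * ι w'
      rw [← map_mul, ← map_mul, hprod]
    have hE2 := congrArg τ hE
    rw [map_mul, map_mul, AlgEquiv.commutes] at hE2
    have hE3 := congrArg (fun y : E => (y : Ω)) hE2
    have hS : algebraMap O S z * (⟨((τ z'E : E) : Ω), i3⟩ : S)
        = (⟨((τ wE : E) : Ω), i1⟩ : S) * (⟨((τ w'E : E) : Ω), i2⟩ : S) := by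
      apply Subtype.val_injective
      exact hE3
    have hmem : (⟨((τ wE : E) : Ω), i1⟩ : S) * (⟨((τ w'E : E) : Ω), i2⟩ : S) ∈ Q := by
      rw [← hS]
      exact Q.mul_mem_right _ ((hQmem z).2 hz)
    rcases hQmax.isPrime.mem_or_mem hmem with h | h
    · exact Or.inl (hroot τ w hwE C₁ D₁ hC1 hdC hw hwt i1 h)
    · exact Or.inr (hroot τ w' hw'E C₂ D₂ hC2 hdC2 hw' hw't i2 h)
  have hfin : ∀ x : O, ι x ∈ k → ∃ a b : ℂ[X], aeval z b ≠ 0 ∧ x * aeval z b = aeval z a := by
    intro x hx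
    obtain ⟨r, s, hrs⟩ := (IntermediateField.mem_adjoin_simple_iff ℂ (ι x)).1 hx
    by_cases h0 : aeval z s = 0
    · have h1 : ι x = 0 := by rw [hrs, hae z s, h0, map_zero, div_zero]
      have h2 : x = 0 := hinj (by rw [h1, map_zero])
      exact ⟨0, 1, by simp, by simp [h2]⟩
    · refine ⟨r, s, h0, hinj ?_⟩
      rw [map_mul, hrs, hae, hae, div_mul_cancel₀]
      intro h1
      exact h0 (hinj (by rw [h1, map_zero]))
  have hbot : ∀ (x : O) (hx : ι x ∈ E), (∀ τ : E ≃ₐ[k] E, τ ⟨ι x, hx⟩ = ⟨ι x, hx⟩) → ι x ∈ k := by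
    intro x hx h
    have h1 := (InfiniteGalois.mem_bot_iff_fixed (k := k) (K := E) (⟨ι x, hx⟩ : E)).2 h
    obtain ⟨y, hy⟩ := IntermediateField.mem_bot.1 h1
    have h2 := congrArg (fun y : E => (y : Ω)) hy
    have h3 : ((y : k) : Ω) = ι x := h2
    rw [← h3]
    exact y.2
  rcases union_subgroups (MulAction.stabilizer (E ≃ₐ[k] E) wE)
    (MulAction.stabilizer (E ≃ₐ[k] E) w'E) (fun τ => by
      rcases hall τ with h | h
      · exact Or.inl h
      · exact Or.inr h) with h | h
  · exact Or.inl (hfin w (hbot w hwE (fun τ => h τ)))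
  · exact Or.inr (hfin w' (hbot w' hw'E (fun τ => h τ)))

end core

theorem core {O : Type} [CommRing O] [IsDomain O] [Algebra ℂ O] (ev : O →ₐ[ℂ] ℂ)
    (hu : ∀ x : O, ev x ≠ 0 → IsUnit x) (t z z' w w' : O)
    (A B A' B' C₁ D₁ C₂ D₂ : ℂ[X])
    (hzt : aeval z A = t * aeval z B) (hz't : aeval z' A' = t * aeval z' B')
    (hwt : aeval w C₁ = t * aeval w D₁) (hw't : aeval w' C₂ = t * aeval w' D₂)
    (hprod : z * z' = w * w')
    (ht : ev t = 0) (hz : ev z = 0) (hw : ev w = 0) (hw' : ev w' = 0)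
    (hB : ev (aeval z B) ≠ 0)
    (hA' : A' ≠ 0) (hdA : B'.natDegree ≤ A'.natDegree)
    (hC1 : C₁.coeff 1 ≠ 0) (hdC : D₁.natDegree ≤ C₁.natDegree)
    (hC2 : C₂.coeff 1 ≠ 0) (hdC2 : D₂.natDegree ≤ C₂.natDegree) :
    (∃ a b : ℂ[X], aeval z b ≠ 0 ∧ w * aeval z b = aeval z a) ∨
    (∃ a b : ℂ[X], aeval z b ≠ 0 ∧ w' * aeval z b = aeval z a) := by
  have hinj : Function.Injective (algebraMap O (AlgebraicClosure (FractionRing O))) := by
    rw [IsScalarTower.algebraMap_eq O (FractionRing O) (AlgebraicClosure (FractionRing O))]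
    exact (algebraMap (FractionRing O) (AlgebraicClosure (FractionRing O))).injective.comp
      (IsFractionRing.injective O (FractionRing O))
  have : CharZero O := charZero_of_injective_algebraMap (algebraMap ℂ O).injective
  have : CharZero (AlgebraicClosure (FractionRing O)) := charZero_of_injective_algebraMap hinj
  exact core_field (Ω := AlgebraicClosure (FractionRing O)) hinj ev hu t z z' w w' A B A' B'
    C₁ D₁ C₂ D₂ hzt hz't hwt hw't hprod ht hz hw hw' hB hA' hdA hC1 hdC hC2 hdC2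

end Pool.Agent.Helper246.Blum
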