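import Mathlib
import Pool.Agent.Helper246.BlumAlg
set_option autoImplicit false

namespace Pool.Agent.Helper246.Blum

open Polynomial

/-- `y` is a rational function of `x`. -/
def Rel {O : Type} [CommRing O] [Algebra ℂ O] (x y : O) : Prop :=
  ∃ a b : ℂ[X], aeval x b ≠ 0 ∧ y * aeval x b = aeval x a

theorem rel_iff {O : Type} [CommRing O] [IsDomain O] [Algebra ℂ O] (x y : O) :
    Rel x y ↔ algebraMap O (FractionRing O) y ∈
      IntermediateField.adjoin ℂ {algebraMap O (FractionRing O) x} := by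
  have hinj : Function.Injective (algebraMap O (FractionRing O)) := IsFractionRing.injective _ _
  have hae : ∀ (P : ℂ[X]), aeval (algebraMap O (FractionRing O) x) P
      = algebraMap O (FractionRing O) (aeval x P) := fun P => aeval_algebraMap_apply _ x P
  rw [IntermediateField.mem_adjoin_simple_iff]
  constructor
  · rintro ⟨a, b, hb, hab⟩
    refine ⟨a, b, ?_⟩
    rw [hae, hae, ← hab, map_mul, mul_div_cancel_right₀]
    intro h
    exact hb (hinj (by rw [h, map_zero]))
  · rintro ⟨r, s, hrs⟩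
    by_cases h0 : aeval x s = 0
    · have h1 : algebraMap O (FractionRing O) y = 0 := by rw [hrs, hae s, h0, map_zero, div_zero]
      have h2 : y = 0 := hinj (by rw [h1, map_zero])
      exact ⟨0, 1, by simp, by simp [h2]⟩
    · refine ⟨r, s, h0, hinj ?_⟩
      rw [map_mul, hrs, hae, hae, div_mul_cancel₀]
      intro h1
      exact h0 (hinj (by rw [h1, map_zero]))

theorem rel_trans {O : Type} [CommRing O] [IsDomain O] [Algebra ℂ O] {x y u : O}
    (h1 : Rel x y) (h2 : Rel y u) : Rel x u := by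
  rw [rel_iff] at *
  exact (IntermediateField.adjoin_simple_le_iff.2 h1) h2

/-- Rational functions of each other: Moebius. -/
theorem moebius {O : Type} [CommRing O] [IsDomain O] [Algebra ℂ O] (z w : O)
    (hz : ∀ P : ℂ[X], aeval z P = 0 → P = 0) (hw : ∀ P : ℂ[X], aeval w P = 0 → P = 0)
    (h1 : Rel z w) (h2 : Rel w z) :
    ∃ a b c d : ℂ, (c ≠ 0 ∨ d ≠ 0) ∧ w * (algebraMap ℂ O c * z + algebraMap ℂ O d)
      = algebraMap ℂ O a * z + algebraMap ℂ O b := by
  classical
  obtain ⟨a, b, hb, hab⟩ := h1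
  obtain ⟨c, d, hd, hcd⟩ := h2
  have hinj : Function.Injective (algebraMap O (FractionRing O)) := IsFractionRing.injective _ _
  set ι := algebraMap O (FractionRing O) with hι
  have hae : ∀ (x : O) (P : ℂ[X]), aeval (ι x) P
      = ι (aeval x P) := fun x P => aeval_algebraMap_apply _ x P
  have hφinj : Function.Injective (aeval (ι z) : ℂ[X] →ₐ[ℂ] FractionRing O) := by
    rw [injective_iff_map_eq_zero]
    intro P hP
    apply hz P
    apply hinj
    rw [← hae, hP, map_zero]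
  have hle := nonZeroDivisors_le_comap_nonZeroDivisors_of_injective _ hφinj
  let ψ : RatFunc ℂ →ₐ[ℂ] FractionRing O := RatFunc.liftAlgHom (aeval (ι z)) hle
  have hψinj : Function.Injective ψ := RatFunc.liftAlgHom_injective _ hφinj hle
  have hψX : ψ RatFunc.X = ι z := by
    have := RatFunc.liftAlgHom_apply_div (aeval (ι z) : ℂ[X] →ₐ[ℂ] FractionRing O) hle
      (X : ℂ[X]) (1 : ℂ[X])
    simpa [RatFunc.algebraMap_X] using this
  have hb0 : b ≠ 0 := fun h => hb (by rw [h, map_zero])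
  set f : RatFunc ℂ := algebraMap ℂ[X] (RatFunc ℂ) a / algebraMap ℂ[X] (RatFunc ℂ) b with hf
  have hψf : ψ f = ι w := by
    rw [hf]
    rw [show ψ (algebraMap ℂ[X] (RatFunc ℂ) a / algebraMap ℂ[X] (RatFunc ℂ) b)
      = aeval (ι z) a / aeval (ι z) b from RatFunc.liftAlgHom_apply_div _ hle a b]
    rw [hae, hae, div_eq_iff, ← map_mul, hab]
    intro h
    exact hb (hinj (by rw [h, map_zero]))
  have hψae : ∀ P : ℂ[X], ψ (aeval f P) = ι (aeval w P) := by
    intro P
    rw [← hae, ← hψf]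
    exact (aeval_algHom_apply ψ f P).symm
  have hdf : aeval f d ≠ 0 := by
    intro h
    apply hd
    apply hinj
    rw [← hψae, h, map_zero, map_zero]
  have hXf : RatFunc.X * aeval f d = aeval f c := by
    apply hψinj
    rw [map_mul, hψX, hψae, hψae, ← map_mul, hcd]
  have hXmem : (RatFunc.X : RatFunc ℂ) ∈ IntermediateField.adjoin ℂ {f} := by
    rw [IntermediateField.mem_adjoin_simple_iff]
    exact ⟨c, d, by rw [eq_div_iff hdf, hXf]⟩
  have htop : IntermediateField.adjoin ℂ {f} = ⊤ := by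
    rw [eq_top_iff, ← RatFunc.adjoin_X (K := ℂ)]
    exact IntermediateField.adjoin_simple_le_iff.2 hXmem
  have hrank : max f.num.natDegree f.denom.natDegree = 1 := by
    rw [← f.finrank_eq_max_natDegree, htop]
    exact IntermediateField.finrank_top
  have hn1 : f.num.natDegree ≤ 1 := by rw [← hrank]; exact le_max_left _ _
  have hd1 : f.denom.natDegree ≤ 1 := by rw [← hrank]; exact le_max_right _ _
  have hden : f.denom ≠ 0 := f.denom_ne_zero
  have hψnd : ψ f = aeval (ι z) f.num / aeval (ι z) f.denom :=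
    RatFunc.liftAlgHom_apply _ hle f
  have hden0 : aeval z f.denom ≠ 0 := fun h => hden (hz _ h)
  have key : w * aeval z f.denom = aeval z f.num := by
    apply hinj
    rw [map_mul, ← hψf, hψnd, hae, hae, div_mul_cancel₀]
    intro h
    exact hden0 (hinj (by rw [h, map_zero]))
  have hlin : ∀ P : ℂ[X], P.natDegree ≤ 1 → aeval z P
      = algebraMap ℂ O (P.coeff 1) * z + algebraMap ℂ O (P.coeff 0) := by
    intro P hP
    conv_lhs => rw [eq_X_add_C_of_natDegree_le_one hP]
    simp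
  refine ⟨f.num.coeff 1, f.num.coeff 0, f.denom.coeff 1, f.denom.coeff 0, ?_, ?_⟩
  · by_contra hc
    push Not at hc
    apply hden
    rw [eq_X_add_C_of_natDegree_le_one hd1, hc.1, hc.2]
    simp
  · rw [← hlin _ hd1, ← hlin _ hn1, key]


/-- A polynomial vanishing at a nonzero non-unit is zero. -/
theorem transc {O : Type} [CommRing O] [IsDomain O] [Algebra ℂ O] (ev : O →ₐ[ℂ] ℂ) (z : O)
    (hz : ev z = 0) (hz0 : z ≠ 0) (P : ℂ[X]) (hP : aeval z P = 0) : P = 0 := by
  by_contra h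
  obtain ⟨Q, hQ, hn⟩ := Polynomial.exists_eq_pow_rootMultiplicity_mul_and_not_dvd P h 0
  rw [C_0, sub_zero] at hQ hn
  rw [hQ, map_mul, map_pow, aeval_X] at hP
  rcases mul_eq_zero.1 hP with h1 | h1
  · exact hz0 (eq_zero_of_pow_eq_zero h1)
  · apply hn
    rw [X_dvd_iff]
    have h2 := congrArg ev h1
    rw [← aeval_algHom_apply, hz, map_zero] at h2
    simpa [aeval_def] using h2

section conj

variable {O : Type} [CommRing O] [IsDomain O] [Algebra ℂ O] (σ : O →+* O)

omit [IsDomain O] in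
theorem sigma_aeval (hσ : ∀ c : ℂ, σ (algebraMap ℂ O c) = algebraMap ℂ O (starRingEnd ℂ c))
    (x : O) (P : ℂ[X]) : σ (aeval x P) = aeval (σ x) (P.map (starRingEnd ℂ)) := by
  induction P using Polynomial.induction_on' with
  | add p q hp hq => simp [hp, hq]
  | monomial n a => simp [aeval_monomial, hσ]

theorem rel_conj (hσ : ∀ c : ℂ, σ (algebraMap ℂ O c) = algebraMap ℂ O (starRingEnd ℂ c))
    (hσσ : ∀ x, σ (σ x) = x) {x y : O}
    (h : Rel x y) : Rel (σ x) (σ y) := by
  obtain ⟨a, b, hb, hab⟩ := h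
  refine ⟨a.map (starRingEnd ℂ), b.map (starRingEnd ℂ), ?_, ?_⟩
  · rw [← sigma_aeval σ hσ]
    intro h
    apply hb
    rw [← hσσ (aeval x b), h, map_zero]
  · rw [← sigma_aeval σ hσ, ← sigma_aeval σ hσ, ← map_mul, hab]

theorem moebius_unit (ev : O →ₐ[ℂ] ℂ)
    (hσ : ∀ c : ℂ, σ (algebraMap ℂ O c) = algebraMap ℂ O (starRingEnd ℂ c))
    (hσσ : ∀ x, σ (σ x) = x) (hσev : ∀ x, ev (σ x) = starRingEnd ℂ (ev x))
    (z y : O) (hz : ev z = 0) (hy : ev y = 0) (hz0 : z ≠ 0)
    (hprod : z * σ z = y * σ y) (h1 : Rel z y) (h2 : Rel y z) :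
    ∃ c : ℂ, ‖c‖ = 1 ∧ (y = algebraMap ℂ O c * z ∨ y = algebraMap ℂ O c * σ z) := by
  have hσz0 : σ z ≠ 0 := fun h => hz0 (by rw [← hσσ z, h, map_zero])
  have hp0 : z * σ z ≠ 0 := mul_ne_zero hz0 hσz0
  have hy0 : y ≠ 0 := by
    intro h
    rw [hprod, h, zero_mul] at hp0
    exact hp0 rfl
  have hσy0 : σ y ≠ 0 := fun h => hy0 (by rw [← hσσ y, h, map_zero])
  obtain ⟨a, b, c, d, hcd, he⟩ := moebius z y (transc ev z hz hz0) (transc ev y hy hy0) h1 h2
  have hb : b = 0 := by
    have := congrArg ev he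
    simp only [map_mul, map_add, AlgHom.commutes, hz, hy, mul_zero, zero_mul, zero_add] at this
    simpa using this.symm
  subst hb
  rw [map_zero, add_zero] at he
  have hd : d ≠ 0 := by
    intro hd
    rw [hd, map_zero, add_zero] at he
    have hc : c ≠ 0 := by
      rcases hcd with h | h
      · exact h
      · exact absurd hd h
    have h3 : (y * algebraMap ℂ O c - algebraMap ℂ O a) * z = 0 := by linear_combination he
    rcases mul_eq_zero.1 h3 with h4 | h4
    · have h5 := congrArg ev h4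
      simp only [map_mul, map_sub, AlgHom.commutes, hy, zero_mul, zero_sub, map_zero] at h5
      have ha : a = 0 := by simpa using h5
      rw [ha, map_zero, sub_zero] at h4
      rcases mul_eq_zero.1 h4 with h6 | h6
      · exact hy0 h6
      · exact hc ((algebraMap ℂ O).injective (by rw [h6, map_zero]))
    · exact hz0 h4
  have ha : a ≠ 0 := by
    intro ha
    rw [ha, map_zero, zero_mul] at he
    rcases mul_eq_zero.1 he with h3 | h3
    · exact hy0 h3
    · have h4 := congrArg ev h3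
      simp only [map_mul, map_add, AlgHom.commutes, hz, mul_zero, zero_add, map_zero] at h4
      exact hd (by simpa using h4)
  set γ : ℂ := c / a with hγ
  set δ : ℂ := d / a with hδ
  have hx : y * (algebraMap ℂ O γ * z + algebraMap ℂ O δ) = z := by
    have h3 : algebraMap ℂ O a⁻¹ * algebraMap ℂ O a = 1 := by
      rw [← map_mul, inv_mul_cancel₀ ha, map_one]
    rw [hγ, hδ, div_eq_mul_inv, div_eq_mul_inv, map_mul, map_mul]
    linear_combination (algebraMap ℂ O a⁻¹) * he + z * h3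
  set x : O := algebraMap ℂ O γ * z + algebraMap ℂ O δ with hxdef
  have hσx : σ x = algebraMap ℂ O (starRingEnd ℂ γ) * σ z + algebraMap ℂ O (starRingEnd ℂ δ) := by
    rw [hxdef, map_add, map_mul, hσ, hσ]
  have hσyx : σ y * σ x = σ z := by rw [← map_mul, hx]
  have hxx : x * σ x = 1 := by
    have h3 : (z * σ z) * (x * σ x) = (z * σ z) * 1 := by
      calc (z * σ z) * (x * σ x) = (y * x) * (σ y * σ x) := by rw [hprod]; ring
        _ = z * σ z := by rw [hx, hσyx]
        _ = _ := by ring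
    exact mul_left_cancel₀ hp0 h3
  have hδ1 : δ * starRingEnd ℂ δ = 1 := by
    have h3 := congrArg ev hxx
    rw [hσx, hxdef] at h3
    simp only [map_mul, map_add, AlgHom.commutes, hz, hσev, mul_zero, zero_add, map_zero,
      map_one] at h3
    simpa using h3
  have hδn : ‖δ‖ = 1 := by
    have h3 : ‖δ‖ * ‖δ‖ = 1 := by
      have := congrArg norm hδ1
      rwa [norm_mul, RCLike.norm_conj, norm_one] at this
    nlinarith [norm_nonneg δ]
  have hδ0 : δ ≠ 0 := by
    intro h; rw [h, norm_zero] at hδn; exact zero_ne_one hδn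
  by_cases hγ0 : γ = 0
  · refine ⟨starRingEnd ℂ δ, by rw [RCLike.norm_conj, hδn], Or.inl ?_⟩
    have h3 : y * algebraMap ℂ O δ = z := by
      rw [← hx, hxdef, hγ0, map_zero, zero_mul, zero_add]
    have h4 : algebraMap ℂ O δ * algebraMap ℂ O (starRingEnd ℂ δ) = 1 := by
      rw [← map_mul, hδ1, map_one]
    linear_combination (algebraMap ℂ O (starRingEnd ℂ δ)) * h3 - y * h4
  · have hγ0' : starRingEnd ℂ γ ≠ 0 := by
      simpa using hγ0
    -- γ z = - δ γ̄ σ y
    have h5 : algebraMap ℂ O γ * z = - (algebraMap ℂ O δ * algebraMap ℂ O (starRingEnd ℂ γ) * σ y) := by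
      have h4 : algebraMap ℂ O δ * algebraMap ℂ O (starRingEnd ℂ δ) = 1 := by
        rw [← map_mul, hδ1, map_one]
      have h6 : algebraMap ℂ O γ * z * σ x = - (algebraMap ℂ O δ * algebraMap ℂ O (starRingEnd ℂ γ) * σ z) := by
        have h7 := hxx
        rw [hσx, hxdef] at h7
        rw [hσx]
        linear_combination h7 - h4
      have hσx0 : σ x ≠ 0 := by
        intro h; rw [h, mul_zero] at hxx; exact zero_ne_one hxx
      apply mul_right_cancel₀ hσx0
      rw [h6, ← hσyx]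
      ring
    have h8 : σ y = algebraMap ℂ O (- γ / (δ * starRingEnd ℂ γ)) * z := by
      have h9 : algebraMap ℂ O (δ * starRingEnd ℂ γ) * algebraMap ℂ O (- γ / (δ * starRingEnd ℂ γ))
          = algebraMap ℂ O (-γ) := by
        rw [← map_mul, mul_div_cancel₀]
        exact mul_ne_zero hδ0 hγ0'
      have h10 : algebraMap ℂ O (δ * starRingEnd ℂ γ) ≠ 0 := by
        intro h
        exact mul_ne_zero hδ0 hγ0' ((algebraMap ℂ O).injective (by rw [h, map_zero]))
      apply mul_left_cancel₀ h10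
      rw [← mul_assoc, h9, map_mul, map_neg]
      linear_combination h5
    refine ⟨starRingEnd ℂ (- γ / (δ * starRingEnd ℂ γ)), ?_, Or.inr ?_⟩
    · rw [RCLike.norm_conj, norm_div, norm_neg, norm_mul, RCLike.norm_conj, hδn, one_mul,
        div_self (norm_ne_zero_iff.2 hγ0)]
    · rw [← hσσ y, h8, map_mul, hσ]

/-- Main algebraic statement. -/
theorem alg_main (ev : O →ₐ[ℂ] ℂ) (hu : ∀ x : O, ev x ≠ 0 → IsUnit x)
    (hσ : ∀ c : ℂ, σ (algebraMap ℂ O c) = algebraMap ℂ O (starRingEnd ℂ c))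
    (hσσ : ∀ x, σ (σ x) = x) (hσev : ∀ x, ev (σ x) = starRingEnd ℂ (ev x))
    (t z w : O) (A B C₁ D₁ : ℂ[X])
    (hzt : aeval z A = t * aeval z B) (hwt : aeval w C₁ = t * aeval w D₁)
    (hprod : z * σ z = w * σ w) (ht : ev t = 0) (ht0 : t ≠ 0) (hσt : σ t = t)
    (hz : ev z = 0) (hw : ev w = 0)
    (hA0 : A.coeff 0 = 0) (hC0 : C₁.coeff 0 = 0)
    (hA1 : A.coeff 1 ≠ 0) (hC1 : C₁.coeff 1 ≠ 0)
    (hB0 : B.coeff 0 ≠ 0) (hD0 : D₁.coeff 0 ≠ 0)
    (hdA : B.natDegree ≤ A.natDegree) (hdC : D₁.natDegree ≤ C₁.natDegree) :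
    ∃ c : ℂ, ‖c‖ = 1 ∧ (w = algebraMap ℂ O c * z ∨ w = algebraMap ℂ O c * σ z) := by
  have hzero : ∀ (x : O) (P Q : ℂ[X]), aeval x P = t * aeval x Q → P.coeff 0 = 0 → Q.coeff 0 ≠ 0 →
      x ≠ 0 := by
    intro x P Q h hP hQ hx
    subst hx
    have e1 : ∀ R : ℂ[X], aeval (0 : O) R = algebraMap ℂ O (R.coeff 0) := by
      intro R
      rw [coeff_zero_eq_aeval_zero']
    rw [e1, e1, hP, map_zero] at h
    rcases mul_eq_zero.1 h.symm with h1 | h1
    · exact ht0 h1
    · exact hQ ((algebraMap ℂ O).injective (by rw [h1, map_zero]))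
  have hz0 : z ≠ 0 := hzero z A B hzt hA0 hB0
  have hw0 : w ≠ 0 := hzero w C₁ D₁ hwt hC0 hD0
  have hev : ∀ (x : O) (P : ℂ[X]), ev x = 0 → ev (aeval x P) = P.coeff 0 := by
    intro x P hx
    rw [← aeval_algHom_apply, hx]
    simp [aeval_def, coeff_zero_eq_eval_zero]
  have hcoef : ∀ (P : ℂ[X]) (i : ℕ), (P.map (starRingEnd ℂ)).coeff i = starRingEnd ℂ (P.coeff i) :=
    fun P i => coeff_map _ _
  have hdeg : ∀ P : ℂ[X], (P.map (starRingEnd ℂ)).natDegree = P.natDegree := fun P =>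
    natDegree_map_eq_of_injective (starRingEnd ℂ).injective P
  have hσzt : aeval (σ z) (A.map (starRingEnd ℂ)) = t * aeval (σ z) (B.map (starRingEnd ℂ)) := by
    rw [← sigma_aeval σ hσ, ← sigma_aeval σ hσ, hzt, map_mul, hσt]
  have hσwt : aeval (σ w) (C₁.map (starRingEnd ℂ)) = t * aeval (σ w) (D₁.map (starRingEnd ℂ)) := by
    rw [← sigma_aeval σ hσ, ← sigma_aeval σ hσ, hwt, map_mul, hσt]
  have hσz : ev (σ z) = 0 := by rw [hσev, hz, map_zero]
  have hσw : ev (σ w) = 0 := by rw [hσev, hw, map_zero]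
  have hA1' : (A.map (starRingEnd ℂ)).coeff 1 ≠ 0 := by
    rw [hcoef]; simpa using hA1
  have hC1' : (C₁.map (starRingEnd ℂ)).coeff 1 ≠ 0 := by
    rw [hcoef]; simpa using hC1
  have k1 : Rel z w ∨ Rel z (σ w) := core ev hu t z (σ z) w (σ w) A B (A.map (starRingEnd ℂ))
    (B.map (starRingEnd ℂ)) C₁ D₁ (C₁.map (starRingEnd ℂ)) (D₁.map (starRingEnd ℂ))
    hzt hσzt hwt hσwt hprod ht hz hw hσw (by rw [hev z B hz]; exact hB0)
    (fun h => hA1' (by rw [h, coeff_zero])) (by rw [hdeg, hdeg]; exact hdA) hC1 hdC hC1'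
    (by rw [hdeg, hdeg]; exact hdC)
  have k2 : Rel w z ∨ Rel w (σ z) := core ev hu t w (σ w) z (σ z) C₁ D₁ (C₁.map (starRingEnd ℂ))
    (D₁.map (starRingEnd ℂ)) A B (A.map (starRingEnd ℂ)) (B.map (starRingEnd ℂ))
    hwt hσwt hzt hσzt hprod.symm ht hw hz hσz (by rw [hev w D₁ hw]; exact hD0)
    (fun h => hC1' (by rw [h, coeff_zero])) (by rw [hdeg, hdeg]; exact hdC) hA1 hdA hA1'
    (by rw [hdeg, hdeg]; exact hdA)
  have cj : ∀ {x y : O}, Rel x y → Rel (σ x) (σ y) := fun h => rel_conj σ hσ hσσ h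
  have k3 : (Rel z w ∧ Rel w z) ∨ (Rel z (σ w) ∧ Rel (σ w) z) := by
    rcases k1 with h1 | h1 <;> rcases k2 with h2 | h2
    · exact Or.inl ⟨h1, h2⟩
    · refine Or.inl ⟨h1, ?_⟩
      have h3 := cj h1
      have h4 := cj h2
      rw [hσσ] at h4
      exact rel_trans (rel_trans h2 h3) h4
    · refine Or.inr ⟨h1, ?_⟩
      have h3 := cj h1
      rw [hσσ] at h3
      have h4 := cj h2
      exact rel_trans (rel_trans h4 h3) h2
    · refine Or.inr ⟨h1, ?_⟩
      have h4 := cj h2
      rw [hσσ] at h4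
      exact h4
  rcases k3 with ⟨h1, h2⟩ | ⟨h1, h2⟩
  · exact moebius_unit σ ev hσ hσσ hσev z w hz hw hz0 hprod h1 h2
  · obtain ⟨c, hc, h⟩ := moebius_unit σ ev hσ hσσ hσev z (σ w) hz hσw hz0
      (by rw [hσσ, hprod, mul_comm]) h1 h2
    refine ⟨starRingEnd ℂ c, by rw [RCLike.norm_conj, hc], ?_⟩
    rcases h with h | h
    · right
      rw [← hσσ w, h, map_mul, hσ]
    · left
      rw [← hσσ w, h, map_mul, hσ, hσσ]

end conj

end Pool.Agent.Helper246.Blum
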