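import Mathlib
set_option autoImplicit false

namespace Pool.Agent.Helper246.Blum

open Filter Topology Set

theorem hasDerivAt_log_norm (h : ℝ → ℂ) (h' : ℂ) (t : ℝ) (hd : HasDerivAt h h' t) (h0 : h t ≠ 0) :
    HasDerivAt (fun s => Real.log ‖h s‖) (h' / h t).re t := by
  have hre : HasDerivAt (fun s => (h s).re) h'.re t := by
    have := Complex.reCLM.hasFDerivAt.comp_hasDerivAt t hd
    simpa [Function.comp_def] using this
  have him : HasDerivAt (fun s => (h s).im) h'.im t := by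
    have := Complex.imCLM.hasFDerivAt.comp_hasDerivAt t hd
    simpa [Function.comp_def] using this
  have hsq : HasDerivAt (fun s => (h s).re * (h s).re + (h s).im * (h s).im)
      (h'.re * (h t).re + (h t).re * h'.re + (h'.im * (h t).im + (h t).im * h'.im)) t :=
    (hre.mul hre).add (him.mul him)
  have hpos : (h t).re * (h t).re + (h t).im * (h t).im ≠ 0 := by
    rw [← Complex.normSq_apply]
    exact (Complex.normSq_pos.2 h0).ne'
  have hlog := (hsq.log hpos).div_const 2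
  have e1 : (fun s => Real.log ‖h s‖)
      = fun s => Real.log ((h s).re * (h s).re + (h s).im * (h s).im) / 2 := by
    funext s
    rw [← Complex.normSq_apply, Complex.norm_def, Real.log_sqrt (Complex.normSq_nonneg _)]
  rw [e1]
  refine hlog.congr_deriv ?_
  rw [Complex.div_re, Complex.normSq_apply]
  field_simp
  ring

theorem exists_branch (K : ℂ → ℂ) (hK : AnalyticAt ℂ K 0) (hK0 : K 0 = 0) (hK1 : deriv K 0 ≠ 0) :
    ∃ z : ℂ → ℂ, AnalyticAt ℂ z 0 ∧ z 0 = 0 ∧ deriv z 0 ≠ 0 ∧ (∀ᶠ t in 𝓝 (0:ℂ), K (z t) = t) ∧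
      (∀ᶠ x in 𝓝 (0:ℂ), z (K x) = x) := by
  refine ⟨hK.hasStrictDerivAt.localInverse _ _ _ hK1, ?_, ?_, ?_, ?_, ?_⟩
  · have := hK.analyticAt_localInverse hK1
    rwa [hK0] at this
  · have : hK.hasStrictDerivAt.localInverse _ _ _ hK1 (K 0) = 0 :=
      HasStrictFDerivAt.localInverse_apply_image ..
    rwa [hK0] at this
  · have := hK.hasStrictDerivAt.to_localInverse hK1
    rw [hK0] at this
    rw [this.hasDerivAt.deriv]
    exact inv_ne_zero hK1
  · have := HasStrictDerivAt.eventually_right_inverse hK.hasStrictDerivAt hK1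
    rwa [hK0] at this
  · exact HasStrictDerivAt.eventually_left_inverse hK.hasStrictDerivAt hK1

/-- `z f'(z) / f(z)` -/
noncomputable def KK (f : ℂ → ℂ) : ℂ → ℂ := fun x => x * deriv f x / f x

theorem KK_analytic (f : ℂ → ℂ) (hf : AnalyticAt ℂ f 0) (h0 : f 0 ≠ 0) :
    AnalyticAt ℂ (KK f) 0 :=
  (analyticAt_id.mul hf.deriv).div hf h0

theorem KK_zero (f : ℂ → ℂ) : KK f 0 = 0 := by simp [KK]

theorem KK_deriv (f : ℂ → ℂ) (hf : AnalyticAt ℂ f 0) (h0 : f 0 ≠ 0) :
    HasDerivAt (KK f) (deriv f 0 / f 0) 0 := by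
  have h1 : HasDerivAt (fun x : ℂ => x * deriv f x) (1 * deriv f 0 + 0 * deriv (deriv f) 0) 0 :=
    (hasDerivAt_id (0:ℂ)).mul hf.deriv.differentiableAt.hasDerivAt
  have h2 := h1.div hf.differentiableAt.hasDerivAt h0
  refine h2.congr_deriv ?_
  field_simp
  ring

/-- The local description of the maximum modulus points. -/
theorem key_branch (f : ℂ → ℂ) (hf : Differentiable ℂ f) (h0 : f 0 ≠ 0) (h1 : deriv f 0 ≠ 0) :
    ∃ z : ℂ → ℂ, AnalyticAt ℂ z 0 ∧ z 0 = 0 ∧ (∀ᶠ t in 𝓝 (0:ℂ), KK f (z t) = t) ∧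
      (∀ᶠ x in 𝓝 (0:ℂ), z (KK f x) = x) ∧
      ∃ δ > (0:ℝ), ∃ r₀ > (0:ℝ),
        (∀ t ∈ Ioo (0:ℝ) δ, z t ≠ 0 ∧ f (z t) ≠ 0) ∧
        StrictMonoOn (fun t : ℝ => Real.log ‖z t‖) (Ioo 0 δ) ∧
        (∀ t ∈ Ioo (0:ℝ) δ, ∀ s ∈ Ioo (0:ℝ) δ, s ≠ t →
          Real.log ‖f (z t)‖ - t * Real.log ‖z t‖ < Real.log ‖f (z s)‖ - t * Real.log ‖z s‖) ∧
        (∀ r ∈ Ioo (0:ℝ) r₀, ∃ t ∈ Ioo (0:ℝ) δ, ‖z t‖ = r ∧ ∀ x, ‖x‖ = r → ‖f x‖ ≤ ‖f (z t)‖) := by
  have hfa : AnalyticAt ℂ f 0 := hf.analyticAt 0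
  have hK := KK_analytic f hfa h0
  have hKd : deriv (KK f) 0 ≠ 0 := by
    rw [(KK_deriv f hfa h0).deriv]
    exact div_ne_zero h1 h0
  obtain ⟨z, hz, hz0, hz1, hr, hl⟩ := exists_branch (KK f) hK (KK_zero f) hKd
  refine ⟨z, hz, hz0, hr, hl, ?_⟩
  -- eventual properties of the branch
  have hzc : Tendsto z (𝓝 0) (𝓝 0) := by
    have := hz.continuousAt.tendsto
    rwa [hz0] at this
  have hfc : ∀ᶠ x in 𝓝 (0:ℂ), f x ≠ 0 := hf.continuous.continuousAt.eventually_ne h0
  have hfz : ∀ᶠ t in 𝓝 (0:ℂ), f (z t) ≠ 0 := hzc.eventually hfc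
  have hzd : ∀ᶠ t in 𝓝 (0:ℂ), DifferentiableAt ℂ z t := by
    have := hz.eventually_analyticAt
    filter_upwards [this] with t ht
    exact ht.differentiableAt
  -- t z'(t)/z(t) → 1
  have hlim : Tendsto (fun t : ℂ => t * deriv z t / z t) (𝓝[≠] 0) (𝓝 1) := by
    have e1 : Tendsto (fun t : ℂ => z t / t) (𝓝[≠] 0) (𝓝 (deriv z 0)) := by
      have := hz.differentiableAt.hasDerivAt.tendsto_slope
      refine this.congr (fun t => ?_)
      rw [slope_def_field, hz0, sub_zero, sub_zero]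
    have e2 : Tendsto (fun t : ℂ => deriv z t) (𝓝[≠] 0) (𝓝 (deriv z 0)) :=
      hz.deriv.continuousAt.tendsto.mono_left nhdsWithin_le_nhds
    have e3 := e2.div e1 hz1
    rw [div_self hz1] at e3
    refine e3.congr (fun t => ?_)
    simp only [Pi.div_apply]
    rw [div_div_eq_mul_div, mul_comm]
  have hre : ∀ᶠ t in 𝓝[≠] (0:ℂ), 0 < (t * deriv z t / z t).re := by
    have e1 : Tendsto (fun t : ℂ => (t * deriv z t / z t).re) (𝓝[≠] 0) (𝓝 1) := by
      have := (Complex.continuous_re.tendsto (1:ℂ)).comp hlim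
      simpa [Function.comp_def] using this
    exact e1.eventually (lt_mem_nhds (by norm_num))
  have hzne : ∀ᶠ t in 𝓝[≠] (0:ℂ), z t ≠ 0 := by
    filter_upwards [hre] with t ht h
    rw [h, div_zero] at ht
    simp at ht
  -- a common radius
  have hall : ∀ᶠ t in 𝓝 (0:ℂ), f (z t) ≠ 0 ∧ DifferentiableAt ℂ z t ∧ KK f (z t) = t ∧
      (t ≠ 0 → 0 < (t * deriv z t / z t).re ∧ z t ≠ 0) := by
    rw [eventually_nhdsWithin_iff] at hre hzne
    filter_upwards [hfz, hzd, hr, hre, hzne] with t a1 a2 a3 a4 a5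
    exact ⟨a1, a2, a3, fun h => ⟨a4 h, a5 h⟩⟩
  obtain ⟨δ, hδ, hball⟩ := Metric.eventually_nhds_iff.1 hall
  have hreal : ∀ t : ℝ, |t| < δ → f (z t) ≠ 0 ∧ DifferentiableAt ℂ z t ∧ KK f (z t) = t ∧
      ((t:ℂ) ≠ 0 → 0 < ((t:ℂ) * deriv z t / z t).re ∧ z t ≠ 0) := by
    intro t ht
    apply hball
    rw [dist_zero_right, Complex.norm_real]
    exact ht
  -- derivatives
  have hdz : ∀ t : ℝ, |t| < δ → HasDerivAt (fun s : ℝ => z s) (deriv z t) t := by
    intro t ht
    exact (hreal t ht).2.1.hasDerivAt.comp_ofReal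
  have hdL : ∀ t : ℝ, |t| < δ → t ≠ 0 →
      HasDerivAt (fun s : ℝ => Real.log ‖z s‖) (deriv z t / z t).re t := by
    intro t ht ht0
    exact hasDerivAt_log_norm (fun s : ℝ => z s) _ t (hdz t ht)
      ((hreal t ht).2.2.2 (by exact_mod_cast ht0)).2
  have hdφ : ∀ t : ℝ, |t| < δ →
      HasDerivAt (fun s : ℝ => Real.log ‖f (z s)‖) (deriv f (z t) * deriv z t / f (z t)).re t := by
    intro t ht
    have e1 : HasDerivAt (fun s : ℝ => f (z s)) (deriv f (z t) * deriv z t) t :=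
      (hf (z t)).hasDerivAt.comp t (hdz t ht)
    exact hasDerivAt_log_norm (fun s : ℝ => f (z s)) _ t e1 (hreal t ht).1
  have hrel : ∀ t : ℝ, |t| < δ → t ≠ 0 →
      (deriv f (z t) * deriv z t / f (z t)).re = t * (deriv z t / z t).re := by
    intro t ht ht0
    obtain ⟨b1, b2, b3, b4⟩ := hreal t ht
    have b5 := (b4 (by exact_mod_cast ht0)).2
    have b6 : deriv f (z t) * deriv z t / f (z t) = KK f (z t) * (deriv z t / z t) := by
      unfold KK
      field_simp
    rw [b6, b3, Complex.re_ofReal_mul]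
  have hgpos : ∀ t : ℝ, |t| < δ → t ≠ 0 → 0 < t * (deriv z t / z t).re := by
    intro t ht ht0
    have := ((hreal t ht).2.2.2 (by exact_mod_cast ht0)).1
    rwa [mul_div_assoc, Complex.re_ofReal_mul] at this
  have hgpos' : ∀ t ∈ Ioo (0:ℝ) δ, 0 < (deriv z t / z t).re := by
    intro t ht
    have := hgpos t (by rw [abs_of_pos ht.1]; exact ht.2) ht.1.ne'
    exact (pos_iff_pos_of_mul_pos this).1 ht.1
  have hab : ∀ t ∈ Ioo (0:ℝ) δ, |t| < δ := fun t ht => by rw [abs_of_pos ht.1]; exact ht.2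
  -- strict monotonicity
  have hmono : StrictMonoOn (fun t : ℝ => Real.log ‖z t‖) (Ioo 0 δ) := by
    apply strictMonoOn_of_deriv_pos (convex_Ioo 0 δ)
    · intro t ht
      exact (hdL t (hab t ht) ht.1.ne').continuousAt.continuousWithinAt
    · intro t ht
      rw [interior_Ioo] at ht
      rw [(hdL t (hab t ht) ht.1.ne').deriv]
      exact hgpos' t ht
  -- φ is strictly increasing on (-δ, δ)
  have hφmono : ∀ t : ℝ, |t| < δ → t ≤ 0 → ‖f (z t)‖ ≤ ‖f 0‖ := by
    intro t ht ht0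
    rcases ht0.lt_or_eq with ht1 | ht1
    · have e1 : StrictMonoOn (fun s : ℝ => Real.log ‖f (z s)‖) (Icc t 0) := by
        apply strictMonoOn_of_deriv_pos (convex_Icc t 0)
        · intro s hs
          have hs' : |s| < δ := by
            rw [abs_of_nonpos hs.2]
            rw [abs_of_neg ht1] at ht
            linarith [hs.1]
          exact (hdφ s hs').continuousAt.continuousWithinAt
        · intro s hs
          rw [interior_Icc] at hs
          have hs' : |s| < δ := by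
            rw [abs_of_neg hs.2]
            rw [abs_of_neg ht1] at ht
            linarith [hs.1]
          rw [(hdφ s hs').deriv, hrel s hs' hs.2.ne]
          exact hgpos s hs' hs.2.ne
      have e2 := e1 (left_mem_Icc.2 ht0) (right_mem_Icc.2 ht0) ht1
      simp only [Complex.ofReal_zero, hz0] at e2
      exact ((Real.log_lt_log_iff (norm_pos_iff.2 (hreal t ht).1) (norm_pos_iff.2 h0)).1 e2).le
    · rw [ht1, Complex.ofReal_zero, hz0]
  -- points where ‖f‖ > ‖f 0‖
  have hbig : ∀ᶠ r in 𝓝[>] (0:ℝ), ∃ x : ℂ, ‖x‖ = r ∧ ‖f 0‖ < ‖f x‖ := by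
    set β : ℂ := starRingEnd ℂ (deriv f 0 / f 0) / ‖deriv f 0 / f 0‖ with hβ
    have hq : deriv f 0 / f 0 ≠ 0 := div_ne_zero h1 h0
    have hβn : ‖β‖ = 1 := by
      rw [hβ, norm_div, RCLike.norm_conj, Complex.norm_real, norm_norm, div_self (norm_ne_zero_iff.2 hq)]
    have e1 : HasDerivAt (fun s : ℝ => f (s * β)) (deriv f 0 * β) 0 := by
      have e2 : HasDerivAt (fun s : ℝ => (s:ℂ) * β) β 0 := by
        have := (Complex.ofRealCLM.hasDerivAt (x := (0:ℝ))).mul_const β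
        simpa using this
      have e3 : HasDerivAt f (deriv f 0) ((fun s : ℝ => (s:ℂ) * β) 0) := by
        simp only [Complex.ofReal_zero, zero_mul]
        exact (hf 0).hasDerivAt
      exact e3.comp (0:ℝ) e2
    have e4 := hasDerivAt_log_norm (fun s : ℝ => f (s * β)) _ 0 e1 (by simpa using h0)
    have e5 : (deriv f 0 * β / f ((0:ℝ) * β)).re = ‖deriv f 0 / f 0‖ := by
      rw [Complex.ofReal_zero, zero_mul, mul_div_right_comm, hβ, ← mul_div_assoc, Complex.mul_conj,
        Complex.normSq_eq_norm_sq]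
      rw [← Complex.ofReal_div, Complex.ofReal_re, sq, mul_div_assoc,
        div_self (norm_ne_zero_iff.2 hq), mul_one]
    rw [e5] at e4
    have e6 := e4.tendsto_slope
    have e7 : ∀ᶠ s in 𝓝[≠] (0:ℝ), 0 < slope (fun s : ℝ => Real.log ‖f (s * β)‖) 0 s :=
      e6.eventually (lt_mem_nhds (norm_pos_iff.2 hq))
    have e8 : ∀ᶠ s in 𝓝[>] (0:ℝ), 0 < slope (fun s : ℝ => Real.log ‖f (s * β)‖) 0 s :=
      e7.filter_mono (nhdsWithin_mono _ (fun x hx => ne_of_gt hx))
    have e9 : ∀ᶠ s : ℝ in 𝓝[>] (0:ℝ), f (s * β) ≠ 0 := by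
      have e10 : ContinuousAt (fun s : ℝ => f (s * β)) 0 := e1.continuousAt
      exact (e10.eventually_ne (by simpa using h0)).filter_mono nhdsWithin_le_nhds
    filter_upwards [e8, e9, self_mem_nhdsWithin] with s hs hs1 hs2
    refine ⟨s * β, ?_, ?_⟩
    · rw [norm_mul, hβn, mul_one, Complex.norm_real, Real.norm_of_nonneg (le_of_lt hs2)]
    · rw [slope_def_field, sub_zero, Complex.ofReal_zero, zero_mul] at hs
      have hs3 : (0:ℝ) < s := hs2
      have := (div_pos_iff_of_pos_right hs3).1 hs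
      exact (Real.log_lt_log_iff (norm_pos_iff.2 h0) (norm_pos_iff.2 hs1)).1 (by linarith)
  -- radius
  have hsmall : ∀ᶠ x in 𝓝 (0:ℂ), z (KK f x) = x ∧ ‖KK f x‖ < δ ∧ f x ≠ 0 := by
    have e1 : Tendsto (KK f) (𝓝 0) (𝓝 0) := by
      have := hK.continuousAt.tendsto
      rwa [KK_zero] at this
    have e2 : ∀ᶠ x in 𝓝 (0:ℂ), ‖KK f x‖ < δ := by
      have := e1.eventually (Metric.ball_mem_nhds 0 hδ)
      simpa using this
    filter_upwards [hl, e2, hfc] with x b1 b2 b3
    exact ⟨b1, b2, b3⟩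
  obtain ⟨r₁, hr₁, hball₁⟩ := Metric.eventually_nhds_iff.1 hsmall
  obtain ⟨r₂, hr₂, hball₂⟩ := (mem_nhdsGT_iff_exists_Ioo_subset.1 hbig)
  refine ⟨δ, hδ, min r₁ r₂, lt_min hr₁ hr₂, ?_, hmono, ?_, ?_⟩
  · intro t ht
    obtain ⟨b1, b2, b3, b4⟩ := hreal t (hab t ht)
    exact ⟨(b4 (by exact_mod_cast ht.1.ne')).2, b1⟩
  · intro t ht s hs hst
    have hF : ∀ u ∈ Ioo (0:ℝ) δ, HasDerivAt (fun s : ℝ => Real.log ‖f (z s)‖ - t * Real.log ‖z s‖)
        ((u - t) * (deriv z u / z u).re) u := by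
      intro u hu
      have e1 := (hdφ u (hab u hu)).sub ((hdL u (hab u hu) hu.1.ne').const_mul t)
      refine e1.congr_deriv ?_
      rw [hrel u (hab u hu) hu.1.ne']
      ring
    rcases lt_or_gt_of_ne hst with h | h
    · have e1 : StrictAntiOn (fun s : ℝ => Real.log ‖f (z s)‖ - t * Real.log ‖z s‖) (Icc s t) := by
        apply strictAntiOn_of_deriv_neg (convex_Icc s t)
        · intro u hu
          exact (hF u ⟨lt_of_lt_of_le hs.1 hu.1, lt_of_le_of_lt hu.2 ht.2⟩).continuousAt.continuousWithinAt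
        · intro u hu
          rw [interior_Icc] at hu
          have hu' : u ∈ Ioo (0:ℝ) δ := ⟨lt_trans hs.1 hu.1, lt_trans hu.2 ht.2⟩
          rw [(hF u hu').deriv]
          exact mul_neg_of_neg_of_pos (by linarith [hu.2]) (hgpos' u hu')
      exact e1 (left_mem_Icc.2 h.le) (right_mem_Icc.2 h.le) h
    · have e1 : StrictMonoOn (fun s : ℝ => Real.log ‖f (z s)‖ - t * Real.log ‖z s‖) (Icc t s) := by
        apply strictMonoOn_of_deriv_pos (convex_Icc t s)
        · intro u hu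
          exact (hF u ⟨lt_of_lt_of_le ht.1 hu.1, lt_of_le_of_lt hu.2 hs.2⟩).continuousAt.continuousWithinAt
        · intro u hu
          rw [interior_Icc] at hu
          have hu' : u ∈ Ioo (0:ℝ) δ := ⟨lt_trans ht.1 hu.1, lt_trans hu.2 hs.2⟩
          rw [(hF u hu').deriv]
          exact mul_pos (by linarith [hu.1]) (hgpos' u hu')
      exact e1 (left_mem_Icc.2 h.le) (right_mem_Icc.2 h.le) h
  · intro r hr'
    have hcomp : IsCompact (Metric.sphere (0:ℂ) r) := isCompact_sphere 0 r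
    have hne : (Metric.sphere (0:ℂ) r).Nonempty := NormedSpace.sphere_nonempty.2 hr'.1.le
    obtain ⟨x₀, hx₀, hmax⟩ := hcomp.exists_isMaxOn hne (f := fun x => ‖f x‖)
      (hf.continuous.norm.continuousOn)
    rw [mem_sphere_zero_iff_norm] at hx₀
    have hmax' : ∀ x, ‖x‖ = r → ‖f x‖ ≤ ‖f x₀‖ := by
      intro x hx
      exact hmax (by rw [mem_sphere_zero_iff_norm]; exact hx)
    obtain ⟨c1, c2, c3⟩ := hball₁ (y := x₀) (by
      rw [dist_zero_right, hx₀]; exact lt_of_lt_of_le hr'.2 (min_le_left _ _))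
    -- critical point
    have hcrit : (KK f x₀).im = 0 := by
      have e1 : HasDerivAt (fun θ : ℝ => f (x₀ * Complex.exp (θ * Complex.I)))
          (deriv f x₀ * (x₀ * Complex.I)) 0 := by
        have e2 : HasDerivAt (fun θ : ℝ => x₀ * Complex.exp (θ * Complex.I)) (x₀ * Complex.I) 0 := by
          have e3 : HasDerivAt (fun θ : ℝ => (θ:ℂ) * Complex.I) Complex.I 0 := by
            have := (Complex.ofRealCLM.hasDerivAt (x := (0:ℝ))).mul_const Complex.I
            simpa using this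
          have e4 := (e3.cexp).const_mul x₀
          simpa using e4
        have e5 : HasDerivAt f (deriv f x₀) ((fun θ : ℝ => x₀ * Complex.exp (θ * Complex.I)) 0) := by
          simp only [Complex.ofReal_zero, zero_mul, Complex.exp_zero, mul_one]
          exact (hf x₀).hasDerivAt
        exact e5.comp (0:ℝ) e2
      have e6 := hasDerivAt_log_norm (fun θ : ℝ => f (x₀ * Complex.exp (θ * Complex.I))) _ 0 e1
        (by simpa using c3)
      have e7 : IsLocalMax (fun θ : ℝ => Real.log ‖f (x₀ * Complex.exp (θ * Complex.I))‖) 0 := by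
        have e8 : ∀ᶠ θ : ℝ in 𝓝 0, f (x₀ * Complex.exp (θ * Complex.I)) ≠ 0 :=
          e1.continuousAt.eventually_ne (by simpa using c3)
        filter_upwards [e8] with θ hθ
        simp only [Complex.ofReal_zero, zero_mul, Complex.exp_zero, mul_one]
        apply Real.log_le_log (norm_pos_iff.2 hθ)
        apply hmax'
        rw [norm_mul, Complex.norm_exp_ofReal_mul_I, mul_one, hx₀]
      have e9 := e7.hasDerivAt_eq_zero e6
      simp only [Complex.ofReal_zero, zero_mul, Complex.exp_zero, mul_one] at e9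
      have e10 : deriv f x₀ * (x₀ * Complex.I) / f x₀ = KK f x₀ * Complex.I := by
        unfold KK; ring
      rw [e10, Complex.mul_I_re] at e9
      linarith
    set t₀ : ℝ := (KK f x₀).re with ht₀
    have hKt : KK f x₀ = (t₀ : ℂ) := by
      apply Complex.ext
      · simp [ht₀]
      · simp [hcrit]
    have habs : |t₀| < δ := by
      rw [hKt, Complex.norm_real] at c2
      exact c2
    have hzt₀ : z t₀ = x₀ := by rw [← hKt, c1]
    have hpos : 0 < t₀ := by
      by_contra hneg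
      push Not at hneg
      have e1 := hφmono t₀ habs hneg
      rw [hzt₀] at e1
      obtain ⟨x, hx, hx'⟩ := hball₂ (a := r) ⟨hr'.1, lt_of_lt_of_le hr'.2 (min_le_right _ _)⟩
      exact absurd (hmax' x hx) (not_le.2 (lt_of_le_of_lt e1 hx'))
    refine ⟨t₀, ⟨hpos, by rwa [abs_of_pos hpos] at habs⟩, by rw [hzt₀, hx₀], ?_⟩
    intro x hx
    rw [hzt₀]
    exact hmax' x hx

end Pool.Agent.Helper246.Blum
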