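import Mathlib
import Pool.Agent.Helper246.BlumAlg2
set_option autoImplicit false

namespace Pool.Agent.Helper246.Blum

open Polynomial Filter Topology

/-- functions analytic at `0` -/
def AnR : Subalgebra ℂ (ℂ → ℂ) where
  carrier := {f | AnalyticAt ℂ f 0}
  mul_mem' := fun ha hb => AnalyticAt.mul ha hb
  add_mem' := fun ha hb => AnalyticAt.add ha hb
  algebraMap_mem' := fun _ => analyticAt_const

/-- the ideal of functions vanishing near `0` -/
def nullI : Ideal AnR where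
  carrier := {f | ∀ᶠ x in 𝓝 (0:ℂ), f.1 x = 0}
  add_mem' := by
    intro a b ha hb
    simp only [Set.mem_ofPred_eq] at ha hb ⊢
    filter_upwards [ha, hb] with x h1 h2
    simp [h1, h2]
  zero_mem' := by simp
  smul_mem' := by
    intro c x hx
    simp only [Set.mem_ofPred_eq] at hx ⊢
    filter_upwards [hx] with y hy
    simp [hy]

theorem mem_nullI (f : AnR) : f ∈ nullI ↔ ∀ᶠ x in 𝓝 (0:ℂ), f.1 x = 0 := Iff.rfl

instance nullI_prime : nullI.IsPrime := by
  refine ⟨?_, ?_⟩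
  · rw [Ne, Ideal.eq_top_iff_one, mem_nullI]
    intro h
    have := h.self_of_nhds
    simp at this
  · intro f g h
    rw [mem_nullI] at h
    rcases AnalyticAt.eventually_eq_zero_or_eventually_ne_zero f.2 with hf | hf
    · exact Or.inl hf
    · rcases AnalyticAt.eventually_eq_zero_or_eventually_ne_zero g.2 with hg | hg
      · exact Or.inr hg
      · exfalso
        have h1 : ∀ᶠ x in 𝓝[≠] (0:ℂ), False := by
          filter_upwards [hf, hg, h.filter_mono nhdsWithin_le_nhds] with x h1 h2 h3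
          have h4 : f.1 x * g.1 x = 0 := h3
          rcases mul_eq_zero.1 h4 with h5 | h5
          · exact h1 h5
          · exact h2 h5
        exact (h1.exists).elim (fun _ h => h)

/-- the ring of germs at `0` -/
abbrev GR := AnR ⧸ nullI

/-- the germ of a function -/
noncomputable def toG (f : ℂ → ℂ) (hf : AnalyticAt ℂ f 0) : GR := Ideal.Quotient.mk nullI ⟨f, hf⟩

theorem toG_surj (x : GR) : ∃ (f : ℂ → ℂ) (hf : AnalyticAt ℂ f 0), toG f hf = x := by
  obtain ⟨f, hf⟩ := Ideal.Quotient.mk_surjective x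
  exact ⟨f.1, f.2, hf⟩

theorem toG_eq_iff (f g : ℂ → ℂ) (hf : AnalyticAt ℂ f 0) (hg : AnalyticAt ℂ g 0) :
    toG f hf = toG g hg ↔ ∀ᶠ x in 𝓝 (0:ℂ), f x = g x := by
  unfold toG
  rw [Ideal.Quotient.eq, mem_nullI]
  constructor
  · intro h
    filter_upwards [h] with x hx
    have : f x - g x = 0 := hx
    exact sub_eq_zero.1 this
  · intro h
    filter_upwards [h] with x hx
    change f x - g x = 0
    exact sub_eq_zero.2 hx

theorem toG_mul (f g : ℂ → ℂ) (hf : AnalyticAt ℂ f 0) (hg : AnalyticAt ℂ g 0) :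
    toG f hf * toG g hg = toG (fun x => f x * g x) (hf.mul hg) := by
  unfold toG
  rw [← map_mul]
  rfl

theorem toG_const (c : ℂ) : algebraMap ℂ GR c = toG (fun _ => c) analyticAt_const := rfl

theorem analytic_eval (f : ℂ → ℂ) (hf : AnalyticAt ℂ f 0) (P : ℂ[X]) :
    AnalyticAt ℂ (fun x => P.eval (f x)) 0 := by
  have h1 : AnalyticAt ℂ (fun y : ℂ => P.eval y) (f 0) := P.differentiable.analyticAt _
  exact h1.comp hf

theorem toG_aeval (f : ℂ → ℂ) (hf : AnalyticAt ℂ f 0) (P : ℂ[X]) :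
    aeval (toG f hf) P = toG (fun x => P.eval (f x)) (analytic_eval f hf P) := by
  have h1 : aeval (toG f hf) P = Ideal.Quotient.mkₐ ℂ nullI (aeval (⟨f, hf⟩ : AnR) P) := by
    rw [← aeval_algHom_apply]
    rfl
  rw [h1]
  unfold toG
  rw [Ideal.Quotient.mkₐ_eq_mk]
  refine congrArg (Ideal.Quotient.mk nullI) ?_
  apply Subtype.val_injective
  funext x
  have h2 : ((aeval (⟨f, hf⟩ : AnR) P : AnR) : ℂ → ℂ) = aeval f P := by
    exact (aeval_algHom_apply AnR.val _ _).symm
  rw [h2]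
  have h3 : Pi.evalAlgHom ℂ (fun _ : ℂ => ℂ) x (aeval f P) = aeval (f x) P := by
    rw [← aeval_algHom_apply]
    rfl
  have h4 : (aeval f P) x = aeval (f x) P := h3
  rw [h4, aeval_def, eval₂_eq_eval_map]
  simp

/-- evaluation at zero on `AnR` -/
noncomputable def evR : AnR →ₐ[ℂ] ℂ := (Pi.evalAlgHom ℂ (fun _ : ℂ => ℂ) 0).comp AnR.val

/-- evaluation at zero on germs -/
noncomputable def evG : GR →ₐ[ℂ] ℂ := Ideal.Quotient.liftₐ nullI evR (by
  intro a ha
  rw [mem_nullI] at ha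
  exact ha.self_of_nhds)

theorem evG_toG (f : ℂ → ℂ) (hf : AnalyticAt ℂ f 0) : evG (toG f hf) = f 0 := rfl

theorem evG_unit (x : GR) (hx : evG x ≠ 0) : IsUnit x := by
  obtain ⟨f, hf, rfl⟩ := toG_surj x
  rw [evG_toG] at hx
  have hinv : AnalyticAt ℂ (fun x => (f x)⁻¹) 0 := hf.fun_inv hx
  have h1 : toG f hf * toG _ hinv = 1 := by
    rw [toG_mul]
    change _ = toG (fun _ => 1) analyticAt_const
    rw [toG_eq_iff]
    filter_upwards [hf.continuousAt.eventually_ne hx] with x h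
    exact mul_inv_cancel₀ h
  have h2 : toG _ hinv * toG f hf = 1 := by
    rw [toG_mul]
    change _ = toG (fun _ => 1) analyticAt_const
    rw [toG_eq_iff]
    filter_upwards [hf.continuousAt.eventually_ne hx] with x h
    exact inv_mul_cancel₀ h
  exact ⟨⟨toG f hf, toG _ hinv, h1, h2⟩, rfl⟩

/-- conjugate of a function -/
noncomputable def cj (f : ℂ → ℂ) : ℂ → ℂ := fun x => starRingEnd ℂ (f (starRingEnd ℂ x))

theorem cj_analytic (f : ℂ → ℂ) (hf : AnalyticAt ℂ f 0) : AnalyticAt ℂ (cj f) 0 := by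
  rw [Complex.analyticAt_iff_eventually_differentiableAt] at hf ⊢
  have h1 : Tendsto (starRingEnd ℂ) (𝓝 (0:ℂ)) (𝓝 0) := by
    have := (Complex.continuous_conj).tendsto (0:ℂ)
    simpa using this
  filter_upwards [h1.eventually hf] with x hx
  have h2 := (hx.hasDerivAt).conj_conj
  rw [Complex.conj_conj] at h2
  exact h2.differentiableAt

theorem cj_tendsto : Tendsto (starRingEnd ℂ) (𝓝 (0:ℂ)) (𝓝 0) := by
  have := (Complex.continuous_conj).tendsto (0:ℂ)
  simpa using this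

/-- conjugation on `AnR` -/
noncomputable def sR : AnR →+* AnR where
  toFun f := ⟨cj f.1, cj_analytic f.1 f.2⟩
  map_one' := by
    apply Subtype.val_injective
    funext x
    simp [cj]
  map_mul' := by
    intro f g
    apply Subtype.val_injective
    funext x
    simp [cj]
  map_zero' := by
    apply Subtype.val_injective
    funext x
    simp [cj]
  map_add' := by
    intro f g
    apply Subtype.val_injective
    funext x
    simp [cj]

/-- conjugation on germs -/
noncomputable def sG : GR →+* GR := Ideal.quotientMap nullI sR (by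
  intro f hf
  rw [mem_nullI] at hf
  rw [Ideal.mem_comap, mem_nullI]
  filter_upwards [cj_tendsto.eventually hf] with x hx
  change starRingEnd ℂ (f.1 (starRingEnd ℂ x)) = 0
  rw [hx, map_zero])

theorem sG_toG (f : ℂ → ℂ) (hf : AnalyticAt ℂ f 0) : sG (toG f hf) = toG (cj f) (cj_analytic f hf) :=
  rfl

theorem sG_alg (c : ℂ) : sG (algebraMap ℂ GR c) = algebraMap ℂ GR (starRingEnd ℂ c) := rfl

theorem sG_sG (x : GR) : sG (sG x) = x := by
  obtain ⟨f, hf, rfl⟩ := toG_surj x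
  rw [sG_toG, sG_toG, toG_eq_iff]
  exact Eventually.of_forall (fun x => by simp [cj])

theorem evG_sG (x : GR) : evG (sG x) = starRingEnd ℂ (evG x) := by
  obtain ⟨f, hf, rfl⟩ := toG_surj x
  rw [sG_toG, evG_toG, evG_toG]
  simp [cj]

/-- Main germ statement. -/
theorem germ_main (z w : ℂ → ℂ) (hz : AnalyticAt ℂ z 0) (hw : AnalyticAt ℂ w 0)
    (hz0 : z 0 = 0) (hw0 : w 0 = 0) (A B C₁ D₁ : ℂ[X])
    (hzt : ∀ᶠ t in 𝓝 (0:ℂ), A.eval (z t) = t * B.eval (z t))
    (hwt : ∀ᶠ t in 𝓝 (0:ℂ), C₁.eval (w t) = t * D₁.eval (w t))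
    (hprod : ∀ᶠ t in 𝓝 (0:ℂ), z t * cj z t = w t * cj w t)
    (hA0 : A.coeff 0 = 0) (hC0 : C₁.coeff 0 = 0)
    (hA1 : A.coeff 1 ≠ 0) (hC1 : C₁.coeff 1 ≠ 0)
    (hB0 : B.coeff 0 ≠ 0) (hD0 : D₁.coeff 0 ≠ 0)
    (hdA : B.natDegree ≤ A.natDegree) (hdC : D₁.natDegree ≤ C₁.natDegree) :
    ∃ c : ℂ, ‖c‖ = 1 ∧ ((∀ᶠ t in 𝓝 (0:ℂ), w t = c * z t) ∨
      (∀ᶠ t in 𝓝 (0:ℂ), w t = c * cj z t)) := by
  have hid : AnalyticAt ℂ (fun x : ℂ => x) 0 := analyticAt_id
  obtain ⟨c, hc, h⟩ := alg_main sG evG evG_unit sG_alg sG_sG evG_sG (toG (fun x => x) hid)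
    (toG z hz) (toG w hw) A B C₁ D₁
    (by rw [toG_aeval, toG_aeval, toG_mul, toG_eq_iff]; exact hzt)
    (by rw [toG_aeval, toG_aeval, toG_mul, toG_eq_iff]; exact hwt)
    (by rw [sG_toG, sG_toG, toG_mul, toG_mul, toG_eq_iff]; exact hprod)
    (by rw [evG_toG])
    (by
      intro h
      have h1 : toG (fun x => x) hid = toG (fun _ => 0) analyticAt_const := h
      rw [toG_eq_iff] at h1
      have h2 : ∀ᶠ x in 𝓝[≠] (0:ℂ), False := by
        filter_upwards [h1.filter_mono nhdsWithin_le_nhds, self_mem_nhdsWithin] with x h3 h4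
        exact h4 h3
      exact h2.exists.elim (fun _ h => h))
    (by
      rw [sG_toG, toG_eq_iff]
      exact Eventually.of_forall (fun x => by simp [cj]))
    (by rw [evG_toG, hz0]) (by rw [evG_toG, hw0]) hA0 hC0 hA1 hC1 hB0 hD0 hdA hdC
  refine ⟨c, hc, ?_⟩
  rcases h with h | h
  · left
    rw [toG_const, toG_mul, toG_eq_iff] at h
    exact h
  · right
    rw [toG_const, sG_toG, toG_mul, toG_eq_iff] at h
    exact h

end Pool.Agent.Helper246.Blum
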