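import Mathlib
import Pool.Agent.Helper246.BlumGerm
import Pool.Agent.Helper246.BlumAna
set_option autoImplicit false

namespace Pool.Agent.Helper246.Blum

open Polynomial Filter Topology Set

/-- maximum modulus -/
noncomputable def MM (f : ℂ → ℂ) (r : ℝ) : ℝ := sSup ((fun z => ‖f z‖) '' Metric.sphere (0:ℂ) r)

theorem MM_spec (f : ℂ → ℂ) (hf : Continuous f) (r : ℝ) (hr : 0 ≤ r) :
    (∀ x, ‖x‖ = r → ‖f x‖ ≤ MM f r) ∧ ∃ x, ‖x‖ = r ∧ ‖f x‖ = MM f r := by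
  have hc : IsCompact ((fun z => ‖f z‖) '' Metric.sphere (0:ℂ) r) :=
    (isCompact_sphere 0 r).image hf.norm
  have hne : (Metric.sphere (0:ℂ) r).Nonempty := NormedSpace.sphere_nonempty.2 hr
  constructor
  · intro x hx
    exact le_csSup hc.bddAbove ⟨x, by rw [mem_sphere_zero_iff_norm]; exact hx, rfl⟩
  · obtain ⟨x, hx, hx'⟩ := hc.sSup_mem (hne.image _)
    exact ⟨x, by rw [mem_sphere_zero_iff_norm] at hx; exact hx, hx'⟩

theorem MM_tendsto (f : ℂ → ℂ) (hf : Continuous f) : Tendsto (MM f) (𝓝[>] 0) (𝓝 ‖f 0‖) := by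
  rw [Metric.tendsto_nhdsWithin_nhds]
  intro ε hε
  obtain ⟨δ, hδ, h⟩ := Metric.continuousAt_iff.1 (hf.norm.continuousAt (x := 0)) ε hε
  refine ⟨δ, hδ, ?_⟩
  intro r hr hr'
  obtain ⟨x, hx, hx'⟩ := (MM_spec f hf r (le_of_lt hr)).2
  rw [← hx']
  apply h
  rw [dist_zero_right, hx]
  rw [dist_zero_right, Real.norm_of_nonneg (le_of_lt hr)] at hr'
  exact hr'

/-- lower bound for the growth of the maximum modulus -/
theorem growth_lower (f : ℂ → ℂ) (hf : Differentiable ℂ f) (h0 : f 0 ≠ 0) (h1 : deriv f 0 ≠ 0) :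
    ∃ c > (0:ℝ), ∀ᶠ r in 𝓝[>] (0:ℝ), ‖f 0‖ + c * r ≤ MM f r := by
  set β : ℂ := starRingEnd ℂ (deriv f 0 / f 0) / ‖deriv f 0 / f 0‖ with hβ
  have hq : deriv f 0 / f 0 ≠ 0 := div_ne_zero h1 h0
  have hβn : ‖β‖ = 1 := by
    rw [hβ, norm_div, RCLike.norm_conj, Complex.norm_real, norm_norm, div_self (norm_ne_zero_iff.2 hq)]
  have e1 : HasDerivAt (fun s : ℝ => f (s * β)) (deriv f 0 * β) 0 := by
    have e2 : HasDerivAt (fun s : ℝ => (s:ℂ) * β) β 0 := by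
      have := (Complex.ofRealCLM.hasDerivAt (x := (0:ℝ))).mul_const β
      simpa using this
    have e3 : HasDerivAt f (deriv f 0) ((fun s : ℝ => (s:ℂ) * β) 0) := by
      simp only [Complex.ofReal_zero, zero_mul]
      exact (hf 0).hasDerivAt
    exact e3.comp (0:ℝ) e2
  have e4 := hasDerivAt_log_norm (fun s : ℝ => f (s * β)) _ 0 e1 (by simpa using h0)
  have e5 : (deriv f 0 * β / f ((0:ℝ) * β)).re = ‖deriv f 0 / f 0‖ := by
    rw [Complex.ofReal_zero, zero_mul, mul_div_right_comm, hβ, ← mul_div_assoc, Complex.mul_conj,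
      Complex.normSq_eq_norm_sq]
    rw [← Complex.ofReal_div, Complex.ofReal_re, sq, mul_div_assoc,
      div_self (norm_ne_zero_iff.2 hq), mul_one]
  rw [e5] at e4
  have e6 := e4.tendsto_slope
  have hqp : 0 < ‖deriv f 0 / f 0‖ := norm_pos_iff.2 hq
  have e7 : ∀ᶠ s in 𝓝[≠] (0:ℝ), ‖deriv f 0 / f 0‖ / 2
      < slope (fun s : ℝ => Real.log ‖f (s * β)‖) 0 s :=
    e6.eventually (lt_mem_nhds (by linarith))
  have e8 : ∀ᶠ s in 𝓝[>] (0:ℝ), ‖deriv f 0 / f 0‖ / 2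
      < slope (fun s : ℝ => Real.log ‖f (s * β)‖) 0 s :=
    e7.filter_mono (nhdsWithin_mono _ (fun x hx => ne_of_gt hx))
  have e9 : ∀ᶠ s : ℝ in 𝓝[>] (0:ℝ), f (s * β) ≠ 0 := by
    have e10 : ContinuousAt (fun s : ℝ => f (s * β)) 0 := e1.continuousAt
    exact (e10.eventually_ne (by simpa using h0)).filter_mono nhdsWithin_le_nhds
  have h0p : 0 < ‖f 0‖ := norm_pos_iff.2 h0
  refine ⟨‖f 0‖ * (‖deriv f 0 / f 0‖ / 2), by positivity, ?_⟩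
  filter_upwards [e8, e9, self_mem_nhdsWithin] with s hs hs1 hs2
  have hs3 : (0:ℝ) < s := hs2
  refine le_trans ?_ ((MM_spec f hf.continuous s hs3.le).1 (s * β) ?_)
  · rw [slope_def_field, sub_zero, Complex.ofReal_zero, zero_mul, lt_div_iff₀ hs3] at hs
    have h2 : Real.log ‖f 0‖ + ‖deriv f 0 / f 0‖ / 2 * s < Real.log ‖f (s * β)‖ := by linarith
    have h3 := Real.exp_lt_exp.2 h2
    rw [Real.exp_add, Real.exp_log h0p, Real.exp_log (norm_pos_iff.2 hs1)] at h3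
    have h4 := Real.add_one_le_exp (‖deriv f 0 / f 0‖ / 2 * s)
    nlinarith
  · rw [norm_mul, hβn, mul_one, Complex.norm_real, Real.norm_of_nonneg hs3.le]

theorem growth_upper (f : ℂ → ℂ) (hf : Differentiable ℂ f) (h1 : deriv f 0 = 0) (c : ℝ)
    (hc : 0 < c) : ∀ᶠ r in 𝓝[>] (0:ℝ), MM f r ≤ ‖f 0‖ + c * r := by
  have e1 := (hf 0).hasDerivAt
  rw [h1, hasDerivAt_iff_isLittleO_nhds_zero] at e1
  have e2 := e1.def hc
  obtain ⟨δ, hδ, h⟩ := Metric.eventually_nhds_iff.1 e2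
  have e3 : ∀ᶠ r in 𝓝[>] (0:ℝ), r < δ := (Iio_mem_nhds hδ |> nhdsWithin_le_nhds)
  filter_upwards [e3, self_mem_nhdsWithin] with r hr hr'
  have hr0 : (0:ℝ) < r := hr'
  obtain ⟨x, hx, hx'⟩ := (MM_spec f hf.continuous r hr0.le).2
  rw [← hx']
  have e4 := h (y := x) (by rw [dist_zero_right, hx]; exact hr)
  simp only [zero_add, smul_zero, sub_zero, hx] at e4
  calc ‖f x‖ = ‖f 0 + (f x - f 0)‖ := by congr 1; ring
    _ ≤ ‖f 0‖ + ‖f x - f 0‖ := norm_add_le _ _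
    _ ≤ _ := by linarith

theorem transfer (f₁ f₂ : ℂ → ℂ) (hf₁ : Differentiable ℂ f₁) (hf₂ : Differentiable ℂ f₂)
    (h0 : f₁ 0 ≠ 0) (h1 : deriv f₁ 0 ≠ 0)
    (hM : ∀ᶠ r in 𝓝[>] (0:ℝ), MM f₁ r = MM f₂ r) :
    ‖f₁ 0‖ = ‖f₂ 0‖ ∧ f₂ 0 ≠ 0 ∧ deriv f₂ 0 ≠ 0 := by
  have e1 : ‖f₁ 0‖ = ‖f₂ 0‖ := by
    have h2 := MM_tendsto f₁ hf₁.continuous
    have h3 := MM_tendsto f₂ hf₂.continuous
    exact tendsto_nhds_unique h2 (h3.congr' (by filter_upwards [hM] with r hr; exact hr.symm))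
  refine ⟨e1, ?_, ?_⟩
  · intro h
    rw [h, norm_zero, norm_eq_zero] at e1
    exact h0 e1
  · intro h
    obtain ⟨c, hc, h2⟩ := growth_lower f₁ hf₁ h0 h1
    have h3 := growth_upper f₂ hf₂ h (c / 2) (by linarith)
    have h4 : ∀ᶠ r in 𝓝[>] (0:ℝ), False := by
      filter_upwards [hM, h2, h3, self_mem_nhdsWithin] with r a1 a2 a3 a4
      have a5 : (0:ℝ) < r := a4
      rw [a1, e1] at a2
      nlinarith
    exact h4.exists.elim (fun _ h => h)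

theorem identical (f g : ℂ → ℂ) (hf : Differentiable ℂ f) (hg : Differentiable ℂ g)
    (hf0 : f 0 ≠ 0) (hg0 : g 0 ≠ 0) (h : ∀ᶠ x in 𝓝 (0:ℂ), KK g x = KK f x) :
    ∀ x, g x = g 0 / f 0 * f x := by
  have hfc : ∀ᶠ x in 𝓝 (0:ℂ), f x ≠ 0 := hf.continuous.continuousAt.eventually_ne hf0
  have hgc : ∀ᶠ x in 𝓝 (0:ℂ), g x ≠ 0 := hg.continuous.continuousAt.eventually_ne hg0
  have hall : ∀ᶠ x in 𝓝 (0:ℂ), f x ≠ 0 ∧ (x ≠ 0 → deriv g x * f x - g x * deriv f x = 0) := by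
    filter_upwards [h, hfc, hgc] with x a1 a2 a3
    refine ⟨a2, fun hx => ?_⟩
    unfold KK at a1
    rw [div_eq_div_iff a3 a2] at a1
    have : x * (deriv g x * f x - g x * deriv f x) = 0 := by linear_combination a1
    exact (mul_eq_zero.1 this).resolve_left hx
  have hall2 : ∀ᶠ x in 𝓝 (0:ℂ), f x ≠ 0 ∧ deriv g x * f x - g x * deriv f x = 0 := by
    have hd : ∀ᶠ x in 𝓝 (0:ℂ), deriv g x * f x - g x * deriv f x = 0 := by
      have ha : AnalyticAt ℂ (fun x => deriv g x * f x - g x * deriv f x) 0 :=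
        ((hg.analyticAt 0).deriv.mul (hf.analyticAt 0)).sub
          ((hg.analyticAt 0).mul (hf.analyticAt 0).deriv)
      have hb : AnalyticAt ℂ (fun _ : ℂ => (0:ℂ)) 0 := analyticAt_const
      refine (ha.frequently_eq_iff_eventually_eq hb).1 ?_
      apply Filter.Eventually.frequently
      rw [eventually_nhdsWithin_iff]
      filter_upwards [hall] with x hx hx'
      exact hx.2 hx'
    filter_upwards [hall, hd] with x a1 a2
    exact ⟨a1.1, a2⟩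
  obtain ⟨δ, hδ, hball⟩ := Metric.eventually_nhds_iff.1 hall2
  have hconst : ∀ x ∈ Metric.ball (0:ℂ) δ, g x / f x = g 0 / f 0 := by
    intro x hx
    have e1 : ∀ y ∈ Metric.ball (0:ℂ) δ, HasDerivWithinAt (fun y => g y / f y) 0 (Metric.ball (0:ℂ) δ) y := by
      intro y hy
      obtain ⟨b1, b2⟩ := hball (y := y) (by simpa using hy)
      have := ((hg y).hasDerivAt.div (hf y).hasDerivAt b1).hasDerivWithinAt
        (s := Metric.ball (0:ℂ) δ)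
      rw [b2, zero_div] at this
      exact this
    have e2 := (convex_ball (0:ℂ) δ).norm_image_sub_le_of_norm_hasDerivWithin_le (C := 0) e1
      (by intro y hy; simp) (Metric.mem_ball_self hδ) hx
    simp only [zero_mul, norm_le_zero_iff] at e2
    exact sub_eq_zero.1 e2
  have hev : ∀ᶠ x in 𝓝 (0:ℂ), g x = g 0 / f 0 * f x := by
    filter_upwards [Metric.ball_mem_nhds (0:ℂ) hδ] with x hx
    have b1 := (hball (y := x) (by simpa using hx)).1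
    have := hconst x hx
    rw [← this, div_mul_cancel₀ _ b1]
  have hanal : AnalyticOnNhd ℂ g univ := fun x _ => hg.analyticAt x
  have hanal2 : AnalyticOnNhd ℂ (fun x => g 0 / f 0 * f x) univ :=
    fun x _ => analyticAt_const.mul (hf.analyticAt x)
  have := hanal.eqOn_of_preconnected_of_eventuallyEq hanal2 isPreconnected_univ (mem_univ 0) hev
  intro x
  exact this (mem_univ x)

theorem KK_cj (f : ℂ → ℂ) (hf : Differentiable ℂ f) (x : ℂ) : KK (cj f) x = cj (KK f) x := by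
  have h1 : deriv (cj f) x = starRingEnd ℂ (deriv f (starRingEnd ℂ x)) := by
    have h2 := ((hf (starRingEnd ℂ x)).hasDerivAt).conj_conj
    rw [Complex.conj_conj] at h2
    exact h2.deriv
  unfold KK
  rw [h1]
  simp [cj]

theorem cj_diff (f : ℂ → ℂ) (hf : Differentiable ℂ f) : Differentiable ℂ (cj f) := by
  intro x
  have h2 := ((hf (starRingEnd ℂ x)).hasDerivAt).conj_conj
  rw [Complex.conj_conj] at h2
  exact h2.differentiableAt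

/-- The local rigidity theorem for functions with rational logarithmic derivative. -/
theorem main_local (f₁ f₂ : ℂ → ℂ) (hf₁ : Differentiable ℂ f₁) (hf₂ : Differentiable ℂ f₂)
    (h0 : f₁ 0 ≠ 0) (h1 : deriv f₁ 0 ≠ 0)
    (hM : ∀ᶠ r in 𝓝[>] (0:ℝ), MM f₁ r = MM f₂ r)
    (A₁ B₁ A₂ B₂ : ℂ[X])
    (hK₁ : ∀ z, z * deriv f₁ z * B₁.eval z = A₁.eval z * f₁ z)
    (hK₂ : ∀ z, z * deriv f₂ z * B₂.eval z = A₂.eval z * f₂ z)
    (hA0₁ : A₁.coeff 0 = 0) (hA0₂ : A₂.coeff 0 = 0)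
    (hA1₁ : A₁.coeff 1 ≠ 0) (hA1₂ : deriv f₂ 0 ≠ 0 → A₂.coeff 1 ≠ 0)
    (hB0₁ : B₁.coeff 0 ≠ 0) (hB0₂ : f₂ 0 ≠ 0 → B₂.coeff 0 ≠ 0)
    (hd₁ : B₁.natDegree ≤ A₁.natDegree) (hd₂ : deriv f₂ 0 ≠ 0 → B₂.natDegree ≤ A₂.natDegree) :
    ∃ c C : ℂ, ‖c‖ = 1 ∧ ‖C‖ = 1 ∧
      ((∀ z, f₂ (c * z) = C * f₁ z) ∨ (∀ z, f₂ (c * z) = C * cj f₁ z)) := by
  obtain ⟨hn, h0₂, h1₂⟩ := transfer f₁ f₂ hf₁ hf₂ h0 h1 hM
  obtain ⟨z₁, hz₁, hz₁0, hr₁, hl₁, δ₁, hδ₁, r₁, hr₁0, hne₁, hmono₁, hstrict₁, hmax₁⟩ :=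
    key_branch f₁ hf₁ h0 h1
  obtain ⟨z₂, hz₂, hz₂0, hr₂, hl₂, δ₂, hδ₂, r₂, hr₂0, hne₂, hmono₂, hstrict₂, hmax₂⟩ :=
    key_branch f₂ hf₂ h0₂ h1₂
  obtain ⟨r₃, hr₃0, hr₃⟩ := mem_nhdsGT_iff_exists_Ioo_subset.1 hM
  -- the moduli of the branches agree
  have hzc₁ : Tendsto (fun t : ℝ => ‖z₁ t‖) (𝓝[>] 0) (𝓝 0) := by
    have e1 : ContinuousAt (fun t : ℝ => ‖z₁ t‖) 0 := by
      have e2 : ContinuousAt z₁ ((fun t : ℝ => (t:ℂ)) 0) := by
        simpa using hz₁.continuousAt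
      exact (e2.comp (f := fun t : ℝ => (t:ℂ)) Complex.continuous_ofReal.continuousAt).norm
    have e3 := e1.tendsto
    simp only [Complex.ofReal_zero, hz₁0, norm_zero] at e3
    exact e3.mono_left nhdsWithin_le_nhds
  have hzc₂ : Tendsto (fun t : ℝ => ‖z₂ t‖) (𝓝[>] 0) (𝓝 0) := by
    have e1 : ContinuousAt (fun t : ℝ => ‖z₂ t‖) 0 := by
      have e2 : ContinuousAt z₂ ((fun t : ℝ => (t:ℂ)) 0) := by
        simpa using hz₂.continuousAt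
      exact (e2.comp (f := fun t : ℝ => (t:ℂ)) Complex.continuous_ofReal.continuousAt).norm
    have e3 := e1.tendsto
    simp only [Complex.ofReal_zero, hz₂0, norm_zero] at e3
    exact e3.mono_left nhdsWithin_le_nhds
  set ρ := min r₁ (min r₂ r₃) with hρ
  have hρ0 : 0 < ρ := lt_min hr₁0 (lt_min hr₂0 hr₃0)
  have hagree : ∀ᶠ t : ℝ in 𝓝[>] 0, ‖z₁ t‖ = ‖z₂ t‖ := by
    have e1 : ∀ᶠ t : ℝ in 𝓝[>] 0, ‖z₁ t‖ < ρ := hzc₁.eventually (gt_mem_nhds hρ0)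
    have e2 : ∀ᶠ t : ℝ in 𝓝[>] 0, ‖z₂ t‖ < ρ := hzc₂.eventually (gt_mem_nhds hρ0)
    have e3 : ∀ᶠ t : ℝ in 𝓝[>] 0, t < δ₁ := (Iio_mem_nhds hδ₁ |> nhdsWithin_le_nhds)
    have e4 : ∀ᶠ t : ℝ in 𝓝[>] 0, t < δ₂ := (Iio_mem_nhds hδ₂ |> nhdsWithin_le_nhds)
    filter_upwards [e1, e2, e3, e4, self_mem_nhdsWithin] with t a1 a2 a3 a4 a5
    have ht : (0:ℝ) < t := a5
    by_contra hne
    have ht₁ : t ∈ Ioo (0:ℝ) δ₁ := ⟨ht, a3⟩
    have ht₂ : t ∈ Ioo (0:ℝ) δ₂ := ⟨ht, a4⟩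
    have hp₁ : 0 < ‖z₁ t‖ := norm_pos_iff.2 (hne₁ t ht₁).1
    have hp₂ : 0 < ‖z₂ t‖ := norm_pos_iff.2 (hne₂ t ht₂).1
    have b1 : ρ ≤ r₁ := min_le_left _ _
    have b2 : ρ ≤ r₂ := (min_le_right _ _).trans (min_le_left _ _)
    have b3 : ρ ≤ r₃ := (min_le_right _ _).trans (min_le_right _ _)
    -- injectivity
    have inj₁ : ∀ s ∈ Ioo (0:ℝ) δ₁, ‖z₁ s‖ = ‖z₁ t‖ → s = t := by
      intro s hs h
      exact hmono₁.injOn hs ht₁ (by simp only [h])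
    have inj₂ : ∀ s ∈ Ioo (0:ℝ) δ₂, ‖z₂ s‖ = ‖z₂ t‖ → s = t := by
      intro s hs h
      exact hmono₂.injOn hs ht₂ (by simp only [h])
    have mx : ∀ (f : ℂ → ℂ) (hf : Differentiable ℂ f) (r : ℝ) (y : ℂ), 0 < r → ‖y‖ = r →
        (∀ x, ‖x‖ = r → ‖f x‖ ≤ ‖f y‖) → ‖f y‖ = MM f r := by
      intro f hf r y hr hy h
      obtain ⟨c1, x, c2, c3⟩ := MM_spec f hf.continuous r hr.le
      exact le_antisymm (c1 y hy) (c3 ▸ h x c2)
    -- M at the two radii, for the two functions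
    obtain ⟨s1, hs1, hs1n, hs1m⟩ := hmax₁ ‖z₁ t‖ ⟨hp₁, lt_of_lt_of_le a1 b1⟩
    obtain rfl := inj₁ s1 hs1 hs1n
    obtain ⟨s2, hs2, hs2n, hs2m⟩ := hmax₁ ‖z₂ s1‖ ⟨hp₂, lt_of_lt_of_le a2 b1⟩
    obtain ⟨s3, hs3, hs3n, hs3m⟩ := hmax₂ ‖z₂ s1‖ ⟨hp₂, lt_of_lt_of_le a2 b2⟩
    obtain rfl := inj₂ s3 hs3 hs3n
    obtain ⟨s4, hs4, hs4n, hs4m⟩ := hmax₂ ‖z₁ s3‖ ⟨hp₁, lt_of_lt_of_le a1 b2⟩
    have m1 := mx f₁ hf₁ _ _ hp₁ rfl hs1m
    have m2 := mx f₁ hf₁ _ _ hp₂ hs2n hs2m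
    have m3 := mx f₂ hf₂ _ _ hp₂ rfl hs3m
    have m4 := mx f₂ hf₂ _ _ hp₁ hs4n hs4m
    have q1 : MM f₁ ‖z₁ s3‖ = MM f₂ ‖z₁ s3‖ := hr₃ ⟨hp₁, lt_of_lt_of_le a1 b3⟩
    have q2 : MM f₁ ‖z₂ s3‖ = MM f₂ ‖z₂ s3‖ := hr₃ ⟨hp₂, lt_of_lt_of_le a2 b3⟩
    have n1 : s2 ≠ s3 := by
      intro h
      rw [h] at hs2n
      exact hne hs2n
    have n2 : s4 ≠ s3 := by
      intro h
      rw [h] at hs4n
      exact hne hs4n.symm
    have k1 := hstrict₁ s3 ht₁ s2 hs2 n1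
    have k2 := hstrict₂ s3 ht₂ s4 hs4 n2
    rw [m1, m2, hs2n] at k1
    rw [m3, m4, hs4n, ← q1, ← q2] at k2
    linarith
  -- identity theorem
  have hprod : ∀ᶠ t in 𝓝 (0:ℂ), z₁ t * cj z₁ t = z₂ t * cj z₂ t := by
    have ha₁ : AnalyticAt ℂ (fun t => z₁ t * cj z₁ t) 0 := hz₁.mul (cj_analytic z₁ hz₁)
    have ha₂ : AnalyticAt ℂ (fun t => z₂ t * cj z₂ t) 0 := hz₂.mul (cj_analytic z₂ hz₂)
    refine (ha₁.frequently_eq_iff_eventually_eq ha₂).1 ?_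
    have e1 : Tendsto (fun t : ℝ => (t:ℂ)) (𝓝[>] 0) (𝓝[≠] 0) := by
      apply tendsto_nhdsWithin_of_tendsto_nhds_of_eventually_within
      · have := Complex.continuous_ofReal.tendsto (0:ℝ)
        simp only [Complex.ofReal_zero] at this
        exact this.mono_left nhdsWithin_le_nhds
      · filter_upwards [self_mem_nhdsWithin] with t ht
        have ht' : (0:ℝ) < t := ht
        simp [ht'.ne']
    refine e1.frequently ?_
    apply Eventually.frequently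
    filter_upwards [hagree] with t ht
    simp only [cj, Complex.conj_ofReal, Complex.mul_conj, Complex.normSq_eq_norm_sq, ht]
  have hfc₁ : ∀ᶠ x in 𝓝 (0:ℂ), f₁ x ≠ 0 := hf₁.continuous.continuousAt.eventually_ne h0
  have hfc₂ : ∀ᶠ x in 𝓝 (0:ℂ), f₂ x ≠ 0 := hf₂.continuous.continuousAt.eventually_ne h0₂
  have hzt₁ : Tendsto z₁ (𝓝 0) (𝓝 0) := by
    have := hz₁.continuousAt.tendsto; rwa [hz₁0] at this
  have hzt₂ : Tendsto z₂ (𝓝 0) (𝓝 0) := by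
    have := hz₂.continuousAt.tendsto; rwa [hz₂0] at this
  have heq₁ : ∀ᶠ t in 𝓝 (0:ℂ), A₁.eval (z₁ t) = t * B₁.eval (z₁ t) := by
    filter_upwards [hr₁, hzt₁.eventually hfc₁] with t a1 a2
    have a3 := hK₁ (z₁ t)
    have a4 : t * f₁ (z₁ t) = z₁ t * deriv f₁ (z₁ t) := by
      have : KK f₁ (z₁ t) * f₁ (z₁ t) = z₁ t * deriv f₁ (z₁ t) := by
        unfold KK; rw [div_mul_cancel₀ _ a2]
      rwa [a1] at this
    apply mul_right_cancel₀ a2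
    rw [← a3, ← a4]; ring
  have heq₂ : ∀ᶠ t in 𝓝 (0:ℂ), A₂.eval (z₂ t) = t * B₂.eval (z₂ t) := by
    filter_upwards [hr₂, hzt₂.eventually hfc₂] with t a1 a2
    have a3 := hK₂ (z₂ t)
    have a4 : t * f₂ (z₂ t) = z₂ t * deriv f₂ (z₂ t) := by
      have : KK f₂ (z₂ t) * f₂ (z₂ t) = z₂ t * deriv f₂ (z₂ t) := by
        unfold KK; rw [div_mul_cancel₀ _ a2]
      rwa [a1] at this
    apply mul_right_cancel₀ a2
    rw [← a3, ← a4]; ring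
  obtain ⟨c, hc, hcase⟩ := germ_main z₁ z₂ hz₁ hz₂ hz₁0 hz₂0 A₁ B₁ A₂ B₂ heq₁ heq₂ hprod
    hA0₁ hA0₂ hA1₁ (hA1₂ h1₂) hB0₁ (hB0₂ h0₂) hd₁ (hd₂ h1₂)
  have hdc : Differentiable ℂ (fun x : ℂ => f₂ (c * x)) :=
    hf₂.comp ((differentiable_const c).mul differentiable_id)
  have hKc : ∀ x, KK (fun x : ℂ => f₂ (c * x)) x = KK f₂ (c * x) := by
    intro x
    have : deriv (fun x : ℂ => f₂ (c * x)) x = deriv f₂ (c * x) * c := by
      have e1 : HasDerivAt (fun x : ℂ => c * x) c x := by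
        simpa using (hasDerivAt_id x).const_mul c
      exact ((hf₂ (c * x)).hasDerivAt.comp x e1).deriv
    unfold KK
    rw [this]
    ring
  have hK0₁ : Tendsto (KK f₁) (𝓝 0) (𝓝 0) := by
    have := (KK_analytic f₁ (hf₁.analyticAt 0) h0).continuousAt.tendsto
    rwa [KK_zero] at this
  rcases hcase with hcase | hcase
  · refine ⟨c, f₂ 0 / f₁ 0, hc, by rw [norm_div, hn, div_self (norm_ne_zero_iff.2 h0₂)], Or.inl ?_⟩
    have := identical f₁ (fun x => f₂ (c * x)) hf₁ hdc h0 (by simpa using h0₂) (by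
      filter_upwards [hl₁, hK0₁.eventually hcase, hK0₁.eventually hr₂] with x a1 a2 a3
      rw [hKc]
      rw [a1] at a2
      rw [← a2, a3])
    simpa using this
  · refine ⟨c, f₂ 0 / cj f₁ 0, hc, ?_, Or.inr ?_⟩
    · rw [norm_div]
      simp only [cj, map_zero, RCLike.norm_conj]
      rw [hn, div_self (norm_ne_zero_iff.2 h0₂)]
    have hcK : Tendsto (cj (KK f₁)) (𝓝 0) (𝓝 0) := by
      have e1 : Tendsto (fun x => starRingEnd ℂ (KK f₁ (starRingEnd ℂ x))) (𝓝 0) (𝓝 0) :=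
        cj_tendsto.comp (hK0₁.comp cj_tendsto)
      exact e1
    have := identical (cj f₁) (fun x => f₂ (c * x)) (cj_diff f₁ hf₁) hdc
      (by simpa [cj] using h0) (by simpa using h0₂) (by
      filter_upwards [cj_tendsto.eventually hl₁, hcK.eventually hcase, hcK.eventually hr₂]
        with x a1 a2 a3
      rw [hKc, KK_cj f₁ hf₁]
      have a4 : cj z₁ (cj (KK f₁) x) = x := by
        simp only [cj, Complex.conj_conj]
        rw [a1, Complex.conj_conj]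
      rw [a4] at a2
      rw [← a2, a3])
    simpa using this

end Pool.Agent.Helper246.Blum
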