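import Mathlib
import Pool.Agent.Helper246.BlumLoc
set_option autoImplicit false

namespace Pool.Agent.Helper246.Blum

open Polynomial Filter Topology Set

theorem degK (p g : ℂ[X]) (hp : p ≠ 0) (h : derivative p + derivative g * p ≠ 0) :
    p.natDegree ≤ (X * (derivative p + derivative g * p)).natDegree := by
  rw [natDegree_X_mul h]
  by_cases hg : derivative g = 0
  · rw [hg, zero_mul, add_zero, natDegree_derivative]
    omega
  · have h1 : degree (derivative p) < degree (derivative g * p) := by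
      refine lt_of_lt_of_le (degree_derivative_lt hp) ?_
      rw [degree_mul]
      have h2 : (0 : WithBot ℕ) ≤ degree (derivative g) := zero_le_degree_iff.2 hg
      calc degree p = 0 + degree p := (zero_add _).symm
        _ ≤ _ := add_le_add h2 le_rfl
    have h3 := degree_add_eq_right_of_degree_lt h1
    have h4 : (derivative p + derivative g * p).natDegree = (derivative g * p).natDegree :=
      natDegree_eq_of_degree_eq h3
    rw [h4, natDegree_mul hg hp]
    omega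

/-- the function `p e^g` -/
noncomputable def PE (p g : ℂ[X]) : ℂ → ℂ := fun z => p.eval z * Complex.exp (g.eval z)

theorem PE_hasDeriv (p g : ℂ[X]) (z : ℂ) : HasDerivAt (PE p g)
    ((derivative p + derivative g * p).eval z * Complex.exp (g.eval z)) z := by
  have h1 := (p.hasDerivAt z).mul ((g.hasDerivAt z).cexp)
  refine h1.congr_deriv ?_
  simp only [eval_add, eval_mul]
  ring

theorem PE_diff (p g : ℂ[X]) : Differentiable ℂ (PE p g) := fun z =>
  (PE_hasDeriv p g z).differentiableAt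

/-- Local rigidity for the functions `p e^g`. -/
theorem thmA (p₁ g₁ p₂ g₂ : ℂ[X]) (h0 : PE p₁ g₁ 0 ≠ 0) (h1 : deriv (PE p₁ g₁) 0 ≠ 0)
    (hM : ∀ᶠ r in 𝓝[>] (0:ℝ), MM (PE p₁ g₁) r = MM (PE p₂ g₂) r) :
    ∃ ε η : ℂ, ‖ε‖ = 1 ∧ ‖η‖ = 1 ∧ ((∀ z, PE p₂ g₂ z = ε * PE p₁ g₁ (η * z)) ∨
      (∀ z, PE p₂ g₂ z = ε * starRingEnd ℂ (PE p₁ g₁ (η * starRingEnd ℂ z)))) := by
  have hco0 : ∀ Q : ℂ[X], (X * Q).coeff 0 = 0 := fun Q => by simp
  have hco1 : ∀ Q : ℂ[X], (X * Q).coeff 1 = Q.coeff 0 := fun Q => by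
    rw [coeff_X_mul]
  have hK : ∀ p g : ℂ[X], ∀ z, z * deriv (PE p g) z * p.eval z
      = (X * (derivative p + derivative g * p)).eval z * PE p g z := by
    intro p g z
    rw [(PE_hasDeriv p g z).deriv]
    unfold PE
    simp only [eval_mul, eval_X]
    ring
  have hne : ∀ p g : ℂ[X], deriv (PE p g) 0 ≠ 0 → (derivative p + derivative g * p).coeff 0 ≠ 0 := by
    intro p g h h2
    rw [(PE_hasDeriv p g 0).deriv, ← coeff_zero_eq_eval_zero, h2, zero_mul] at h
    exact h rfl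
  have hp0 : ∀ p g : ℂ[X], PE p g 0 ≠ 0 → p.coeff 0 ≠ 0 := by
    intro p g h h2
    unfold PE at h
    rw [← coeff_zero_eq_eval_zero, h2, zero_mul] at h
    exact h rfl
  have hn0 : ∀ p g : ℂ[X], deriv (PE p g) 0 ≠ 0 → p ≠ 0 := by
    intro p g h hp
    apply hne p g h
    rw [hp]; simp
  have hn1 : ∀ p g : ℂ[X], deriv (PE p g) 0 ≠ 0 → derivative p + derivative g * p ≠ 0 := by
    intro p g h hp
    apply hne p g h
    rw [hp]; simp
  obtain ⟨c, C, hc, hC, h⟩ := main_local (PE p₁ g₁) (PE p₂ g₂) (PE_diff p₁ g₁) (PE_diff p₂ g₂) h0 h1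
    hM (X * (derivative p₁ + derivative g₁ * p₁)) p₁ (X * (derivative p₂ + derivative g₂ * p₂)) p₂
    (hK p₁ g₁) (hK p₂ g₂) (hco0 _) (hco0 _) (by rw [hco1]; exact hne p₁ g₁ h1)
    (fun h => by rw [hco1]; exact hne p₂ g₂ h) (hp0 p₁ g₁ h0) (fun h => hp0 p₂ g₂ h)
    (degK p₁ g₁ (hn0 p₁ g₁ h1) (hn1 p₁ g₁ h1)) (fun h => degK p₂ g₂ (hn0 p₂ g₂ h) (hn1 p₂ g₂ h))
  have hc0 : c ≠ 0 := by
    intro h; rw [h, norm_zero] at hc; exact zero_ne_one hc
  rcases h with h | h
  · refine ⟨C, c⁻¹, hC, by rw [norm_inv, hc, inv_one], Or.inl ?_⟩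
    intro z
    rw [← h, ← mul_assoc, mul_inv_cancel₀ hc0, one_mul]
  · refine ⟨C, c, hC, hc, Or.inr ?_⟩
    intro z
    have h2 := h (c⁻¹ * z)
    rw [← mul_assoc, mul_inv_cancel₀ hc0, one_mul] at h2
    rw [h2]
    unfold cj
    have h3 : starRingEnd ℂ (c⁻¹ * z) = c * starRingEnd ℂ z := by
      rw [map_mul]
      congr 1
      rw [map_inv₀]
      apply inv_eq_of_mul_eq_one_left
      rw [Complex.mul_conj, Complex.normSq_eq_norm_sq, hc]
      simp
    rw [h3]

theorem PE_zero (p : ℂ[X]) : PE p 0 = fun z => p.eval z := by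
  funext z
  simp [PE]

/-- Local rigidity for polynomials. -/
theorem thmA_poly (p q : ℂ[X]) (h0 : p.coeff 0 ≠ 0) (h1 : p.coeff 1 ≠ 0)
    (hM : ∀ᶠ r in 𝓝[>] (0:ℝ), MM (fun z => p.eval z) r = MM (fun z => q.eval z) r) :
    ∃ ε η : ℂ, ‖ε‖ = 1 ∧ ‖η‖ = 1 ∧ ((∀ z, q.eval z = ε * p.eval (η * z)) ∨
      (∀ z, q.eval z = ε * starRingEnd ℂ (p.eval (η * starRingEnd ℂ z)))) := by
  have := thmA p 0 q 0 (by
    rw [PE_zero]; simpa [← coeff_zero_eq_eval_zero] using h0) (by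
    rw [(PE_hasDeriv p 0 0).deriv]
    simp only [derivative_zero, zero_mul, add_zero, eval_zero, Complex.exp_zero, mul_one]
    rw [← coeff_zero_eq_eval_zero, coeff_derivative]
    simpa using h1) (by rw [PE_zero, PE_zero]; exact hM)
  rw [PE_zero, PE_zero] at this
  exact this

theorem MM_eq_of (F G : ℂ → ℂ) (hF : Continuous F) (hG : Continuous G) (r s c : ℝ) (hr : 0 ≤ r)
    (hs : 0 ≤ s) (hc : 0 ≤ c)
    (h1 : ∀ x, ‖x‖ = r → ∃ y, ‖y‖ = s ∧ ‖F x‖ = c * ‖G y‖)
    (h2 : ∀ y, ‖y‖ = s → ∃ x, ‖x‖ = r ∧ ‖F x‖ = c * ‖G y‖) : MM F r = c * MM G s := by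
  obtain ⟨a1, x, a2, a3⟩ := MM_spec F hF r hr
  obtain ⟨b1, y, b2, b3⟩ := MM_spec G hG s hs
  apply le_antisymm
  · obtain ⟨y', hy', h⟩ := h1 x a2
    rw [← a3, h]
    exact mul_le_mul_of_nonneg_left (b1 y' hy') hc
  · obtain ⟨x', hx', h⟩ := h2 y b2
    rw [← b3, ← h]
    exact a1 x' hx'

theorem MM_pow_mul (G : ℂ → ℂ) (hG : Continuous G) (m : ℕ) (r : ℝ) (hr : 0 ≤ r) :
    MM (fun z => z ^ m * G z) r = r ^ m * MM G r := by
  have hF : Continuous (fun z : ℂ => z ^ m * G z) := (continuous_pow m).mul hG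
  apply MM_eq_of (fun z : ℂ => z ^ m * G z) G hF hG r r _ hr hr (pow_nonneg hr m)
  · intro x hx
    exact ⟨x, hx, by rw [norm_mul, norm_pow, hx]⟩
  · intro x hx
    exact ⟨x, hx, by rw [norm_mul, norm_pow, hx]⟩

theorem eval_reverse (p : ℂ[X]) (x : ℂ) (hx : x ≠ 0) :
    p.reverse.eval x = x ^ p.natDegree * p.eval x⁻¹ := by
  have : Invertible (x⁻¹) := invertibleOfNonzero (inv_ne_zero hx)
  have h := eval₂_reverse_mul_pow (RingHom.id ℂ) (x⁻¹) p
  rw [invOf_eq_inv, inv_inv] at h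
  simp only [eval₂_id] at h
  rw [← h, inv_pow]
  field_simp

theorem MM_reverse (p : ℂ[X]) (r : ℝ) (hr : 0 < r) :
    MM (fun z => p.reverse.eval z) r = r ^ p.natDegree * MM (fun z => p.eval z) r⁻¹ := by
  have hri : 0 < r⁻¹ := inv_pos.2 hr
  apply MM_eq_of _ _ p.reverse.continuous p.continuous r r⁻¹ _ hr.le hri.le (pow_nonneg hr.le _)
  · intro x hx
    have hx0 : x ≠ 0 := by
      intro h; rw [h, norm_zero] at hx; exact hr.ne hx
    exact ⟨x⁻¹, by rw [norm_inv, hx], by rw [eval_reverse p x hx0, norm_mul, norm_pow, hx]⟩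
  · intro y hy
    have hy0 : y ≠ 0 := by
      intro h; rw [h, norm_zero] at hy; exact hri.ne hy
    exact ⟨y⁻¹, by rw [norm_inv, hy, inv_inv], by
      rw [eval_reverse p _ (inv_ne_zero hy0), norm_mul, norm_pow, norm_inv, hy, inv_inv, inv_inv]⟩

theorem order_eq (P Q : ℂ → ℂ) (hP : Continuous P) (hQ : Continuous Q) (hP0 : P 0 ≠ 0)
    (hQ0 : Q 0 ≠ 0) (a b : ℕ)
    (h : ∀ᶠ r in 𝓝[>] (0:ℝ), r ^ a * MM P r = r ^ b * MM Q r) : a = b := by
  have key : ∀ (P Q : ℂ → ℂ) (hP : Continuous P) (hQ : Continuous Q) (hP0 : P 0 ≠ 0)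
      (hQ0 : Q 0 ≠ 0) (a b : ℕ)
      (h : ∀ᶠ r in 𝓝[>] (0:ℝ), r ^ a * MM P r = r ^ b * MM Q r), ¬ a < b := by
    intro P Q hP hQ hP0 hQ0 a b h hab
    have e1 := MM_tendsto P hP
    have e2 := MM_tendsto Q hQ
    have e3 : Tendsto (fun r : ℝ => r ^ (b - a)) (𝓝[>] 0) (𝓝 0) := by
      have : Tendsto (fun r : ℝ => r ^ (b - a)) (𝓝 0) (𝓝 (0 ^ (b - a))) :=
        (continuous_pow (b - a)).tendsto 0
      rw [zero_pow (by omega)] at this
      exact this.mono_left nhdsWithin_le_nhds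
    have e4 := e3.mul e2
    rw [zero_mul] at e4
    have e5 : Tendsto (MM P) (𝓝[>] 0) (𝓝 0) := by
      refine e4.congr' ?_
      filter_upwards [h, self_mem_nhdsWithin] with r hr hr'
      have hr0 : (0:ℝ) < r := hr'
      have : r ^ b = r ^ a * r ^ (b - a) := by rw [← pow_add]; congr 1; omega
      rw [this, mul_assoc] at hr
      exact (mul_left_cancel₀ (pow_ne_zero a hr0.ne') hr).symm
    exact hP0 (norm_eq_zero.1 (tendsto_nhds_unique e1 e5))
  rcases lt_trichotomy a b with h1 | h1 | h1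
  · exact absurd h1 (key P Q hP hQ hP0 hQ0 a b h)
  · exact h1
  · exact absurd h1 (key Q P hQ hP hQ0 hP0 b a (by filter_upwards [h] with r hr; exact hr.symm))

/-- bottom case -/
theorem bottom (p q : ℂ[X]) (m : ℕ) (hm : p.coeff m ≠ 0) (hm1 : p.coeff (m + 1) ≠ 0)
    (hlow : ∀ j < m, p.coeff j = 0)
    (hM : ∀ᶠ r in 𝓝[>] (0:ℝ), MM (fun z => p.eval z) r = MM (fun z => q.eval z) r) :
    ∃ ε η : ℂ, ‖ε‖ = 1 ∧ ‖η‖ = 1 ∧ ((∀ z, q.eval z = ε * p.eval (η * z)) ∨
      (∀ z, q.eval z = ε * starRingEnd ℂ (p.eval (η * starRingEnd ℂ z)))) := by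
  obtain ⟨P, hP⟩ : X ^ m ∣ p := X_pow_dvd_iff.2 hlow
  have hPc : ∀ j, P.coeff j = p.coeff (m + j) := by
    intro j
    rw [hP, add_comm m j, coeff_X_pow_mul]
  have hq : q ≠ 0 := by
    intro hq
    have e1 : ∀ᶠ r in 𝓝[>] (0:ℝ), MM (fun z => P.eval z) r = 0 := by
      filter_upwards [hM, self_mem_nhdsWithin] with r hr hr'
      have hr0 : (0:ℝ) < r := hr'
      have e2 : (fun z => p.eval z) = fun z => z ^ m * P.eval z := by
        funext z; rw [hP]; simp
      rw [e2, MM_pow_mul _ P.continuous m r hr0.le, hq] at hr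
      have e3 : MM (fun z => (0:ℂ[X]).eval z) r = 0 := by
        obtain ⟨_, x, _, hx⟩ := MM_spec (fun z => (0:ℂ[X]).eval z) (0:ℂ[X]).continuous r hr0.le
        rw [← hx]; simp
      rw [e3] at hr
      exact (mul_eq_zero.1 hr).resolve_left (pow_ne_zero m hr0.ne')
    have e4 := MM_tendsto (fun z => P.eval z) P.continuous
    have e5 : Tendsto (MM (fun z => P.eval z)) (𝓝[>] 0) (𝓝 0) :=
      tendsto_const_nhds.congr' (by filter_upwards [e1] with r hr; exact hr.symm)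
    have e6 := norm_eq_zero.1 (tendsto_nhds_unique e4 e5)
    rw [← coeff_zero_eq_eval_zero, hPc] at e6
    exact hm e6
  obtain ⟨Q, hQ, hQn⟩ := Polynomial.exists_eq_pow_rootMultiplicity_mul_and_not_dvd q hq 0
  rw [C_0, sub_zero] at hQ hQn
  set l := q.rootMultiplicity 0 with hl
  have hQ0 : Q.coeff 0 ≠ 0 := fun h => hQn (X_dvd_iff.2 h)
  have hMP : ∀ᶠ r in 𝓝[>] (0:ℝ), r ^ m * MM (fun z => P.eval z) r = r ^ l * MM (fun z => Q.eval z) r := by
    filter_upwards [hM, self_mem_nhdsWithin] with r hr hr'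
    have hr0 : (0:ℝ) < r := hr'
    have e2 : (fun z => p.eval z) = fun z => z ^ m * P.eval z := by
      funext z; rw [hP]; simp
    have e3 : (fun z => q.eval z) = fun z => z ^ l * Q.eval z := by
      funext z; rw [hQ]; simp
    rw [e2, e3, MM_pow_mul _ P.continuous m r hr0.le, MM_pow_mul _ Q.continuous l r hr0.le] at hr
    exact hr
  have hml : m = l := order_eq _ _ P.continuous Q.continuous
    (by rw [← coeff_zero_eq_eval_zero, hPc]; exact hm)
    (by rw [← coeff_zero_eq_eval_zero]; exact hQ0) m l hMP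
  have hMP2 : ∀ᶠ r in 𝓝[>] (0:ℝ), MM (fun z => P.eval z) r = MM (fun z => Q.eval z) r := by
    filter_upwards [hMP, self_mem_nhdsWithin] with r hr hr'
    have hr0 : (0:ℝ) < r := hr'
    rw [← hml] at hr
    exact mul_left_cancel₀ (pow_ne_zero m hr0.ne') hr
  obtain ⟨ε, η, hε, hη, h⟩ := thmA_poly P Q (by rw [hPc]; exact hm) (by rw [hPc]; exact hm1) hMP2
  have hη0 : η ≠ 0 := by
    intro h; rw [h, norm_zero] at hη; exact zero_ne_one hη
  rcases h with h | h
  · refine ⟨ε * (η ^ m)⁻¹, η, by rw [norm_mul, norm_inv, norm_pow, hε, hη]; simp, hη, Or.inl ?_⟩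
    intro z
    rw [hQ, hP, ← hml]
    simp only [eval_mul, eval_pow, eval_X]
    rw [h z, mul_pow]
    field_simp
  · have hη0' : starRingEnd ℂ η ≠ 0 := by simpa using hη0
    refine ⟨ε * ((starRingEnd ℂ η) ^ m)⁻¹, η, by
      rw [norm_mul, norm_inv, norm_pow, hε, RCLike.norm_conj, hη]; simp, hη, Or.inr ?_⟩
    intro z
    rw [hQ, hP, ← hml]
    simp only [eval_mul, eval_pow, eval_X]
    rw [h z]
    simp only [map_mul, map_pow, Complex.conj_conj]
    rw [mul_pow]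
    field_simp

theorem eval_from_reverse (p : ℂ[X]) (x : ℂ) (hx : x ≠ 0) :
    p.eval x = x ^ p.natDegree * p.reverse.eval x⁻¹ := by
  rw [eval_reverse p x⁻¹ (inv_ne_zero hx), inv_inv, inv_pow]
  field_simp

theorem poly_ext_ne (P : ℂ → ℂ) (Q : ℂ → ℂ) (hP : Continuous P) (hQ : Continuous Q)
    (h : ∀ x, x ≠ 0 → P x = Q x) (x : ℂ) : P x = Q x := by
  have : Set.EqOn P Q ({0}ᶜ : Set ℂ) := fun y hy => h y hy
  have h2 := this.closure hP hQ
  have h3 : closure ({0}ᶜ : Set ℂ) = Set.univ := (dense_compl_singleton (0:ℂ)).closure_eq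
  rw [h3] at h2
  exact h2 (Set.mem_univ x)

/-- top case -/
theorem top (p q : ℂ[X]) (m : ℕ) (hm : p.coeff m ≠ 0)
    (htop : p.natDegree = m + 1)
    (hM : ∀ᶠ r in atTop, MM (fun z => p.eval z) r = MM (fun z => q.eval z) r) :
    ∃ ε η : ℂ, ‖ε‖ = 1 ∧ ‖η‖ = 1 ∧ ((∀ z, q.eval z = ε * p.eval (η * z)) ∨
      (∀ z, q.eval z = ε * starRingEnd ℂ (p.eval (η * starRingEnd ℂ z)))) := by
  have hp : p ≠ 0 := by
    intro h; rw [h] at hm; exact hm (by simp)
  have hM' : ∀ᶠ r in 𝓝[>] (0:ℝ), MM (fun z => p.eval z) r⁻¹ = MM (fun z => q.eval z) r⁻¹ :=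
    tendsto_inv_nhdsGT_zero.eventually hM
  have hP0 : p.reverse.coeff 0 ≠ 0 := by
    rw [coeff_zero_reverse]; exact leadingCoeff_ne_zero.2 hp
  have hP1 : p.reverse.coeff 1 ≠ 0 := by
    rw [coeff_one_reverse, nextCoeff_of_natDegree_pos (by omega), htop]
    simpa using hm
  have hq : q ≠ 0 := by
    intro hq
    have e1 : ∀ᶠ r in 𝓝[>] (0:ℝ), MM (fun z => p.reverse.eval z) r = 0 := by
      filter_upwards [hM', self_mem_nhdsWithin] with r hr hr'
      have hr0 : (0:ℝ) < r := hr'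
      rw [MM_reverse p r hr0, hr, hq]
      obtain ⟨_, x, _, hx⟩ := MM_spec (fun z => (0:ℂ[X]).eval z) (0:ℂ[X]).continuous r⁻¹
        (inv_pos.2 hr0).le
      rw [← hx]; simp
    have e4 := MM_tendsto (fun z => p.reverse.eval z) p.reverse.continuous
    have e5 : Tendsto (MM (fun z => p.reverse.eval z)) (𝓝[>] 0) (𝓝 0) :=
      tendsto_const_nhds.congr' (by filter_upwards [e1] with r hr; exact hr.symm)
    have e6 := norm_eq_zero.1 (tendsto_nhds_unique e4 e5)
    rw [← coeff_zero_eq_eval_zero] at e6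
    exact hP0 e6
  have hQ0 : q.reverse.coeff 0 ≠ 0 := by
    rw [coeff_zero_reverse]; exact leadingCoeff_ne_zero.2 hq
  have hdeg : q.natDegree = p.natDegree := by
    apply order_eq (fun z => p.reverse.eval z) (fun z => q.reverse.eval z) p.reverse.continuous
      q.reverse.continuous (by rw [← coeff_zero_eq_eval_zero]; exact hP0)
      (by rw [← coeff_zero_eq_eval_zero]; exact hQ0)
    filter_upwards [hM', self_mem_nhdsWithin] with r hr hr'
    have hr0 : (0:ℝ) < r := hr'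
    rw [MM_reverse p r hr0, MM_reverse q r hr0, hr]
    ring
  have hMr : ∀ᶠ r in 𝓝[>] (0:ℝ), MM (fun z => p.reverse.eval z) r = MM (fun z => q.reverse.eval z) r := by
    filter_upwards [hM', self_mem_nhdsWithin] with r hr hr'
    have hr0 : (0:ℝ) < r := hr'
    rw [MM_reverse p r hr0, MM_reverse q r hr0, hr, hdeg]
  obtain ⟨ε, η, hε, hη, h⟩ := thmA_poly p.reverse q.reverse hP0 hP1 hMr
  have hη0 : η ≠ 0 := by
    intro h; rw [h, norm_zero] at hη; exact zero_ne_one hη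
  have hηc : starRingEnd ℂ η * η = 1 := by
    rw [mul_comm, Complex.mul_conj, Complex.normSq_eq_norm_sq, hη]; simp
  rcases h with h | h
  · refine ⟨ε * η ^ p.natDegree, η⁻¹, by rw [norm_mul, norm_pow, hε, hη]; simp,
      by rw [norm_inv, hη, inv_one], Or.inl ?_⟩
    have hF : Continuous (fun z : ℂ => ε * η ^ p.natDegree * p.eval (η⁻¹ * z)) :=
      continuous_const.mul (p.continuous.comp (continuous_const.mul continuous_id))
    apply poly_ext_ne (fun z => q.eval z) (fun z : ℂ => ε * η ^ p.natDegree * p.eval (η⁻¹ * z))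
      q.continuous hF
    intro z hz
    rw [eval_from_reverse q z hz, h, hdeg, eval_from_reverse p (η⁻¹ * z) (mul_ne_zero (inv_ne_zero hη0) hz),
      mul_inv, inv_inv, mul_pow, inv_pow]
    field_simp
  · refine ⟨ε * (starRingEnd ℂ η) ^ p.natDegree, η⁻¹, by
      rw [norm_mul, norm_pow, hε, RCLike.norm_conj, hη]; simp,
      by rw [norm_inv, hη, inv_one], Or.inr ?_⟩
    have hF : Continuous (fun z : ℂ => ε * (starRingEnd ℂ) η ^ p.natDegree *
        starRingEnd ℂ (p.eval (η⁻¹ * starRingEnd ℂ z))) :=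
      continuous_const.mul (Complex.continuous_conj.comp
      (p.continuous.comp (continuous_const.mul Complex.continuous_conj)))
    apply poly_ext_ne (fun z => q.eval z) (fun z : ℂ => ε * (starRingEnd ℂ) η ^ p.natDegree *
        starRingEnd ℂ (p.eval (η⁻¹ * starRingEnd ℂ z))) q.continuous hF
    intro z hz
    have hz' : starRingEnd ℂ z ≠ 0 := by simpa using hz
    have hη0' : starRingEnd ℂ η ≠ 0 := by simpa using hη0
    rw [eval_from_reverse q z hz, h, hdeg, eval_from_reverse p (η⁻¹ * starRingEnd ℂ z)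
      (mul_ne_zero (inv_ne_zero hη0) hz'), mul_inv, inv_inv, mul_pow, inv_pow]
    simp only [map_mul, map_pow, map_inv₀, Complex.conj_conj]
    field_simp

end Pool.Agent.Helper246.Blum
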