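import Mathlib
import Pool.Agent.Helper246.BlumTop
set_option autoImplicit false

namespace Pool.Agent.Helper246.Blum

open Polynomial Filter Topology Set

theorem norm_eval_le (p : ℂ[X]) (x : ℂ) (hx : 1 ≤ ‖x‖) :
    ‖p.eval x‖ ≤ (∑ i ∈ Finset.range (p.natDegree + 1), ‖p.coeff i‖) * ‖x‖ ^ p.natDegree := by
  rw [eval_eq_sum_range, Finset.sum_mul]
  refine (norm_sum_le _ _).trans (Finset.sum_le_sum ?_)
  intro i hi
  rw [norm_mul, norm_pow]
  refine mul_le_mul_of_nonneg_left ?_ (norm_nonneg _)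
  exact pow_le_pow_right₀ hx (by rw [Finset.mem_range] at hi; omega)

theorem MM_poly_le (p : ℂ[X]) (r : ℝ) (hr : 1 ≤ r) :
    MM (fun z => p.eval z) r
      ≤ (∑ i ∈ Finset.range (p.natDegree + 1), ‖p.coeff i‖) * r ^ p.natDegree := by
  obtain ⟨_, x, hx, hx'⟩ := MM_spec (fun z => p.eval z) p.continuous r (by linarith)
  rw [← hx', ← hx]
  exact norm_eval_le p x (by rw [hx]; exact hr)

theorem poly_of_growth (f : ℂ → ℂ) (hf : Differentiable ℂ f) (C : ℝ) (n : ℕ)
    (h : ∀ᶠ r in atTop, MM f r ≤ C * r ^ n) : ∃ q : ℂ[X], ∀ z, f z = q.eval z := by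
  have hz : ∀ k, n < k → iteratedDeriv k f 0 = 0 := by
    intro k hk
    have e1 : ∀ᶠ r : ℝ in atTop, ‖iteratedDeriv k f 0‖ ≤ k.factorial * C * (r ^ (k - n))⁻¹ := by
      filter_upwards [h, eventually_gt_atTop (0:ℝ)] with r hr hr0
      have e2 := Complex.norm_iteratedDeriv_le_of_forall_mem_sphere_norm_le (f := f) (c := 0)
        (C := C * r ^ n) k hr0 hf.diffContOnCl (by
          intro z hz
          rw [mem_sphere_zero_iff_norm] at hz
          exact ((MM_spec f hf.continuous r hr0.le).1 z hz).trans hr)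
      refine e2.trans (le_of_eq ?_)
      have e3 : r ^ k = r ^ n * r ^ (k - n) := by rw [← pow_add]; congr 1; omega
      rw [e3]
      field_simp
    have e4 : Tendsto (fun r : ℝ => k.factorial * C * (r ^ (k - n))⁻¹) atTop (𝓝 0) := by
      have : Tendsto (fun r : ℝ => (r ^ (k - n))⁻¹) atTop (𝓝 0) :=
        (tendsto_pow_atTop (by omega)).inv_tendsto_atTop
      simpa using this.const_mul ((k.factorial : ℝ) * C)
    have e5 : ‖iteratedDeriv k f 0‖ ≤ 0 := ge_of_tendsto e4 e1
    exact norm_le_zero_iff.1 e5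
  refine ⟨∑ k ∈ Finset.range (n + 1), Polynomial.C ((k.factorial : ℂ)⁻¹ * iteratedDeriv k f 0) * X ^ k, ?_⟩
  intro z
  have e1 := Complex.taylorSeries_eq_of_entire hf 0 z
  rw [← e1, tsum_eq_sum (s := Finset.range (n + 1))]
  · simp only [eval_finset_sum, eval_mul, eval_C, eval_pow, eval_X]
    apply Finset.sum_congr rfl
    intro k _
    simp only [sub_zero, smul_eq_mul]
    ring
  · intro k hk
    rw [Finset.mem_range] at hk
    rw [hz k (by omega)]
    simp

end Pool.Agent.Helper246.Blum
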