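import Mathlib

/-!
# A torsion theorem for one-relator presentations, by towers of infinite cyclic covers
-/

namespace Pool.Agent.Helper246.Tower

universe u v w

open FreeGroup (of mk)

section Twist

variable {X : Type u} {Ω : Type v} {A : Type w} [CommRing A]

/-- The value of a one-cochain `f` on one signed letter, read at the point `ω`. -/
def stepv (ρ : FreeGroup X →* Aˣ) (α : FreeGroup X →* Equiv.Perm Ω) (f : X → Ω → A)
    (p : X × Bool) (ω : Ω) : A :=
  if p.2 then f p.1 ω else -(((ρ (of p.1))⁻¹ : Aˣ) : A) * f p.1 ((α (of p.1))⁻¹ ω)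

/-- The twisted value of a one-cochain `f` on a word, read at the point `ω`. -/
def tw (ρ : FreeGroup X →* Aˣ) (α : FreeGroup X →* Equiv.Perm Ω) (f : X → Ω → A) :
    List (X × Bool) → Ω → A
  | [], _ => 0
  | p :: L, ω => tw ρ α f L ω + (ρ (mk L) : A) * stepv ρ α f p (α (mk L) ω)

lemma mk_cons (p : X × Bool) (L : List (X × Bool)) :
    (mk (p :: L) : FreeGroup X) = mk [p] * mk L := by
  rw [FreeGroup.mul_mk]; rfl

lemma exists_mk (g : FreeGroup X) : ∃ L, (mk L : FreeGroup X) = g := Quot.exists_rep g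

lemma mk_true (x : X) : (mk [(x, true)] : FreeGroup X) = of x := rfl

lemma mk_false (x : X) : (mk [(x, false)] : FreeGroup X) = (of x)⁻¹ := rfl

lemma stepv_add (ρ : FreeGroup X →* Aˣ) (α : FreeGroup X →* Equiv.Perm Ω) (f g : X → Ω → A)
    (p : X × Bool) (ω : Ω) : stepv ρ α (f + g) p ω = stepv ρ α f p ω + stepv ρ α g p ω := by
  unfold stepv
  split_ifs
  · rfl
  · simp only [Pi.add_apply]; ring

lemma stepv_smul (ρ : FreeGroup X →* Aˣ) (α : FreeGroup X →* Equiv.Perm Ω) (a : A)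
    (f : X → Ω → A) (p : X × Bool) (ω : Ω) :
    stepv ρ α (a • f) p ω = a * stepv ρ α f p ω := by
  unfold stepv
  split_ifs
  · rfl
  · simp only [Pi.smul_apply, smul_eq_mul]; ring

lemma tw_add (ρ : FreeGroup X →* Aˣ) (α : FreeGroup X →* Equiv.Perm Ω) (f g : X → Ω → A)
    (L : List (X × Bool)) (ω : Ω) : tw ρ α (f + g) L ω = tw ρ α f L ω + tw ρ α g L ω := by
  induction L with
  | nil => simp [tw]
  | cons p L ih => simp only [tw, ih, stepv_add]; ring

lemma tw_smul (ρ : FreeGroup X →* Aˣ) (α : FreeGroup X →* Equiv.Perm Ω) (a : A)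
    (f : X → Ω → A) (L : List (X × Bool)) (ω : Ω) :
    tw ρ α (a • f) L ω = a * tw ρ α f L ω := by
  induction L with
  | nil => simp [tw]
  | cons p L ih => simp only [tw, ih, stepv_smul]; ring

/-- `tw` as a linear map in the cochain. -/
def twL (ρ : FreeGroup X →* Aˣ) (α : FreeGroup X →* Equiv.Perm Ω) (L : List (X × Bool)) :
    (X → Ω → A) →ₗ[A] (Ω → A) where
  toFun f := tw ρ α f L
  map_add' f g := by ext ω; exact tw_add ρ α f g L ω
  map_smul' a f := by ext ω; exact tw_smul ρ α a f L ω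

lemma twL_apply (ρ : FreeGroup X →* Aˣ) (α : FreeGroup X →* Equiv.Perm Ω)
    (L : List (X × Bool)) (f : X → Ω → A) (ω : Ω) : twL ρ α L f ω = tw ρ α f L ω := rfl

/-- The twisted coboundary of a function. -/
def cob (ρ : FreeGroup X →* Aˣ) (α : FreeGroup X →* Equiv.Perm Ω) (h : Ω → A) : X → Ω → A :=
  fun x ω => (ρ (of x) : A) * h (α (of x) ω) - h ω

lemma stepv_cob (ρ : FreeGroup X →* Aˣ) (α : FreeGroup X →* Equiv.Perm Ω) (h : Ω → A)
    (p : X × Bool) (ω : Ω) :
    stepv ρ α (cob ρ α h) p ω = (ρ (mk [p]) : A) * h (α (mk [p]) ω) - h ω := by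
  obtain ⟨x, b⟩ := p
  cases b
  · rw [mk_false]
    simp only [stepv, cob, map_inv]
    rw [if_neg (by simp)]
    have hx : (α (of x)) ((α (of x))⁻¹ ω) = ω := by simp
    rw [hx]
    have : (((ρ (of x))⁻¹ : Aˣ) : A) * (ρ (of x) : A) = 1 := by simp
    linear_combination (-h ω) * this
  · rw [mk_true]
    simp [stepv, cob]

lemma tw_cob (ρ : FreeGroup X →* Aˣ) (α : FreeGroup X →* Equiv.Perm Ω) (h : Ω → A)
    (L : List (X × Bool)) (ω : Ω) :
    tw ρ α (cob ρ α h) L ω = (ρ (mk L) : A) * h (α (mk L) ω) - h ω := by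
  induction L with
  | nil =>
    have h1 : (mk [] : FreeGroup X) = 1 := rfl
    simp [tw, h1]
  | cons p L ih =>
    rw [tw, ih, stepv_cob, mk_cons p L, map_mul, map_mul]
    simp only [Units.val_mul, Equiv.Perm.mul_apply]
    ring

/-- Locality: the value of a word at `ω` depends only on the cochain along the word. -/
lemma tw_congr (ρ : FreeGroup X →* Aˣ) (α : FreeGroup X →* Equiv.Perm Ω) (f g : X → Ω → A)
    (L : List (X × Bool)) (ω : Ω)
    (hfg : ∀ M p, (p :: M) <:+ L →
      (p.2 = true → f p.1 (α (mk M) ω) = g p.1 (α (mk M) ω)) ∧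
      (p.2 = false → f p.1 (α (mk (p :: M)) ω) = g p.1 (α (mk (p :: M)) ω))) :
    tw ρ α f L ω = tw ρ α g L ω := by
  induction L with
  | nil => rfl
  | cons p L ih =>
    rw [tw, tw, ih (fun M q h => hfg M q (h.trans (List.suffix_cons p L)))]
    congr 2
    obtain ⟨x, b⟩ := p
    have key := hfg L (x, b) List.suffix_rfl
    cases b
    · have h2 := key.2 rfl
      rw [mk_cons _ L, mk_false, map_mul, Equiv.Perm.mul_apply, map_inv] at h2
      simp only [stepv]
      rw [if_neg (by simp), if_neg (by simp), h2]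
    · have h1 := key.1 rfl
      simp only [stepv]
      simp only [if_true]
      exact h1

end Twist

section Skew

variable {X : Type u} {Ω : Type v}

/-- One generator of the skew product action on `Ω × ℤ`. -/
def skewGen (e : Equiv.Perm Ω) (g : Ω → ℤ) : Equiv.Perm (Ω × ℤ) where
  toFun q := (e q.1, q.2 + g q.1)
  invFun q := (e⁻¹ q.1, q.2 - g (e⁻¹ q.1))
  left_inv q := by ext <;> simp
  right_inv q := by ext <;> simp

/-- The skew product action on `Ω × ℤ`. -/
def skew (α : FreeGroup X →* Equiv.Perm Ω) (f : X → Ω → ℤ) :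
    FreeGroup X →* Equiv.Perm (Ω × ℤ) :=
  FreeGroup.lift (fun x => skewGen (α (of x)) (f x))

lemma skew_of (α : FreeGroup X →* Equiv.Perm Ω) (f : X → Ω → ℤ) (x : X) (q : Ω × ℤ) :
    skew α f (of x) q = (α (of x) q.1, q.2 + f x q.1) := by
  simp [skew, skewGen]

lemma skew_of_inv (α : FreeGroup X →* Equiv.Perm Ω) (f : X → Ω → ℤ) (x : X) (q : Ω × ℤ) :
    (skew α f (of x))⁻¹ q = ((α (of x))⁻¹ q.1, q.2 - f x ((α (of x))⁻¹ q.1)) := by
  rw [Equiv.Perm.inv_eq_iff_eq, skew_of]
  ext <;> simp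

lemma skew_mk (α : FreeGroup X →* Equiv.Perm Ω) (f : X → Ω → ℤ) (L : List (X × Bool))
    (ω : Ω) (m : ℤ) :
    skew α f (mk L) (ω, m) = (α (mk L) ω, m + tw 1 α f L ω) := by
  induction L with
  | nil =>
    have h1 : (mk [] : FreeGroup X) = 1 := rfl
    simp [tw, h1]
  | cons p L ih =>
    rw [mk_cons p L, map_mul, Equiv.Perm.mul_apply, ih, map_mul, Equiv.Perm.mul_apply, tw]
    obtain ⟨x, b⟩ := p
    cases b
    · rw [mk_false, map_inv, map_inv, skew_of_inv]
      simp only [stepv, MonoidHom.one_apply, inv_one, Units.val_one, one_mul]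
      rw [if_neg (by simp)]
      ext
      · rfl
      · simp only; ring
    · rw [mk_true, skew_of]
      simp only [stepv, MonoidHom.one_apply, Units.val_one, one_mul, if_true]
      ext
      · rfl
      · simp only; ring

lemma skew_fst (α : FreeGroup X →* Equiv.Perm Ω) (f : X → Ω → ℤ) (g : FreeGroup X)
    (q : Ω × ℤ) : (skew α f g q).1 = α g q.1 := by
  obtain ⟨ω, m⟩ := q
  obtain ⟨L, rfl⟩ := exists_mk g
  rw [skew_mk]

lemma skew_shift (α : FreeGroup X →* Equiv.Perm Ω) (f : X → Ω → ℤ) (g : FreeGroup X)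
    (ω : Ω) (m n : ℤ) :
    skew α f g (ω, m + n) = ((skew α f g (ω, m)).1, (skew α f g (ω, m)).2 + n) := by
  obtain ⟨L, rfl⟩ := exists_mk g
  rw [skew_mk, skew_mk]
  ext
  · rfl
  · simp only; ring

end Skew

end Pool.Agent.Helper246.Tower
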