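import Mathlib
import Pool.Agent.Helper246.Tower

/-!
# Surjectivity of the twisted coboundary passes to infinite cyclic covers
-/

namespace Pool.Agent.Helper246.Tower

universe u v w

open FreeGroup (of mk)

section Diff

variable {k : Type w} [Field k]

/-- Forward difference. -/
def dz (g : ℤ → k) : ℤ → k := fun m => g (m + 1) - g m

/-- Discrete primitive. -/
def prim (g : ℤ → k) : ℤ → k
  | Int.ofNat n => ∑ i ∈ Finset.range n, g (Int.ofNat i)
  | Int.negSucc n => -∑ i ∈ Finset.range (n + 1), g (Int.negSucc i)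

lemma dz_prim (g : ℤ → k) : dz (prim g) = g := by
  funext m
  obtain n | n := m
  · have h : (Int.ofNat n + 1 : ℤ) = Int.ofNat (n + 1) := rfl
    rw [dz, h]
    simp only [prim]
    rw [Finset.sum_range_succ]
    ring
  · cases n with
    | zero =>
      have h : (Int.negSucc 0 + 1 : ℤ) = Int.ofNat 0 := rfl
      rw [dz, h]
      simp [prim]
    | succ n =>
      have h : (Int.negSucc (n + 1) + 1 : ℤ) = Int.negSucc n := rfl
      rw [dz, h]
      simp only [prim]
      rw [Finset.sum_range_succ _ (n + 1)]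
      ring

lemma dz_add (g h : ℤ → k) : dz (g + h) = dz g + dz h := by
  funext m; simp only [dz, Pi.add_apply]; ring

lemma dz_sub (g h : ℤ → k) : dz (g - h) = dz g - dz h := by
  funext m; simp only [dz, Pi.sub_apply]; ring

lemma dz_iter_sub (d : ℕ) (g h : ℤ → k) : dz^[d] (g - h) = dz^[d] g - dz^[d] h := by
  induction d generalizing g h with
  | zero => rfl
  | succ d ih => rw [Function.iterate_succ_apply, dz_sub, ih]; rfl

lemma dz_iter_zero (d : ℕ) : dz^[d] (0 : ℤ → k) = 0 := by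
  induction d with
  | zero => rfl
  | succ d ih =>
    rw [Function.iterate_succ_apply]
    have : dz (0 : ℤ → k) = 0 := by funext m; simp [dz]
    rw [this, ih]

/-- Any function on `ℤ` agrees on a window of length `d` with one killed by `dz^[d]`. -/
lemma exists_window (d : ℕ) (m : ℤ) (g : ℤ → k) :
    ∃ g' : ℤ → k, dz^[d] g' = 0 ∧ ∀ j : ℕ, j < d → g' (m + j) = g (m + j) := by
  induction d generalizing g with
  | zero => exact ⟨0, rfl, fun j hj => absurd hj (Nat.not_lt_zero j)⟩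
  | succ d ih =>
    obtain ⟨h, h0, hw⟩ := ih (dz g)
    refine ⟨fun j => prim h j + (g m - prim h m), ?_, ?_⟩
    · rw [Function.iterate_succ_apply]
      have : dz (fun j => prim h j + (g m - prim h m)) = h := by
        funext j
        have := congrFun (dz_prim h) j
        simp only [dz] at this ⊢
        linear_combination this
      rw [this, h0]
    · intro j
      induction j with
      | zero => intro _; simp
      | succ j ihj =>
        intro hj
        have h1 := ihj (by omega)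
        have h2 := hw j (by omega)
        have h3 := congrFun (dz_prim h) (m + j)
        simp only [dz] at h1 h2 h3 ⊢
        have e : (m + ((j + 1 : ℕ) : ℤ)) = m + j + 1 := by push_cast; ring
        rw [e]
        linear_combination h1 + h2 + h3

end Diff

section Cover

variable {X : Type u} {Ω : Type v} {k : Type w} [Field k]

/-- Forward difference in the `ℤ`-coordinate of a cochain on `Ω × ℤ`. -/
def dc (f : X → Ω × ℤ → k) : X → Ω × ℤ → k := fun x q => f x (q.1, q.2 + 1) - f x q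

lemma dc_surj (g : X → Ω × ℤ → k) : ∃ f, dc f = g := by
  refine ⟨fun x q => prim (fun m => g x (q.1, m)) q.2, ?_⟩
  funext x q
  have := congrFun (dz_prim (fun m => g x (q.1, m))) q.2
  simpa [dc, dz] using this

lemma dc_iter_surj (d : ℕ) (g : X → Ω × ℤ → k) : ∃ f, dc^[d] f = g := by
  induction d with
  | zero => exact ⟨g, rfl⟩
  | succ d ih =>
    obtain ⟨f, hf⟩ := ih
    obtain ⟨f', hf'⟩ := dc_surj f
    exact ⟨f', by rw [Function.iterate_succ_apply, hf', hf]⟩

lemma stepv_shift (ρ : FreeGroup X →* kˣ) (α : FreeGroup X →* Equiv.Perm Ω) (φ : X → Ω → ℤ)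
    (f : X → Ω × ℤ → k) (p : X × Bool) (ω : Ω) (m : ℤ) :
    stepv ρ (skew α φ) (fun x q => f x (q.1, q.2 + 1)) p (ω, m) =
      stepv ρ (skew α φ) f p (ω, m + 1) := by
  unfold stepv
  split_ifs
  · rfl
  · rw [skew_of_inv, skew_of_inv]
    congr 3
    simp only
    ring_nf

lemma tw_shift (ρ : FreeGroup X →* kˣ) (α : FreeGroup X →* Equiv.Perm Ω) (φ : X → Ω → ℤ)
    (f : X → Ω × ℤ → k) (L : List (X × Bool)) (ω : Ω) (m : ℤ) :
    tw ρ (skew α φ) (fun x q => f x (q.1, q.2 + 1)) L (ω, m) =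
      tw ρ (skew α φ) f L (ω, m + 1) := by
  induction L with
  | nil => rfl
  | cons p L ih =>
    rw [tw, tw, ih, skew_mk, stepv_shift, skew_mk]
    congr 4
    ring

lemma tw_dc (ρ : FreeGroup X →* kˣ) (α : FreeGroup X →* Equiv.Perm Ω) (φ : X → Ω → ℤ)
    (f : X → Ω × ℤ → k) (L : List (X × Bool)) (ω : Ω) :
    (fun m => tw ρ (skew α φ) (dc f) L (ω, m)) =
      dz (fun m => tw ρ (skew α φ) f L (ω, m)) := by
  funext m
  have h1 : dc f = (fun x q => f x (q.1, q.2 + 1)) + ((-1 : k) • f) := by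
    funext x q
    simp [dc, sub_eq_add_neg]
  rw [h1, tw_add, tw_smul, tw_shift]
  simp only [dz]
  ring

lemma tw_dc_iter (ρ : FreeGroup X →* kˣ) (α : FreeGroup X →* Equiv.Perm Ω) (φ : X → Ω → ℤ)
    (d : ℕ) (f : X → Ω × ℤ → k) (L : List (X × Bool)) (ω : Ω) :
    (fun m => tw ρ (skew α φ) (dc^[d] f) L (ω, m)) =
      dz^[d] (fun m => tw ρ (skew α φ) f L (ω, m)) := by
  induction d generalizing f with
  | zero => rfl
  | succ d ih =>
    rw [Function.iterate_succ_apply, ih, tw_dc, Function.iterate_succ_apply]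

lemma stepv_pull (ρ : FreeGroup X →* kˣ) (α : FreeGroup X →* Equiv.Perm Ω) (φ : X → Ω → ℤ)
    (f : X → Ω → k) (p : X × Bool) (q : Ω × ℤ) :
    stepv ρ (skew α φ) (fun x q => f x q.1) p q = stepv ρ α f p q.1 := by
  unfold stepv
  split_ifs
  · rfl
  · rw [skew_of_inv]

lemma tw_pull (ρ : FreeGroup X →* kˣ) (α : FreeGroup X →* Equiv.Perm Ω) (φ : X → Ω → ℤ)
    (f : X → Ω → k) (L : List (X × Bool)) (q : Ω × ℤ) :
    tw ρ (skew α φ) (fun x q => f x q.1) L q = tw ρ α f L q.1 := by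
  induction L with
  | nil => rfl
  | cons p L ih => rw [tw, tw, ih, stepv_pull, skew_fst]

/-- Solvability for cochains killed by a power of the difference operator. -/
lemma surj_nilp (ρ : FreeGroup X →* kˣ) (α : FreeGroup X →* Equiv.Perm Ω) (φ : X → Ω → ℤ)
    (R : List (X × Bool)) (C : Set Ω)
    (hs : ∀ τ : Ω → k, ∃ f : X → Ω → k, ∀ ω ∈ C, tw ρ α f R ω = τ ω) (d : ℕ)
    (τ : Ω → ℤ → k) (hτ : ∀ ω ∈ C, dz^[d] (τ ω) = 0) :
    ∃ f : X → Ω × ℤ → k, ∀ ω ∈ C, ∀ m, tw ρ (skew α φ) f R (ω, m) = τ ω m := by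
  induction d generalizing τ with
  | zero =>
    refine ⟨fun _ _ => 0, fun ω hω m => ?_⟩
    have h1 : τ ω = 0 := hτ ω hω
    have h2 := tw_smul ρ (skew α φ) (0 : k) (fun _ _ => 0) R (ω, m)
    rw [zero_smul, zero_mul] at h2
    rw [h1]
    exact h2
  | succ d ih =>
    obtain ⟨f₀, hf₀⟩ := hs (fun ω => (dz^[d] (τ ω)) 0)
    obtain ⟨F, hF⟩ := dc_iter_surj d (fun (x : X) (q : Ω × ℤ) => f₀ x q.1)
    have hconst : ∀ ω ∈ C, ∀ m, (dz^[d] (τ ω)) m = (dz^[d] (τ ω)) 0 := by
      intro ω hω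
      have h1 := hτ ω hω
      rw [Function.iterate_succ_apply'] at h1
      set g := dz^[d] (τ ω) with hg
      have h2 : ∀ m, g (m + 1) = g m := fun m => by
        have := congrFun h1 m
        simp only [dz, Pi.zero_apply] at this
        exact sub_eq_zero.mp this
      intro m
      induction m using Int.induction_on with
      | zero => rfl
      | succ i hi => rw [h2, hi]
      | pred i hi =>
        rw [← hi, ← h2 (-(i : ℤ) - 1)]
        congr 1
        ring
    obtain ⟨f', hf'⟩ := ih (fun ω => τ ω - fun m => tw ρ (skew α φ) F R (ω, m)) (by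
      intro ω hω
      rw [dz_iter_sub, ← tw_dc_iter, hF]
      funext m
      simp only [Pi.sub_apply, Pi.zero_apply]
      rw [tw_pull, hf₀ ω hω, hconst ω hω m, sub_self])
    refine ⟨f' + F, fun ω hω m => ?_⟩
    rw [tw_add, hf' ω hω m]
    simp

/-- Solvability on a finite set of cells of the cover. -/
lemma surj_cover (ρ : FreeGroup X →* kˣ) (α : FreeGroup X →* Equiv.Perm Ω) (φ : X → Ω → ℤ)
    (R : List (X × Bool)) (C : Set Ω)
    (hs : ∀ τ : Ω → k, ∃ f : X → Ω → k, ∀ ω ∈ C, tw ρ α f R ω = τ ω)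
    (C' : Set (Ω × ℤ)) (hfin : C'.Finite) (hC' : ∀ q ∈ C', q.1 ∈ C) (τ : Ω × ℤ → k) :
    ∃ f : X → Ω × ℤ → k, ∀ q ∈ C', tw ρ (skew α φ) f R q = τ q := by
  obtain ⟨N, hN⟩ : ∃ N : ℕ, ∀ q ∈ C', -(N : ℤ) ≤ q.2 ∧ q.2 < N := by
    have h1 : (Prod.snd '' C').Finite := hfin.image _
    obtain ⟨M, hM⟩ : ∃ M : ℕ, ∀ z ∈ Prod.snd '' C', z.natAbs ≤ M := by
      obtain ⟨M, hM⟩ := (h1.image Int.natAbs).bddAbove
      exact ⟨M, fun z hz => hM ⟨z, hz, rfl⟩⟩
    refine ⟨M + 1, fun q hq => ?_⟩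
    have := hM q.2 ⟨q, hq, rfl⟩
    push_cast
    omega
  choose g' hg0 hgw using fun (ω : Ω) =>
    exists_window (2 * N) (-(N : ℤ)) (fun m => τ (ω, m))
  obtain ⟨f, hf⟩ := surj_nilp ρ α φ R C hs (2 * N) g' (fun ω _ => hg0 ω)
  refine ⟨f, fun q hq => ?_⟩
  obtain ⟨ω, m⟩ := q
  rw [hf ω (hC' _ hq) m]
  obtain ⟨h1, h2⟩ := hN _ hq
  simp only at h1 h2
  have h3 := hgw ω (m + N).toNat (by omega)
  have h4 : -(N : ℤ) + ((m + N).toNat : ℤ) = m := by omega
  rw [h4] at h3
  exact h3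

end Cover

end Pool.Agent.Helper246.Tower
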