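import Mathlib
import Pool.Agent.Helper246.Tower2

/-!
# The tower argument
-/

namespace Pool.Agent.Helper246.Tower

universe u v w

open FreeGroup (of mk)

section LinAlg

lemma count_le {V E C : Type*} [Fintype V] [Fintype E] [Fintype C] {k : Type*} [Field k]
    (d1 : (V → k) →ₗ[k] (E → k)) (d2 : (E → k) →ₗ[k] (C → k))
    (h1 : Function.Injective d1) (h2 : Function.Surjective d2) (h : ∀ v, d2 (d1 v) = 0) :
    Fintype.card V + Fintype.card C ≤ Fintype.card E := by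
  have e1 : LinearMap.range d1 ≤ LinearMap.ker d2 := by
    rintro _ ⟨v, rfl⟩
    exact h v
  have e2 := Submodule.finrank_mono e1
  have e3 := LinearMap.finrank_range_of_inj h1
  have e4 := LinearMap.finrank_range_add_finrank_ker d2
  have e5 : Module.finrank k (LinearMap.range d2) = Fintype.card C := by
    rw [LinearMap.range_eq_top.2 h2, finrank_top, Module.finrank_fintype_fun_eq_card]
  rw [Module.finrank_fintype_fun_eq_card] at e3 e4
  omega

lemma exists_kernel {V E C : Type*} [Fintype V] [Fintype E] [Fintype C] {k : Type*} [Field k]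
    (d1 : (V → k) →ₗ[k] (E → k)) (d2 : (E → k) →ₗ[k] (C → k))
    (v0 : V → k) (hv0 : v0 ≠ 0) (h0 : d1 v0 = 0)
    (hc : Fintype.card V + Fintype.card C ≤ Fintype.card E) :
    ∃ f, d2 f = 0 ∧ ∀ h, d1 h ≠ f := by
  by_contra hcon
  push Not at hcon
  have e1 : LinearMap.ker d2 ≤ LinearMap.range d1 := by
    intro f hf
    obtain ⟨h, hh⟩ := hcon f hf
    exact ⟨h, hh⟩
  have e2 := Submodule.finrank_mono e1
  have e3 := LinearMap.finrank_range_add_finrank_ker d1
  have e4 := LinearMap.finrank_range_add_finrank_ker d2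
  have e5 : Module.finrank k (LinearMap.range d2) ≤ Fintype.card C := by
    have := Submodule.finrank_le (LinearMap.range d2)
    rwa [Module.finrank_fintype_fun_eq_card] at this
  have e6 : 0 < Module.finrank k (LinearMap.ker d1) := by
    rw [Module.finrank_pos_iff]
    exact ⟨⟨⟨v0, h0⟩, 0, fun h => hv0 (congrArg Subtype.val h)⟩⟩
  rw [Module.finrank_fintype_fun_eq_card] at e3 e4
  omega

lemma clear_denoms {E : Type*} [Finite E] (f : E → ℚ) :
    ∃ (N : ℤ) (F : E → ℤ), N ≠ 0 ∧ ∀ e, (F e : ℚ) = N * f e := by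
  obtain ⟨b, hb⟩ := IsLocalization.exist_integer_multiples_of_finite (nonZeroDivisors ℤ) f
  choose F hF using hb
  refine ⟨b, F, nonZeroDivisors.ne_zero b.2, fun e => ?_⟩
  have := hF e
  simpa using this

end LinAlg

section Ext

variable {β : Type*} {A : Type*} [CommRing A]

open Classical in
/-- Extension by zero from a finite set. -/
noncomputable def extZ (s : Finset β) (g : s → A) : β → A :=
  fun b => if h : b ∈ s then g ⟨b, h⟩ else 0

lemma extZ_mem (s : Finset β) (g : s → A) (b : β) (h : b ∈ s) : extZ s g b = g ⟨b, h⟩ := by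
  unfold extZ; rw [dif_pos h]

lemma extZ_add (s : Finset β) (g g' : s → A) : extZ s (g + g') = extZ s g + extZ s g' := by
  funext b
  unfold extZ
  simp only [Pi.add_apply]
  split_ifs <;> simp

lemma extZ_smul (s : Finset β) (a : A) (g : s → A) : extZ s (a • g) = a • extZ s g := by
  funext b
  unfold extZ
  simp only [Pi.smul_apply]
  split_ifs <;> simp

end Ext

section Stage

variable {X : Type u} {Ω : Type v}

open Classical in
/-- The vertices visited from `ω₀` by the words in `S`. -/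
noncomputable def Vs (S : Finset (List (X × Bool))) (α : FreeGroup X →* Equiv.Perm Ω) (ω₀ : Ω) :
    Finset Ω :=
  S.image (fun L => α (mk L) ω₀)

open Classical in
/-- The edges visited from `ω₀` by the words in `S`. -/
noncomputable def Es (S : Finset (List (X × Bool))) (α : FreeGroup X →* Equiv.Perm Ω) (ω₀ : Ω) :
    Finset (X × Ω) :=
  S.biUnion (fun L => match L with
    | [] => ∅
    | (x, true) :: M => {(x, α (mk M) ω₀)}
    | (x, false) :: M => {(x, α (mk ((x, false) :: M)) ω₀)})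

variable {S : Finset (List (X × Bool))} {α : FreeGroup X →* Equiv.Perm Ω} {ω₀ : Ω}

lemma mem_Vs {L : List (X × Bool)} (h : L ∈ S) : α (mk L) ω₀ ∈ Vs S α ω₀ := by
  classical
  unfold Vs
  exact Finset.mem_image_of_mem _ h

lemma Vs_cases {ω : Ω} (h : ω ∈ Vs S α ω₀) : ∃ L ∈ S, α (mk L) ω₀ = ω := by
  classical
  unfold Vs at h
  exact Finset.mem_image.mp h

lemma mem_Es_true {x : X} {M : List (X × Bool)} (h : (x, true) :: M ∈ S) :
    (x, α (mk M) ω₀) ∈ Es S α ω₀ := by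
  classical
  unfold Es
  rw [Finset.mem_biUnion]
  exact ⟨_, h, by simp⟩

lemma mem_Es_false {x : X} {M : List (X × Bool)} (h : (x, false) :: M ∈ S) :
    (x, α (mk ((x, false) :: M)) ω₀) ∈ Es S α ω₀ := by
  classical
  unfold Es
  rw [Finset.mem_biUnion]
  exact ⟨_, h, by simp⟩

lemma Es_cases {e : X × Ω} (h : e ∈ Es S α ω₀) :
    ∃ x M, ((x, true) :: M ∈ S ∧ e = (x, α (mk M) ω₀)) ∨
      ((x, false) :: M ∈ S ∧ e = (x, α (mk ((x, false) :: M)) ω₀)) := by
  classical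
  unfold Es at h
  rw [Finset.mem_biUnion] at h
  obtain ⟨L, hL, he⟩ := h
  match L, hL, he with
  | [], _, he => simp at he
  | (x, true) :: M, hL, he =>
    refine ⟨x, M, Or.inl ⟨hL, ?_⟩⟩
    simpa using he
  | (x, false) :: M, hL, he =>
    refine ⟨x, M, Or.inr ⟨hL, ?_⟩⟩
    simpa using he

lemma act_true (α : FreeGroup X →* Equiv.Perm Ω) (x : X) (M : List (X × Bool)) (ω : Ω) :
    α (mk ((x, true) :: M)) ω = α (of x) (α (mk M) ω) := by
  rw [mk_cons, mk_true, map_mul, Equiv.Perm.mul_apply]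

lemma act_false (α : FreeGroup X →* Equiv.Perm Ω) (x : X) (M : List (X × Bool)) (ω : Ω) :
    α (of x) (α (mk ((x, false) :: M)) ω) = α (mk M) ω := by
  rw [mk_cons, mk_false, map_mul, Equiv.Perm.mul_apply, map_inv]
  simp

lemma Es_endpoints (hS : ∀ p L, p :: L ∈ S → L ∈ S) {x : X} {ω : Ω}
    (h : (x, ω) ∈ Es S α ω₀) : ω ∈ Vs S α ω₀ ∧ α (of x) ω ∈ Vs S α ω₀ := by
  obtain ⟨y, M, ⟨hM, he⟩ | ⟨hM, he⟩⟩ := Es_cases h
  · obtain ⟨rfl, rfl⟩ := Prod.mk.inj he
    refine ⟨mem_Vs (hS _ _ hM), ?_⟩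
    rw [← act_true]
    exact mem_Vs hM
  · obtain ⟨rfl, rfl⟩ := Prod.mk.inj he
    refine ⟨mem_Vs hM, ?_⟩
    rw [act_false]
    exact mem_Vs (hS _ _ hM)

lemma suffix_mem (hS : ∀ p L, p :: L ∈ S → L ∈ S) {L M : List (X × Bool)} (h : M <:+ L)
    (hL : L ∈ S) : M ∈ S := by
  obtain ⟨T, rfl⟩ := h
  induction T with
  | nil => exact hL
  | cons p T ih => exact ih (hS _ _ hL)

lemma tw_local {A : Type w} [CommRing A] (hS : ∀ p L, p :: L ∈ S → L ∈ S)
    (ρ : FreeGroup X →* Aˣ) {R G : List (X × Bool)} (hG : R ++ G ∈ S) (f g : X → Ω → A)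
    (hfg : ∀ x ω, (x, ω) ∈ Es S α ω₀ → f x ω = g x ω) :
    tw ρ α f R (α (mk G) ω₀) = tw ρ α g R (α (mk G) ω₀) := by
  apply tw_congr
  intro M p hM
  have h1 : (p :: M) ++ G ∈ S := by
    apply suffix_mem hS _ hG
    obtain ⟨T, hT⟩ := hM
    exact ⟨T, by rw [← hT]; simp⟩
  have h2 : ∀ N : List (X × Bool), α (mk N) (α (mk G) ω₀) = α (mk (N ++ G)) ω₀ := by
    intro N
    rw [← FreeGroup.mul_mk, map_mul, Equiv.Perm.mul_apply]
  obtain ⟨x, b⟩ := p
  constructor
  · intro hb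
    simp only at hb
    subst hb
    rw [h2]
    exact hfg _ _ (mem_Es_true h1)
  · intro hb
    simp only at hb
    subst hb
    rw [h2]
    exact hfg _ _ (mem_Es_false h1)

/-- The twisted coboundary, restricted to visited vertices and edges. -/
noncomputable def D1 {A : Type w} [CommRing A] (S : Finset (List (X × Bool)))
    (α : FreeGroup X →* Equiv.Perm Ω) (ω₀ : Ω) (ρ : FreeGroup X →* Aˣ) :
    (Vs S α ω₀ → A) →ₗ[A] (Es S α ω₀ → A) where
  toFun v e := cob ρ α (extZ _ v) e.1.1 e.1.2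
  map_add' v v' := by
    funext e
    simp only [cob, extZ_add, Pi.add_apply]
    ring
  map_smul' a v := by
    funext e
    simp only [cob, extZ_smul, Pi.smul_apply, smul_eq_mul, RingHom.id_apply]
    ring

/-- The second twisted coboundary, restricted to visited edges and to a set of cells. -/
noncomputable def D2 {A : Type w} [CommRing A] (S : Finset (List (X × Bool)))
    (α : FreeGroup X →* Equiv.Perm Ω) (ω₀ : Ω) (ρ : FreeGroup X →* Aˣ)
    (R : List (X × Bool)) (C : Finset Ω) :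
    (Es S α ω₀ → A) →ₗ[A] (C → A) where
  toFun g c := tw ρ α (fun x ω => extZ _ g (x, ω)) R c.1
  map_add' g g' := by
    funext c
    rw [extZ_add]
    exact tw_add ρ α (fun x ω => extZ _ g (x, ω)) (fun x ω => extZ _ g' (x, ω)) R c.1
  map_smul' a g := by
    funext c
    rw [extZ_smul]
    exact tw_smul ρ α a (fun x ω => extZ _ g (x, ω)) R c.1

lemma D1_injective {k : Type w} [Field k] (hS : ∀ p L, p :: L ∈ S → L ∈ S)
    (ρ : FreeGroup X →* kˣ) (cw : List (X × Bool)) (hcS : cw ∈ S)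
    (hc : α (mk cw) ω₀ = ω₀) (hρ : ρ (mk cw) ≠ 1) :
    Function.Injective (D1 S α ω₀ ρ) := by
  rw [injective_iff_map_eq_zero]
  intro v hv
  set h := extZ (Vs S α ω₀) v with hh
  have hedge : ∀ x ω, (x, ω) ∈ Es S α ω₀ → (ρ (of x) : k) * h (α (of x) ω) = h ω := by
    intro x ω hx
    have := congrFun hv ⟨(x, ω), hx⟩
    simp only [D1, LinearMap.coe_mk, AddHom.coe_mk, cob, Pi.zero_apply] at this
    exact sub_eq_zero.mp this
  have hpath : ∀ L ∈ S, (ρ (mk L) : k) * h (α (mk L) ω₀) = h ω₀ := by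
    intro L
    induction L with
    | nil =>
      intro _
      have h1 : (mk [] : FreeGroup X) = 1 := rfl
      simp [h1]
    | cons p M ih =>
      intro hL
      have ihM := ih (hS _ _ hL)
      obtain ⟨x, b⟩ := p
      cases b
      · have e1 := hedge _ _ (mem_Es_false hL)
        rw [act_false] at e1
        rw [← e1]
        rw [mk_cons, mk_false, map_mul, map_inv, Units.val_mul]
        have e2 : (((ρ (of x))⁻¹ : kˣ) : k) * (ρ (of x) : k) = 1 := by simp
        rw [← ihM]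
        linear_combination ((ρ (mk M) : k) * h (α (mk M) ω₀)) * e2
      · have e1 := hedge _ _ (mem_Es_true hL)
        rw [act_true, mk_cons, mk_true, map_mul, Units.val_mul, ← ihM, ← e1]
        ring
  have h0 : h ω₀ = 0 := by
    have := hpath cw hcS
    rw [hc] at this
    have h2 : ((ρ (mk cw) : k) - 1) * h ω₀ = 0 := by linear_combination this
    rcases mul_eq_zero.mp h2 with h3 | h3
    · exact absurd (Units.ext (by simpa using sub_eq_zero.mp h3)) hρ
    · exact h3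
  funext q
  obtain ⟨ω, hω⟩ := q
  obtain ⟨L, hL, rfl⟩ := Vs_cases hω
  have e1 := hpath L hL
  rw [h0] at e1
  have e2 : h (α (mk L) ω₀) = 0 := by
    rcases mul_eq_zero.mp e1 with h3 | h3
    · exact absurd h3 (Units.ne_zero _)
    · exact h3
  rw [hh, extZ_mem _ _ _ hω] at e2
  exact e2

lemma D2_D1 {A : Type w} [CommRing A] (hS : ∀ p L, p :: L ∈ S → L ∈ S)
    (ρ : FreeGroup X →* Aˣ) {R : List (X × Bool)} (hρR : ρ (mk R) = 1)
    (C : Finset Ω) (hC : ∀ ω ∈ C, ∃ G, R ++ G ∈ S ∧ α (mk G) ω₀ = ω)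
    (hfix : ∀ ω ∈ C, α (mk R) ω = ω) (v : Vs S α ω₀ → A) :
    D2 S α ω₀ ρ R C (D1 S α ω₀ ρ v) = 0 := by
  funext c
  obtain ⟨ω, hω⟩ := c
  obtain ⟨G, hG, rfl⟩ := hC ω hω
  simp only [D2, LinearMap.coe_mk, AddHom.coe_mk, Pi.zero_apply]
  rw [tw_local hS ρ hG _ (cob ρ α (extZ _ v)), tw_cob, hfix _ hω, hρR]
  · simp
  · intro x ω' hx
    rw [extZ_mem _ _ _ hx]
    rfl

lemma D2_surjective {k : Type w} [Field k] (hS : ∀ p L, p :: L ∈ S → L ∈ S)
    (ρ : FreeGroup X →* kˣ) {R : List (X × Bool)}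
    (C : Finset Ω) (hC : ∀ ω ∈ C, ∃ G, R ++ G ∈ S ∧ α (mk G) ω₀ = ω)
    (hs : ∀ τ : Ω → k, ∃ f : X → Ω → k, ∀ ω ∈ C, tw ρ α f R ω = τ ω) :
    Function.Surjective (D2 S α ω₀ ρ R C) := by
  intro τ
  obtain ⟨f, hf⟩ := hs (extZ C τ)
  refine ⟨fun e => f e.1.1 e.1.2, ?_⟩
  funext c
  obtain ⟨ω, hω⟩ := c
  obtain ⟨G, hG, rfl⟩ := hC ω hω
  simp only [D2, LinearMap.coe_mk, AddHom.coe_mk]
  rw [tw_local hS ρ hG _ f, hf _ hω, extZ_mem _ _ _ hω]
  intro x ω' hx
  rw [extZ_mem _ _ _ hx]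

/-- Existence of an integral cocycle which is not a coboundary. -/
lemma exists_cocycle {k : Type w} [Field k] (hS : ∀ p L, p :: L ∈ S → L ∈ S)
    (ρ : FreeGroup X →* kˣ) {R : List (X × Bool)} (hρR : ρ (mk R) = 1)
    (cw : List (X × Bool)) (hcS : cw ∈ S)
    (hc : α (mk cw) ω₀ = ω₀) (hρ : ρ (mk cw) ≠ 1)
    (C : Finset Ω) (hC : ∀ ω ∈ C, ∃ G, R ++ G ∈ S ∧ α (mk G) ω₀ = ω)
    (hfix : ∀ ω ∈ C, α (mk R) ω = ω)
    (hs : ∀ τ : Ω → k, ∃ f : X → Ω → k, ∀ ω ∈ C, tw ρ α f R ω = τ ω) :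
    ∃ f : X → Ω → ℤ, (∀ ω ∈ C, tw 1 α f R ω = 0) ∧
      ¬ ∃ h : Ω → ℤ, ∀ x ω, (x, ω) ∈ Es S α ω₀ → f x ω = h (α (of x) ω) - h ω := by
  have hcount := count_le (D1 S α ω₀ ρ) (D2 S α ω₀ ρ R C)
    (D1_injective hS ρ cw hcS hc hρ) (D2_surjective hS ρ C hC hs)
    (D2_D1 hS ρ hρR C hC hfix)
  have hnil : ([] : List (X × Bool)) ∈ S := suffix_mem hS (List.nil_suffix) hcS
  have hω₀ : ω₀ ∈ Vs S α ω₀ := by
    have := mem_Vs (α := α) (ω₀ := ω₀) hnil
    have h1 : (mk [] : FreeGroup X) = 1 := rfl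
    simpa [h1] using this
  obtain ⟨g, hg0, hg1⟩ := exists_kernel (D1 S α ω₀ (1 : FreeGroup X →* ℚˣ))
    (D2 S α ω₀ (1 : FreeGroup X →* ℚˣ) R C) (fun _ => 1)
    (fun h => one_ne_zero (congrFun h ⟨ω₀, hω₀⟩)) (by
      funext e
      obtain ⟨⟨x, ω⟩, he⟩ := e
      obtain ⟨h1, h2⟩ := Es_endpoints hS he
      simp only [D1, LinearMap.coe_mk, AddHom.coe_mk, cob, Pi.zero_apply]
      rw [extZ_mem _ _ _ h1, extZ_mem _ _ _ h2]
      simp) hcount
  obtain ⟨N, F, hN, hF⟩ := clear_denoms g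
  refine ⟨fun x ω => extZ _ F (x, ω), ?_, ?_⟩
  · intro ω hω
    have h1 := congrFun hg0 ⟨ω, hω⟩
    simp only [D2, LinearMap.coe_mk, AddHom.coe_mk, Pi.zero_apply] at h1
    have h2 : ∀ (L : List (X × Bool)) (ω : Ω),
        ((tw 1 α (fun x ω => extZ _ F (x, ω)) L ω : ℤ) : ℚ) =
          tw 1 α (fun x ω => (N : ℚ) * extZ _ g (x, ω)) L ω := by
      intro L ω
      have hcast : ∀ q, ((extZ _ F q : ℤ) : ℚ) = (N : ℚ) * extZ _ g q := by
        intro q
        unfold extZ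
        split_ifs with hq
        · exact hF _
        · simp
      induction L with
      | nil => simp [tw]
      | cons p L ih =>
        rw [tw, tw]
        push_cast
        rw [ih]
        congr 1
        obtain ⟨x, b⟩ := p
        cases b
        · simp [stepv, hcast]
        · simp [stepv, hcast]
    have h3 : tw 1 α (fun x ω => (N : ℚ) * extZ _ g (x, ω)) R ω = 0 := by
      have := tw_smul 1 α (N : ℚ) (fun x ω => extZ _ g (x, ω)) R ω
      rw [h1, mul_zero] at this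
      exact this
    have h4 := h2 R ω
    rw [h3] at h4
    exact_mod_cast h4
  · rintro ⟨h, hh⟩
    apply hg1 (fun q => (h q.1 : ℚ) / N)
    funext e
    obtain ⟨⟨x, ω⟩, he⟩ := e
    obtain ⟨h1, h2⟩ := Es_endpoints hS he
    simp only [D1, LinearMap.coe_mk, AddHom.coe_mk, cob]
    rw [extZ_mem _ _ _ h1, extZ_mem _ _ _ h2]
    have h3 : extZ (Es S α ω₀) F (x, ω) = h (α (of x) ω) - h ω := hh x ω he
    rw [extZ_mem _ _ _ he] at h3
    have h4 := hF ⟨(x, ω), he⟩
    rw [h3] at h4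
    have hN' : (N : ℚ) ≠ 0 := by exact_mod_cast hN
    push_cast at h4
    simp only [MonoidHom.one_apply, Units.val_one, one_mul]
    field_simp
    linarith

end Stage

end Pool.Agent.Helper246.Tower
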