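import Mathlib
import Pool.Agent.Helper246.Tower3

/-!
# The torsion theorem
-/

namespace Pool.Agent.Helper246.Tower

universe u v w

open FreeGroup (of mk)

section Step

variable {X : Type u} {Ω : Type v}

lemma card_Vs_cover (S : Finset (List (X × Bool))) (hS : ∀ p L, p :: L ∈ S → L ∈ S)
    (α : FreeGroup X →* Equiv.Perm Ω) (ω₀ : Ω) (φ : X → Ω → ℤ)
    (hφ : ¬ ∃ h : Ω → ℤ, ∀ x ω, (x, ω) ∈ Es S α ω₀ → φ x ω = h (α (of x) ω) - h ω) :
    (Vs S α ω₀).card < (Vs S (skew α φ) (ω₀, 0)).card := by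
  classical
  have himg : (Vs S (skew α φ) (ω₀, 0)).image Prod.fst = Vs S α ω₀ := by
    ext ω
    rw [Finset.mem_image]
    constructor
    · rintro ⟨q, hq, rfl⟩
      obtain ⟨L, hL, rfl⟩ := Vs_cases hq
      rw [skew_fst]
      exact mem_Vs hL
    · intro hω
      obtain ⟨L, hL, rfl⟩ := Vs_cases hω
      exact ⟨_, mem_Vs hL, by rw [skew_fst]⟩
  by_contra hlt
  push Not at hlt
  have hinj : Set.InjOn Prod.fst (Vs S (skew α φ) (ω₀, 0) : Set (Ω × ℤ)) := by
    apply Finset.injOn_of_card_image_eq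
    rw [himg]
    refine le_antisymm ?_ hlt
    rw [← himg]
    exact Finset.card_image_le
  apply hφ
  have hex : ∀ ω : Ω, ∃ m : ℤ, ω ∈ Vs S α ω₀ → (ω, m) ∈ Vs S (skew α φ) (ω₀, 0) := by
    intro ω
    by_cases hω : ω ∈ Vs S α ω₀
    · rw [← himg, Finset.mem_image] at hω
      obtain ⟨⟨ω', m⟩, hq, rfl⟩ := hω
      exact ⟨m, fun _ => hq⟩
    · exact ⟨0, fun h => absurd h hω⟩
  choose h hh using hex
  have key : ∀ L ∈ S, skew α φ (mk L) (ω₀, 0) = (α (mk L) ω₀, h (α (mk L) ω₀)) := by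
    intro L hL
    apply hinj (mem_Vs hL) (hh _ (mem_Vs hL))
    rw [skew_fst]
  refine ⟨h, fun x ω hx => ?_⟩
  obtain ⟨y, M, ⟨hM, he⟩ | ⟨hM, he⟩⟩ := Es_cases hx
  · obtain ⟨rfl, rfl⟩ := Prod.mk.inj he
    have e1 := key _ (hS _ _ hM)
    have e2 := key _ hM
    rw [act_true, act_true, e1, skew_of] at e2
    have e3 := congrArg Prod.snd e2
    simp only at e3
    linarith
  · obtain ⟨rfl, rfl⟩ := Prod.mk.inj he
    have e1 := key _ (hS _ _ hM)
    have e2 := key _ hM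
    rw [← act_false, e2, skew_of, act_false] at e1
    have e3 := congrArg Prod.snd e1
    simp only at e3
    rw [act_false]
    linarith

end Step

section Main

variable {X : Type u} {k : Type w} [Field k]

/-- There is a stage of the tower with at least `n` visited vertices. -/
def HasStage (ρ : FreeGroup X →* kˣ) (S P : Finset (List (X × Bool)))
    (R cw : List (X × Bool)) (n : ℕ) : Prop :=
  ∃ (Ω : Type) (α : FreeGroup X →* Equiv.Perm Ω) (ω₀ : Ω),
    α (mk cw) ω₀ = ω₀ ∧ (∀ G ∈ P, α (mk R) (α (mk G) ω₀) = α (mk G) ω₀) ∧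
    (∀ τ : Ω → k, ∃ f : X → Ω → k, ∀ G ∈ P,
      tw ρ α f R (α (mk G) ω₀) = τ (α (mk G) ω₀)) ∧
    n ≤ (Vs S α ω₀).card

lemma hasStage_succ (ρ : FreeGroup X →* kˣ) (S P : Finset (List (X × Bool)))
    (R cw : List (X × Bool)) (hS : ∀ p L, p :: L ∈ S → L ∈ S) (hcS : cw ∈ S)
    (hPS : ∀ G ∈ P, R ++ G ∈ S) (hρR : ρ (mk R) = 1) (hρ : ρ (mk cw) ≠ 1)
    (N : ℕ) (hN : N ≠ 0)
    (hcN : (mk cw : FreeGroup X) ^ N ∈
      Subgroup.closure ((fun G : List (X × Bool) => (mk G)⁻¹ * mk R * mk G) '' (P : Set _)))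
    (n : ℕ) (h : HasStage ρ S P R cw n) : HasStage ρ S P R cw (n + 1) := by
  classical
  obtain ⟨Ω, α, ω₀, hc, hfix, hs, hn⟩ := h
  set C : Finset Ω := P.image (fun G => α (mk G) ω₀) with hC
  have hCmem : ∀ ω ∈ C, ∃ G ∈ P, α (mk G) ω₀ = ω := by
    intro ω hω
    rw [hC, Finset.mem_image] at hω
    exact hω
  have hsC : ∀ τ : Ω → k, ∃ f : X → Ω → k, ∀ ω ∈ C, tw ρ α f R ω = τ ω := by
    intro τ
    obtain ⟨f, hf⟩ := hs τ
    refine ⟨f, fun ω hω => ?_⟩
    obtain ⟨G, hG, rfl⟩ := hCmem ω hω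
    exact hf G hG
  obtain ⟨φ, hφ0, hφ1⟩ := exists_cocycle hS ρ hρR cw hcS hc hρ C
    (fun ω hω => by
      obtain ⟨G, hG, rfl⟩ := hCmem ω hω
      exact ⟨G, hPS G hG, rfl⟩)
    (fun ω hω => by
      obtain ⟨G, hG, rfl⟩ := hCmem ω hω
      exact hfix G hG) hsC
  have hfix' : ∀ G ∈ P, skew α φ (mk R) (skew α φ (mk G) (ω₀, 0)) =
      skew α φ (mk G) (ω₀, 0) := by
    intro G hG
    rw [skew_mk, skew_mk, hfix G hG, hφ0 _ (Finset.mem_image_of_mem _ hG), add_zero]
  refine ⟨Ω × ℤ, skew α φ, (ω₀, 0), ?_, hfix', ?_, ?_⟩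
  · have h1 : skew α φ ((mk cw : FreeGroup X) ^ N) (ω₀, 0) = (ω₀, 0) := by
      refine Subgroup.closure_induction (p := fun g _ => skew α φ g (ω₀, 0) = (ω₀, 0))
        ?_ ?_ ?_ ?_ hcN
      · rintro _ ⟨G, hG, rfl⟩
        rw [map_mul, map_mul, map_inv, Equiv.Perm.mul_apply, Equiv.Perm.mul_apply, hfix' G hG]
        simp
      · simp
      · intro x y _ _ hx hy
        rw [map_mul, Equiv.Perm.mul_apply, hy, hx]
      · intro x _ hx
        rw [map_inv, Equiv.Perm.inv_eq_iff_eq, hx]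
    have h2 : skew α φ (mk cw) (ω₀, 0) = (ω₀, tw 1 α φ cw ω₀) := by
      rw [skew_mk, hc, zero_add]
    set m := tw 1 α φ cw ω₀ with hm
    have h3 : ∀ j : ℕ, skew α φ ((mk cw : FreeGroup X) ^ j) (ω₀, 0) = (ω₀, j * m) := by
      intro j
      induction j with
      | zero => simp
      | succ j ih =>
        rw [pow_succ', map_mul, Equiv.Perm.mul_apply, ih]
        have := skew_shift α φ (mk cw) ω₀ 0 (j * m)
        rw [h2, zero_add] at this
        rw [this]
        ext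
        · rfl
        · push_cast; ring
    rw [h3 N] at h1
    have h4 : (N : ℤ) * m = 0 := congrArg Prod.snd h1
    have h5 : m = 0 := by
      rcases mul_eq_zero.mp h4 with h6 | h6
      · exact absurd (by exact_mod_cast h6) hN
      · exact h6
    rw [h2, h5]
  · intro τ
    obtain ⟨f, hf⟩ := surj_cover ρ α φ R (C : Set Ω) (fun τ => by
        obtain ⟨f, hf⟩ := hsC τ
        exact ⟨f, fun ω hω => hf ω (by exact_mod_cast hω)⟩)
      ((fun G : List (X × Bool) => skew α φ (mk G) (ω₀, 0)) '' (P : Set _))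
      (P.finite_toSet.image _) (by
        rintro _ ⟨G, hG, rfl⟩
        simp only
        rw [skew_fst]
        exact_mod_cast Finset.mem_image_of_mem _ hG) τ
    exact ⟨f, fun G hG => hf _ ⟨G, hG, rfl⟩⟩
  · exact lt_of_le_of_lt hn (card_Vs_cover S hS α ω₀ φ hφ1)

/-- Membership in the subgroup generated by finitely many conjugates of `r`. -/
def FinConj (r x : FreeGroup X) : Prop :=
  ∃ P : Finset (List (X × Bool)),
    x ∈ Subgroup.closure ((fun G : List (X × Bool) => (mk G)⁻¹ * r * mk G) '' (P : Set _))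

lemma exists_finset_conj (r x : FreeGroup X) (hx : x ∈ Subgroup.normalClosure {r}) :
    FinConj r x := by
  classical
  have hx' : x ∈ Subgroup.closure (Group.conjugatesOfSet {r}) := hx
  induction hx' using Subgroup.closure_induction with
  | mem y hy =>
    rw [Group.mem_conjugatesOfSet_iff] at hy
    obtain ⟨a, ha, hay⟩ := hy
    rw [Set.mem_singleton_iff] at ha
    subst ha
    obtain ⟨c, rfl⟩ := isConj_iff.mp hay
    obtain ⟨G, hG⟩ := exists_mk c⁻¹
    refine ⟨{G}, Subgroup.subset_closure ⟨G, by simp, ?_⟩⟩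
    simp only
    rw [hG, inv_inv]
  | one => exact ⟨∅, Subgroup.one_mem _⟩
  | mul y z hy hz ihy ihz =>
    obtain ⟨P, hP⟩ := ihy hy
    obtain ⟨Q, hQ⟩ := ihz hz
    refine ⟨P ∪ Q, Subgroup.mul_mem _ ?_ ?_⟩
    · refine Subgroup.closure_mono (Set.image_mono ?_) hP
      rw [Finset.coe_union]
      exact Set.subset_union_left
    · refine Subgroup.closure_mono (Set.image_mono ?_) hQ
      rw [Finset.coe_union]
      exact Set.subset_union_right
  | inv y hy ihy =>
    obtain ⟨P, hP⟩ := ihy hy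
    exact ⟨P, Subgroup.inv_mem _ hP⟩

/-- **Torsion theorem.**  If the twisted Fox derivative of the relator is nonzero at `ρ`, then
every element of finite order of the one-relator group lies in the kernel of `ρ`. -/
theorem torsion_in_ker (ρ : FreeGroup X →* kˣ) (R cw : List (X × Bool)) (hρR : ρ (mk R) = 1)
    (f₀ : X → Unit → k) (hf₀ : tw ρ 1 f₀ R () ≠ 0) (N : ℕ) (hN : N ≠ 0)
    (hcN : (mk cw : FreeGroup X) ^ N ∈ Subgroup.normalClosure {mk R}) : ρ (mk cw) = 1 := by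
  classical
  by_contra hρ
  obtain ⟨P, hP⟩ := exists_finset_conj _ _ hcN
  set S : Finset (List (X × Bool)) :=
    (insert cw (P.image (fun G => R ++ G))).biUnion (fun L => L.tails.toFinset) with hSdef
  have hSmem : ∀ L, L ∈ S ↔ ∃ M, (M = cw ∨ ∃ G ∈ P, R ++ G = M) ∧ L <:+ M := by
    intro L
    simp [hSdef, Finset.mem_biUnion]
  have hS : ∀ p L, p :: L ∈ S → L ∈ S := by
    intro p L h
    rw [hSmem] at h ⊢
    obtain ⟨M, hM, hL⟩ := h
    exact ⟨M, hM, (List.suffix_cons p L).trans hL⟩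
  have hcS : cw ∈ S := by
    rw [hSmem]
    exact ⟨cw, Or.inl rfl, List.suffix_rfl⟩
  have hPS : ∀ G ∈ P, R ++ G ∈ S := by
    intro G hG
    rw [hSmem]
    exact ⟨_, Or.inr ⟨G, hG, rfl⟩, List.suffix_rfl⟩
  have hall : ∀ n, HasStage ρ S P R cw n := by
    intro n
    induction n with
    | zero =>
      refine ⟨Unit, 1, (), by simp, fun G _ => by simp, fun τ => ?_, Nat.zero_le _⟩
      refine ⟨(τ () / tw ρ 1 f₀ R ()) • f₀, fun G _ => ?_⟩
      rw [tw_smul]
      have : (1 : FreeGroup X →* Equiv.Perm Unit) (mk G) () = () := rfl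
      rw [this]
      field_simp
    | succ n ih => exact hasStage_succ ρ S P R cw hS hcS hPS hρR hρ N hN hP n ih
  obtain ⟨Ω, α, ω₀, _, _, _, hcard⟩ := hall (S.card + 1)
  have : (Vs S α ω₀).card ≤ S.card := by
    unfold Vs
    exact Finset.card_image_le
  omega

end Main

end Pool.Agent.Helper246.Tower
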