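import Mathlib
import Pool.Agent.Helper246.Tower4

/-!
# A criterion for not being a one-relator group
-/

namespace Pool.Agent.Helper246.NotOneRel

universe u v w

open FreeGroup (of mk)
open Pool.Agent.Helper246.Tower

section Aff

variable {Y : Type v} {k : Type w} [Field k]

/-- The affine permutation `z ↦ u⁻¹ (z + d)`. -/
def affPerm (u : kˣ) (d : k) : Equiv.Perm k where
  toFun z := (u⁻¹ : kˣ) * (z + d)
  invFun z := u * z - d
  left_inv z := by
    have : (u : k) * ((u⁻¹ : kˣ) : k) = 1 := by simp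
    simp only
    linear_combination (z + d) * this
  right_inv z := by
    have : ((u⁻¹ : kˣ) : k) * (u : k) = 1 := by simp
    simp only
    linear_combination z * this

/-- The affine action attached to a one-cochain. -/
def aff (ρ : FreeGroup Y →* kˣ) (f : Y → k) : FreeGroup Y →* Equiv.Perm k :=
  FreeGroup.lift (fun y => affPerm (ρ (of y)) (f y))

lemma aff_of (ρ : FreeGroup Y →* kˣ) (f : Y → k) (y : Y) (z : k) :
    aff ρ f (of y) z = ((ρ (of y))⁻¹ : kˣ) * (z + f y) := by
  simp [aff, affPerm]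

lemma aff_mk (ρ : FreeGroup Y →* kˣ) (f : Y → k) (L : List (Y × Bool)) (z : k) :
    aff ρ f (mk L) z = ((ρ (mk L))⁻¹ : kˣ) * (z + tw ρ 1 (fun y (_ : Unit) => f y) L ()) := by
  induction L with
  | nil =>
    have h1 : (mk [] : FreeGroup Y) = 1 := rfl
    simp [tw, h1]
  | cons p L ih =>
    have hα : aff ρ f (mk [p] * mk L) z = aff ρ f (mk [p]) (aff ρ f (mk L) z) := by
      rw [(aff ρ f).map_mul]; rfl
    have hρ : ρ (mk [p] * mk L) = ρ (mk [p]) * ρ (mk L) := ρ.map_mul _ _
    rw [mk_cons p L, hα, hρ, ih, tw]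
    set M : kˣ := ρ (mk L) with hM
    set W := tw ρ 1 (fun y (_ : Unit) => f y) L () with hW
    have hM1 : ((M⁻¹ : kˣ) : k) * (M : k) = 1 := by simp
    obtain ⟨y, b⟩ := p
    cases b
    · rw [mk_false, (aff ρ f).map_inv, ρ.map_inv]
      have e1 : (aff ρ f (of y))⁻¹ (((M⁻¹ : kˣ) : k) * (z + W)) =
          (ρ (of y) : k) * (((M⁻¹ : kˣ) : k) * (z + W)) - f y := by
        rw [Equiv.Perm.inv_eq_iff_eq, aff_of]
        have : (((ρ (of y))⁻¹ : kˣ) : k) * (ρ (of y) : k) = 1 := by simp
        linear_combination (-(((M⁻¹ : kˣ) : k) * (z + W))) * this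
      rw [e1]
      simp only [stepv]
      rw [if_neg (by simp)]
      rw [mul_inv_rev, inv_inv, Units.val_mul]
      have e2 : (((ρ (of y))⁻¹ : kˣ) : k) * (ρ (of y) : k) = 1 := by simp
      linear_combination (f y * ((M⁻¹ : kˣ) : k) * (M : k)) * e2 + (f y) * hM1
    · rw [mk_true, aff_of]
      simp only [stepv, if_true]
      rw [mul_inv_rev, Units.val_mul]
      linear_combination (-(((ρ (of y))⁻¹ : kˣ) : k) * f y) * hM1

end Aff

section Criterion

lemma comm_of_subsingleton {Y : Type v} [Subsingleton Y] (x y : FreeGroup Y) :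
    x * y = y * x := by
  have hcl : ∀ w : FreeGroup Y, w ∈ Subgroup.closure (Set.range (FreeGroup.of (α := Y))) := by
    intro w
    rw [FreeGroup.closure_range_of]
    exact Subgroup.mem_top w
  rcases isEmpty_or_nonempty Y with hY | ⟨⟨y₀⟩⟩
  · exact Subsingleton.elim _ _
  · have hle : Subgroup.closure (Set.range (FreeGroup.of (α := Y))) ≤
        Subgroup.zpowers (FreeGroup.of y₀) := by
      rw [Subgroup.closure_le]
      rintro _ ⟨z, rfl⟩
      rw [Subsingleton.elim z y₀]
      exact Subgroup.mem_zpowers _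
    obtain ⟨m, rfl⟩ := Subgroup.mem_zpowers_iff.mp (hle (hcl x))
    obtain ⟨n, rfl⟩ := Subgroup.mem_zpowers_iff.mp (hle (hcl y))
    rw [← zpow_add, ← zpow_add, add_comm]

/-- A criterion for a group not to be a one-relator group. -/
theorem criterion {G : Type u} [Group G] {k : Type w} [Field k] (ρ : G →* kˣ) (a : G)
    (N : ℕ) (hN : N ≠ 0) (ha : a ^ N = 1) (hρa : ρ a ≠ 1)
    (hfix : ∀ B : G →* Equiv.Perm k,
      (∀ g, ∃ d : k, ∀ z, B g z = (((ρ g)⁻¹ : kˣ) : k) * (z + d)) → ∃ p, ∀ g, B g p = p)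
    (hnc : ∃ x y : G, x * y ≠ y * x) {Y : Type v} (s : FreeGroup Y)
    (e : G ≃* PresentedGroup ({s} : Set (FreeGroup Y))) : False := by
  classical
  set π : FreeGroup Y →* G := e.symm.toMonoidHom.comp (PresentedGroup.mk {s}) with hπ
  have hπs : Function.Surjective π := by
    intro g
    obtain ⟨w, hw⟩ := PresentedGroup.mk_surjective ({s} : Set (FreeGroup Y)) (e g)
    exact ⟨w, by simp [hπ, hw]⟩
  have hker : ∀ w, π w = 1 ↔ w ∈ Subgroup.normalClosure ({s} : Set (FreeGroup Y)) := by
    intro w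
    rw [hπ]
    simp only [MonoidHom.comp_apply]
    constructor
    · intro h
      have h2 : PresentedGroup.mk ({s} : Set (FreeGroup Y)) w = 1 := by
        apply e.symm.injective
        rw [map_one]
        exact h
      exact (QuotientGroup.eq_one_iff w).mp h2
    · intro h
      have h2 : PresentedGroup.mk ({s} : Set (FreeGroup Y)) w = 1 :=
        (QuotientGroup.eq_one_iff w).mpr h
      rw [h2]
      exact map_one _
  set ρ' : FreeGroup Y →* kˣ := ρ.comp π with hρ'
  obtain ⟨R, hR⟩ := exists_mk s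
  obtain ⟨w, hw⟩ := hπs a
  obtain ⟨cw, hcw⟩ := exists_mk w
  have hπR : π (mk R) = 1 := by
    rw [hker, hR]
    exact Subgroup.subset_normalClosure rfl
  have hρR : ρ' (mk R) = 1 := by
    rw [hρ', MonoidHom.comp_apply, hπR, map_one]
  have hcN : (mk cw : FreeGroup Y) ^ N ∈ Subgroup.normalClosure {mk R} := by
    rw [hR, ← hker, map_pow, hcw, hw, ha]
  have hρc : ρ' (mk cw) ≠ 1 := by
    rw [hρ', MonoidHom.comp_apply, hcw, hw]
    exact hρa
  have htw : ∀ f : Y → k, tw ρ' 1 (fun y (_ : Unit) => f y) R () = 0 := by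
    intro f
    by_contra hne
    exact hρc (torsion_in_ker ρ' R cw hρR _ hne N hN hcN)
  have hpt : ∀ f : Y → k, ∃ p : k, ∀ y, f y = ((ρ' (of y) : k) - 1) * p := by
    intro f
    have haffR : aff ρ' f (mk R) = 1 := by
      ext z
      rw [aff_mk, htw f, hρR]
      simp
    have hle : Subgroup.normalClosure ({s} : Set (FreeGroup Y)) ≤ (aff ρ' f).ker := by
      rw [← hR]
      apply Subgroup.normalClosure_le_normal
      intro z hz
      rw [Set.mem_singleton_iff] at hz
      rw [hz]
      exact haffR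
    have hle' : π.ker ≤ (aff ρ' f).ker := by
      intro z hz
      exact hle ((hker z).mp hz)
    obtain ⟨B, hB⟩ : ∃ B : G →* Equiv.Perm k, ∀ w, B (π w) = aff ρ' f w := by
      refine ⟨(QuotientGroup.lift π.ker (aff ρ' f) hle').comp
        (QuotientGroup.quotientKerEquivOfSurjective π hπs).symm.toMonoidHom, fun w => ?_⟩
      have h1 : (QuotientGroup.quotientKerEquivOfSurjective π hπs).symm (π w) =
          (QuotientGroup.mk w : FreeGroup Y ⧸ π.ker) := by
        rw [MulEquiv.symm_apply_eq]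
        rfl
      simp only [MonoidHom.comp_apply, MulEquiv.toMonoidHom_eq_coe, MonoidHom.coe_coe, h1]
      rfl
    obtain ⟨p, hp⟩ := hfix B (by
      intro g
      obtain ⟨w, rfl⟩ := hπs g
      obtain ⟨L, rfl⟩ := exists_mk w
      refine ⟨tw ρ' 1 (fun y (_ : Unit) => f y) L (), fun z => ?_⟩
      rw [hB, aff_mk]
      rfl)
    refine ⟨p, fun y => ?_⟩
    have h1 := hp (π (of y))
    rw [hB, aff_of] at h1
    have h2 : ((ρ' (of y) : kˣ) : k) * (((ρ' (of y))⁻¹ : kˣ) : k) = 1 := by simp
    linear_combination (ρ' (of y) : k) * h1 - (p + f y) * h2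
  have hsub : Subsingleton Y := by
    by_contra hns
    rw [not_subsingleton_iff_nontrivial] at hns
    obtain ⟨y₁, y₂, hy⟩ := hns.exists_pair_ne
    obtain ⟨p, hp⟩ := hpt (Pi.single y₂ 1)
    obtain ⟨q, hq⟩ := hpt (Pi.single y₁ 1)
    have e1 := hp y₁
    have e2 := hp y₂
    have e3 := hq y₁
    rw [Pi.single_eq_of_ne hy] at e1
    rw [Pi.single_eq_same] at e2 e3
    rcases mul_eq_zero.mp e1.symm with h | h
    · rw [h, zero_mul] at e3
      exact one_ne_zero e3
    · rw [h, mul_zero] at e2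
      exact one_ne_zero e2
  obtain ⟨x, y, hxy⟩ := hnc
  obtain ⟨x', rfl⟩ := hπs x
  obtain ⟨y', rfl⟩ := hπs y
  apply hxy
  rw [← map_mul, ← map_mul, comm_of_subsingleton]

end Criterion

end Pool.Agent.Helper246.NotOneRel
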