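import Mathlib

/-!
# The group computation behind the cyclic relation module
-/

namespace Pool.Agent.Helper246.RelCore

universe u

variable {Q : Type u} [Group Q]

theorem core (N : Subgroup Q) [hNn : N.Normal] (hN : ∀ m ∈ N, ∀ n ∈ N, m * n = n * m)
    (a t x y : Q) (hx : x = a ^ 2) (hy : y = t * a ^ 3 * t⁻¹) (hv : a ^ 6 ∈ N)
    (hc : x * y * x⁻¹ * y⁻¹ ∈ N)
    (hr : x * y * x⁻¹ * y⁻¹ = (x * (y * y) * x⁻¹) * a ^ 6 * (y * a ^ 6 * y⁻¹)⁻¹) :
    a ^ 6 = 1 ∧ x * y * x⁻¹ * y⁻¹ = 1 := by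
  obtain ⟨v, hvd⟩ : ∃ v, v = a ^ 6 := ⟨_, rfl⟩
  obtain ⟨w, hwd⟩ : ∃ w, w = y * y := ⟨_, rfl⟩
  obtain ⟨w', hw'd⟩ : ∃ w', w' = x * w * x⁻¹ := ⟨_, rfl⟩
  obtain ⟨u, hud⟩ : ∃ u, u = y * v * y⁻¹ := ⟨_, rfl⟩
  obtain ⟨c, hcd⟩ : ∃ c, c = x * y * x⁻¹ * y⁻¹ := ⟨_, rfl⟩
  rw [← hvd] at hv hr ⊢
  rw [← hwd] at hr
  rw [← hw'd, ← hud] at hr
  rw [← hcd] at hc hr ⊢
  have hw : w = t * v * t⁻¹ := by rw [hwd, hy, hvd]; group
  have hwN : w ∈ N := by rw [hw]; exact hNn.conj_mem _ hv _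
  have hw'N : w' ∈ N := by rw [hw'd]; exact hNn.conj_mem _ hwN _
  have huN : u ∈ N := by rw [hud]; exact hNn.conj_mem _ hv _
  have hxv : x * v * x⁻¹ = v := by rw [hx, hvd]; group
  have hyw : y * w * y⁻¹ = w := by rw [hwd]; group
  have hx3 : x * x * x = v := by rw [hx, hvd]; group
  have hyx : y * x = c⁻¹ * (x * y) := by rw [hcd]; group
  have hxy : x * y = c * (y * x) := by rw [hcd]; group
  have conj_triv : ∀ m ∈ N, ∀ n ∈ N, m * n * m⁻¹ = n := by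
    intro m hm n hn
    rw [hN m hm n hn]; group
  -- step 1
  have h1 : x * w * x⁻¹ * w⁻¹ = c * (y * c * y⁻¹) := by rw [hcd, hwd]; group
  have h2 : y * u * y⁻¹ = v := by
    have e1 : y * u * y⁻¹ = w * v * w⁻¹ := by rw [hud, hwd]; group
    rw [e1, conj_triv w hwN v hv]
  have h3 : y * w' * y⁻¹ = w' := by
    have e1 : y * w' * y⁻¹ = (y * x) * w * (y * x)⁻¹ := by rw [hw'd]; group
    have e2 : c⁻¹ * (x * y) * w * (c⁻¹ * (x * y))⁻¹ = c⁻¹ * (x * (y * w * y⁻¹) * x⁻¹) * c⁻¹⁻¹ := by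
      group
    rw [e1, hyx, e2, hyw, ← hw'd]
    exact conj_triv _ (N.inv_mem hc) _ hw'N
  have h4 : y * c * y⁻¹ = w' * u * v⁻¹ := by
    have e1 : y * c * y⁻¹ = (y * w' * y⁻¹) * (y * v * y⁻¹) * (y * u * y⁻¹)⁻¹ := by
      rw [hr]; group
    rw [e1, h3, h2, ← hud]
  have h5 : w' * w⁻¹ = w' * w' := by
    have e1 : x * w * x⁻¹ * w⁻¹ = w' * v * u⁻¹ * (w' * u * v⁻¹) := by
      rw [h1, h4, hr]
    rw [← hw'd] at e1
    rw [e1]
    have e2 : v * u⁻¹ * (w' * u * v⁻¹) = w' := by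
      have e3 : v * u⁻¹ * (w' * u * v⁻¹) = (v * u⁻¹) * w' * (v * u⁻¹)⁻¹ := by group
      rw [e3]
      exact conj_triv _ (N.mul_mem hv (N.inv_mem huN)) _ hw'N
    calc w' * v * u⁻¹ * (w' * u * v⁻¹) = w' * (v * u⁻¹ * (w' * u * v⁻¹)) := by group
      _ = w' * w' := by rw [e2]
  have h6 : w' = w⁻¹ := (mul_left_cancel h5).symm
  have h7 : x * w * x⁻¹ = w⁻¹ := by rw [← hw'd, h6]
  -- step 2
  have h8 : w * w = 1 := by
    have e1 : v * w * v⁻¹ = w := conj_triv _ hv _ hwN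
    have e2 : v * w * v⁻¹ = w⁻¹ := by
      rw [← hx3]
      have e3 : x * x * x * w * (x * x * x)⁻¹ = x * (x * (x * w * x⁻¹) * x⁻¹) * x⁻¹ := by group
      have e4 : x * w⁻¹ * x⁻¹ = w := by
        have : x * w⁻¹ * x⁻¹ = (x * w * x⁻¹)⁻¹ := by group
        rw [this, h7, inv_inv]
      rw [e3, h7, e4, h7]
    rw [e1] at e2
    calc w * w = w * w⁻¹ := by rw [← e2]
      _ = 1 := mul_inv_cancel w
  have hwinv : w⁻¹ = w := by
    rw [inv_eq_iff_mul_eq_one]; exact h8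
  have hw'w : w' = w := by rw [h6, hwinv]
  -- step 3
  have h9 : v * v = 1 := by
    have e1 : w * w = t * (v * v) * t⁻¹ := by rw [hw]; group
    rw [h8] at e1
    have e2 : v * v = t⁻¹ * (t * (v * v) * t⁻¹) * t := by group
    rw [e2, ← e1]; group
  have h10 : u * u = 1 := by
    have e1 : u * u = y * (v * v) * y⁻¹ := by rw [hud]; group
    rw [e1, h9]; group
  -- step 4
  have hc' : c = w * v * u⁻¹ := by rw [hr, hw'w]
  have hxu : x * u * x⁻¹ = u := by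
    have e1 : x * u * x⁻¹ = (x * y) * v * (x * y)⁻¹ := by rw [hud]; group
    have e2 : c * (y * x) * v * (c * (y * x))⁻¹ = c * (y * (x * v * x⁻¹) * y⁻¹) * c⁻¹ := by group
    rw [e1, hxy, e2, hxv, ← hud]
    exact conj_triv _ hc _ huN
  have hxc : x * c * x⁻¹ = c := by
    have e1 : x * c * x⁻¹ = (x * w * x⁻¹) * (x * v * x⁻¹) * (x * u * x⁻¹)⁻¹ := by
      rw [hc']; group
    rw [e1, h7, hwinv, hxv, hxu, ← hc']
  have h11 : c * c * c = v * u⁻¹ := by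
    have e1 : (x * (x * c * x⁻¹) * x⁻¹) * (x * c * x⁻¹) * c = (x * x * x) * (y * (x * x * x) * y⁻¹)⁻¹ := by
      rw [hcd]; group
    rw [hxc, hxc, hx3, ← hud] at e1
    exact e1
  have huinv : u⁻¹ = u := by rw [inv_eq_iff_mul_eq_one]; exact h10
  have hcc : c * c = 1 := by
    have hwv := hN w hwN v hv
    have hwu := hN w hwN u huN
    have hvu := hN v hv u huN
    rw [hc', huinv]
    calc w * v * u * (w * v * u) = w * v * (u * w) * v * u := by group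
      _ = w * v * (w * u) * v * u := by rw [hwu]
      _ = w * (v * w) * (u * v) * u := by group
      _ = w * (w * v) * (v * u) * u := by rw [hwv, hvu]
      _ = (w * w) * (v * v) * (u * u) := by group
      _ = 1 := by rw [h8, h9, h10]; group
  have hw1 : w = 1 := by
    rw [hcc, one_mul] at h11
    rw [hc', mul_assoc] at h11
    exact mul_eq_right.mp h11
  have hv1 : v = 1 := by
    have e2 : v = t⁻¹ * (t * v * t⁻¹) * t := by group
    rw [e2, ← hw, hw1]; group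
  have hu1 : u = 1 := by rw [hud, hv1]; group
  exact ⟨hv1, by rw [hc', hw1, hv1, hu1]; group⟩

end Pool.Agent.Helper246.RelCore
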